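import Pool.Agent.HS.CombBase

/-!
# The family `JN A g h N`
(namespace `CombJ`)
-/

namespace Pool.Agent.HS

namespace CombJ

open Recip CombBase

variable {A : Finset ℕ} {w g h : ℕ}

theorem mem_JN {N α : ℕ} : α ∈ JN A g h N ↔
    α ∈ QN A N ∧ ∃ t, 1 ≤ t ∧ ∃ β ∈ QN A (N + h * t), β + t * g = α := by
  simp only [JN, Finset.mem_filter]

theorem JN_sub (N : ℕ) : JN A g h N ⊆ QN A N := fun _ hα => (mem_JN.mp hα).1

/-- (J1) -/
theorem JN_add {N α a : ℕ} (hα : α ∈ JN A g h N) (ha : a ∈ A) : α + a ∈ JN A g h (N + 1) := by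
  rw [mem_JN] at hα ⊢
  obtain ⟨h1, t, ht, β, hβ, rfl⟩ := hα
  refine ⟨QN_add h1 ha, t, ht, β + a, ?_, by ring⟩
  have := QN_add hβ ha
  rw [show N + 1 + h * t = N + h * t + 1 by ring]
  exact this

theorem JN_add_QN : ∀ {m N α γ : ℕ}, α ∈ JN A g h N → γ ∈ QN A m →
    α + γ ∈ JN A g h (N + m) := by
  intro m
  induction m with
  | zero =>
    intro N α γ hα hγ
    have : γ = 0 := by simpa [QN] using hγ
    subst this
    simpa using hα
  | succ m ih =>
    intro N α γ hα hγ
    obtain ⟨δ, hδ, a, ha, rfl⟩ := Finset.mem_image₂.mp hγ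
    have := JN_add (ih hα hδ) ha
    show α + (δ + a) ∈ JN A g h (N + m + 1)
    rw [← add_assoc]
    exact this

theorem JN_mono_succ (hA : GoodA A w) (N : ℕ) : JN A g h N ⊆ JN A g h (N + 1) := by
  intro α hα
  simpa using JN_add hα hA.h0

theorem JN_mono (hA : GoodA A w) {N M : ℕ} (hNM : N ≤ M) : JN A g h N ⊆ JN A g h M :=
  monotone_nat_of_le_succ (JN_mono_succ hA) hNM

/-- (J2) -/
theorem JN_ge {N α : ℕ} (hα : α ∈ JN A g h N) : g ≤ α := by
  obtain ⟨_, t, ht, β, _, rfl⟩ := mem_JN.mp hα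
  nlinarith

theorem JN_zero (hg : 0 < g) : JN A g h 0 = ∅ := by
  rw [Finset.eq_empty_iff_forall_notMem]
  intro α hα
  have h1 := JN_ge hα
  have h2 : α = 0 := by simpa [QN] using JN_sub 0 hα
  omega

/-- (J3) -/
theorem card_sdiff_le (hA : GoodA A w) (hg : 0 < g) (N : ℕ) :
    (QN A N \ JN A g h N).card ≤ g := by
  have := Finset.card_le_card_of_injOn (s := QN A N \ JN A g h N) (t := Finset.range g)
    (fun x => x % g) (by
      intro x _
      exact Finset.mem_coe.mpr (Finset.mem_range.mpr (Nat.mod_lt _ hg)))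
    (by
      have key : ∀ x ∈ QN A N, ∀ y ∈ QN A N \ JN A g h N, x % g = y % g → y ≤ x := by
        intro x hx y hy hxy
        rw [Finset.mem_sdiff] at hy
        by_contra hlt
        push Not at hlt
        have hdvd : g ∣ y - x := (Nat.modEq_iff_dvd' hlt.le).mp hxy
        obtain ⟨t, ht⟩ := hdvd
        have htpos : 1 ≤ t := by
          rcases Nat.eq_zero_or_pos t with h0 | h0
          · subst h0; omega
          · exact h0
        exact hy.2 (mem_JN.mpr ⟨hy.1, t, htpos, x, QN_mono hA (Nat.le_add_right _ _) hx, by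
          rw [mul_comm t g]; omega⟩)
      intro x hx y hy hxy
      rw [Finset.mem_coe] at hx hy
      exact le_antisymm (key y (Finset.mem_sdiff.mp hy).1 x hx hxy.symm)
        (key x (Finset.mem_sdiff.mp hx).1 y hy hxy))
  simpa using this

/-- (J4) -/
theorem exists_card_sdiff_ge (hA : GoodA A w) (hg : 0 < g) (h : ℕ) :
    ∃ N0, ∀ N, N0 ≤ N → g ≤ (QN A N \ JN A g h N).card := by
  classical
  obtain ⟨L, hL⟩ := exists_large hA
  -- for each class, a minimal element of the semigroup
  have hex : ∀ c : ℕ, c < g → ∃ m, m % g = c ∧ (∃ n, m ∈ QN A n) ∧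
      ∀ m', m' % g = c → (∃ n, m' ∈ QN A n) → m ≤ m' := by
    intro c hc
    have hne : ∃ m, m % g = c ∧ ∃ n, m ∈ QN A n := by
      refine ⟨c + L * g, ?_, hL _ (by nlinarith)⟩
      rw [Nat.add_mul_mod_self_right, Nat.mod_eq_of_lt hc]
    refine ⟨Nat.find hne, (Nat.find_spec hne).1, (Nat.find_spec hne).2, ?_⟩
    intro m' h1 h2
    exact Nat.find_min' hne ⟨h1, h2⟩
  choose! m hmod hmem hmin using hex
  choose! nn hnn using hmem
  refine ⟨(Finset.range g).sup nn, fun N hN => ?_⟩
  have hinj : Set.InjOn m (Finset.range g : Set ℕ) := by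
    intro c hc c' hc' heq
    rw [Finset.mem_coe, Finset.mem_range] at hc hc'
    rw [← hmod c hc, ← hmod c' hc', heq]
  have hsub : (Finset.range g).image m ⊆ QN A N \ JN A g h N := by
    intro x hx
    obtain ⟨c, hc, rfl⟩ := Finset.mem_image.mp hx
    have hcN : nn c ≤ N := (Finset.le_sup (f := nn) hc).trans hN
    rw [Finset.mem_range] at hc
    rw [Finset.mem_sdiff]
    refine ⟨QN_mono hA hcN (hnn c hc), fun hJ => ?_⟩
    obtain ⟨_, t, ht, β, hβ, heq⟩ := mem_JN.mp hJ
    have h1 : β % g = c := by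
      rw [← hmod c hc, ← heq, Nat.add_mul_mod_self_right]
    have h2 := hmin c hc β h1 ⟨_, hβ⟩
    nlinarith
  have := Finset.card_le_card hsub
  rw [Finset.card_image_of_injOn hinj, Finset.card_range] at this
  exact this

theorem card_QN_ge (hA : GoodA A w) (N : ℕ) : N + 1 ≤ (QN A N).card := by
  have h1 := sum_cl_le_card hA N
  have h2 : ∑ j ∈ Finset.range N, 1 ≤ ∑ j ∈ Finset.range N, cl w (QN A (j + 1)) := by
    refine Finset.sum_le_sum fun j _ => ?_
    have := cl_ge hA (j + 1)
    have := hA.wpos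
    omega
  simp at h2
  omega

theorem exists_JN_nonempty (hA : GoodA A w) (hg : 0 < g) (h : ℕ) :
    ∀ N, g ≤ N → (JN A g h N).Nonempty := by
  intro N hN
  rw [← Finset.card_pos]
  have h1 := card_sdiff_le (h := h) hA hg N
  have h2 := card_QN_ge hA N
  have h3 : (QN A N \ JN A g h N).card + (JN A g h N).card = (QN A N).card :=
    Finset.card_sdiff_add_card_eq_card (JN_sub N)
  omega

/-- The smallest degree in which `J` is nonzero. -/
theorem exists_n0 (hA : GoodA A w) (hg : 0 < g) (h : ℕ) :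
    ∃ n : ℕ, JN A g h n = ∅ ∧ (JN A g h (n + 1)).Nonempty ∧
      (∀ N ≤ n, JN A g h N = ∅) := by
  classical
  have hex : ∃ N, (JN A g h N).Nonempty := ⟨g, exists_JN_nonempty hA hg h g le_rfl⟩
  have hpos : 0 < Nat.find hex := by
    rw [Nat.pos_iff_ne_zero]
    intro h0
    have := Nat.find_spec hex
    rw [h0, JN_zero hg] at this
    exact absurd this (by simp)
  refine ⟨Nat.find hex - 1, ?_, ?_, ?_⟩
  · exact Finset.not_nonempty_iff_eq_empty.mp (Nat.find_min hex (by omega))
  · rw [Nat.sub_add_cancel hpos]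
    exact Nat.find_spec hex
  · intro N hN
    exact Finset.not_nonempty_iff_eq_empty.mp (Nat.find_min hex (by omega))

/-- `J_{N} + A`. -/
noncomputable def JA (A : Finset ℕ) (g h N : ℕ) : Finset ℕ := Finset.image₂ (· + ·) (JN A g h N) A

theorem JA_sub (N : ℕ) : JA A g h N ⊆ JN A g h (N + 1) := by
  intro x hx
  obtain ⟨α, hα, a, ha, rfl⟩ := Finset.mem_image₂.mp hx
  exact JN_add hα ha

theorem JN_sub_JA (hA : GoodA A w) (N : ℕ) : JN A g h N ⊆ JA A g h N := by
  intro x hx
  exact Finset.mem_image₂.mpr ⟨x, hx, 0, hA.h0, by simp⟩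

theorem card_JA (hA : GoodA A w) (N : ℕ) :
    (JN A g h N).card + cl w (JA A g h N) ≤ (JA A g h N).card :=
  card_add_cl_le hA.wpos (JN_sub_JA hA N) fun b hb =>
    Finset.mem_image₂.mpr ⟨b, hb, w, hA.hw, rfl⟩

/-- the new elements in degree `N + 1` -/
noncomputable def newJ (A : Finset ℕ) (g h : ℕ) : ℕ → Finset ℕ
  | 0 => JN A g h 0
  | N + 1 => JN A g h (N + 1) \ JA A g h N

theorem mem_genSet_iff {z : ℕ × ℕ} (hz : z ∈ genSet A (JN A g h)) : z.1 ∈ newJ A g h z.2 := by
  obtain ⟨x, N⟩ := z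
  obtain ⟨h1, h2⟩ := hz
  cases N with
  | zero => exact h1
  | succ N =>
    show x ∈ JN A g h (N + 1) \ JA A g h N
    rw [Finset.mem_sdiff]
    refine ⟨h1, fun hx => ?_⟩
    obtain ⟨α, hα, a, ha, heq⟩ := Finset.mem_image₂.mp hx
    refine h2 (α, N) hα a ha ?_
    ext
    · exact heq
    · rfl

/-- A set of pairs which is graded by the second coordinate, with bounded partial sums of
cardinalities, is finite with cardinality bounded by the same number. -/
theorem finite_of_bounded (Z : Set (ℕ × ℕ)) (F : ℕ → Finset ℕ) (hZ : ∀ z ∈ Z, z.1 ∈ F z.2)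
    (b : ℕ) (hb : ∀ T, ∃ T', T ≤ T' ∧ ∑ N ∈ Finset.range T', (F N).card ≤ b) :
    Z.Finite ∧ Z.ncard ≤ b := by
  classical
  -- every finite subset has cardinality at most `b`
  have key : ∀ D : Finset (ℕ × ℕ), (D : Set (ℕ × ℕ)) ⊆ Z → D.card ≤ b := by
    intro D hD
    obtain ⟨T', hT', hsum⟩ := hb (D.sup (fun z => z.2) + 1)
    have hmaps : ∀ z ∈ D, z.2 ∈ Finset.range T' := by
      intro z hz
      rw [Finset.mem_range]
      have h1 : z.2 ≤ D.sup (fun z : ℕ × ℕ => z.2) :=
        Finset.le_sup (f := fun z : ℕ × ℕ => z.2) hz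
      omega
    rw [Finset.card_eq_sum_card_fiberwise hmaps]
    refine (Finset.sum_le_sum fun N _ => ?_).trans hsum
    refine Finset.card_le_card_of_injOn (fun z => z.1) ?_ ?_
    · intro z hz
      rw [Finset.mem_coe, Finset.mem_filter] at hz
      have := hZ z (hD (Finset.mem_coe.mpr hz.1))
      rw [hz.2] at this
      exact this
    · intro z hz z' hz' heq
      rw [Finset.mem_coe, Finset.mem_filter] at hz hz'
      exact Prod.ext heq (hz.2.trans hz'.2.symm)
  have hfin : Z.Finite := by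
    by_contra hinf
    obtain ⟨D, hD, hcard⟩ := Set.Infinite.exists_subset_card_eq hinf (b + 1)
    have := key D hD
    omega
  refine ⟨hfin, ?_⟩
  rw [Set.ncard_eq_toFinset_card Z hfin]
  exact key _ (by simp)

end CombJ

open CombBase CombJ in
theorem gens_J {A : Finset ℕ} {w g h G : ℕ} (hA : GoodA A w) (hG : GapBound A w G)
    (hg : 0 < g) (_hh : 0 < h) :
    (genSet A (JN A g h)).Finite ∧ (genSet A (JN A g h)).ncard + G ≤ w + 2 * sA w A := by
  classical
  obtain ⟨n, hn0, hne, hempty⟩ := exists_n0 hA hg h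
  obtain ⟨T0, hT0⟩ := hG
  obtain ⟨N0, hN0⟩ := exists_card_sdiff_ge hA hg h
  obtain ⟨α, hα⟩ := hne
  -- partial sums
  have hpart : ∀ M, ∑ N ∈ Finset.range (n + 2 + M), (newJ A g h N).card +
      ∑ j ∈ Finset.range M, cl w (QN A (j + 1)) ≤ (JN A g h (n + 1 + M)).card := by
    intro M
    induction M with
    | zero =>
      rw [Finset.sum_range_zero, add_zero, Finset.sum_range_succ]
      have h1 : ∑ N ∈ Finset.range (n + 1), (newJ A g h N).card = 0 := by
        refine Finset.sum_eq_zero fun N hN => ?_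
        rw [Finset.mem_range] at hN
        rw [Finset.card_eq_zero]
        cases N with
        | zero => exact hempty 0 (by omega)
        | succ N =>
          show JN A g h (N + 1) \ JA A g h N = ∅
          rw [hempty (N + 1) (by omega)]
          simp
      rw [h1, zero_add]
      exact Finset.card_le_card (Finset.sdiff_subset)
    | succ M ih =>
      rw [show n + 2 + (M + 1) = (n + 2 + M) + 1 by ring, Finset.sum_range_succ,
        Finset.sum_range_succ]
      have h1 : (newJ A g h (n + 2 + M)).card + (JA A g h (n + 1 + M)).card =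
          (JN A g h (n + 1 + (M + 1))).card := by
        have h3 := Finset.card_sdiff_add_card_eq_card (JA_sub (A := A) (g := g) (h := h) (n + 1 + M))
        rw [show n + 2 + M = (n + 1 + M) + 1 by ring]
        exact h3
      have h2 := card_JA (g := g) (h := h) hA (n + 1 + M)
      have h4 : cl w (QN A (M + 1)) ≤ cl w (JA A g h (n + 1 + M)) := by
        refine cl_le_of_translate hA.wpos α fun b hb => ?_
        obtain ⟨β, hβ, a, ha, rfl⟩ := Finset.mem_image₂.mp hb
        refine Finset.mem_image₂.mpr ⟨α + β, JN_add_QN hα hβ, a, ha, ?_⟩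
        show α + β + a = α + (β + a)
        ring
      omega
  have hE : n * w + 1 ≤ g + sA w A := by
    have h1 := gamma_le hA n
    have h2 := card_sdiff_le (h := h) hA hg n
    rw [hn0, Finset.sdiff_empty] at h2
    omega
  have hbound : ∀ T, ∃ T', T ≤ T' ∧
      ∑ N ∈ Finset.range T', (newJ A g h N).card ≤ w + 2 * sA w A - G ∧ G ≤ w + 2 * sA w A := by
    intro T
    set M := T + T0 + N0 with hM
    refine ⟨n + 2 + M, by omega, ?_⟩
    have h1 := hpart M
    have h2 := mul_le_sum_cl hA M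
    have h3 := hT0 (n + 1 + M) (by omega)
    have h4 := hN0 (n + 1 + M) (by omega)
    have h5 : (QN A (n + 1 + M) \ JN A g h (n + 1 + M)).card + (JN A g h (n + 1 + M)).card =
        (QN A (n + 1 + M)).card :=
      Finset.card_sdiff_add_card_eq_card (JN_sub _)
    have h6 : (n + 1 + M) * w = n * w + w + M * w := by ring
    rw [h6] at h3
    constructor <;> omega
  have hb2 : ∀ T, ∃ T', T ≤ T' ∧
      ∑ N ∈ Finset.range T', (newJ A g h N).card ≤ w + 2 * sA w A - G := by
    intro T
    obtain ⟨T', h1, h2, _⟩ := hbound T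
    exact ⟨T', h1, h2⟩
  obtain ⟨_, _, _, hGle⟩ := hbound 0
  obtain ⟨hfin, hcard⟩ := finite_of_bounded (genSet A (JN A g h)) (newJ A g h)
    (fun z hz => mem_genSet_iff hz) _ hb2
  exact ⟨hfin, by omega⟩

end Pool.Agent.HS
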