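import Pool.Agent.HS.CombQ
import Pool.Agent.HS.CombJ

/-!
# Corners of the family `JN A g h N`
-/

namespace Pool.Agent.HS

namespace CombJ2

/-- a subset of an interval with `L` elements has at most `cl + (L - w)` elements -/
theorem card_le_cl {w : ℕ} (g L : ℕ) (B : Finset ℕ) (h1 : ∀ b ∈ B, g ≤ b)
    (h2 : ∀ b ∈ B, b < g + L) : B.card ≤ cl w B + (L - w) := by
  classical
  have hsplit : B = (B.filter fun b => b < g + w) ∪ (B.filter fun b => ¬ b < g + w) :=
    (Finset.filter_union_filter_not_eq _ _).symm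
  have hA : (B.filter fun b => b < g + w).card ≤ cl w B := by
    unfold cl
    refine Finset.card_le_card_of_injOn (fun x => x % w) ?_ ?_
    · intro x hx
      rw [Finset.mem_coe, Finset.mem_filter] at hx
      exact Finset.mem_coe.mpr (Finset.mem_image_of_mem _ hx.1)
    · have key : ∀ x y : ℕ, g ≤ x → y < g + w → x % w = y % w → y ≤ x := by
        intro x y hx hy hxy
        by_contra hlt
        push Not at hlt
        have hdvd : w ∣ y - x := (Nat.modEq_iff_dvd' hlt.le).mp hxy
        have := Nat.le_of_dvd (by omega) hdvd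
        omega
      intro x hx y hy hxy
      rw [Finset.mem_coe, Finset.mem_filter] at hx hy
      exact le_antisymm (key y x (h1 y hy.1) hx.2 (Eq.symm hxy)) (key x y (h1 x hx.1) hy.2 hxy)
  have hB : (B.filter fun b => ¬ b < g + w).card ≤ L - w := by
    have : (B.filter fun b => ¬ b < g + w) ⊆ Finset.Ico (g + w) (g + L) := by
      intro x hx
      rw [Finset.mem_filter] at hx
      rw [Finset.mem_Ico]
      exact ⟨by omega, h2 x hx.1⟩
    have := Finset.card_le_card this
    rw [Nat.card_Ico] at this
    omega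
  calc B.card = ((B.filter fun b => b < g + w) ∪ (B.filter fun b => ¬ b < g + w)).card := by
        rw [← hsplit]
    _ ≤ _ := Finset.card_union_le _ _
    _ ≤ _ := by omega

end CombJ2

open CombJ2 CombJ in
theorem corners_J {A : Finset ℕ} {w g h G : ℕ} (hA : GoodA A w) (hG : GapBound A w G)
    (hg : 0 < g) (_hh : 0 < h) :
    (cornerSet w (JN A g h)).Finite ∧ (cornerSet w (JN A g h)).ncard + G ≤ w + 3 * sA w A ∧
    (innerSet w (JN A g h)).Finite ∧
    (innerSet w (JN A g h)).ncard + w ≤ (cornerSet w (JN A g h)).ncard := by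
  classical
  obtain ⟨n, hn0, hne, hempty⟩ := exists_n0 hA hg h
  obtain ⟨T0, hT0⟩ := hG
  obtain ⟨N0, hN0⟩ := exists_card_sdiff_ge hA hg h
  obtain ⟨α, hα⟩ := hne
  have hw := hA.wpos
  -- classes of `J`
  have hclJ : ∀ j, cl w (QN A j) ≤ cl w (JN A g h (n + 1 + j)) := fun j =>
    CombBase.cl_le_of_translate hw α fun b hb => JN_add_QN hα hb
  have hsum : ∀ M, cl w (JN A g h (n + 1)) + ∑ j ∈ Finset.range M, cl w (QN A (j + 1)) ≤
      ∑ N ∈ Finset.range (n + 2 + M), cl w (JN A g h N) := by
    intro M
    induction M with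
    | zero =>
      rw [Finset.sum_range_zero, add_zero, add_zero, Finset.sum_range_succ]
      exact Nat.le_add_left _ _
    | succ M ih =>
      rw [show n + 2 + (M + 1) = (n + 2 + M) + 1 by ring, Finset.sum_range_succ,
        Finset.sum_range_succ]
      have h1 := hclJ (M + 1)
      rw [show n + 1 + (M + 1) = n + 2 + M by ring] at h1
      omega
  -- `E ≤ s`
  have hE : n * w + 1 ≤ g + sA w A := by
    have h1 := gamma_le hA n
    have h2 := card_sdiff_le (h := h) hA hg n
    rw [hn0, Finset.sdiff_empty] at h2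
    omega
  -- `J_{n+1}` is contained in an interval
  have hrange : ∀ N, ∀ x ∈ QN A N, x ≤ N * w := by
    intro N
    induction N with
    | zero => intro x hx; have : x = 0 := by simpa [QN] using hx
              omega
    | succ N ih =>
      intro x hx
      obtain ⟨β, hβ, a, ha, rfl⟩ := Finset.mem_image₂.mp hx
      have h1 := ih β hβ
      have h2 := hA.hle a ha
      have h3 : (N + 1) * w = N * w + w := by ring
      show β + a ≤ _
      omega
  have hJcard : (JN A g h (n + 1)).card ≤
      cl w (JN A g h (n + 1)) + (((n + 1) * w + 1 - g) - w) := by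
    refine card_le_cl g ((n + 1) * w + 1 - g) _ (fun b hb => JN_ge hb) (fun b hb => ?_)
    have h1 := hrange _ b (JN_sub _ hb)
    have h2 := JN_ge hb
    omega
  have hJge : (n + 1) * w + 1 ≤ (JN A g h (n + 1)).card + g + sA w A := by
    have h1 := gamma_le hA (n + 1)
    have h2 := card_sdiff_le (h := h) hA hg (n + 1)
    have h3 : (QN A (n + 1) \ JN A g h (n + 1)).card + (JN A g h (n + 1)).card =
        (QN A (n + 1)).card :=
      Finset.card_sdiff_add_card_eq_card (JN_sub _)
    omega
  have h6' : (n + 1) * w = n * w + w := by ring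
  rw [h6'] at hJcard hJge
  have hmain : ∀ M, T0 ≤ n + 2 + M → N0 ≤ n + 2 + M →
      (JN A g h (n + 2 + M)).card + G ≤ w + 3 * sA w A +
        ∑ N ∈ Finset.range (n + 2 + M), cl w (JN A g h N) := by
    intro M hM1 hM2
    have h1 := hsum M
    have h2 := CombBase.mul_le_sum_cl hA M
    have h3 := hT0 (n + 2 + M) hM1
    have h4 := hN0 (n + 2 + M) hM2
    have h5 : (QN A (n + 2 + M) \ JN A g h (n + 2 + M)).card + (JN A g h (n + 2 + M)).card =
        (QN A (n + 2 + M)).card :=
      Finset.card_sdiff_add_card_eq_card (JN_sub _)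
    have h6 : (n + 2 + M) * w = n * w + 2 * w + M * w := by ring
    rw [h6] at h3
    omega
  -- `G ≤ w + 3 s`
  have hGle' : G ≤ w + 3 * sA w A := by
    have h1 := hT0 T0 le_rfl
    have h2 := gamma_le hA T0
    omega
  have hfam := family_bound (w := w) (B := JN A g h) hw (JN_mono_succ hA)
    (fun N x hx => JN_add hx hA.hw) (X := w + 3 * sA w A - G)
    ⟨n + 2 + (T0 + N0), fun T hT => by
      obtain ⟨M, rfl⟩ : ∃ M, T = n + 2 + M := ⟨T - (n + 2), by omega⟩
      have := hmain M (by omega) (by omega)
      omega⟩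
    ⟨n + 1 + w, fun T hT => by
      obtain ⟨j, rfl⟩ : ∃ j, T = n + 1 + j := ⟨T - (n + 1), by omega⟩
      exact (cl_QN_full hA (by omega)).trans (hclJ j)⟩
  exact ⟨hfam.1, by have := hfam.2.1; omega, hfam.2.2.1, hfam.2.2.2⟩

end Pool.Agent.HS
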