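import Pool.Agent.HS.GrowthA

/-!
# Counting gaps
-/

namespace Pool.Agent.HS

variable {A : Finset ℕ} {w : ℕ}

theorem QN_le_mul (hA : GoodA A w) : ∀ {n α : ℕ}, α ∈ QN A n → α ≤ n * w := by
  intro n
  induction n with
  | zero =>
    intro α hα
    have : α = 0 := by simpa [QN] using hα
    simp [this]
  | succ n ih =>
    intro α hα
    obtain ⟨β, hβ, a, ha, rfl⟩ := Finset.mem_image₂.mp hα
    have h1 := ih hβ
    have h2 := hA.hle a ha
    show β + a ≤ (n + 1) * w
    nlinarith

/-- gaps from below and gaps from above give a gap bound -/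
theorem gapBound_of (hA : GoodA A w) (L1 L2 : Finset ℕ)
    (h1 : ∀ N, ∀ α ∈ QN A N, α ∉ L1) (h2 : ∀ N, ∀ α ∈ QN A N, N * w - α ∉ L2) :
    GapBound A w (L1.card + L2.card) := by
  classical
  refine ⟨L1.sup id + L2.sup id + 1, fun T hT => ?_⟩
  have hM1 : ∀ x ∈ L1, x ≤ L1.sup id := fun x hx => Finset.le_sup (f := id) hx
  have hM2 : ∀ x ∈ L2, x ≤ L2.sup id := fun x hx => Finset.le_sup (f := id) hx
  have hTw : T ≤ T * w := Nat.le_mul_of_pos_right T hA.wpos
  have hd1 : Disjoint (QN A T) L1 := Finset.disjoint_left.mpr fun α hα => h1 T α hα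
  have hinj : Set.InjOn (fun x => T * w - x) (L2 : Set ℕ) := by
    intro x hx y hy hxy
    have e1 := hM2 x hx
    have e2 := hM2 y hy
    simp only at hxy
    omega
  have hd2 : Disjoint (QN A T ∪ L1) (L2.image fun x => T * w - x) := by
    rw [Finset.disjoint_left]
    intro α hα hα'
    rw [Finset.mem_image] at hα'
    obtain ⟨x, hx, rfl⟩ := hα'
    have e2 := hM2 x hx
    rw [Finset.mem_union] at hα
    rcases hα with hα | hα
    · have := h2 T _ hα
      have e3 : T * w - (T * w - x) = x := by omega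
      rw [e3] at this
      exact this hx
    · have e1 := hM1 _ hα
      omega
  have hsub : (QN A T ∪ L1) ∪ (L2.image fun x => T * w - x) ⊆ Finset.range (T * w + 1) := by
    intro α hα
    rw [Finset.mem_union, Finset.mem_union, Finset.mem_image] at hα
    rw [Finset.mem_range]
    rcases hα with (hα | hα) | ⟨x, _, rfl⟩
    · have := QN_le_mul hA hα
      omega
    · have e1 := hM1 _ hα
      omega
    · omega
  have hcard := Finset.card_le_card hsub
  rw [Finset.card_union_of_disjoint hd2, Finset.card_union_of_disjoint hd1,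
    Finset.card_image_of_injOn hinj, Finset.card_range] at hcard
  omega

/-- Sylvester: at least half of the numbers below `(p-1)(q-1)` are not of the form `i p + j q` -/
theorem sylvester {p q : ℕ} (hp : 0 < p) (hq : 0 < q) (hpq : Nat.Coprime p q) :
    ∃ L : Finset ℕ, (p - 1) * (q - 1) ≤ 2 * L.card ∧ ∀ n ∈ L, ∀ i j, i * p + j * q ≠ n := by
  classical
  set M := (p - 1) * (q - 1) with hM
  set N := (Finset.range M).filter (fun n => ∀ i j, i * p + j * q ≠ n) with hN
  set R := (Finset.range M).filter (fun n => ¬ ∀ i j, i * p + j * q ≠ n) with hR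
  refine ⟨N, ?_, ?_⟩
  · have h1 : N.card + R.card = M := by
      rw [hN, hR, Finset.card_filter_add_card_filter_not, Finset.card_range]
    have h2 : R.card ≤ N.card := by
      apply Finset.card_le_card_of_injOn (fun n => M - 1 - n)
      · intro n hn
        rw [Finset.mem_coe, hR, Finset.mem_filter, Finset.mem_range] at hn
        rw [Finset.mem_coe, hN, Finset.mem_filter, Finset.mem_range]
        obtain ⟨hnM, hn2⟩ := hn
        dsimp only
        refine ⟨by omega, ?_⟩
        intro i j hij
        simp only [not_forall, not_not] at hn2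
        obtain ⟨i', j', hij'⟩ := hn2
        have h3 : (i + i') * p + (j + j') * q = M - 1 := by
          have : i * p + j * q + (i' * p + j' * q) = M - 1 := by omega
          rw [← this]; ring
        obtain ⟨p', rfl⟩ : ∃ p', p = p' + 1 := ⟨p - 1, by omega⟩
        obtain ⟨q', rfl⟩ : ∃ q', q = q' + 1 := ⟨q - 1, by omega⟩
        simp only [Nat.add_sub_cancel] at hM
        have h4 : (i + i' + 1) * (p' + 1) + (j + j' + 1) * (q' + 1) = (p' + 1) * (q' + 1) := by
          have h5 : (i + i') * (p' + 1) + (j + j') * (q' + 1) + 1 = M := by omega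
          rw [hM] at h5
          nlinarith
        have h6 : (p' + 1) ∣ (j + j' + 1) * (q' + 1) := by
          refine (Nat.dvd_add_right (Dvd.intro_left _ rfl :
            (p' + 1) ∣ (i + i' + 1) * (p' + 1))).mp ?_
          rw [h4]
          exact Dvd.intro _ rfl
        have h7 : (p' + 1) ∣ (j + j' + 1) := hpq.dvd_of_dvd_mul_right h6
        have h8 : p' + 1 ≤ j + j' + 1 := Nat.le_of_dvd (by omega) h7
        have h9 : (p' + 1) * (q' + 1) ≤ (j + j' + 1) * (q' + 1) := Nat.mul_le_mul_right _ h8
        have h10 : 0 < (i + i' + 1) * (p' + 1) := by positivity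
        omega
      · intro x hx y hy hxy
        rw [Finset.mem_coe, hR, Finset.mem_filter, Finset.mem_range] at hx hy
        simp only at hxy
        omega
    omega
  · intro n hn
    rw [hN, Finset.mem_filter] at hn
    exact hn.2

/-- if all elements of `A` are combinations of `p`, `q`, so are all elements of `QN A N` -/
theorem QN_comb {p q : ℕ} (hc : ∀ a ∈ A, ∃ i j, i * p + j * q = a) :
    ∀ N, ∀ α ∈ QN A N, ∃ i j, i * p + j * q = α := by
  intro N
  induction N with
  | zero =>
    intro α hα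
    have : α = 0 := by simpa [QN] using hα
    exact ⟨0, 0, by simp [this]⟩
  | succ N ih =>
    intro α hα
    obtain ⟨β, hβ, a, ha, rfl⟩ := Finset.mem_image₂.mp hα
    obtain ⟨i, j, hij⟩ := ih β hβ
    obtain ⟨i', j', hij'⟩ := hc a ha
    exact ⟨i + i', j + j', by rw [← hij, ← hij']; ring⟩

theorem QN_comb' (hA : GoodA A w) {p q : ℕ} (hc : ∀ a ∈ A, ∃ i j, i * p + j * q = w - a) :
    ∀ N, ∀ α ∈ QN A N, ∃ i j, i * p + j * q = N * w - α := by
  intro N
  induction N with
  | zero =>
    intro α hα
    exact ⟨0, 0, by simp⟩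
  | succ N ih =>
    intro α hα
    obtain ⟨β, hβ, a, ha, rfl⟩ := Finset.mem_image₂.mp hα
    obtain ⟨i, j, hij⟩ := ih β hβ
    obtain ⟨i', j', hij'⟩ := hc a ha
    refine ⟨i + i', j + j', ?_⟩
    have h1 := QN_le_mul hA hβ
    have h2 := hA.hle a ha
    have h3 : (N + 1) * w - (β + a) = (N * w - β) + (w - a) := by
      have : (N + 1) * w = N * w + w := by ring
      omega
    show (i + i') * p + (j + j') * q = (N + 1) * w - (β + a)
    rw [h3, ← hij, ← hij']
    ring

/-- Sylvester gap bound: all elements of `A` are combinations of `p, q`, and all elements of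
`w - A` are combinations of `p', q'` -/
theorem gapBound_sylvester (hA : GoodA A w) {p q p' q' : ℕ} (hp : 0 < p) (hq : 0 < q)
    (hpq : Nat.Coprime p q) (hp' : 0 < p') (hq' : 0 < q') (hpq' : Nat.Coprime p' q')
    (hc : ∀ a ∈ A, ∃ i j, i * p + j * q = a) (hc' : ∀ a ∈ A, ∃ i j, i * p' + j * q' = w - a) :
    ∃ G, GapBound A w G ∧ (p - 1) * (q - 1) + (p' - 1) * (q' - 1) ≤ 2 * G := by
  obtain ⟨L1, hL1, hL1'⟩ := sylvester hp hq hpq
  obtain ⟨L2, hL2, hL2'⟩ := sylvester hp' hq' hpq'
  refine ⟨L1.card + L2.card, gapBound_of hA L1 L2 ?_ ?_, by omega⟩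
  · intro N α hα hα'
    obtain ⟨i, j, hij⟩ := QN_comb hc N α hα
    exact hL1' α hα' i j hij
  · intro N α hα hα'
    obtain ⟨i, j, hij⟩ := QN_comb' hA hc' N α hα
    exact hL2' _ hα' i j hij

end Pool.Agent.HS
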