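import Pool.Agent.HS.CombJ
import Pool.Agent.HS.Gaps

/-!
# The corners of the family `JN A g h N`
(namespace `CombJC`)
-/

namespace Pool.Agent.HS

namespace CombJC

open Recip CombBase CombJ

variable {A : Finset ℕ} {w g h : ℕ}

/-- `J_N ∪ (J_N + w)`. -/
noncomputable def JW (A : Finset ℕ) (w g h N : ℕ) : Finset ℕ :=
  JN A g h N ∪ (JN A g h N).image (· + w)

theorem JW_sub (hA : GoodA A w) (N : ℕ) : JW A w g h N ⊆ JN A g h (N + 1) := by
  intro x hx
  rw [JW, Finset.mem_union, Finset.mem_image] at hx
  rcases hx with hx | ⟨y, hy, rfl⟩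
  · exact JN_mono_succ hA N hx
  · exact JN_add hy hA.hw

theorem card_JW (hA : GoodA A w) (N : ℕ) :
    (JN A g h N).card + cl w (JN A g h N) ≤ (JW A w g h N).card := by
  have h1 : (JN A g h N).card + cl w (JW A w g h N) ≤ (JW A w g h N).card :=
    card_add_cl_le hA.wpos Finset.subset_union_left fun b hb =>
      Finset.mem_union_right _ (Finset.mem_image.mpr ⟨b, hb, rfl⟩)
  have h2 : cl w (JN A g h N) ≤ cl w (JW A w g h N) := cl_mono Finset.subset_union_left
  omega

/-- the new corners in degree `N + 1` -/
noncomputable def newC (A : Finset ℕ) (w g h : ℕ) : ℕ → Finset ℕ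
  | 0 => JN A g h 0
  | N + 1 => JN A g h (N + 1) \ JW A w g h N

theorem mem_cornerSet {z : ℕ × ℕ} (hz : z ∈ cornerSet w (JN A g h)) :
    z.1 ∈ newC A w g h z.2 := by
  obtain ⟨x, N⟩ := z
  obtain ⟨h1, h2⟩ := hz
  cases N with
  | zero => exact h1
  | succ N =>
    show x ∈ JN A g h (N + 1) \ JW A w g h N
    rw [Finset.mem_sdiff]
    refine ⟨h1, fun hx => ?_⟩
    rw [JW, Finset.mem_union, Finset.mem_image] at hx
    rcases hx with hx | ⟨y, hy, hyx⟩
    · exact (h2 (x, N) hx).1 rfl
    · refine (h2 (y, N) hy).2 ?_
      ext
      · exact hyx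
      · rfl

/-- elements of `J_{n+1}` when `J` vanishes in degree `n` -/
theorem card_JN_le (hA : GoodA A w) (n : ℕ) :
    (JN A g h (n + 1)).card ≤ cl w (JN A g h (n + 1)) + (n * w + 1 - g) := by
  classical
  rw [← Finset.card_filter_add_card_filter_not (s := JN A g h (n + 1)) (fun x => x < g + w)]
  refine Nat.add_le_add ?_ ?_
  · refine le_trans ?_ (cl_mono (Finset.filter_subset (fun x => x < g + w) (JN A g h (n + 1))))
    unfold cl
    rw [Finset.card_image_of_injOn]
    have key : ∀ x y : ℕ, g ≤ x → y < g + w → x ≤ y → x % w = y % w → x = y := by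
      intro x y hx hy hxy hmod
      have hdvd : w ∣ y - x := (Nat.modEq_iff_dvd' hxy).mp hmod
      by_contra hne
      have := Nat.le_of_dvd (by omega) hdvd
      omega
    intro x hx y hy hxy
    rw [Finset.mem_coe, Finset.mem_filter] at hx hy
    have gx := JN_ge hx.1
    have gy := JN_ge hy.1
    rcases le_total x y with hle | hle
    · exact key x y gx hy.2 hle hxy
    · exact (key y x gy hx.2 hle hxy.symm).symm
  · have hsub : (JN A g h (n + 1)).filter (fun x => ¬ x < g + w) ⊆
        Finset.Icc (g + w) ((n + 1) * w) := by
      intro x hx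
      rw [Finset.mem_filter] at hx
      rw [Finset.mem_Icc]
      exact ⟨by omega, Recip.QN_le hA (JN_sub _ hx.1)⟩
    have h1 := Finset.card_le_card hsub
    rw [Nat.card_Icc] at h1
    have h2 : (n + 1) * w = n * w + w := by ring
    omega

end CombJC

open CombBase CombJ CombJC in
/-- The fine corner count. -/
theorem corners_J_fine {A : Finset ℕ} {w g h G : ℕ} (hA : GoodA A w) (hG : GapBound A w G)
    (hg : 0 < g) :
    ∃ n : ℕ, (cornerSet w (JN A g h)).Finite ∧
      (cornerSet w (JN A g h)).ncard + G ≤
        w + (n * w + 1 - (QN A n).card) + ((n + 1) * w + 1 - (QN A (n + 1)).card) + sA w A := by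
  classical
  obtain ⟨n, hn0, hne, hempty⟩ := exists_n0 hA hg h
  obtain ⟨T0, hT0⟩ := hG
  obtain ⟨N0, hN0⟩ := exists_card_sdiff_ge hA hg h
  obtain ⟨α, hα⟩ := hne
  refine ⟨n, ?_⟩
  -- partial sums
  have hpart : ∀ M, ∑ N ∈ Finset.range (n + 2 + M), (newC A w g h N).card +
      ∑ j ∈ Finset.range M, cl w (JN A g h (n + 1 + j)) ≤ (JN A g h (n + 1 + M)).card := by
    intro M
    induction M with
    | zero =>
      rw [Finset.sum_range_zero, add_zero, Finset.sum_range_succ]
      have h1 : ∑ N ∈ Finset.range (n + 1), (newC A w g h N).card = 0 := by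
        refine Finset.sum_eq_zero fun N hN => ?_
        rw [Finset.mem_range] at hN
        rw [Finset.card_eq_zero]
        cases N with
        | zero => exact hempty 0 (by omega)
        | succ N =>
          show JN A g h (N + 1) \ JW A w g h N = ∅
          rw [hempty (N + 1) (by omega)]
          simp
      rw [h1, zero_add]
      exact Finset.card_le_card (Finset.sdiff_subset)
    | succ M ih =>
      rw [show n + 2 + (M + 1) = (n + 2 + M) + 1 by ring, Finset.sum_range_succ,
        Finset.sum_range_succ]
      have h1 : (newC A w g h (n + 2 + M)).card + (JW A w g h (n + 1 + M)).card =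
          (JN A g h (n + 1 + (M + 1))).card := by
        have h3 := Finset.card_sdiff_add_card_eq_card (JW_sub (g := g) (h := h) hA (n + 1 + M))
        rw [show n + 2 + M = (n + 1 + M) + 1 by ring]
        exact h3
      have h2 := card_JW (g := g) (h := h) hA (n + 1 + M)
      omega
  have hcl : ∀ j, cl w (QN A j) ≤ cl w (JN A g h (n + 1 + j)) := fun j =>
    cl_le_of_translate hA.wpos α fun b hb => JN_add_QN hα hb
  have h7 := card_JN_le (g := g) (h := h) hA n
  have h8 := card_sdiff_le (h := h) hA hg (n + 1)
  have h9 := card_sdiff_le (h := h) hA hg n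
  rw [hn0, Finset.sdiff_empty] at h9
  have h10 : (QN A (n + 1) \ JN A g h (n + 1)).card + (JN A g h (n + 1)).card =
      (QN A (n + 1)).card := Finset.card_sdiff_add_card_eq_card (JN_sub _)
  have h11 : (n + 1) * w = n * w + w := by ring
  set R := w + (n * w + 1 - (QN A n).card) + ((n + 1) * w + 1 - (QN A (n + 1)).card) + sA w A
    with hR
  have hbound : ∀ T, ∃ T', T ≤ T' ∧
      ∑ N ∈ Finset.range T', (newC A w g h N).card ≤ R - G ∧ G ≤ R := by
    intro T
    set M := T + T0 + N0 with hM
    refine ⟨n + 2 + (M + 1), by omega, ?_⟩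
    have h1 := hpart (M + 1)
    rw [Finset.sum_range_succ' (fun j => cl w (JN A g h (n + 1 + j)))] at h1
    have h1' : ∑ j ∈ Finset.range M, cl w (QN A (j + 1)) ≤
        ∑ j ∈ Finset.range M, cl w (JN A g h (n + 1 + (j + 1))) :=
      Finset.sum_le_sum fun j _ => hcl (j + 1)
    have h2 := mul_le_sum_cl hA M
    have h3 := hT0 (n + 1 + (M + 1)) (by omega)
    have h4 := hN0 (n + 1 + (M + 1)) (by omega)
    have h5 : (QN A (n + 1 + (M + 1)) \ JN A g h (n + 1 + (M + 1))).card +
        (JN A g h (n + 1 + (M + 1))).card = (QN A (n + 1 + (M + 1))).card :=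
      Finset.card_sdiff_add_card_eq_card (JN_sub _)
    have h6 : (n + 1 + (M + 1)) * w = n * w + w + w + M * w := by ring
    rw [h6] at h3
    rw [add_zero] at h1
    rw [h11] at hR
    constructor <;> omega
  have hb2 : ∀ T, ∃ T', T ≤ T' ∧
      ∑ N ∈ Finset.range T', (newC A w g h N).card ≤ R - G := by
    intro T
    obtain ⟨T', h1, h2, _⟩ := hbound T
    exact ⟨T', h1, h2⟩
  obtain ⟨_, _, _, hGle⟩ := hbound 0
  obtain ⟨hfin, hcard⟩ := finite_of_bounded (cornerSet w (JN A g h)) (newC A w g h)
    (fun z hz => mem_cornerSet hz) _ hb2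
  exact ⟨hfin, by omega⟩

open CombBase CombJ CombJC in
/-- First half of `corners_J`. -/
theorem corners_J_left {A : Finset ℕ} {w g h G : ℕ} (hA : GoodA A w) (hG : GapBound A w G)
    (hg : 0 < g) :
    (cornerSet w (JN A g h)).Finite ∧
      (cornerSet w (JN A g h)).ncard + G ≤ w + 3 * sA w A := by
  obtain ⟨n, h1, h2⟩ := corners_J_fine (h := h) hA hG hg
  have h3 := gamma_le hA n
  have h4 := gamma_le hA (n + 1)
  exact ⟨h1, by omega⟩

open CombBase CombJ CombJC in
theorem sA_le_one {A : Finset ℕ} {w : ℕ} (hA : GoodA A w) (hc : A.card = w) :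
    sA w A ≤ 1 := by
  have hw := hA.wpos
  have h1 : cl w (QN A 1) = w - 1 := by
    rw [cl_eq_card_md hw, HS.QN_one, card_md_A hA, hc]
  have h2 : ∀ j, cl w (QN A (j + 2)) = w := by
    intro j
    have h3 : cl w (QN A 2) = w := by
      have hle := cl_le (w := w) hw (QN A 2)
      by_contra hne
      have h4 := cl_eq_of_stable hA 1 (by show cl w (QN A 2) ≤ cl w (QN A 1); omega)
      omega
    have h5 : cl w (QN A 2) ≤ cl w (QN A (j + 2)) := cl_mono (QN_mono hA (by omega))
    have h6 := cl_le (w := w) hw (QN A (j + 2))
    omega
  unfold sA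
  obtain ⟨w', rfl⟩ : ∃ w', w = w' + 1 := ⟨w - 1, by omega⟩
  rw [Finset.sum_range_succ']
  have h7 : ∑ k ∈ Finset.range w', (w' + 1 - cl (w' + 1) (QN A (k + 1 + 1))) = 0 :=
    Finset.sum_eq_zero fun k _ => by rw [h2 k]; omega
  rw [h7, zero_add, zero_add, h1]
  omega

open CombBase CombJ CombJC in
theorem corners_J_one {A : Finset ℕ} {w g h : ℕ} (hA : GoodA A w) (hc : A.card = w)
    (hg : 0 < g) (_hh : 0 < h) :
    (cornerSet w (JN A g h)).ncard ≤ w + 2 := by
  classical
  have hw := hA.wpos
  have hs := sA_le_one hA hc
  have hγ : ∀ n, n * w + 1 - (QN A n).card ≤ 1 := by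
    intro n
    have := gamma_le hA n
    omega
  by_cases h1 : 1 ∈ A
  · by_cases h2 : w - 1 ∈ A
    · -- full from degree two on
      have huniq : ∀ x y, x ≤ w → y ≤ w → x ∉ A → y ∉ A → x = y := by
        intro x y hx hy hxA hyA
        by_contra hne
        have hsub : insert x (insert y A) ⊆ Finset.range (w + 1) := by
          intro z hz
          rw [Finset.mem_insert, Finset.mem_insert] at hz
          rw [Finset.mem_range]
          rcases hz with rfl | rfl | hz
          · omega
          · omega
          · exact Nat.lt_succ_of_le (hA.hle z hz)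
        have h3 := Finset.card_le_card hsub
        rw [Finset.card_insert_of_notMem (by
          rw [Finset.mem_insert]; push Not; exact ⟨hne, hxA⟩),
          Finset.card_insert_of_notMem hyA, Finset.card_range] at h3
        omega
      have hQ2 : Finset.range (2 * w + 1) ⊆ QN A 2 := by
        intro m hm
        rw [Finset.mem_range] at hm
        have hadd : ∀ a ∈ A, ∀ b ∈ A, a + b ∈ QN A 2 := by
          intro a ha b hb
          refine Recip.QN_add (n := 1) ?_ hb
          rw [HS.QN_one]; exact ha
        rcases le_or_gt m w with hmw | hmw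
        · by_cases hmA : m ∈ A
          · simpa using hadd m hmA 0 hA.h0
          · have hm0 : m ≠ 0 := fun h0 => hmA (h0 ▸ hA.h0)
            have hm1 : m - 1 ∈ A := by
              by_contra h3
              have := huniq m (m - 1) hmw (by omega) hmA h3
              omega
            have := hadd _ hm1 1 h1
            rwa [Nat.sub_add_cancel (by omega)] at this
        · by_cases hmA : m - w ∈ A
          · have := hadd _ hmA w hA.hw
            rwa [Nat.sub_add_cancel hmw.le] at this
          · have hmw' : m - w ≠ w := fun h0 => hmA (by rw [h0]; exact hA.hw)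
            have hm1 : m - w + 1 ∈ A := by
              by_contra h3
              have := huniq (m - w) (m - w + 1) (by omega) (by omega) hmA h3
              omega
            have := hadd _ hm1 (w - 1) h2
            rwa [show m - w + 1 + (w - 1) = m by omega] at this
      have hγ2 : ∀ n, (n + 2) * w + 1 ≤ (QN A (n + 2)).card := by
        intro n
        induction n with
        | zero =>
          have := Finset.card_le_card hQ2
          rw [Finset.card_range] at this
          simpa using this
        | succ n ih =>
          have h3 := card_QN_succ hA (n + 2)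
          have h4 : cl w (QN A (n + 2 + 1)) = w := by
            have h5 := cl_le (w := w) hw (QN A (n + 2 + 1))
            by_contra hne
            have h6 : cl w (QN A 2) ≤ cl w (QN A (n + 2 + 1)) := cl_mono (QN_mono hA (by omega))
            have h7 : cl w (Finset.range (2 * w + 1)) ≤ cl w (QN A 2) := cl_mono hQ2
            have h8 : w ≤ cl w (Finset.range (2 * w + 1)) := by
              unfold cl
              have h9 : Finset.range w ⊆ (Finset.range (2 * w + 1)).image (· % w) := by
                intro r hr
                rw [Finset.mem_range] at hr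
                exact Finset.mem_image.mpr ⟨r, Finset.mem_range.mpr (by omega),
                  Nat.mod_eq_of_lt hr⟩
              simpa using Finset.card_le_card h9
            omega
          have h5 : (n + 1 + 2) * w = (n + 2) * w + w := by ring
          rw [show n + 1 + 2 = n + 2 + 1 by ring] at h5 ⊢
          omega
      obtain ⟨n, -, h3⟩ := corners_J_fine (h := h) hA (G := 0) ⟨0, fun T _ => by
        have hsub : QN A T ⊆ Finset.range (T * w + 1) := by
          intro x hx
          rw [Finset.mem_range]
          exact Nat.lt_succ_of_le (QN_le_mul hA hx)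
        simpa using Finset.card_le_card hsub⟩ hg
      have hsum : (n * w + 1 - (QN A n).card) + ((n + 1) * w + 1 - (QN A (n + 1)).card) ≤ 1 := by
        rcases n with _ | _ | n
        · have h4 : (QN A 0).card = 1 := by simp [QN]
          have h5 := hγ (0 + 1)
          rw [h4]
          simp only [zero_mul, zero_add, Nat.sub_self]
          exact h5
        · have h4 := hγ2 0
          have h5 := hγ 1
          simp only [zero_add] at h4 h5 ⊢
          show (1 * w + 1 - (QN A 1).card) + (2 * w + 1 - (QN A 2).card) ≤ 1
          omega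
        · have h4 := hγ2 n
          have h5 := hγ2 (n + 1)
          rw [show n + 1 + 1 = n + 2 by ring]
          rw [show n + 1 + 2 = n + 2 + 1 by ring] at h5
          omega
      omega
    · obtain ⟨n, -, h3⟩ := corners_J_fine (h := h) hA (gapBound_of hA ∅ {1}
        (fun _ _ _ => by simp) (by
          intro N
          induction N with
          | zero => intro α _; simp
          | succ N ih =>
            intro α hα
            obtain ⟨β, hβ, a, ha, rfl⟩ := Finset.mem_image₂.mp hα
            have h4 := ih β hβ
            rw [Finset.mem_singleton] at h4 ⊢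
            have h5 := QN_le_mul hA hβ
            have h6 := hA.hle a ha
            have h7 : (N + 1) * w = N * w + w := by ring
            have h8 : a ≠ w - 1 := fun h9 => h2 (h9 ▸ ha)
            show ¬ (N + 1) * w - (β + a) = 1
            omega)) hg
      have h4 := hγ n
      have h5 := hγ (n + 1)
      simp only [Finset.card_empty, Finset.card_singleton] at h3
      omega
  · obtain ⟨n, -, h3⟩ := corners_J_fine (h := h) hA (gapBound_of hA {1} ∅
      (by
        intro N
        induction N with
        | zero => intro α hα; have : α = 0 := by simpa [QN] using hα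
                  simp [this]
        | succ N ih =>
          intro α hα
          obtain ⟨β, hβ, a, ha, rfl⟩ := Finset.mem_image₂.mp hα
          have h4 := ih β hβ
          rw [Finset.mem_singleton] at h4 ⊢
          have h8 : a ≠ 1 := fun h9 => h1 (h9 ▸ ha)
          show ¬ β + a = 1
          omega) (fun _ _ _ => by simp)) hg
    have h4 := hγ n
    have h5 := hγ (n + 1)
    simp only [Finset.card_empty, Finset.card_singleton] at h3
    omega

end Pool.Agent.HS
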