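import Pool.Agent.HS.Recip

/-!
# Basic facts on the sumsets `QN A N` and their classes modulo `w`
(namespace `CombBase`)
-/

namespace Pool.Agent.HS

namespace CombBase

open Recip

variable {A : Finset ℕ} {w : ℕ}

theorem QN_mono_succ (hA : GoodA A w) (n : ℕ) : QN A n ⊆ QN A (n + 1) := by
  intro β hβ
  simpa using QN_add hβ hA.h0

theorem QN_mono (hA : GoodA A w) {n m : ℕ} (h : n ≤ m) : QN A n ⊆ QN A m :=
  monotone_nat_of_le_succ (QN_mono_succ hA) h

theorem QN_add_QN : ∀ {m n β γ : ℕ}, β ∈ QN A n → γ ∈ QN A m → β + γ ∈ QN A (n + m) := by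
  intro m
  induction m with
  | zero =>
    intro n β γ hβ hγ
    have : γ = 0 := by simpa [QN] using hγ
    subst this
    simpa using hβ
  | succ m ih =>
    intro n β γ hβ hγ
    obtain ⟨δ, hδ, a, ha, rfl⟩ := Finset.mem_image₂.mp hγ
    have := QN_add (ih hβ hδ) ha
    show β + (δ + a) ∈ QN A (n + m + 1)
    rw [← add_assoc]
    exact this

theorem zero_mem_QN (hA : GoodA A w) (n : ℕ) : 0 ∈ QN A n :=
  QN_mono hA (Nat.zero_le n) (by simp [QN])

theorem QN_one : QN A 1 = A := by
  ext x
  show x ∈ Finset.image₂ (· + ·) ({0} : Finset ℕ) A ↔ x ∈ A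
  simp

/-- The growth inequality. -/
theorem card_add_cl_le {B C : Finset ℕ} (hw : 0 < w) (hBC : B ⊆ C)
    (hBw : ∀ b ∈ B, b + w ∈ C) : B.card + cl w C ≤ C.card := by
  classical
  let S := C.filter (fun x => x + w ∉ C)
  have hdisj : Disjoint B S := by
    rw [Finset.disjoint_left]
    intro x hx hxS
    exact (Finset.mem_filter.mp hxS).2 (hBw x hx)
  have hsub : B ∪ S ⊆ C := Finset.union_subset hBC (Finset.filter_subset _ _)
  have hcl : cl w C ≤ S.card := by
    unfold cl
    have himg : C.image (· % w) ⊆ S.image (· % w) := by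
      intro r hr
      obtain ⟨x, hx, hxr⟩ := Finset.mem_image.mp hr
      obtain ⟨M, hM, hmax⟩ := (C.filter (fun y => y % w = r)).exists_max_image id
        ⟨x, Finset.mem_filter.mpr ⟨hx, hxr⟩⟩
      rw [Finset.mem_filter] at hM
      refine Finset.mem_image.mpr ⟨M, Finset.mem_filter.mpr ⟨hM.1, fun hMw => ?_⟩, hM.2⟩
      have := hmax (M + w) (Finset.mem_filter.mpr ⟨hMw, by simpa using hM.2⟩)
      simp only [id] at this
      omega
    exact (Finset.card_le_card himg).trans Finset.card_image_le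
  have h1 := Finset.card_le_card hsub
  rw [Finset.card_union_of_disjoint hdisj] at h1
  omega

theorem cl_le (hw : 0 < w) (B : Finset ℕ) : cl w B ≤ w := by
  unfold cl
  have : B.image (· % w) ⊆ Finset.range w := by
    intro r hr
    obtain ⟨x, _, rfl⟩ := Finset.mem_image.mp hr
    exact Finset.mem_range.mpr (Nat.mod_lt _ hw)
  simpa using Finset.card_le_card this

theorem cl_mono {B C : Finset ℕ} (h : B ⊆ C) : cl w B ≤ cl w C :=
  Finset.card_le_card (Finset.image_subset_image h)

/-- translating does not change the number of classes -/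
theorem cl_le_of_translate (hw : 0 < w) {B C : Finset ℕ} (α : ℕ) (h : ∀ b ∈ B, α + b ∈ C) :
    cl w B ≤ cl w C := by
  unfold cl
  refine Finset.card_le_card_of_surjOn (s := C.image (· % w)) (t := B.image (· % w))
    (fun r => (r + (w - α % w)) % w) ?_ |>.trans le_rfl
  intro r hr
  rw [Finset.mem_coe, Finset.mem_image] at hr
  obtain ⟨b, hb, rfl⟩ := hr
  refine ⟨(α + b) % w, Finset.mem_coe.mpr (Finset.mem_image.mpr ⟨α + b, h b hb, rfl⟩), ?_⟩
  show ((α + b) % w + (w - α % w)) % w = b % w
  have h1 : α % w < w := Nat.mod_lt _ hw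
  have h2 : ((α + b) % w + (w - α % w)) % w = (α + b + (w - α % w)) % w := by
    rw [Nat.add_mod, Nat.mod_mod, ← Nat.add_mod]
  have h3 : α + b + (w - α % w) = b + (α / w + 1) * w := by
    have h4 := Nat.div_add_mod α w
    have h5 : (α / w + 1) * w = w * (α / w) + w := by ring
    rw [h5]; omega
  rw [h2, h3, Nat.add_mul_mod_self_right]

theorem card_QN_succ (hA : GoodA A w) (n : ℕ) :
    (QN A n).card + cl w (QN A (n + 1)) ≤ (QN A (n + 1)).card :=
  card_add_cl_le hA.wpos (QN_mono_succ hA n) fun _ hb => QN_add hb hA.hw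

theorem mem_QN_of_closure {x : ℕ}
    (hx : x ∈ AddSubmonoid.closure (A : Set ℕ)) : ∃ n, x ∈ QN A n := by
  induction hx using AddSubmonoid.closure_induction with
  | mem x hx => exact ⟨1, by rw [QN_one]; exact hx⟩
  | zero => exact ⟨0, by simp [QN]⟩
  | add x y _ _ hx hy =>
    obtain ⟨n, hn⟩ := hx
    obtain ⟨m, hm⟩ := hy
    exact ⟨n + m, QN_add_QN hn hm⟩

theorem setGcd_eq_one (hA : GoodA A w) : Nat.setGcd (A : Set ℕ) = 1 :=
  hA.hgcd _ fun _ ha => Nat.setGcd_dvd_of_mem ha

/-- All large natural numbers belong to some `QN A n`. -/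
theorem exists_large (hA : GoodA A w) : ∃ L, ∀ m, L ≤ m → ∃ n, m ∈ QN A n := by
  obtain ⟨L, hL⟩ := Nat.exists_mem_closure_of_ge (A : Set ℕ)
  refine ⟨L, fun m hm => mem_QN_of_closure (hL m hm ?_)⟩
  rw [setGcd_eq_one hA]
  exact one_dvd m

/-- If the classes of `QN A (n+1)` are those of `QN A n` then all classes occur. -/
theorem cl_eq_of_stable (hA : GoodA A w) (n : ℕ)
    (h : cl w (QN A (n + 1)) ≤ cl w (QN A n)) : cl w (QN A n) = w := by
  have hw := hA.wpos
  have hsub : (QN A n).image (· % w) ⊆ (QN A (n + 1)).image (· % w) :=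
    Finset.image_subset_image (QN_mono_succ hA n)
  have heq : (QN A n).image (· % w) = (QN A (n + 1)).image (· % w) :=
    Finset.eq_of_subset_of_card_le hsub h
  have hcl : ∀ m, ∀ x ∈ QN A m, x % w ∈ (QN A n).image (· % w) := by
    intro m
    induction m with
    | zero =>
      intro x hx
      have : x = 0 := by simpa [QN] using hx
      subst this
      exact Finset.mem_image.mpr ⟨0, zero_mem_QN hA n, rfl⟩
    | succ m ih =>
      intro x hx
      obtain ⟨β, hβ, a, ha, rfl⟩ := Finset.mem_image₂.mp hx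
      obtain ⟨β', hβ', hmod⟩ := Finset.mem_image.mp (ih β hβ)
      change β' % w = β % w at hmod
      rw [heq]
      refine Finset.mem_image.mpr ⟨β' + a, QN_add hβ' ha, ?_⟩
      show (β' + a) % w = (β + a) % w
      rw [Nat.add_mod, hmod, ← Nat.add_mod]
  obtain ⟨L, hL⟩ := exists_large hA
  have hall : Finset.range w ⊆ (QN A n).image (· % w) := by
    intro r hr
    rw [Finset.mem_range] at hr
    obtain ⟨m, hm⟩ := hL (r + L * w) (by nlinarith)
    have := hcl m _ hm
    rwa [Nat.add_mul_mod_self_right, Nat.mod_eq_of_lt hr] at this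
  refine le_antisymm (cl_le hw _) ?_
  simpa [cl] using Finset.card_le_card hall

theorem cl_ge (hA : GoodA A w) (n : ℕ) : min w (n + 1) ≤ cl w (QN A n) := by
  have hw := hA.wpos
  induction n with
  | zero =>
    have : cl w (QN A 0) = 1 := by simp [cl, QN]
    omega
  | succ n ih =>
    have hm : cl w (QN A n) ≤ cl w (QN A (n + 1)) := cl_mono (QN_mono_succ hA n)
    by_cases h : cl w (QN A (n + 1)) ≤ cl w (QN A n)
    · have := cl_eq_of_stable hA n h
      omega
    · omega

/-- partial sums of the defects are bounded by `sA`. -/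
theorem sum_defect_le (hA : GoodA A w) (M : ℕ) :
    ∑ j ∈ Finset.range M, (w - cl w (QN A (j + 1))) ≤ sA w A := by
  unfold sA
  rcases le_total M w with h | h
  · exact Finset.sum_le_sum_of_subset (Finset.range_mono h)
  · rw [← Finset.sum_range_add_sum_Ico _ h]
    have : ∑ j ∈ Finset.Ico w M, (w - cl w (QN A (j + 1))) = 0 := by
      refine Finset.sum_eq_zero fun j hj => ?_
      rw [Finset.mem_Ico] at hj
      have := cl_ge hA (j + 1)
      omega
    omega

/-- `M w ≤ ∑_{j<M} x_{j+1} + s`. -/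
theorem mul_le_sum_cl (hA : GoodA A w) (M : ℕ) :
    M * w ≤ ∑ j ∈ Finset.range M, cl w (QN A (j + 1)) + sA w A := by
  have h1 := sum_defect_le hA M
  have h2 : ∑ j ∈ Finset.range M, w ≤ ∑ j ∈ Finset.range M, cl w (QN A (j + 1)) +
      ∑ j ∈ Finset.range M, (w - cl w (QN A (j + 1))) := by
    rw [← Finset.sum_add_distrib]
    exact Finset.sum_le_sum fun j _ => by omega
  simp only [Finset.sum_const, Finset.card_range, smul_eq_mul] at h2
  omega

/-- `1 + ∑_{j<n} x_{j+1} ≤ |Q_n|`. -/
theorem sum_cl_le_card (hA : GoodA A w) (n : ℕ) :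
    1 + ∑ j ∈ Finset.range n, cl w (QN A (j + 1)) ≤ (QN A n).card := by
  induction n with
  | zero => simp [QN]
  | succ n ih =>
    rw [Finset.sum_range_succ]
    have := card_QN_succ hA n
    omega

/-- `γ(n) = n w + 1 - |Q_n| ≤ s`. -/
theorem gamma_le (hA : GoodA A w) (n : ℕ) : n * w + 1 ≤ (QN A n).card + sA w A := by
  have h1 := mul_le_sum_cl hA n
  have h2 := sum_cl_le_card hA n
  omega

end CombBase

end Pool.Agent.HS
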