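import Pool.Agent.HS.Gaps
import Pool.Agent.HS.CombBase

/-!
# The case `|A| = 3`
-/

namespace Pool.Agent.HS

theorem sum_tri (m : ℕ) : 2 * ∑ j ∈ Finset.range (m + 2), (m + 2 - (j + 2)) = (m + 1) * m := by
  induction m with
  | zero => decide
  | succ m ih =>
    rw [Finset.sum_range_succ', mul_add]
    have h1 : ∑ k ∈ Finset.range (m + 2), (m + 1 + 2 - (k + 1 + 2)) =
        ∑ j ∈ Finset.range (m + 2), (m + 2 - (j + 2)) :=
      Finset.sum_congr rfl fun k _ => by omega
    rw [h1, ih]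
    have h2 : m + 1 + 2 - (0 + 2) = m + 1 := by omega
    rw [h2]
    ring

theorem crit2 {A : Finset ℕ} {w : ℕ} (hA : GoodA A w) (h3 : A.card = 3) :
    ∃ G, GapBound A w G ∧ sA w A ≤ G ∧ 2 * sA w A ≤ (w - 1) * (w - 2) := by
  classical
  have hw := hA.wpos
  -- the form of `A`
  have hwe : w ∈ A.erase 0 := Finset.mem_erase.mpr ⟨hw.ne', hA.hw⟩
  have hc1 : ((A.erase 0).erase w).card = 1 := by
    rw [Finset.card_erase_of_mem hwe, Finset.card_erase_of_mem hA.h0, h3]
  obtain ⟨a, ha⟩ := Finset.card_eq_one.mp hc1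
  have haA : a ∈ (A.erase 0).erase w := by rw [ha]; exact Finset.mem_singleton_self a
  rw [Finset.mem_erase, Finset.mem_erase] at haA
  obtain ⟨haw, ha0, haA⟩ := haA
  have hform : ∀ x ∈ A, x = 0 ∨ x = a ∨ x = w := by
    intro x hx
    by_cases hx0 : x = 0
    · exact Or.inl hx0
    · by_cases hxw : x = w
      · exact Or.inr (Or.inr hxw)
      · have : x ∈ (A.erase 0).erase w :=
          Finset.mem_erase.mpr ⟨hxw, Finset.mem_erase.mpr ⟨hx0, hx⟩⟩
        rw [ha, Finset.mem_singleton] at this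
        exact Or.inr (Or.inl this)
  have halt : a < w := lt_of_le_of_ne (hA.hle a haA) haw
  have hapos : 0 < a := Nat.pos_of_ne_zero ha0
  have hcop : Nat.Coprime a w := by
    apply hA.hgcd
    intro x hx
    rcases hform x hx with rfl | rfl | rfl
    · exact dvd_zero _
    · exact Nat.gcd_dvd_left _ _
    · exact Nat.gcd_dvd_right _ _
  have hcop' : Nat.Coprime (w - a) w := by
    have : Nat.gcd (w - a) w ∣ 1 := by
      rw [← hcop]
      apply Nat.dvd_gcd
      · have h1 : Nat.gcd (w - a) w ∣ w - a := Nat.gcd_dvd_left _ _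
        have h2 : Nat.gcd (w - a) w ∣ w := Nat.gcd_dvd_right _ _
        have h3 : Nat.gcd (w - a) w ∣ w - (w - a) := Nat.dvd_sub h2 h1
        have h4 : w - (w - a) = a := by omega
        rwa [h4] at h3
      · exact Nat.gcd_dvd_right _ _
    exact Nat.dvd_one.mp this
  obtain ⟨G, hG, hG2⟩ := gapBound_sylvester hA hapos hw hcop (p' := w - a) (q' := w)
    (by omega) hw hcop' (by
      intro x hx
      rcases hform x hx with rfl | rfl | rfl
      · exact ⟨0, 0, by simp⟩
      · exact ⟨1, 0, by simp⟩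
      · exact ⟨0, 1, by simp⟩) (by
      intro x hx
      rcases hform x hx with rfl | rfl | rfl
      · exact ⟨0, 1, by omega⟩
      · exact ⟨1, 0, by omega⟩
      · exact ⟨0, 0, by omega⟩)
  obtain ⟨m, rfl⟩ : ∃ m, w = m + 2 := ⟨w - 2, by omega⟩
  have hs : 2 * sA (m + 2) A ≤ (m + 1) * m := by
    rw [← sum_tri m, sA]
    refine Nat.mul_le_mul_left 2 (Finset.sum_le_sum fun j _ => ?_)
    have := CombBase.cl_ge hA (j + 1)
    omega
  have e1 : (a - 1) * (m + 2 - 1) + (m + 2 - a - 1) * (m + 2 - 1) = (m + 1) * m := by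
    rw [← Nat.add_mul]
    have h1 : a - 1 + (m + 2 - a - 1) = m := by omega
    have h2 : m + 2 - 1 = m + 1 := by omega
    rw [h1, h2, Nat.mul_comm]
  refine ⟨G, hG, ?_, ?_⟩
  · omega
  · exact hs

end Pool.Agent.HS
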