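import Pool.Agent.HS.CombBase

/-!
# The exceptional inner points for `|A| = 4`
-/

namespace Pool.Agent.HS

/-- inner points `z` such that no `z - (a,1)`, `a ∈ A ∖ {0,w}`, lies in `Q` and in
`Q + (0,1) - (w,1)` -/
def hxSet (A : Finset ℕ) (w : ℕ) : Set (ℕ × ℕ) :=
  {z | z ∈ innerSet w (QN A) ∧ ∀ a ∈ A, a ≠ 0 → a ≠ w → ∀ y ∈ St (QN A),
    (∃ y' ∈ St (QN A), y' + (0, 1) = y + (w, 1)) → y + (a, 1) ≠ z}

namespace Hx3

open CombBase Recip

/-- the arithmetic content of a point of `hxSet` -/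
def HT (a b w α N : ℕ) : Prop :=
  (∃ j k l, 1 ≤ j ∧ j ≤ N ∧ 1 ≤ k ∧ k + l = N ∧ α + w = j * a ∧ α = k * b + l * w) ∧
    ∀ j k l, j + k + l < N → j * a + k * b + l * w ≠ α

theorem key {a w j j' : ℕ} (ha : 0 < a) (haw : a < w) (h : j' < j)
    (hmod : (j * a) % w = (j' * a) % w) : ∃ μ, 1 ≤ μ ∧ j' + μ < j ∧ j * a = j' * a + μ * w := by
  have hle : j' * a ≤ j * a := Nat.mul_le_mul_right _ h.le
  have hdvd : w ∣ j * a - j' * a := (Nat.modEq_iff_dvd' hle).mp (Eq.symm hmod)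
  obtain ⟨μ, hμ⟩ := hdvd
  obtain ⟨e, rfl⟩ : ∃ e, j = j' + e := ⟨j - j', by omega⟩
  have he : 0 < e := by omega
  have h1 : (j' + e) * a = j' * a + e * a := by ring
  have h2 : e * a = w * μ := by omega
  have h3 : 0 < e * a := Nat.mul_pos he ha
  have hμ1 : 1 ≤ μ := by
    rcases Nat.eq_zero_or_pos μ with h0 | h0
    · subst h0; omega
    · exact h0
  have h4 : e * a < e * w := Nat.mul_lt_mul_of_pos_left haw he
  have h5 : μ < e := by
    by_contra hcon
    push Not at hcon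
    have : w * e ≤ w * μ := Nat.mul_le_mul_left _ hcon
    nlinarith
  exact ⟨μ, hμ1, by omega, by rw [h1, h2]; ring⟩

theorem HT_swap_lt {a b w α N : ℕ} (h : ∀ j k l, j + k + l < N → j * a + k * b + l * w ≠ α) :
    ∀ j k l, j + k + l < N → j * b + k * a + l * w ≠ α := by
  intro j k l hjkl he
  exact h k j l (by omega) (by rw [← he]; ring)

theorem HT_same_aux {a b w α₁ α₂ N₁ N₂ : ℕ} (ha : 0 < a) (haw : a < w)
    (h1 : HT a b w α₁ N₁) (h2 : HT a b w α₂ N₂) (hmod : α₁ % w = α₂ % w)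
    {j₁ j₂ : ℕ} (e1 : α₁ + w = j₁ * a) (e2 : α₂ + w = j₂ * a) (hj : j₂ ≤ N₂) :
    ¬ j₁ < j₂ := by
  intro hlt
  obtain ⟨μ, hμ, hlt', he⟩ := key ha haw hlt (by
    rw [← e1, ← e2, Nat.add_mod_right, Nat.add_mod_right, hmod])
  obtain ⟨ν, rfl⟩ : ∃ ν, μ = ν + 1 := ⟨μ - 1, by omega⟩
  refine h2.2 j₁ 0 ν (by omega) ?_
  have h3 : (ν + 1) * w = ν * w + w := by ring
  omega

theorem HT_same {a b w α₁ α₂ N₁ N₂ : ℕ} (ha : 0 < a) (haw : a < w) (h1 : HT a b w α₁ N₁)
    (h2 : HT a b w α₂ N₂) (hmod : α₁ % w = α₂ % w) : α₁ = α₂ ∧ N₁ = N₂ := by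
  obtain ⟨⟨j₁, k₁, l₁, p1, p2, p3, p4, p5, p6⟩, p7⟩ := id h1
  obtain ⟨⟨j₂, k₂, l₂, q1, q2, q3, q4, q5, q6⟩, q7⟩ := id h2
  have c1 := HT_same_aux ha haw h1 h2 hmod p5 q5 q2
  have c2 := HT_same_aux ha haw h2 h1 hmod.symm q5 p5 p2
  have c3 : j₁ = j₂ := by omega
  subst c3
  have c4 : α₁ = α₂ := by omega
  refine ⟨c4, ?_⟩
  by_contra hne
  rcases Nat.lt_or_ge N₁ N₂ with h | h
  · exact q7 0 k₁ l₁ (by omega) (by rw [← c4, p6]; ring)
  · exact p7 0 k₂ l₂ (by omega) (by rw [c4, q6]; ring)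

theorem HT_diff_aux {a b w α₁ α₂ N₁ N₂ : ℕ} (ha : 0 < a) (haw : a < w)
    (h1 : HT a b w α₁ N₁) (h2 : HT b a w α₂ N₂) (hmod : α₁ % w = α₂ % w)
    {j₁ k₂ l₂ : ℕ} (e1 : α₁ + w = j₁ * a) (hj : j₁ ≤ N₁) (e2 : α₂ = k₂ * a + l₂ * w)
    (hk : k₂ + l₂ = N₂) : j₁ = k₂ := by
  have hm : (j₁ * a) % w = (k₂ * a) % w := by
    rw [← e1, Nat.add_mod_right, hmod, e2, Nat.add_mul_mod_self_right]
  rcases Nat.lt_trichotomy j₁ k₂ with h | h | h
  · exfalso
    obtain ⟨μ, hμ, hlt', he⟩ := key ha haw h hm.symm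
    refine h2.2 0 j₁ (μ + l₂) (by omega) ?_
    rw [e2, he]; ring
  · exact h
  · exfalso
    obtain ⟨μ, hμ, hlt', he⟩ := key ha haw h hm
    obtain ⟨ν, rfl⟩ : ∃ ν, μ = ν + 1 := ⟨μ - 1, by omega⟩
    refine h1.2 k₂ 0 ν (by omega) ?_
    have h3 : (ν + 1) * w = ν * w + w := by ring
    omega

theorem HT_diff {a b w α₁ α₂ N₁ N₂ : ℕ} (ha : 0 < a) (haw : a < w) (hb : 0 < b) (hbw : b < w)
    (h1 : HT a b w α₁ N₁) (h2 : HT b a w α₂ N₂) : α₁ % w ≠ α₂ % w := by
  intro hmod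
  obtain ⟨⟨j₁, k₁, l₁, p1, p2, p3, p4, p5, p6⟩, p7⟩ := id h1
  obtain ⟨⟨j₂, k₂, l₂, q1, q2, q3, q4, q5, q6⟩, q7⟩ := id h2
  have c1 : j₁ = k₂ := HT_diff_aux ha haw h1 h2 hmod p5 p2 q6 q4
  have c2 : j₂ = k₁ := HT_diff_aux hb hbw h2 h1 hmod.symm q5 q2 p6 p4
  subst c1 c2
  have : 0 < w := by omega
  omega

theorem HT_class {a b w α N : ℕ} (ha : 0 < a) (haw : a < w) (hb : 0 < b) (hbw : b < w)
    (h1 : HT a b w α N) : α % w ≠ 0 ∧ α % w ≠ a ∧ α % w ≠ b := by
  obtain ⟨⟨j, k, l, p1, p2, p3, p4, p5, p6⟩, p7⟩ := id h1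
  refine ⟨fun h => ?_, fun h => ?_, fun h => ?_⟩
  · obtain ⟨μ, hμ, hlt', he⟩ := key (j := j) (j' := 0) ha haw (by omega) (by
      rw [← p5, Nat.add_mod_right, h]; simp)
    obtain ⟨ν, rfl⟩ : ∃ ν, μ = ν + 1 := ⟨μ - 1, by omega⟩
    refine p7 0 0 ν (by omega) ?_
    have h3 : (ν + 1) * w = ν * w + w := by ring
    omega
  · rcases Nat.lt_or_ge 1 j with hj | hj
    · obtain ⟨μ, hμ, hlt', he⟩ := key (j := j) (j' := 1) ha haw hj (by
        rw [← p5, Nat.add_mod_right, h, one_mul, Nat.mod_eq_of_lt haw])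
      obtain ⟨ν, rfl⟩ : ∃ ν, μ = ν + 1 := ⟨μ - 1, by omega⟩
      refine p7 1 0 ν (by omega) ?_
      have h3 : (ν + 1) * w = ν * w + w := by ring
      omega
    · have : j = 1 := by omega
      subst this
      omega
  · rcases Nat.lt_or_ge 1 k with hk | hk
    · obtain ⟨μ, hμ, hlt', he⟩ := key (j := k) (j' := 1) hb hbw hk (by
        have h2 : α % w = (k * b) % w := by rw [p6, Nat.add_mul_mod_self_right]
        rw [← h2, h, one_mul, Nat.mod_eq_of_lt hbw])
      refine p7 0 1 (μ + l) (by omega) ?_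
      rw [p6, he]; ring
    · have : k = 1 := by omega
      subst this
      have h2 : j * a ≤ (l + 1) * a := Nat.mul_le_mul_right _ (by omega)
      have h3 : (l + 1) * a < (l + 1) * w := Nat.mul_lt_mul_of_pos_left haw (by omega)
      have h4 : (l + 1) * w = l * w + w := by ring
      omega

/-- representations -/
theorem rep_of_mem {a b w : ℕ} : ∀ {n x : ℕ}, x ∈ QN {0, a, b, w} n →
    ∃ j k l, j + k + l ≤ n ∧ x = j * a + k * b + l * w := by
  intro n
  induction n with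
  | zero =>
    intro x hx
    have : x = 0 := by simpa [QN] using hx
    exact ⟨0, 0, 0, le_rfl, by simp [this]⟩
  | succ n ih =>
    intro x hx
    obtain ⟨β, hβ, c, hc, rfl⟩ := Finset.mem_image₂.mp hx
    obtain ⟨j, k, l, h1, rfl⟩ := ih hβ
    simp only [Finset.mem_insert, Finset.mem_singleton] at hc
    rcases hc with rfl | rfl | rfl | rfl
    · exact ⟨j, k, l, by omega, rfl⟩
    · exact ⟨j + 1, k, l, by omega, by show _ + _ = _; ring⟩
    · exact ⟨j, k + 1, l, by omega, by show _ + _ = _; ring⟩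
    · exact ⟨j, k, l + 1, by omega, by show _ + _ = _; ring⟩

theorem mul_mem {A : Finset ℕ} {c : ℕ} (hc : c ∈ A) (j : ℕ) : j * c ∈ QN A j := by
  induction j with
  | zero => simp [QN]
  | succ j ih =>
    rw [show (j + 1) * c = j * c + c by ring]
    exact QN_add ih hc

theorem mem_of_rep {A : Finset ℕ} {a b w : ℕ} (hA : GoodA A w) (ha : a ∈ A) (hb : b ∈ A)
    {n j k l : ℕ} (h : j + k + l ≤ n) : j * a + k * b + l * w ∈ QN A n :=
  QN_mono hA h (QN_add_QN (QN_add_QN (mul_mem ha j) (mul_mem hb k)) (mul_mem hA.hw l))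

theorem HT_of_mem {a b w : ℕ} (hA : GoodA {0, a, b, w} w) (ha : 0 < a) (haw : a < w) (hb : 0 < b)
    (hbw : b < w) {α N : ℕ} (hz : (α, N) ∈ hxSet {0, a, b, w} w) :
    HT a b w α N ∨ HT b a w α N := by
  obtain ⟨⟨h1, ⟨⟨α', N'⟩, h2, h3⟩, h4⟩, h5⟩ := hz
  have e1 : α' + 0 = α + w := congrArg Prod.fst h3
  have e2 : N' + 1 = N + 1 := congrArg Prod.snd h3
  have e3 : N' = N := by omega
  subst e3
  have e4 : α' = α + w := by omega
  subst e4
  have h1' : α ∈ QN {0, a, b, w} N' := h1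
  have h2' : α + w ∈ QN {0, a, b, w} N' := h2
  have haA : a ∈ ({0, a, b, w} : Finset ℕ) := by simp
  have hbA : b ∈ ({0, a, b, w} : Finset ℕ) := by simp
  have hnot : ∀ j k l, j + k + l < N' → j * a + k * b + l * w ≠ α := by
    intro j k l hjkl he
    obtain ⟨M, rfl⟩ : ∃ M, N' = M + 1 := ⟨N' - 1, by omega⟩
    refine h4 (α, M) ?_ rfl
    show α ∈ QN _ M
    rw [← he]
    exact mem_of_rep hA haA hbA (by omega)
  obtain ⟨j, k, l, r1, r2⟩ := rep_of_mem h1'
  obtain ⟨j', k', l', s1, s2⟩ := rep_of_mem h2'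
  have hsum : j + k + l = N' := by
    by_contra hne
    exact hnot j k l (by omega) r2.symm
  have hl' : l' = 0 := by
    by_contra hne
    obtain ⟨ν, rfl⟩ : ∃ ν, l' = ν + 1 := ⟨l' - 1, by omega⟩
    refine hnot j' k' ν (by omega) ?_
    have h3 : (ν + 1) * w = ν * w + w := by ring
    omega
  subst hl'
  rw [zero_mul, add_zero] at s2
  -- not both `j` and `j'` positive
  have hN : 1 ≤ N' := by
    rcases Nat.eq_zero_or_pos N' with h0 | h0
    · subst h0
      have h6 : α + w = 0 := by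
        have : α + w ∈ QN {0, a, b, w} 0 := h2'
        simpa [QN] using this
      omega
    · exact h0
  obtain ⟨M, rfl⟩ : ∃ M, N' = M + 1 := ⟨N' - 1, by omega⟩
  have hjj : ¬ (1 ≤ j ∧ 1 ≤ j') := by
    rintro ⟨g1, g2⟩
    obtain ⟨i, rfl⟩ : ∃ i, j = i + 1 := ⟨j - 1, by omega⟩
    obtain ⟨i', rfl⟩ : ∃ i', j' = i' + 1 := ⟨j' - 1, by omega⟩
    have t1 : i * a + k * b + l * w ∈ QN {0, a, b, w} M := mem_of_rep hA haA hbA (by omega)
    have t2 : i' * a + k' * b + 0 * w ∈ QN {0, a, b, w} M := mem_of_rep hA haA hbA (by omega)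
    have t3 : (i + 1) * a = i * a + a := by ring
    have t4 : (i' + 1) * a = i' * a + a := by ring
    refine h5 a haA ha.ne' haw.ne (i * a + k * b + l * w, M) t1
      ⟨(i' * a + k' * b + 0 * w, M), t2, ?_⟩ ?_
    · ext
      · show i' * a + k' * b + 0 * w + 0 = i * a + k * b + l * w + w
        omega
      · rfl
    · ext
      · show i * a + k * b + l * w + a = α
        omega
      · rfl
  have hkk : ¬ (1 ≤ k ∧ 1 ≤ k') := by
    rintro ⟨g1, g2⟩
    obtain ⟨i, rfl⟩ : ∃ i, k = i + 1 := ⟨k - 1, by omega⟩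
    obtain ⟨i', rfl⟩ : ∃ i', k' = i' + 1 := ⟨k' - 1, by omega⟩
    have t1 : j * a + i * b + l * w ∈ QN {0, a, b, w} M := mem_of_rep hA haA hbA (by omega)
    have t2 : j' * a + i' * b + 0 * w ∈ QN {0, a, b, w} M := mem_of_rep hA haA hbA (by omega)
    have t3 : (i + 1) * b = i * b + b := by ring
    have t4 : (i' + 1) * b = i' * b + b := by ring
    refine h5 b hbA hb.ne' hbw.ne (j * a + i * b + l * w, M) t1
      ⟨(j' * a + i' * b + 0 * w, M), t2, ?_⟩ ?_
    · ext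
      · show j' * a + i' * b + 0 * w + 0 = j * a + i * b + l * w + w
        omega
      · rfl
    · ext
      · show j * a + i * b + l * w + b = α
        omega
      · rfl
  have hjk : ¬ (j = 0 ∧ k = 0) := by
    rintro ⟨rfl, rfl⟩
    have t1 : j' * a ≤ j' * w := Nat.mul_le_mul_left _ haw.le
    have t2 : k' * b ≤ k' * w := Nat.mul_le_mul_left _ hbw.le
    have t3 : (j' + k') * w ≤ (M + 1) * w := Nat.mul_le_mul_right _ (by omega)
    have t4 : (j' + k') * w = j' * w + k' * w := by ring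
    have t5 : l = M + 1 := by omega
    subst t5
    have := hA.wpos
    omega
  have hjk' : ¬ (j' = 0 ∧ k' = 0) := by
    rintro ⟨rfl, rfl⟩
    have := hA.wpos
    omega
  rcases Nat.eq_zero_or_pos j' with hj' | hj'
  · -- `k' ≥ 1`, so `k = 0`, `j ≥ 1`
    right
    subst hj'
    have hk' : 1 ≤ k' := by omega
    have hk : k = 0 := by omega
    subst hk
    refine ⟨⟨k', j, l, hk', by omega, by omega, by omega, by rw [s2]; ring, by rw [r2]; ring⟩, ?_⟩
    exact HT_swap_lt hnot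
  · left
    have hj : j = 0 := by omega
    subst hj
    have hk : 1 ≤ k := by omega
    have hk' : k' = 0 := by omega
    subst hk'
    exact ⟨⟨j', k, l, hj', by omega, hk, by omega, by rw [s2]; ring, by rw [r2]; ring⟩, hnot⟩

end Hx3

open Hx3 in
theorem hx3 {A : Finset ℕ} {w : ℕ} (hA : GoodA A w) (h4 : A.card = 4) :
    (hxSet A w).Finite ∧ (hxSet A w).ncard + 3 ≤ w := by
  classical
  have hw := hA.wpos
  -- write `A = {0, a, b, w}`
  have h1 : ((A.erase 0).erase w).card = 2 := by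
    rw [Finset.card_erase_of_mem (Finset.mem_erase.mpr ⟨hw.ne', hA.hw⟩),
      Finset.card_erase_of_mem hA.h0, h4]
  obtain ⟨a, b, hab, hAab⟩ := Finset.card_eq_two.mp h1
  have ha : a ∈ (A.erase 0).erase w := by rw [hAab]; simp
  have hb : b ∈ (A.erase 0).erase w := by rw [hAab]; simp
  rw [Finset.mem_erase, Finset.mem_erase] at ha hb
  obtain ⟨ha1, ha2, ha3⟩ := ha
  obtain ⟨hb1, hb2, hb3⟩ := hb
  have hA' : A = {0, a, b, w} := by
    symm
    apply Finset.eq_of_subset_of_card_le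
    · intro x hx
      simp only [Finset.mem_insert, Finset.mem_singleton] at hx
      rcases hx with rfl | rfl | rfl | rfl
      · exact hA.h0
      · exact ha3
      · exact hb3
      · exact hA.hw
    · rw [h4]
      have : ({0, a, b, w} : Finset ℕ).card = 4 := by
        rw [Finset.card_insert_of_notMem, Finset.card_insert_of_notMem,
          Finset.card_insert_of_notMem, Finset.card_singleton]
        · simp [hb1]
        · simp [hab, ha1]
        · simp [Ne.symm ha2, Ne.symm hb2, hw.ne]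
      omega
  have haw : a < w := lt_of_le_of_ne (hA.hle a ha3) ha1
  have hbw : b < w := lt_of_le_of_ne (hA.hle b hb3) hb1
  have ha0 : 0 < a := Nat.pos_of_ne_zero ha2
  have hb0 : 0 < b := Nat.pos_of_ne_zero hb2
  subst hA'
  have hHT : ∀ z ∈ hxSet {0, a, b, w} w, HT a b w z.1 z.2 ∨ HT b a w z.1 z.2 :=
    fun z hz => HT_of_mem hA ha0 haw hb0 hbw hz
  have hinj : Set.InjOn (fun z : ℕ × ℕ => z.1 % w) (hxSet {0, a, b, w} w) := by
    intro z hz z' hz' he
    simp only at he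
    rcases hHT z hz with h | h <;> rcases hHT z' hz' with h' | h'
    · obtain ⟨e1, e2⟩ := HT_same ha0 haw h h' he
      exact Prod.ext e1 e2
    · exact absurd he (HT_diff ha0 haw hb0 hbw h h')
    · exact absurd he.symm (HT_diff ha0 haw hb0 hbw h' h)
    · obtain ⟨e1, e2⟩ := HT_same hb0 hbw h h' he
      exact Prod.ext e1 e2
  have hmaps : Set.MapsTo (fun z : ℕ × ℕ => z.1 % w) (hxSet {0, a, b, w} w)
      (((Finset.range w) \ {0, a, b} : Finset ℕ) : Set ℕ) := by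
    intro z hz
    rw [Finset.mem_coe, Finset.mem_sdiff, Finset.mem_range]
    refine ⟨Nat.mod_lt _ hw, ?_⟩
    simp only [Finset.mem_insert, Finset.mem_singleton, not_or]
    rcases hHT z hz with h | h
    · exact HT_class ha0 haw hb0 hbw h
    · obtain ⟨e1, e2, e3⟩ := HT_class hb0 hbw ha0 haw h
      exact ⟨e1, e3, e2⟩
  have hfin : (hxSet {0, a, b, w} w).Finite :=
    Set.Finite.of_injOn hmaps hinj (Finset.finite_toSet _)
  refine ⟨hfin, ?_⟩
  have h5 := Set.ncard_le_ncard_of_injOn (fun z : ℕ × ℕ => z.1 % w) hmaps hinj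
    (Finset.finite_toSet _)
  rw [Set.ncard_coe_finset] at h5
  have h6 : ((Finset.range w) \ {0, a, b} : Finset ℕ).card + 3 = w := by
    have h7 : ({0, a, b} : Finset ℕ) ⊆ Finset.range w := by
      intro x hx
      simp only [Finset.mem_insert, Finset.mem_singleton] at hx
      rw [Finset.mem_range]
      rcases hx with rfl | rfl | rfl <;> omega
    have h8 : ({0, a, b} : Finset ℕ).card = 3 := by
      rw [Finset.card_insert_of_notMem, Finset.card_insert_of_notMem, Finset.card_singleton]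
      · simp [hab]
      · simp [Ne.symm ha2, Ne.symm hb2]
    have h9 := Finset.card_sdiff_add_card_eq_card h7
    rw [h8, Finset.card_range] at h9
    exact h9
  omega

end Pool.Agent.HS
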