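import Pool.Agent.HS.Defs

/-!
# The reciprocal sum over the corners of degree at least two
-/

namespace Pool.Agent.HS

namespace Recip

variable {A : Finset ℕ} {w : ℕ}

theorem QN_add {n β a : ℕ} (hβ : β ∈ QN A n) (ha : a ∈ A) : β + a ∈ QN A (n + 1) := by
  show β + a ∈ Finset.image₂ (· + ·) (QN A n) A
  exact Finset.mem_image₂_of_mem hβ ha

theorem QN_le (hA : GoodA A w) : ∀ {n α : ℕ}, α ∈ QN A n → α ≤ n * w := by
  intro n
  induction n with
  | zero =>
    intro α hα
    have : α = 0 := by simpa [QN] using hα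
    simp [this]
  | succ n ih =>
    intro α hα
    obtain ⟨β, hβ, a, ha, rfl⟩ := Finset.mem_image₂.mp hα
    have h1 := ih hβ
    have h2 := hA.hle a ha
    show β + a ≤ (n + 1) * w
    nlinarith

theorem QN_shift (hA : GoodA A w) {n β : ℕ} (hβ : β ∈ QN A n) (p q : ℕ) :
    β + q * w ∈ QN A (n + p + q) := by
  have h1 : ∀ p, β ∈ QN A (n + p) := by
    intro p
    induction p with
    | zero => exact hβ
    | succ p ih =>
      have h2 := QN_add ih hA.h0
      rw [add_zero] at h2
      exact h2
  induction q with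
  | zero => simpa using h1 p
  | succ q ih =>
    have := QN_add ih hA.hw
    rw [show β + (q + 1) * w = β + q * w + w by ring]
    exact this

/-- A corner has no proper predecessor. -/
theorem corner_no_pred (hA : GoodA A w) {β n p q : ℕ} (hβ : β ∈ QN A n)
    (hz : (β + q * w, n + p + q) ∈ cornerSet w (QN A)) : p = 0 ∧ q = 0 := by
  obtain ⟨_, h2⟩ := hz
  constructor
  · by_contra hp
    obtain ⟨p', rfl⟩ := Nat.exists_eq_succ_of_ne_zero hp
    have h3 := QN_shift hA hβ p' q
    refine (h2 (β + q * w, n + p' + q) h3).1 ?_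
    ext
    · simp
    · simp; omega
  · by_contra hq
    obtain ⟨q', rfl⟩ := Nat.exists_eq_succ_of_ne_zero hq
    have h3 := QN_shift hA hβ p q'
    refine (h2 (β + q' * w, n + p + q') h3).2 ?_
    ext
    · simp only [Prod.fst_add, Nat.succ_eq_add_one]; ring
    · simp only [Prod.snd_add, Nat.succ_eq_add_one]; ring

/-- corners whose class is met by `A` have degree at most one -/
theorem corner_class (hA : GoodA A w) {α N : ℕ} (hz : (α, N) ∈ cornerSet w (QN A))
    (hN : 2 ≤ N) : α % w ∉ A.image (· % w) := by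
  intro hmem
  obtain ⟨a', ha', haw⟩ := Finset.mem_image.mp hmem
  have hle : α ≤ N * w := QN_le hA hz.1
  have hw := hA.wpos
  -- normalise `a'` to be less than `w`
  obtain ⟨a, ha, hlt, hmod⟩ : ∃ a ∈ A, a < w ∧ a = α % w := by
    rcases Nat.lt_or_ge a' w with h | h
    · exact ⟨a', ha', h, by rw [← haw, Nat.mod_eq_of_lt h]⟩
    · have : a' = w := le_antisymm (hA.hle a' ha') h
      refine ⟨0, hA.h0, hw, ?_⟩
      rw [← haw, this, Nat.mod_self]
  have hdiv : α = a + (α / w) * w := by
    rw [hmod]; exact (Nat.mod_add_div' α w).symm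
  set t := α / w with ht
  rcases Nat.eq_zero_or_pos a with h0 | hpos
  · have htN : t ≤ N := by
      by_contra h
      have : (N + 1) * w ≤ t * w := Nat.mul_le_mul_right _ (by omega)
      nlinarith
    have h00 : (0 : ℕ) ∈ QN A 0 := by simp [QN]
    have := corner_no_pred hA (β := 0) (n := 0) (p := N - t) (q := t) h00 (by
      have e1 : (0 + t * w, 0 + (N - t) + t) = (α, N) := by
        ext
        · simp only; omega
        · simp only; omega
      rw [e1]; exact hz)
    omega
  · have htN : t + 1 ≤ N := by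
      by_contra h
      have : N * w ≤ t * w := Nat.mul_le_mul_right _ (by omega)
      omega
    have h1 : a ∈ QN A 1 := by
      have := QN_add (A := A) (n := 0) (β := 0) (a := a) (by simp [QN]) ha
      simpa using this
    have := corner_no_pred hA (β := a) (n := 1) (p := N - 1 - t) (q := t) h1 (by
      have e1 : (a + t * w, 1 + (N - 1 - t) + t) = (α, N) := by
        ext
        · simp only; omega
        · simp only; omega
      rw [e1]; exact hz)
    omega

/-- In a class not met by `A` the reciprocal sum is less than one. -/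
theorem class_sum (hA : GoodA A w) (E : Finset (ℕ × ℕ)) (r : ℕ) (hr0 : 0 < r)
    (hE : ∀ z ∈ E, z ∈ cornerSet w (QN A) ∧ 2 ≤ z.2 ∧ z.1 % w = r) :
    ∑ z ∈ E, 1 / ((z.2 : ℚ) + 1) < 1 := by
  have hw := hA.wpos
  rcases E.eq_empty_or_nonempty with rfl | hne
  · simp
  obtain ⟨z0, hz0, hmin⟩ := E.exists_min_image (fun z => z.2) hne
  -- coordinates
  have hcoord : ∀ z ∈ E, z.1 = r + (z.1 / w) * w ∧ z.1 / w + 1 ≤ z.2 := by
    intro z hz
    obtain ⟨hc, _, hmod⟩ := hE z hz
    have h1 : z.1 = r + (z.1 / w) * w := by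
      rw [← hmod]; exact (Nat.mod_add_div' z.1 w).symm
    refine ⟨h1, ?_⟩
    have hle : z.1 ≤ z.2 * w := QN_le hA hc.1
    by_contra h
    have : z.2 * w ≤ (z.1 / w) * w := Nat.mul_le_mul_right _ (by omega)
    omega
  -- incomparability
  have hinc : ∀ z ∈ E, ∀ z' ∈ E, z.1 / w ≤ z'.1 / w →
      z.2 - 1 - z.1 / w ≤ z'.2 - 1 - z'.1 / w → z = z' := by
    intro z hz z' hz' hq hp
    obtain ⟨e1, l1⟩ := hcoord z hz
    obtain ⟨e2, l2⟩ := hcoord z' hz'
    have hz1 := (hE z hz).1.1
    have hc' := (hE z' hz').1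
    set q := z.1 / w
    set q' := z'.1 / w
    have h3 : (z.1 + (q' - q) * w, z.2 + ((z'.2 - 1 - q') - (z.2 - 1 - q)) + (q' - q)) = z' := by
      ext
      · show z.1 + (q' - q) * w = z'.1
        have h4 : (q' - q) * w + q * w = q' * w := by
          rw [← add_mul]; congr 1; omega
        omega
      · show z.2 + ((z'.2 - 1 - q') - (z.2 - 1 - q)) + (q' - q) = z'.2
        omega
    have h5 := corner_no_pred hA (β := z.1) (n := z.2) (p := (z'.2 - 1 - q') - (z.2 - 1 - q))
      (q := q' - q) hz1 (by rw [h3]; exact hc')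
    rw [← h3, h5.1, h5.2]
    simp
  -- counting
  have hcard : E.card ≤ z0.2 := by
    obtain ⟨e0, l0⟩ := hcoord z0 hz0
    set q0 := z0.1 / w
    set p0 := z0.2 - 1 - q0
    let Eq := E.filter (fun z => z.1 / w < q0)
    let Ep := E.filter (fun z => z.2 - 1 - z.1 / w < p0)
    have hsub : E ⊆ insert z0 (Eq ∪ Ep) := by
      intro z hz
      rw [Finset.mem_insert, Finset.mem_union, Finset.mem_filter, Finset.mem_filter]
      by_contra hcon
      push Not at hcon
      obtain ⟨h1, h2, h3⟩ := hcon
      exact h1 (hinc z0 hz0 z hz (h2 hz) (h3 hz)).symm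
    have hEq : Eq.card ≤ q0 := by
      have := Finset.card_le_card_of_injOn (s := Eq) (t := Finset.range q0) (fun z => z.1 / w)
        (by
          intro z hz
          simpa using (Finset.mem_filter.mp hz).2)
        (by
          intro z hz z' hz' heq
          have hzE := (Finset.mem_filter.mp hz).1
          have hzE' := (Finset.mem_filter.mp hz').1
          simp only at heq
          rcases le_total (z.2 - 1 - z.1 / w) (z'.2 - 1 - z'.1 / w) with h | h
          · exact hinc z hzE z' hzE' heq.le h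
          · exact (hinc z' hzE' z hzE heq.ge h).symm)
      simpa using this
    have hEp : Ep.card ≤ p0 := by
      have := Finset.card_le_card_of_injOn (s := Ep) (t := Finset.range p0)
        (fun z => z.2 - 1 - z.1 / w)
        (by
          intro z hz
          simpa using (Finset.mem_filter.mp hz).2)
        (by
          intro z hz z' hz' heq
          have hzE := (Finset.mem_filter.mp hz).1
          have hzE' := (Finset.mem_filter.mp hz').1
          simp only at heq
          rcases le_total (z.1 / w) (z'.1 / w) with h | h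
          · exact hinc z hzE z' hzE' h heq.le
          · exact (hinc z' hzE' z hzE h heq.ge).symm)
      simpa using this
    have h1 := Finset.card_le_card hsub
    have h2 := Finset.card_insert_le z0 (Eq ∪ Ep)
    have h3 := Finset.card_union_le Eq Ep
    omega
  have hbound : ∑ z ∈ E, 1 / ((z.2 : ℚ) + 1) ≤ ∑ z ∈ E, 1 / ((z0.2 : ℚ) + 1) := by
    refine Finset.sum_le_sum fun z hz => ?_
    have h1 : (z0.2 : ℚ) ≤ z.2 := by exact_mod_cast hmin z hz
    refine one_div_le_one_div_of_le (by positivity) ?_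
    linarith
  rw [Finset.sum_const, nsmul_eq_mul] at hbound
  have hc : (E.card : ℚ) ≤ z0.2 := by exact_mod_cast hcard
  have hp : (0 : ℚ) < (z0.2 : ℚ) + 1 := by positivity
  have h6 : (E.card : ℚ) * (1 / ((z0.2 : ℚ) + 1)) < 1 := by
    rw [mul_one_div, div_lt_one hp]
    linarith
  exact lt_of_le_of_lt hbound h6

theorem card_missing (hA : GoodA A w) :
    (Finset.range w \ A.image (· % w)).card = w + 1 - A.card := by
  have hw := hA.wpos
  have himg : A.image (· % w) = A.erase w := by
    ext x
    rw [Finset.mem_image, Finset.mem_erase]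
    constructor
    · rintro ⟨a, ha, rfl⟩
      rcases Nat.lt_or_ge a w with h | h
      · simp only [Nat.mod_eq_of_lt h]
        exact ⟨by omega, ha⟩
      · have : a = w := le_antisymm (hA.hle a ha) h
        simp only [this, Nat.mod_self]
        exact ⟨by omega, hA.h0⟩
    · rintro ⟨h1, h2⟩
      have := hA.hle x h2
      exact ⟨x, h2, Nat.mod_eq_of_lt (by omega)⟩
  rw [himg, Finset.card_sdiff_of_subset, Finset.card_range, Finset.card_erase_of_mem hA.hw]
  · have : 1 ≤ A.card := Finset.card_pos.mpr ⟨0, hA.h0⟩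
    omega
  · intro x hx
    rw [Finset.mem_erase] at hx
    have := hA.hle x hx.2
    rw [Finset.mem_range]
    omega

end Recip

open Recip in
theorem recip_sum {A : Finset ℕ} {w : ℕ} (hA : GoodA A w) (D : Finset (ℕ × ℕ))
    (hD : ∀ z ∈ D, z ∈ cornerSet w (QN A) ∧ 2 ≤ z.2) :
    (∑ z ∈ D, 1 / ((z.2 : ℚ) + 1) ≤ ((w + 1 - A.card : ℕ) : ℚ)) ∧
    (A.card < w + 1 → ∑ z ∈ D, 1 / ((z.2 : ℚ) + 1) < ((w + 1 - A.card : ℕ) : ℚ)) := by
  have hw := hA.wpos
  set R := Finset.range w \ A.image (· % w) with hR
  have hmaps : ∀ z ∈ D, z.1 % w ∈ R := by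
    intro z hz
    rw [hR, Finset.mem_sdiff, Finset.mem_range]
    exact ⟨Nat.mod_lt _ hw, corner_class hA (hD z hz).1 (hD z hz).2⟩
  have hsplit := Finset.sum_fiberwise_of_maps_to hmaps (fun z : ℕ × ℕ => 1 / ((z.2 : ℚ) + 1))
  have hcl : ∀ r ∈ R, ∑ z ∈ D.filter (fun z => z.1 % w = r), 1 / ((z.2 : ℚ) + 1) < 1 := by
    intro r hr
    refine class_sum hA _ r ?_ ?_
    · rcases Nat.eq_zero_or_pos r with h | h
      · exfalso
        rw [hR, Finset.mem_sdiff] at hr
        exact hr.2 (Finset.mem_image.mpr ⟨0, hA.h0, by simp [h]⟩)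
      · exact h
    · intro z hz
      rw [Finset.mem_filter] at hz
      exact ⟨(hD z hz.1).1, (hD z hz.1).2, hz.2⟩
  have hcard : (R.card : ℚ) = ((w + 1 - A.card : ℕ) : ℚ) := by
    rw [hR, card_missing hA]
  rw [← hsplit, ← hcard]
  have hone : (R.card : ℚ) = ∑ r ∈ R, (1 : ℚ) := by simp
  rw [hone]
  constructor
  · exact Finset.sum_le_sum fun r hr => (hcl r hr).le
  · intro hlt
    refine Finset.sum_lt_sum_of_nonempty ?_ hcl
    rw [← Finset.card_pos]
    have : R.card = w + 1 - A.card := by rw [hR, card_missing hA]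
    omega

end Pool.Agent.HS
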