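import Pool.Agent.HS.Growth
import Pool.Agent.HS.Recip
import Pool.Agent.HS.Hx3

/-!
# The case `|A| = 4`
-/

namespace Pool.Agent.HS

namespace Crit3

open Hx3 Recip

variable {A : Finset ℕ} {w : ℕ}

theorem four_form (hA : GoodA A w) (h4 : A.card = 4) :
    ∃ a b, 0 < a ∧ a < b ∧ b < w ∧ A = {0, a, b, w} := by
  classical
  have hw := hA.wpos
  have h1 : ((A.erase 0).erase w).card = 2 := by
    rw [Finset.card_erase_of_mem (Finset.mem_erase.mpr ⟨hw.ne', hA.hw⟩),
      Finset.card_erase_of_mem hA.h0, h4]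
  obtain ⟨a, b, hab, hAab⟩ := Finset.card_eq_two.mp h1
  have ha : a ∈ (A.erase 0).erase w := by rw [hAab]; simp
  have hb : b ∈ (A.erase 0).erase w := by rw [hAab]; simp
  rw [Finset.mem_erase, Finset.mem_erase] at ha hb
  obtain ⟨ha1, ha2, ha3⟩ := ha
  obtain ⟨hb1, hb2, hb3⟩ := hb
  have haw : a < w := lt_of_le_of_ne (hA.hle a ha3) ha1
  have hbw : b < w := lt_of_le_of_ne (hA.hle b hb3) hb1
  have ha0 : 0 < a := Nat.pos_of_ne_zero ha2
  have hb0 : 0 < b := Nat.pos_of_ne_zero hb2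
  have hA' : A = {0, a, b, w} := by
    symm
    apply Finset.eq_of_subset_of_card_le
    · intro x hx
      simp only [Finset.mem_insert, Finset.mem_singleton] at hx
      rcases hx with rfl | rfl | rfl | rfl
      · exact hA.h0
      · exact ha3
      · exact hb3
      · exact hA.hw
    · rw [h4]
      have : ({0, a, b, w} : Finset ℕ).card = 4 := by
        rw [Finset.card_insert_of_notMem, Finset.card_insert_of_notMem,
          Finset.card_insert_of_notMem, Finset.card_singleton]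
        · simp [hb1]
        · simp [hab, ha1]
        · simp [Ne.symm ha2, Ne.symm hb2, hw.ne]
      omega
  rcases Nat.lt_or_gt_of_ne hab with h | h
  · exact ⟨a, b, ha0, h, hbw, hA'⟩
  · refine ⟨b, a, hb0, h, haw, ?_⟩
    rw [hA']
    ext x
    simp only [Finset.mem_insert, Finset.mem_singleton]
    tauto

/-- at least about half of the numbers below `b` are not multiples of `a ≥ 2` -/
theorem nonmult {a : ℕ} (ha : 2 ≤ a) :
    ∀ b, b ≤ 2 * ((Finset.range b).filter (fun n => ¬ a ∣ n)).card + 1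
  | 0 => by simp
  | 1 => by omega
  | b + 2 => by
    have ih := nonmult ha b
    rw [Finset.card_filter] at ih ⊢
    rw [Finset.sum_range_succ, Finset.sum_range_succ]
    by_cases h1 : a ∣ b
    · by_cases h2 : a ∣ b + 1
      · exfalso
        have h3 : a ∣ 1 := (Nat.dvd_add_right h1).mp h2
        have := Nat.le_of_dvd one_pos h3
        omega
      · rw [if_pos h2]
        omega
    · rw [if_pos h1]
      omega

theorem four_sK_two (d : ℕ) : 4 * sK d 2 ≤ (d + 1) * (d + 1) := by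
  rcases Nat.even_or_odd' d with ⟨t, rfl | rfl⟩
  · rw [sK_two]
    nlinarith
  · rw [sK_succ _ _ (by norm_num), sK_two]
    have h2 : 2 * t / 2 = t := by omega
    rw [h2]
    nlinarith

theorem four_sA (hA : GoodA A w) (h4 : A.card = 4) : 4 * sA w A ≤ (w - 2) * (w - 2) := by
  have : NeZero w := ⟨hA.wpos.ne'⟩
  obtain ⟨κ, h1, h2, h3⟩ := growth (md w A) (zero_mem_md hA) (closure_md hA)
  rw [ZMod.card] at h1
  rw [card_md_A hA, h4] at h2
  have h5 : sA w A ≤ sK (w + 1 - A.card) 2 := by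
    apply sA_le_sK_of_growth hA 2 (by norm_num)
    intro B hB
    exact le_trans (by omega) (h1 B hB)
  have h6 := four_sK_two (w + 1 - A.card)
  have h7 := card_le' hA
  rw [h4] at h5 h6 h7
  have h8 : w + 1 - 4 + 1 = w - 2 := by omega
  rw [h8] at h6
  omega

/-- the gap bound -/
theorem exists_gap {a b : ℕ} (hA : GoodA {0, a, b, w} w) (ha : 0 < a) (hab : a < b) (hbw : b < w)
    (hne : ¬ (a = 1 ∧ b + 1 = w)) : ∃ G, GapBound {0, a, b, w} w G ∧ w ≤ 2 * G + 2 := by
  classical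
  -- the two sets of gaps
  let L1 : Finset ℕ := if 2 ≤ a then (Finset.range b).filter (fun n => ¬ a ∣ n) else ∅
  let L2 : Finset ℕ := if 2 ≤ w - b then (Finset.range (w - a)).filter (fun n => ¬ (w - b) ∣ n)
    else ∅
  have h1 : ∀ N, ∀ α ∈ QN {0, a, b, w} N, α ∉ L1 := by
    intro N α hα hL
    simp only [L1] at hL
    split_ifs at hL with h2
    · rw [Finset.mem_filter, Finset.mem_range] at hL
      obtain ⟨j, k, l, _, rfl⟩ := rep_of_mem hα
      have hk : k = 0 := by
        by_contra hk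
        have : 1 * b ≤ k * b := Nat.mul_le_mul_right _ (by omega)
        omega
      have hl : l = 0 := by
        by_contra hl
        have : 1 * w ≤ l * w := Nat.mul_le_mul_right _ (by omega)
        omega
      subst hk hl
      exact hL.2 ⟨j, by ring⟩
    · simp at hL
  have h2 : ∀ N, ∀ α ∈ QN {0, a, b, w} N, N * w - α ∉ L2 := by
    intro N α hα hL
    simp only [L2] at hL
    split_ifs at hL with h2
    · rw [Finset.mem_filter, Finset.mem_range] at hL
      obtain ⟨j, k, l, hs, rfl⟩ := rep_of_mem hα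
      obtain ⟨i, rfl⟩ : ∃ i, N = i + j + k + l := ⟨N - (j + k + l), by omega⟩
      obtain ⟨u, rfl⟩ : ∃ u, w = b + u := ⟨w - b, by omega⟩
      obtain ⟨v, rfl⟩ : ∃ v, b = a + v := ⟨b - a, by omega⟩
      have e : (i + j + k + l) * (a + v + u) - (j * a + k * (a + v) + l * (a + v + u)) =
          i * (a + v + u) + j * (v + u) + k * u := by
        have : (i + j + k + l) * (a + v + u) = i * (a + v + u) + j * (v + u) + k * u +
          (j * a + k * (a + v) + l * (a + v + u)) := by ring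
        omega
      rw [e] at hL
      have hi : i = 0 := by
        by_contra hi
        have : 1 * (a + v + u) ≤ i * (a + v + u) := Nat.mul_le_mul_right _ (by omega)
        omega
      have hj : j = 0 := by
        by_contra hj
        have : 1 * (v + u) ≤ j * (v + u) := Nat.mul_le_mul_right _ (by omega)
        omega
      subst hi hj
      apply hL.2
      have : a + v + u - (a + v) = u := by omega
      rw [this]
      exact ⟨k, by ring⟩
    · simp at hL
  refine ⟨L1.card + L2.card, gapBound_of hA L1 L2 h1 h2, ?_⟩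
  by_cases ha2 : 2 ≤ a
  · have c1 : b ≤ 2 * L1.card + 1 := by
      simp only [L1]
      rw [if_pos ha2]
      exact nonmult ha2 b
    by_cases hb2 : 2 ≤ w - b
    · have c2 : w - a ≤ 2 * L2.card + 1 := by
        simp only [L2]
        rw [if_pos hb2]
        exact nonmult hb2 (w - a)
      omega
    · omega
  · by_cases hb2 : 2 ≤ w - b
    · have c2 : w - a ≤ 2 * L2.card + 1 := by
        simp only [L2]
        rw [if_pos hb2]
        exact nonmult hb2 (w - a)
      omega
    · exfalso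
      apply hne
      omega

theorem harm (m : ℕ) : ∑ N ∈ Finset.range m, 1 / (((N + 2 : ℕ) : ℚ) + 1) < ((m : ℚ) + 1) / 4 := by
  rcases Nat.eq_zero_or_pos m with rfl | hm
  · norm_num
  · induction m, hm using Nat.le_induction with
    | base => norm_num
    | succ m hm ih =>
      rw [Finset.sum_range_succ]
      have h1 : 1 / (((m + 2 : ℕ) : ℚ) + 1) ≤ 1 / 4 := by
        apply one_div_le_one_div_of_le (by norm_num)
        have : (1 : ℚ) ≤ m := by exact_mod_cast hm
        push_cast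
        linarith
      push_cast at ih h1 ⊢
      linarith

/-- corners of degree `≥ 2` for `A = {0, 1, w-1, w}` -/
theorem corner_special {m : ℕ} (hA : GoodA {0, 1, m + 2, m + 3} (m + 3)) {α N : ℕ}
    (hz : (α, N) ∈ cornerSet (m + 3) (QN {0, 1, m + 2, m + 3})) (hN : 2 ≤ N) :
    N < m + 2 ∧ (α = N ∨ α = N * (m + 2)) := by
  obtain ⟨h1, h2⟩ := hz
  have h1A : (1 : ℕ) ∈ ({0, 1, m + 2, m + 3} : Finset ℕ) := by simp
  have h2A : m + 2 ∈ ({0, 1, m + 2, m + 3} : Finset ℕ) := by simp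
  obtain ⟨M, rfl⟩ : ∃ M, N = M + 1 := ⟨N - 1, by omega⟩
  have P : ∀ j k l, j + k + l ≤ M → j * 1 + k * (m + 2) + l * (m + 3) ≠ α := by
    intro j k l hs he
    refine (h2 (α, M) ?_).1 rfl
    show α ∈ QN _ M
    rw [← he]
    exact mem_of_rep hA h1A h2A hs
  have Q : ∀ j k l, j + k + l ≤ M → j * 1 + k * (m + 2) + l * (m + 3) + (m + 3) ≠ α := by
    intro j k l hs he
    refine (h2 (j * 1 + k * (m + 2) + l * (m + 3), M) (mem_of_rep hA h1A h2A hs)).2 ?_
    ext
    · exact he
    · rfl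
  obtain ⟨j, k, l, hs, he⟩ := rep_of_mem (show α ∈ QN {0, 1, m + 2, m + 3} (M + 1) from h1)
  have hsum : j + k + l = M + 1 := by
    by_contra hne
    exact P j k l (by omega) he.symm
  have hl : l = 0 := by
    by_contra hne
    obtain ⟨ν, rfl⟩ : ∃ ν, l = ν + 1 := ⟨l - 1, by omega⟩
    refine Q j k ν (by omega) ?_
    rw [he]; ring
  subst hl
  rcases Nat.eq_zero_or_pos j with hj | hj
  · subst hj
    have hk : k = M + 1 := by omega
    subst hk
    refine ⟨?_, Or.inr (by rw [he]; ring)⟩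
    by_contra hge
    push Not at hge
    obtain ⟨e, he'⟩ : ∃ e, M + 1 = m + 2 + e := ⟨M + 1 - (m + 2), by omega⟩
    refine Q 1 e m (by omega) ?_
    rw [he, he']; ring
  · rcases Nat.eq_zero_or_pos k with hk | hk
    · subst hk
      have hj' : j = M + 1 := by omega
      subst hj'
      refine ⟨?_, Or.inl (by rw [he]; ring)⟩
      by_contra hge
      push Not at hge
      obtain ⟨e, he'⟩ : ∃ e, M + 1 = m + 2 + e := ⟨M + 1 - (m + 2), by omega⟩
      refine P e 1 0 (by omega) ?_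
      rw [he, he']; ring
    · exfalso
      obtain ⟨j', rfl⟩ : ∃ j', j = j' + 1 := ⟨j - 1, by omega⟩
      obtain ⟨k', rfl⟩ : ∃ k', k = k' + 1 := ⟨k - 1, by omega⟩
      refine P j' k' 1 (by omega) ?_
      rw [he]; ring

theorem special_sum {m : ℕ} (hA : GoodA {0, 1, m + 2, m + 3} (m + 3)) (D : Finset (ℕ × ℕ))
    (hD : ∀ z ∈ D, z ∈ cornerSet (m + 3) (QN {0, 1, m + 2, m + 3}) ∧ 2 ≤ z.2) :
    ∑ z ∈ D, 1 / ((z.2 : ℚ) + 1) < ((m : ℚ) + 1) / 2 := by
  classical
  let E1 : Finset (ℕ × ℕ) := (Finset.range m).image fun N => (N + 2, N + 2)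
  let E2 : Finset (ℕ × ℕ) := (Finset.range m).image fun N => ((N + 2) * (m + 2), N + 2)
  have hsub : D ⊆ E1 ∪ E2 := by
    intro z hz
    obtain ⟨α, N⟩ := z
    obtain ⟨h1, h2⟩ := hD _ hz
    obtain ⟨h3, h4⟩ := corner_special hA h1 h2
    simp only at h2
    rw [Finset.mem_union]
    rcases h4 with h4 | h4
    · left
      rw [Finset.mem_image]
      exact ⟨N - 2, Finset.mem_range.mpr (by omega), by
        ext
        · simp only; omega
        · simp only; omega⟩
    · right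
      rw [Finset.mem_image]
      refine ⟨N - 2, Finset.mem_range.mpr (by omega), ?_⟩
      have : N - 2 + 2 = N := by omega
      rw [this, h4]
  have hpos : ∀ z : ℕ × ℕ, (0 : ℚ) ≤ 1 / ((z.2 : ℚ) + 1) := fun z => by positivity
  have h1 : ∑ z ∈ D, 1 / ((z.2 : ℚ) + 1) ≤ ∑ z ∈ E1 ∪ E2, 1 / ((z.2 : ℚ) + 1) :=
    Finset.sum_le_sum_of_subset_of_nonneg hsub fun z _ _ => hpos z
  have h2 := Finset.sum_union_inter (s₁ := E1) (s₂ := E2) (f := fun z : ℕ × ℕ => 1 / ((z.2 : ℚ) + 1))
  have h3 : (0 : ℚ) ≤ ∑ z ∈ E1 ∩ E2, 1 / ((z.2 : ℚ) + 1) := Finset.sum_nonneg fun z _ => hpos z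
  have h4 : ∑ z ∈ E1, 1 / ((z.2 : ℚ) + 1) = ∑ N ∈ Finset.range m, 1 / (((N + 2 : ℕ) : ℚ) + 1) := by
    rw [Finset.sum_image]
    intro x _ y _ hxy
    have := congrArg Prod.snd hxy
    simp only at this
    omega
  have h5 : ∑ z ∈ E2, 1 / ((z.2 : ℚ) + 1) = ∑ N ∈ Finset.range m, 1 / (((N + 2 : ℕ) : ℚ) + 1) := by
    rw [Finset.sum_image]
    intro x _ y _ hxy
    have := congrArg Prod.snd hxy
    simp only at this
    omega
  have h6 := harm m
  rw [h4, h5] at h2
  linarith

end Crit3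

open Crit3 in
theorem crit3 {A : Finset ℕ} {w : ℕ} (hA : GoodA A w) (h4 : A.card = 4) (D : Finset (ℕ × ℕ))
    (hD : ∀ z ∈ D, z ∈ cornerSet w (QN A) ∧ 2 ≤ z.2) :
    ∃ G, GapBound A w G ∧ ∑ z ∈ D, 1 / ((z.2 : ℚ) + 1) + 2 * (sA w A : ℚ) - G <
      ((w : ℚ) - 2) * (w - 1) / 2 := by
  have hs := four_sA hA h4
  obtain ⟨a, b, ha, hab, hbw, hAf⟩ := four_form hA h4
  obtain ⟨m, rfl⟩ : ∃ m, w = m + 3 := ⟨w - 3, by omega⟩
  have h8 : m + 3 - 2 = m + 1 := by omega
  rw [h8] at hs
  have hsq : 4 * (sA (m + 3) A : ℚ) ≤ ((m : ℚ) + 1) * (m + 1) := by exact_mod_cast hs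
  by_cases hne : a = 1 ∧ b + 1 = m + 3
  · obtain ⟨ha1, hb1⟩ := hne
    have hb2 : b = m + 2 := by omega
    subst ha1 hb2
    refine ⟨0, gapBound_zero hA, ?_⟩
    have h1 : ∑ z ∈ D, 1 / ((z.2 : ℚ) + 1) < ((m : ℚ) + 1) / 2 := by
      subst hAf
      exact special_sum hA D hD
    push_cast
    nlinarith
  · obtain ⟨h1, _⟩ := recip_sum hA D hD
    rw [h4] at h1
    have h9 : m + 3 + 1 - 4 = m := by omega
    rw [h9] at h1
    have hex : ∃ G, GapBound A (m + 3) G ∧ m + 3 ≤ 2 * G + 2 := by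
      rw [hAf] at hA ⊢
      exact exists_gap hA ha hab hbw hne
    obtain ⟨G, hG, hG2⟩ := hex
    refine ⟨G, hG, ?_⟩
    have hGq : (m : ℚ) + 3 ≤ 2 * G + 2 := by exact_mod_cast hG2
    push_cast
    nlinarith

end Pool.Agent.HS
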