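import Mathlib

/-!
# Growth of sumsets in finite abelian groups: atoms

For a finite abelian group `G` and `A ⊆ G` with `0 ∈ A` which generates `G`, there is a subgroup `H`
with `H + A ≠ G` minimising `|X + A| - |X|` over all nonempty `X` with `X + A ≠ G` (if there are any).
-/

namespace Pool.Agent.HS

open scoped Pointwise

variable {G : Type*} [AddCommGroup G] [Fintype G] [DecidableEq G]

/-- nonempty sets `X` with `X + A ≠ G` -/
def Fam (A : Finset G) (X : Finset G) : Prop := X.Nonempty ∧ X + A ≠ Finset.univ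

/-- the boundary size -/
def bd (A X : Finset G) : ℕ := (X + A).card - X.card

omit [Fintype G] in
theorem card_le_add (A : Finset G) (h0 : 0 ∈ A) (X : Finset G) : X.card ≤ (X + A).card := by
  apply Finset.card_le_card
  intro x hx
  rw [Finset.mem_add]
  exact ⟨x, hx, 0, h0, add_zero x⟩

omit [Fintype G] in
theorem bd_spec (A : Finset G) (h0 : 0 ∈ A) (X : Finset G) : (X + A).card = X.card + bd A X := by
  have := card_le_add A h0 X
  rw [bd]
  omega

theorem submod (A : Finset G) (h0 : 0 ∈ A) (X Y : Finset G) :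
    bd A (X ∪ Y) + bd A (X ∩ Y) ≤ bd A X + bd A Y := by
  have h1 := bd_spec A h0 (X ∪ Y)
  have h2 := bd_spec A h0 (X ∩ Y)
  have h3 := bd_spec A h0 X
  have h4 := bd_spec A h0 Y
  have h5 : (X ∪ Y) + A = (X + A) ∪ (Y + A) := Finset.union_add
  have h6 : (X ∩ Y) + A ⊆ (X + A) ∩ (Y + A) := Finset.inter_add_subset
  have h7 := Finset.card_le_card h6
  have h8 := Finset.card_union_add_card_inter (X + A) (Y + A)
  have h9 := Finset.card_union_add_card_inter X Y
  rw [h5] at h1
  omega

/-- the complementary set -/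
theorem compl_fam (A : Finset G) (h0 : 0 ∈ A) (Y : Finset G) (hY : Fam A Y) :
    Fam A (-(Finset.univ \ (Y + A))) ∧ bd A (-(Finset.univ \ (Y + A))) ≤ bd A Y ∧
      (-(Finset.univ \ (Y + A))).card + (Y + A).card = Fintype.card G := by
  set Z := -(Finset.univ \ (Y + A)) with hZ
  have hcard : Z.card + (Y + A).card = Fintype.card G := by
    rw [hZ, Finset.card_neg, Finset.card_sdiff_add_card_eq_card (Finset.subset_univ _),
      Finset.card_univ]
  have hsub : Z + A ⊆ Finset.univ \ (-Y) := by
    intro u hu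
    rw [Finset.mem_add] at hu
    obtain ⟨z, hz, a, ha, rfl⟩ := hu
    rw [Finset.mem_sdiff]
    refine ⟨Finset.mem_univ _, fun hy => ?_⟩
    rw [Finset.mem_neg'] at hy
    rw [hZ, Finset.mem_neg', Finset.mem_sdiff] at hz
    apply hz.2
    rw [Finset.mem_add]
    exact ⟨-(z + a), hy, a, ha, by abel⟩
  have hsubc := Finset.card_le_card hsub
  have h1 : (Finset.univ \ (-Y)).card + Y.card = Fintype.card G := by
    have := Finset.card_sdiff_add_card_eq_card (Finset.subset_univ (-Y))
    rwa [Finset.card_neg, Finset.card_univ] at this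
  have hYpos := hY.1.card_pos
  have h2 : (Y + A).card < Fintype.card G := by
    rw [← Finset.card_univ]
    exact Finset.card_lt_card (Finset.ssubset_univ_iff.mpr hY.2)
  have h3 := bd_spec A h0 Z
  have h4 := bd_spec A h0 Y
  refine ⟨⟨?_, ?_⟩, ?_, hcard⟩
  · rw [← Finset.card_pos]; omega
  · intro h
    rw [h, Finset.card_univ] at hsubc
    omega
  · omega

omit [Fintype G] in
theorem vadd_add' (A X : Finset G) (g : G) : (g +ᵥ X) + A = g +ᵥ (X + A) :=
  vadd_add_assoc g X A

omit [Fintype G] in
theorem bd_vadd (A X : Finset G) (g : G) : bd A (g +ᵥ X) = bd A X := by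
  rw [bd, bd, vadd_add', Finset.card_vadd_finset, Finset.card_vadd_finset]

theorem fam_vadd (A X : Finset G) (g : G) (hX : Fam A X) : Fam A (g +ᵥ X) := by
  refine ⟨hX.1.vadd_finset, fun h => hX.2 ?_⟩
  rw [vadd_add'] at h
  have h1 : (-g) +ᵥ (g +ᵥ (X + A)) = (-g) +ᵥ (Finset.univ : Finset G) := by rw [h]
  rw [neg_vadd_vadd, Finset.vadd_finset_univ] at h1
  exact h1

/-- two minimal fragments which meet coincide -/
theorem atoms_eq (A : Finset G) (h0 : 0 ∈ A) (κ c : ℕ)
    (hκ : ∀ X, Fam A X → κ ≤ bd A X) (hc : ∀ X, Fam A X → bd A X = κ → c ≤ X.card)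
    (X Y : Finset G) (hX : Fam A X) (hY : Fam A Y) (hXκ : bd A X = κ) (hYκ : bd A Y = κ)
    (hXc : X.card = c) (hYc : Y.card = c) (hne : (X ∩ Y).Nonempty) : X = Y := by
  by_contra hXY
  have h1 : (X ∩ Y).card < c := by
    rw [← hXc]
    apply Finset.card_lt_card
    rw [Finset.ssubset_iff_subset_ne]
    refine ⟨Finset.inter_subset_left, fun h => hXY ?_⟩
    have h2 : X ⊆ Y := by
      rw [← h]; exact Finset.inter_subset_right
    exact Finset.eq_of_subset_of_card_le h2 (by omega)
  have hF : Fam A (X ∩ Y) := by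
    refine ⟨hne, fun h => hX.2 ?_⟩
    rw [← Finset.univ_subset_iff] at h ⊢
    exact h.trans (Finset.add_subset_add_right Finset.inter_subset_left)
  have h2 : κ < bd A (X ∩ Y) := by
    have h3 := hκ _ hF
    rcases h3.lt_or_eq with h | h
    · exact h
    · have := hc _ hF h.symm
      omega
  have h3 := submod A h0 X Y
  have h4 : (X ∪ Y) + A = Finset.univ := by
    by_contra h
    have : Fam A (X ∪ Y) := ⟨hX.1.mono Finset.subset_union_left, h⟩
    have := hκ _ this
    omega
  have h5 := bd_spec A h0 (X ∪ Y)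
  rw [h4, Finset.card_univ] at h5
  have h6 := Finset.card_union_add_card_inter X Y
  obtain ⟨hZ1, hZ2, hZ3⟩ := compl_fam A h0 Y hY
  have h7 := hc _ hZ1 (le_antisymm (hZ2.trans hYκ.le) (hκ _ hZ1))
  have h8 := bd_spec A h0 Y
  have h9 := hne.card_pos
  omega

/-- there is a subgroup which minimises the boundary, unless `A` is everything -/
theorem exists_subgroup (A : Finset G) (h0 : 0 ∈ A) (hA : A ≠ Finset.univ) :
    ∃ H : Finset G, 0 ∈ H ∧ (∀ a ∈ H, ∀ b ∈ H, a - b ∈ H) ∧ H + A ≠ Finset.univ ∧
      ∀ X, Fam A X → bd A H ≤ bd A X := by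
  classical
  have hex : ∃ k, ∃ X, Fam A X ∧ bd A X = k :=
    ⟨_, {0}, ⟨Finset.singleton_nonempty 0, by rwa [Finset.singleton_add, zero_vadd]⟩, rfl⟩
  obtain ⟨X1, hX1, hX1κ⟩ := Nat.find_spec hex
  set κ := Nat.find hex with hκdef
  have hκ : ∀ X, Fam A X → κ ≤ bd A X := fun X hX => Nat.find_min' hex ⟨X, hX, rfl⟩
  have hex2 : ∃ c, ∃ X, (Fam A X ∧ bd A X = κ) ∧ X.card = c := ⟨_, X1, ⟨hX1, hX1κ⟩, rfl⟩
  obtain ⟨X0, ⟨hX0, hX0κ⟩, hX0c⟩ := Nat.find_spec hex2
  set c := Nat.find hex2 with hcdef
  have hc : ∀ X, Fam A X → bd A X = κ → c ≤ X.card :=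
    fun X hX hX2 => Nat.find_min' hex2 ⟨X, ⟨hX, hX2⟩, rfl⟩
  obtain ⟨x0, hx0⟩ := hX0.1
  have key : ∀ g : G, Fam A (g +ᵥ X0) ∧ bd A (g +ᵥ X0) = κ ∧ (g +ᵥ X0).card = c := fun g =>
    ⟨fam_vadd A X0 g hX0, by rw [bd_vadd, hX0κ], by rw [Finset.card_vadd_finset, hX0c]⟩
  have hH0 : (0 : G) ∈ (-x0) +ᵥ X0 := by
    rw [Finset.mem_vadd_finset]
    exact ⟨x0, hx0, by simp⟩
  refine ⟨(-x0) +ᵥ X0, hH0, ?_, (key (-x0)).1.2, fun X hX => ?_⟩
  · intro a ha b hb
    have h1 : (-b) +ᵥ ((-x0) +ᵥ X0) = (-x0) +ᵥ X0 := by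
      have h2 : (-b) +ᵥ ((-x0) +ᵥ X0) = (-b + -x0) +ᵥ X0 := by rw [add_vadd]
      apply atoms_eq A h0 κ c hκ hc
      · rw [h2]; exact (key _).1
      · exact (key _).1
      · rw [h2]; exact (key _).2.1
      · exact (key _).2.1
      · rw [h2]; exact (key _).2.2
      · exact (key _).2.2
      · refine ⟨0, Finset.mem_inter.mpr ⟨?_, hH0⟩⟩
        rw [Finset.mem_vadd_finset]
        exact ⟨b, hb, by simp⟩
    rw [← h1, Finset.mem_vadd_finset]
    exact ⟨a, ha, by rw [vadd_eq_add]; abel⟩
  · rw [(key _).2.1]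
    exact hκ X hX

/-- the structure of the minimising subgroup -/
theorem main_structure (A : Finset G) (h0 : 0 ∈ A)
    (hgen : AddSubgroup.closure (A : Set G) = ⊤) (hA : A ≠ Finset.univ) :
    ∃ H : Finset G, 0 ∈ H ∧ (∀ a ∈ H, ∀ b ∈ H, a - b ∈ H) ∧ H.card ≤ bd A H ∧
      A ⊆ H + A ∧
      ∀ X, X.Nonempty → min (Fintype.card G) (X.card + bd A H) ≤ (X + A).card := by
  obtain ⟨H, hH0, hHsub, hHA, hmin⟩ := exists_subgroup A h0 hA
  refine ⟨H, hH0, hHsub, ?_, ?_, ?_⟩
  · -- some element of `A` is not in `H`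
    have h1 : ¬ A ⊆ H := by
      intro hsub
      let K : AddSubgroup G :=
        { carrier := (H : Set G)
          zero_mem' := hH0
          add_mem' := by
            intro a b ha hb
            have h2 : (0 : G) - b ∈ H := hHsub 0 hH0 b hb
            have h3 := hHsub a ha _ h2
            rwa [zero_sub, sub_neg_eq_add] at h3
          neg_mem' := by
            intro a ha
            have h2 := hHsub 0 hH0 a ha
            rwa [zero_sub] at h2 }
      have h2 : AddSubgroup.closure (A : Set G) ≤ K := by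
        rw [AddSubgroup.closure_le]
        exact fun a ha => hsub ha
      rw [hgen, top_le_iff] at h2
      apply hHA
      rw [Finset.eq_univ_iff_forall]
      intro g
      have h3 : g ∈ K := by rw [h2]; trivial
      rw [Finset.mem_add]
      exact ⟨g, h3, 0, h0, add_zero g⟩
    rw [Finset.not_subset] at h1
    obtain ⟨a, ha, haH⟩ := h1
    have h2 : H ∪ (a +ᵥ H) ⊆ H + A := by
      apply Finset.union_subset
      · intro x hx
        rw [Finset.mem_add]
        exact ⟨x, hx, 0, h0, add_zero x⟩
      · intro x hx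
        rw [Finset.mem_vadd_finset] at hx
        obtain ⟨y, hy, rfl⟩ := hx
        rw [Finset.mem_add]
        exact ⟨y, hy, a, ha, by rw [vadd_eq_add, add_comm]⟩
    have h3 : Disjoint H (a +ᵥ H) := by
      rw [Finset.disjoint_left]
      intro x hx hx2
      rw [Finset.mem_vadd_finset] at hx2
      obtain ⟨y, hy, rfl⟩ := hx2
      apply haH
      have := hHsub _ hx y hy
      rwa [vadd_eq_add, add_sub_cancel_right] at this
    have h4 := Finset.card_le_card h2
    rw [Finset.card_union_of_disjoint h3, Finset.card_vadd_finset] at h4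
    have h5 := bd_spec A h0 H
    omega
  · intro a ha
    rw [Finset.mem_add]
    exact ⟨0, hH0, a, ha, zero_add a⟩
  · intro X hX
    by_cases h : X + A = Finset.univ
    · rw [h, Finset.card_univ]
      exact min_le_left _ _
    · have h1 := hmin X ⟨hX, h⟩
      have h2 := bd_spec A h0 X
      refine le_trans (min_le_right _ _) ?_
      omega

theorem growth (A : Finset G) (h0 : 0 ∈ A) (hgen : AddSubgroup.closure (A : Set G) = ⊤) :
    ∃ κ : ℕ, (∀ B : Finset G, B.Nonempty → min (Fintype.card G) (B.card + κ) ≤ (B + A).card) ∧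
      A.card ≤ 2 * κ ∧ 1 ≤ κ := by
  by_cases hA : A = Finset.univ
  · refine ⟨A.card, fun B hB => ?_, by omega, Finset.card_pos.mpr ⟨0, h0⟩⟩
    have h1 : B + A = Finset.univ := by
      obtain ⟨b, hb⟩ := hB
      rw [Finset.eq_univ_iff_forall]
      intro g
      rw [Finset.mem_add]
      exact ⟨b, hb, g - b, by rw [hA]; exact Finset.mem_univ _, add_sub_cancel b g⟩
    rw [h1, Finset.card_univ]
    exact min_le_left _ _
  · obtain ⟨H, hH0, -, hH1, hH2, hH3⟩ := main_structure A h0 hgen hA
    refine ⟨bd A H, hH3, ?_, ?_⟩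
    · have h1 := Finset.card_le_card hH2
      have h2 := bd_spec A h0 H
      omega
    · have : 0 < H.card := Finset.card_pos.mpr ⟨0, hH0⟩
      omega

theorem growth_three (A : Finset G) (h0 : 0 ∈ A) (hgen : AddSubgroup.closure (A : Set G) = ⊤)
    (h4 : 4 ≤ A.card)
    (hns : A.card = 4 → ¬ ∃ h x : G, h ≠ 0 ∧ h + h = 0 ∧ A = {0, h, x, x + h}) :
    ∀ B : Finset G, B.Nonempty → min (Fintype.card G) (B.card + 3) ≤ (B + A).card := by
  by_cases hA : A = Finset.univ
  · intro B hB
    have h1 : B + A = Finset.univ := by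
      obtain ⟨b, hb⟩ := hB
      rw [Finset.eq_univ_iff_forall]
      intro g
      rw [Finset.mem_add]
      exact ⟨b, hb, g - b, by rw [hA]; exact Finset.mem_univ _, add_sub_cancel b g⟩
    rw [h1, Finset.card_univ]
    exact min_le_left _ _
  · obtain ⟨H, hH0, hHsub, hH1, hH2, hH3⟩ := main_structure A h0 hgen hA
    have h1 := Finset.card_le_card hH2
    have h2 := bd_spec A h0 H
    have hpos : 0 < H.card := Finset.card_pos.mpr ⟨0, hH0⟩
    rcases Nat.lt_or_ge (bd A H) 3 with hlt | hge
    · exfalso
      have hc4 : A.card = 4 := by omega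
      have hH4 : H.card = 2 := by omega
      have heq : A = H + A := Finset.eq_of_subset_of_card_le hH2 (by omega)
      -- `H = {0, h}`
      obtain ⟨h, hhH, hh0⟩ : ∃ h ∈ H, h ≠ 0 := by
        by_contra hcon
        push Not at hcon
        have : H ⊆ {0} := fun x hx => Finset.mem_singleton.mpr (hcon x hx)
        have := Finset.card_le_card this
        rw [Finset.card_singleton] at this
        omega
      have hHeq : H = {0, h} := by
        symm
        apply Finset.eq_of_subset_of_card_le
        · intro x hx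
          rw [Finset.mem_insert, Finset.mem_singleton] at hx
          rcases hx with rfl | rfl
          · exact hH0
          · exact hhH
        · rw [hH4, Finset.card_pair hh0.symm]
      have hhh : h + h = 0 := by
        have h5 : (0 : G) - h ∈ H := hHsub 0 hH0 h hhH
        rw [hHeq, Finset.mem_insert, Finset.mem_singleton] at h5
        rcases h5 with h5 | h5
        · rw [zero_sub, neg_eq_zero] at h5
          exact absurd h5 hh0
        · rw [zero_sub] at h5
          rw [← h5]
          nth_rewrite 2 [h5]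
          simp
      have hA0 : ∀ a ∈ A, a + h ∈ A := by
        intro a ha
        rw [heq, Finset.mem_add]
        exact ⟨h, hhH, a, ha, add_comm _ _⟩
      have hhA : h ∈ A := by
        have := hA0 0 h0
        rwa [zero_add] at this
      obtain ⟨x, hxA, hx⟩ : ∃ x ∈ A, x ∉ ({0, h} : Finset G) := by
        by_contra hcon
        push Not at hcon
        have h6 : A ⊆ {0, h} := hcon
        have := Finset.card_le_card h6
        rw [Finset.card_pair hh0.symm] at this
        omega
      rw [Finset.mem_insert, Finset.mem_singleton, not_or] at hx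
      refine hns hc4 ⟨h, x, hh0, hhh, ?_⟩
      symm
      apply Finset.eq_of_subset_of_card_le
      · intro y hy
        simp only [Finset.mem_insert, Finset.mem_singleton] at hy
        rcases hy with rfl | rfl | rfl | rfl
        · exact h0
        · exact hhA
        · exact hxA
        · exact hA0 _ hxA
      · rw [hc4]
        have hxh : x + h ≠ 0 := by
          intro h7
          apply hx.2
          have : x = -h := eq_neg_of_add_eq_zero_left h7
          rw [this]
          exact neg_eq_of_add_eq_zero_left hhh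
        have hxh2 : h ≠ x + h := by
          intro h7
          exact hx.1 (by simpa using h7)
        have hxh3 : x ≠ x + h := by
          intro h7
          exact hh0 (by simpa using h7)
        rw [Finset.card_insert_of_notMem, Finset.card_insert_of_notMem, Finset.card_pair hxh3]
        · simp only [Finset.mem_insert, Finset.mem_singleton, not_or]
          exact ⟨fun h8 => hx.2 h8.symm, hxh2⟩
        · simp only [Finset.mem_insert, Finset.mem_singleton, not_or]
          exact ⟨hh0.symm, fun h8 => hx.1 h8.symm, fun h8 => hxh h8.symm⟩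
    · intro B hB
      refine le_trans ?_ (hH3 B hB)
      omega

end Pool.Agent.HS
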