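import Pool.Agent.HS.Gaps

/-!
# Telescoping bounds for the number of corners
-/

namespace Pool.Agent.HS

open scoped Pointwise

/-- one step: the new elements meet every class -/
theorem one_step {w : ℕ} (hw : 0 < w) {X Y : Finset ℕ} (hXY : X ⊆ Y) (hXw : ∀ x ∈ X, x + w ∈ Y) :
    X.card + cl w Y ≤ Y.card := by
  classical
  have h1 : Y.image (· % w) ⊆ (Y \ X).image (· % w) := by
    intro r hr
    rw [Finset.mem_image] at hr
    obtain ⟨y, hy, rfl⟩ := hr
    by_cases hne : (X.filter fun x => x % w = y % w).Nonempty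
    · obtain ⟨x, hx, hmax⟩ := Finset.exists_max_image _ id hne
      rw [Finset.mem_filter] at hx
      rw [Finset.mem_image]
      refine ⟨x + w, ?_, ?_⟩
      · rw [Finset.mem_sdiff]
        refine ⟨hXw x hx.1, fun hcon => ?_⟩
        have := hmax (x + w) (by
          rw [Finset.mem_filter]
          refine ⟨hcon, ?_⟩
          rw [Nat.add_mod_right]
          exact hx.2)
        simp only [id] at this
        omega
      · rw [Nat.add_mod_right]
        exact hx.2
    · rw [Finset.mem_image]
      refine ⟨y, ?_, rfl⟩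
      rw [Finset.mem_sdiff]
      refine ⟨hy, fun hyX => hne ⟨y, ?_⟩⟩
      rw [Finset.mem_filter]
      exact ⟨hyX, rfl⟩
  have h2 : cl w Y ≤ (Y \ X).card := (Finset.card_le_card h1).trans Finset.card_image_le
  rw [Finset.card_sdiff_of_subset hXY] at h2
  have := Finset.card_le_card hXY
  omega

/-- the slices of the corner set -/
def cs (w : ℕ) (B : ℕ → Finset ℕ) : ℕ → Finset ℕ
  | 0 => B 0
  | N + 1 => B (N + 1) \ (B N ∪ (B N).image (· + w))

/-- the slices of the inner set -/
def is (w : ℕ) (B : ℕ → Finset ℕ) : ℕ → Finset ℕ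
  | 0 => (B 0).filter fun x => x + w ∈ B 0
  | N + 1 => (B (N + 1)).filter fun x => x + w ∈ B (N + 1) ∧ x ∉ B N

theorem cornerSet_eq (w : ℕ) (B : ℕ → Finset ℕ) : cornerSet w B = St (cs w B) := by
  ext ⟨α, N⟩
  rcases N with _ | N
  · constructor
    · rintro ⟨h1, _⟩
      exact h1
    · intro h1
      refine ⟨h1, fun y _ => ⟨fun he => ?_, fun he => ?_⟩⟩
      · exact absurd (congrArg Prod.snd he) (by simp)
      · exact absurd (congrArg Prod.snd he) (by simp)
  · show _ ↔ α ∈ B (N + 1) \ (B N ∪ (B N).image (· + w))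
    rw [Finset.mem_sdiff, Finset.mem_union, Finset.mem_image, not_or]
    constructor
    · rintro ⟨h1, h2⟩
      refine ⟨h1, fun h3 => (h2 (α, N) h3).1 rfl, ?_⟩
      rintro ⟨β, hβ, rfl⟩
      exact (h2 (β, N) hβ).2 rfl
    · rintro ⟨h1, h2, h3⟩
      refine ⟨h1, ?_⟩
      rintro ⟨β, M⟩ hy
      have hy' : β ∈ B M := hy
      constructor
      · intro he
        have e1 : β + 0 = α := congrArg Prod.fst he
        have e2 : M + 1 = N + 1 := congrArg Prod.snd he
        have e3 : M = N := by omega
        subst e3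
        rw [← e1] at h2
        exact h2 hy'
      · intro he
        have e1 : β + w = α := congrArg Prod.fst he
        have e2 : M + 1 = N + 1 := congrArg Prod.snd he
        have e3 : M = N := by omega
        subst e3
        exact h3 ⟨β, hy', e1⟩

theorem innerSet_eq (w : ℕ) (B : ℕ → Finset ℕ) : innerSet w B = St (is w B) := by
  ext ⟨α, N⟩
  have hmid : (∃ y ∈ St B, y + (0, 1) = ((α, N) : ℕ × ℕ) + (w, 1)) ↔ α + w ∈ B N := by
    constructor
    · rintro ⟨⟨β, M⟩, hy, he⟩
      have hy' : β ∈ B M := hy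
      have e1 : β + 0 = α + w := congrArg Prod.fst he
      have e2 : M + 1 = N + 1 := congrArg Prod.snd he
      have e3 : M = N := by omega
      subst e3
      rw [← e1]
      exact hy'
    · intro h
      exact ⟨(α + w, N), h, rfl⟩
  rcases N with _ | N
  · show _ ↔ α ∈ (B 0).filter fun x => x + w ∈ B 0
    rw [Finset.mem_filter]
    constructor
    · rintro ⟨h1, h2, _⟩
      exact ⟨h1, hmid.1 h2⟩
    · rintro ⟨h1, h2⟩
      refine ⟨h1, hmid.2 h2, fun y _ he => ?_⟩
      exact absurd (congrArg Prod.snd he) (by simp)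
  · show _ ↔ α ∈ (B (N + 1)).filter fun x => x + w ∈ B (N + 1) ∧ x ∉ B N
    rw [Finset.mem_filter]
    constructor
    · rintro ⟨h1, h2, h3⟩
      exact ⟨h1, hmid.1 h2, fun h4 => h3 (α, N) h4 rfl⟩
    · rintro ⟨h1, h2, h3⟩
      refine ⟨h1, hmid.2 h2, ?_⟩
      rintro ⟨β, M⟩ hy he
      have hy' : β ∈ B M := hy
      have e1 : β + 0 = α := congrArg Prod.fst he
      have e2 : M + 1 = N + 1 := congrArg Prod.snd he
      have e3 : M = N := by omega
      subst e3
      rw [← e1] at h3
      exact h3 hy'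

/-- the finite part of a graded set -/
def SF (S : ℕ → Finset ℕ) (T : ℕ) : Finset (ℕ × ℕ) :=
  (Finset.range T).biUnion fun N => (S N).image fun x => (x, N)

theorem mem_SF {S : ℕ → Finset ℕ} {T : ℕ} {z : ℕ × ℕ} : z ∈ SF S T ↔ z.1 ∈ S z.2 ∧ z.2 < T := by
  rw [SF, Finset.mem_biUnion]
  constructor
  · rintro ⟨N, hN, hz⟩
    rw [Finset.mem_image] at hz
    obtain ⟨x, hx, rfl⟩ := hz
    exact ⟨hx, Finset.mem_range.mp hN⟩
  · rintro ⟨h1, h2⟩
    exact ⟨z.2, Finset.mem_range.mpr h2, Finset.mem_image.mpr ⟨z.1, h1, rfl⟩⟩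

theorem card_SF (S : ℕ → Finset ℕ) (T : ℕ) :
    (SF S T).card = ∑ N ∈ Finset.range T, (S N).card := by
  rw [SF, Finset.card_biUnion]
  · refine Finset.sum_congr rfl fun N _ => ?_
    exact Finset.card_image_of_injective _ fun x y h => congrArg Prod.fst h
  · intro N _ M _ hNM
    rw [Function.onFun, Finset.disjoint_left]
    intro z hz hz'
    rw [Finset.mem_image] at hz hz'
    obtain ⟨x, _, rfl⟩ := hz
    obtain ⟨y, _, hy⟩ := hz'
    exact hNM (congrArg Prod.snd hy).symm

theorem finite_of_bdd {S : ℕ → Finset ℕ} {X : ℕ}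
    (h : ∃ T0, ∀ T, T0 ≤ T → ∑ N ∈ Finset.range T, (S N).card ≤ X) :
    (St S).Finite ∧ (St S).ncard ≤ X := by
  obtain ⟨T0, hT0⟩ := h
  have key : ∀ D : Finset (ℕ × ℕ), (D : Set (ℕ × ℕ)) ⊆ St S → D.card ≤ X := by
    intro D hD
    set T := max T0 (D.sup (fun z => z.2) + 1) with hT
    have hsub : D ⊆ SF S T := by
      intro z hz
      rw [mem_SF]
      refine ⟨hD hz, ?_⟩
      have h1 := Finset.le_sup (f := fun z : ℕ × ℕ => z.2) hz
      have h2 : D.sup (fun z => z.2) + 1 ≤ T := le_max_right _ _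
      omega
    have h1 := Finset.card_le_card hsub
    rw [card_SF] at h1
    exact h1.trans (hT0 T (le_max_left _ _))
  have hfin : (St S).Finite := by
    by_contra hinf
    obtain ⟨D, hD, hcard⟩ := (show (St S).Infinite from hinf).exists_subset_card_eq (X + 1)
    have := key D hD
    omega
  refine ⟨hfin, ?_⟩
  rw [Set.ncard_eq_toFinset_card _ hfin]
  exact key _ (by simp)

theorem sum_le_ncard {S : ℕ → Finset ℕ} (hfin : (St S).Finite) (T : ℕ) :
    ∑ N ∈ Finset.range T, (S N).card ≤ (St S).ncard := by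
  rw [← card_SF, Set.ncard_eq_toFinset_card _ hfin]
  apply Finset.card_le_card
  intro z hz
  rw [Set.Finite.mem_toFinset]
  exact (mem_SF.mp hz).1

section family

variable {w : ℕ} {B : ℕ → Finset ℕ}

/-- the number of corners up to degree `T` -/
theorem sum_cs_le (hw : 0 < w) (h0 : ∀ N, B N ⊆ B (N + 1))
    (hBw : ∀ N, ∀ x ∈ B N, x + w ∈ B (N + 1)) (T : ℕ) :
    ∑ N ∈ Finset.range (T + 1), (cs w B N).card + ∑ N ∈ Finset.range T, cl w (B N) ≤
      (B T).card := by
  classical
  induction T with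
  | zero => simp [cs]
  | succ T ih =>
    rw [Finset.sum_range_succ, Finset.sum_range_succ (fun N => cl w (B N))]
    have hsub : B T ∪ (B T).image (· + w) ⊆ B (T + 1) := by
      intro x hx
      rw [Finset.mem_union, Finset.mem_image] at hx
      rcases hx with hx | ⟨y, hy, rfl⟩
      · exact h0 T hx
      · exact hBw T y hy
    have h1 : (cs w B (T + 1)).card = (B (T + 1)).card - (B T ∪ (B T).image (· + w)).card := by
      show (B (T + 1) \ (B T ∪ (B T).image (· + w))).card = _
      rw [Finset.card_sdiff_of_subset hsub]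
    have h2 := Finset.card_le_card hsub
    have h3 := one_step hw (X := B T) (Y := B T ∪ (B T).image (· + w))
      Finset.subset_union_left (fun x hx => Finset.mem_union_right _
        (Finset.mem_image_of_mem _ hx))
    have h4 : cl w (B T) ≤ cl w (B T ∪ (B T).image (· + w)) :=
      Finset.card_le_card (Finset.image_subset_image Finset.subset_union_left)
    omega

/-- second differences -/
theorem sum_cs_eq (h0 : ∀ N, B N ⊆ B (N + 1)) (hBw : ∀ N, ∀ x ∈ B N, x + w ∈ B (N + 1))
    (T : ℕ) :
    ∑ N ∈ Finset.range (T + 2), (cs w B N).card + (B T).card =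
      ∑ N ∈ Finset.range (T + 1), (is w B N).card + (B (T + 1)).card := by
  classical
  have hP : ∀ N, (cs w B (N + 1)).card + 2 * (B N).card =
      (B (N + 1)).card + ((B N).filter fun x => x + w ∈ B N).card := by
    intro N
    have hsub : B N ∪ (B N).image (· + w) ⊆ B (N + 1) := by
      intro x hx
      rw [Finset.mem_union, Finset.mem_image] at hx
      rcases hx with hx | ⟨y, hy, rfl⟩
      · exact h0 N hx
      · exact hBw N y hy
    have h1 : (cs w B (N + 1)).card = (B (N + 1)).card - (B N ∪ (B N).image (· + w)).card := by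
      show (B (N + 1) \ (B N ∪ (B N).image (· + w))).card = _
      rw [Finset.card_sdiff_of_subset hsub]
    have h2 := Finset.card_le_card hsub
    have h3 := Finset.card_union_add_card_inter (B N) ((B N).image (· + w))
    have h4 : ((B N).image (· + w)).card = (B N).card :=
      Finset.card_image_of_injective _ fun x y h => by simpa using h
    have h5 : (B N ∩ (B N).image (· + w)) =
        ((B N).filter fun x => x + w ∈ B N).image (· + w) := by
      ext x
      rw [Finset.mem_inter, Finset.mem_image, Finset.mem_image]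
      constructor
      · rintro ⟨hx, y, hy, rfl⟩
        exact ⟨y, Finset.mem_filter.mpr ⟨hy, hx⟩, rfl⟩
      · rintro ⟨y, hy, rfl⟩
        rw [Finset.mem_filter] at hy
        exact ⟨hy.2, y, hy.1, rfl⟩
    have h6 : (((B N).filter fun x => x + w ∈ B N).image (· + w)).card =
        ((B N).filter fun x => x + w ∈ B N).card :=
      Finset.card_image_of_injective _ fun x y h => by simpa using h
    rw [h5, h6, h4] at h3
    omega
  have hI : ∀ N, ((B (N + 1)).filter fun x => x + w ∈ B (N + 1)).card =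
      (B N).card + (is w B (N + 1)).card := by
    intro N
    have h1 : (B (N + 1)).filter (fun x => x + w ∈ B (N + 1)) = B N ∪ is w B (N + 1) := by
      ext x
      rw [Finset.mem_filter, Finset.mem_union]
      show _ ↔ x ∈ B N ∨ x ∈ (B (N + 1)).filter fun x => x + w ∈ B (N + 1) ∧ x ∉ B N
      rw [Finset.mem_filter]
      constructor
      · rintro ⟨h1, h2⟩
        by_cases h3 : x ∈ B N
        · exact Or.inl h3
        · exact Or.inr ⟨h1, h2, h3⟩
      · rintro (h1 | ⟨h1, h2, _⟩)
        · exact ⟨h0 N h1, hBw N x h1⟩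
        · exact ⟨h1, h2⟩
    rw [h1, Finset.card_union_of_disjoint]
    rw [Finset.disjoint_left]
    intro x hx hx'
    have : x ∈ (B (N + 1)).filter fun x => x + w ∈ B (N + 1) ∧ x ∉ B N := hx'
    rw [Finset.mem_filter] at this
    exact this.2.2 hx
  induction T with
  | zero =>
    have h1 := hP 0
    have h2 : ((B 0).filter fun x => x + w ∈ B 0).card = (is w B 0).card := rfl
    rw [h2] at h1
    simp only [Finset.sum_range_succ, Finset.sum_range_zero, zero_add]
    have h3 : (cs w B 0).card = (B 0).card := rfl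
    rw [zero_add] at h1
    omega
  | succ T ih =>
    rw [Finset.sum_range_succ, Finset.sum_range_succ (fun N => (is w B N).card)]
    have h1 := hP (T + 1)
    have h2 := hI T
    rw [h2] at h1
    have e : T + 1 + 1 = T + 2 := rfl
    rw [e] at h1 ⊢
    omega

/-- the inner points of a family -/
theorem family_inner (hw : 0 < w) (h0 : ∀ N, B N ⊆ B (N + 1))
    (hBw : ∀ N, ∀ x ∈ B N, x + w ∈ B (N + 1)) (hfin : (cornerSet w B).Finite)
    (hcl : ∃ T0, ∀ T, T0 ≤ T → w ≤ cl w (B T)) :
    (innerSet w B).Finite ∧ (innerSet w B).ncard + w ≤ (cornerSet w B).ncard := by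
  obtain ⟨T1, hT1⟩ := hcl
  rw [cornerSet_eq] at hfin ⊢
  rw [innerSet_eq]
  have hinner : ∀ T, T1 ≤ T → ∑ N ∈ Finset.range (T + 1), (is w B N).card + w ≤
      (St (cs w B)).ncard := by
    intro T hT
    have h2 := sum_cs_eq h0 hBw T
    have h3 := sum_le_ncard hfin (T + 2)
    have h4 := one_step hw (h0 T) (hBw T)
    have h5 := hT1 (T + 1) (by omega)
    omega
  have h2 := finite_of_bdd (S := is w B) (X := (St (cs w B)).ncard - w) ⟨T1 + 1, fun T hT => by
    obtain ⟨T', rfl⟩ : ∃ T', T = T' + 1 := ⟨T - 1, by omega⟩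
    have := hinner T' (by omega)
    omega⟩
  have h3 := hinner T1 le_rfl
  exact ⟨h2.1, by omega⟩

/-- the general statement for a family -/
theorem family_bound (hw : 0 < w) (h0 : ∀ N, B N ⊆ B (N + 1))
    (hBw : ∀ N, ∀ x ∈ B N, x + w ∈ B (N + 1)) {X : ℕ}
    (hX : ∃ T0, ∀ T, T0 ≤ T → (B T).card ≤ X + ∑ N ∈ Finset.range T, cl w (B N))
    (hcl : ∃ T0, ∀ T, T0 ≤ T → w ≤ cl w (B T)) :
    (cornerSet w B).Finite ∧ (cornerSet w B).ncard ≤ X ∧ (innerSet w B).Finite ∧
      (innerSet w B).ncard + w ≤ (cornerSet w B).ncard := by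
  obtain ⟨T0, hT0⟩ := hX
  obtain ⟨T1, hT1⟩ := hcl
  rw [cornerSet_eq, innerSet_eq]
  have h1 := finite_of_bdd (S := cs w B) (X := X) ⟨T0 + 1, fun T hT => by
    obtain ⟨T', rfl⟩ : ∃ T', T = T' + 1 := ⟨T - 1, by omega⟩
    have h2 := sum_cs_le hw h0 hBw T'
    have h3 := hT0 T' (by omega)
    omega⟩
  have hinner : ∀ T, T1 ≤ T → ∑ N ∈ Finset.range (T + 1), (is w B N).card + w ≤
      (St (cs w B)).ncard := by
    intro T hT
    have h2 := sum_cs_eq h0 hBw T
    have h3 := sum_le_ncard h1.1 (T + 2)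
    have h4 := one_step hw (h0 T) (hBw T)
    have h5 := hT1 (T + 1) (by omega)
    omega
  have h2 := finite_of_bdd (S := is w B) (X := (St (cs w B)).ncard - w) ⟨T1 + 1, fun T hT => by
    obtain ⟨T', rfl⟩ : ∃ T', T = T' + 1 := ⟨T - 1, by omega⟩
    have := hinner T' (by omega)
    omega⟩
  have h3 := hinner T1 le_rfl
  exact ⟨h1.1, h1.2, h2.1, by omega⟩

end family

section Qsec

variable {A : Finset ℕ} {w : ℕ}

theorem QN_mono_succ (hA : GoodA A w) (N : ℕ) : QN A N ⊆ QN A (N + 1) := by
  intro x hx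
  exact Finset.mem_image₂.mpr ⟨x, hx, 0, hA.h0, rfl⟩

theorem QN_add_w (hA : GoodA A w) (N : ℕ) : ∀ x ∈ QN A N, x + w ∈ QN A (N + 1) := by
  intro x hx
  exact Finset.mem_image₂.mpr ⟨x, hx, w, hA.hw, rfl⟩

/-- `A` generates `ℤ/w` -/
theorem closure_md (hA : GoodA A w) :
    AddSubgroup.closure (md w A : Set (ZMod w)) = ⊤ := by
  set H := AddSubgroup.closure (md w A : Set (ZMod w)) with hH
  set H' : AddSubgroup ℤ := H.comap (Int.castAddHom (ZMod w)) with hH'
  obtain ⟨d, hd⟩ := Int.subgroup_cyclic H'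
  have h1 : ∀ a ∈ A, d.natAbs ∣ a := by
    intro a ha
    have h2 : (a : ℤ) ∈ H' := by
      rw [hH', AddSubgroup.mem_comap]
      apply AddSubgroup.subset_closure
      rw [Finset.mem_coe, md, Finset.mem_image]
      exact ⟨a, ha, by simp⟩
    rw [hd, AddSubgroup.mem_closure_singleton] at h2
    obtain ⟨c, hc⟩ := h2
    rw [← Int.natCast_dvd_natCast, Int.natCast_natAbs, abs_dvd, ← hc]
    exact Dvd.intro_left c (by simp)
  have h2 := hA.hgcd _ h1
  have h3 : (1 : ℤ) ∈ H' := by
    rw [hd, AddSubgroup.mem_closure_singleton]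
    rcases Int.natAbs_eq d with h4 | h4
    · exact ⟨1, by rw [h4, h2]; simp⟩
    · exact ⟨-1, by rw [h4, h2]; simp⟩
  rw [eq_top_iff]
  intro x _
  have h4 : (1 : ZMod w) ∈ H := by
    rw [hH', AddSubgroup.mem_comap] at h3
    simpa using h3
  have hw := hA.wpos
  have : NeZero w := ⟨hw.ne'⟩
  have h5 : x = x.val • (1 : ZMod w) := by
    rw [nsmul_eq_mul, mul_one, ZMod.natCast_zmod_val]
  rw [h5]
  exact AddSubgroup.nsmul_mem _ h4 _

/-- growth by one -/
theorem growth_one (hA : GoodA A w) (B : Finset (ZMod w)) (hB : B.Nonempty) :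
    min w (B.card + 1) ≤ (B + md w A).card := by
  classical
  have hw := hA.wpos
  have : NeZero w := ⟨hw.ne'⟩
  have h0 : (0 : ZMod w) ∈ md w A := by
    rw [md, Finset.mem_image]
    exact ⟨0, hA.h0, by simp⟩
  have hsub : B ⊆ B + md w A := by
    intro x hx
    rw [Finset.mem_add]
    exact ⟨x, hx, 0, h0, add_zero x⟩
  by_cases hlt : B.card + 1 ≤ (B + md w A).card
  · exact (min_le_right _ _).trans hlt
  · have heq : B + md w A = B := by
      symm
      exact Finset.eq_of_subset_of_card_le hsub (by omega)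
    have hP : ∀ g ∈ AddSubgroup.closure (md w A : Set (ZMod w)), ∀ x, x ∈ B ↔ x + g ∈ B := by
      intro g hg
      induction hg using AddSubgroup.closure_induction with
      | mem g hg =>
        have h1 : B.image (· + g) ⊆ B := by
          intro y hy
          rw [Finset.mem_image] at hy
          obtain ⟨x, hx, rfl⟩ := hy
          rw [← heq, Finset.mem_add]
          exact ⟨x, hx, g, hg, rfl⟩
        have h2 : B.image (· + g) = B := by
          apply Finset.eq_of_subset_of_card_le h1
          rw [Finset.card_image_of_injective _ (add_left_injective g)]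
        intro x
        constructor
        · intro hx
          exact h1 (Finset.mem_image_of_mem _ hx)
        · intro hx
          rw [← h2, Finset.mem_image] at hx
          obtain ⟨y, hy, hyx⟩ := hx
          have : y = x := add_right_cancel hyx
          rwa [← this]
      | zero => intro x; rw [add_zero]
      | add g g' _ _ hg hg' =>
        intro x
        rw [hg x, hg' (x + g), add_assoc]
      | neg g _ hg =>
        intro x
        rw [hg (x + -g)]
        simp
    obtain ⟨b0, hb0⟩ := hB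
    have huniv : B = Finset.univ := by
      rw [Finset.eq_univ_iff_forall]
      intro x
      have h1 := hP (x - b0) (by rw [closure_md hA]; trivial) b0
      rw [add_sub_cancel] at h1
      exact h1.1 hb0
    rw [heq, huniv, Finset.card_univ, ZMod.card]
    exact min_le_left _ _

theorem cl_le (hw : 0 < w) (B : Finset ℕ) : cl w B ≤ w := by
  have h1 : B.image (· % w) ⊆ Finset.range w := by
    intro r hr
    rw [Finset.mem_image] at hr
    obtain ⟨x, _, rfl⟩ := hr
    exact Finset.mem_range.mpr (Nat.mod_lt _ hw)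
  simpa [cl] using Finset.card_le_card h1

theorem cl_QN_succ_ge (hA : GoodA A w) (j : ℕ) : min w (j + 1) ≤ cl w (QN A (j + 1)) := by
  have h1 := cl_QN_ge hA 1 (growth_one hA) j
  have h2 := card_ge_two' hA
  omega

theorem cl_QN_full (hA : GoodA A w) {j : ℕ} (hj : w ≤ j) : w ≤ cl w (QN A j) := by
  have hw := hA.wpos
  obtain ⟨j', rfl⟩ : ∃ j', j = j' + 1 := ⟨j - 1, by omega⟩
  have := cl_QN_succ_ge hA j'
  omega

theorem sum_le_sA (hA : GoodA A w) (T : ℕ) :
    ∑ j ∈ Finset.range T, (w - cl w (QN A (j + 1))) ≤ sA w A := by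
  rw [sA]
  rcases Nat.lt_or_ge T w with h | h
  · exact Finset.sum_le_sum_of_subset (Finset.range_subset_range.mpr h.le)
  · rw [← Finset.sum_subset (Finset.range_subset_range.mpr h)]
    intro j _ hj
    rw [Finset.mem_range, not_lt] at hj
    have := cl_QN_full hA (j := j + 1) (by omega)
    omega

theorem cl_QN_zero : cl w (QN A 0) = 1 := by
  simp [cl, QN]

theorem sum_cl_QN (hA : GoodA A w) (T : ℕ) :
    T * w + 1 ≤ w + sA w A + ∑ N ∈ Finset.range T, cl w (QN A N) := by
  rcases T with _ | T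
  · have := hA.wpos
    simp
    omega
  · have h1 := sum_le_sA hA T
    rw [Finset.sum_range_succ' (fun N => cl w (QN A N)), cl_QN_zero]
    have h2 : ∑ j ∈ Finset.range T, (w - cl w (QN A (j + 1))) +
        ∑ j ∈ Finset.range T, cl w (QN A (j + 1)) = T * w := by
      rw [← Finset.sum_add_distrib, Finset.sum_congr rfl (fun j _ =>
        Nat.sub_add_cancel (cl_le hA.wpos (QN A (j + 1)))), Finset.sum_const, Finset.card_range,
        smul_eq_mul]
    have h3 : (T + 1) * w = T * w + w := by ring
    omega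

/-- `γ(n) ≤ s` -/
theorem gamma_le (hA : GoodA A w) (n : ℕ) : n * w + 1 ≤ (QN A n).card + sA w A := by
  have h1 : n * w + 1 ≤ (QN A n).card + ∑ j ∈ Finset.range n, (w - cl w (QN A (j + 1))) := by
    induction n with
    | zero => simp [QN]
    | succ n ih =>
      have h1 := one_step hA.wpos (QN_mono_succ hA n) (QN_add_w hA n)
      rw [Finset.sum_range_succ]
      have h3 : (n + 1) * w = n * w + w := by ring
      omega
  have := sum_le_sA hA n
  omega

theorem gapBound_zero (hA : GoodA A w) : GapBound A w 0 :=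
  gapBound_of hA ∅ ∅ (fun _ _ _ => Finset.notMem_empty _) (fun _ _ _ => Finset.notMem_empty _)

theorem corners_Q {G : ℕ} (hA : GoodA A w) (hG : GapBound A w G) :
    (cornerSet w (QN A)).Finite ∧ (cornerSet w (QN A)).ncard + G ≤ w + sA w A ∧
    (innerSet w (QN A)).Finite ∧ (innerSet w (QN A)).ncard + w ≤ (cornerSet w (QN A)).ncard := by
  obtain ⟨T0, hT0⟩ := hG
  have hGle : G ≤ w + sA w A := by
    have h1 := hT0 T0 le_rfl
    have h2 := gamma_le hA T0
    omega
  have h := family_bound (B := QN A) hA.wpos (QN_mono_succ hA) (QN_add_w hA)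
    (X := w + sA w A - G) ⟨T0, fun T hT => by
      have h1 := hT0 T hT
      have h2 := sum_cl_QN hA T
      omega⟩ ⟨w, fun T hT => cl_QN_full hA hT⟩
  exact ⟨h.1, by have := h.2.1; omega, h.2.2.1, h.2.2.2⟩

end Qsec

end Pool.Agent.HS
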