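import Pool.Agent.HS.Gaps

/-!
# The exceptional case `A = {0, y, k, k + y, 2 k}`
-/

namespace Pool.Agent.HS

variable {A : Finset ℕ} {w : ℕ}

theorem sK_two (t : ℕ) : sK (2 * t) 2 = t * (t + 1) := by
  induction t with
  | zero => simp [sK]
  | succ t ih =>
    rw [show 2 * (t + 1) = 2 * t + 1 + 1 by ring, sK_succ _ _ (by norm_num),
      sK_succ _ _ (by norm_num), ih]
    have h1 : (2 * t + 1) / 2 = t := by omega
    have h2 : 2 * t / 2 = t := by omega
    rw [h1, h2]
    ring

theorem exceptional_form (hA : GoodA A w) (h5 : A.card = 5)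
    (hex : ∃ h x : ZMod w, h ≠ 0 ∧ h + h = 0 ∧ md w A = {0, h, x, x + h}) :
    ∃ k y, w = 2 * k ∧ 0 < y ∧ y < k ∧ ∀ a ∈ A, a = 0 ∨ a = w ∨ a = k ∨ a = y ∨ a = y + k := by
  have hw := hA.wpos
  have : NeZero w := ⟨hw.ne'⟩
  obtain ⟨h, x, hh0, hhh, hmd⟩ := hex
  have hcard : ({0, h, x, x + h} : Finset (ZMod w)).card = 4 := by
    rw [← hmd, card_md_A hA, h5]
  -- k
  set k := h.val with hk
  have hkw : k < w := ZMod.val_lt h
  have hk0 : 0 < k := by
    rcases Nat.eq_zero_or_pos k with h0 | h0
    · exact absurd ((ZMod.val_eq_zero h).mp h0) hh0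
    · exact h0
  have hhk : (k : ZMod w) = h := ZMod.natCast_zmod_val h
  have h2k : w = 2 * k := by
    have h1 : ((k + k : ℕ) : ZMod w) = 0 := by rw [Nat.cast_add, hhk, hhh]
    rw [ZMod.natCast_eq_zero_iff] at h1
    obtain ⟨c, hc⟩ := h1
    have hc1 : c = 1 := by
      have h3 : 0 < c := by
        rcases Nat.eq_zero_or_pos c with h0 | h0
        · rw [h0, mul_zero] at hc; omega
        · exact h0
      have h4 : c < 2 := by
        by_contra h5
        have : w * 2 ≤ w * c := Nat.mul_le_mul_left w (by omega)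
        omega
      omega
    rw [hc1] at hc
    omega
  -- x
  set y0 := x.val with hy0
  have hxy : (y0 : ZMod w) = x := ZMod.natCast_zmod_val x
  have hy0w : y0 < w := ZMod.val_lt x
  have hx0 : x ≠ 0 := by
    rintro rfl
    have : ({0, h, 0, 0 + h} : Finset (ZMod w)) ⊆ {0, h} := by
      intro z hz
      simp only [Finset.mem_insert, Finset.mem_singleton, zero_add] at hz ⊢
      tauto
    have h1 := Finset.card_le_card this
    have h2 : ({0, h} : Finset (ZMod w)).card ≤ 2 := Finset.card_le_two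
    omega
  have hxh : x ≠ h := by
    rintro rfl
    have : ({0, x, x, x + x} : Finset (ZMod w)) ⊆ {0, x} := by
      intro z hz
      simp only [Finset.mem_insert, Finset.mem_singleton, hhh] at hz ⊢
      tauto
    have h1 := Finset.card_le_card this
    have h2 : ({0, x} : Finset (ZMod w)).card ≤ 2 := Finset.card_le_two
    omega
  have hy00 : y0 ≠ 0 := by
    intro h0
    exact hx0 ((ZMod.val_eq_zero x).mp h0)
  have hy0k : y0 ≠ k := by
    intro h0
    apply hxh
    rw [← hxy, ← hhk, h0]
  -- elements of `A`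
  have hform : ∀ a ∈ A, a = 0 ∨ a = w ∨ a = k ∨ a = y0 ∨ a = (y0 + k) % w := by
    intro a ha
    have hle := hA.hle a ha
    have h1 : (a : ZMod w) ∈ md w A := Finset.mem_image_of_mem _ ha
    rw [hmd] at h1
    simp only [Finset.mem_insert, Finset.mem_singleton] at h1
    by_cases haw : a = w
    · right; left; exact haw
    · have hlt : a < w := by omega
      have hval : ((a : ZMod w)).val = a := by
        rw [ZMod.val_natCast, Nat.mod_eq_of_lt hlt]
      rcases h1 with h1 | h1 | h1 | h1
      · left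
        rw [← hval, h1, ZMod.val_zero]
      · right; right; left
        rw [← hval, h1]
      · right; right; right; left
        rw [← hval, h1]
      · right; right; right; right
        rw [← hval, h1, ← hxy, ← hhk, ← Nat.cast_add, ZMod.val_natCast]
  rcases Nat.lt_or_ge y0 k with hlt | hge
  · refine ⟨k, y0, h2k, by omega, hlt, fun a ha => ?_⟩
    have h1 : (y0 + k) % w = y0 + k := Nat.mod_eq_of_lt (by omega)
    have := hform a ha
    rw [h1] at this
    exact this
  · refine ⟨k, y0 - k, h2k, by omega, by omega, fun a ha => ?_⟩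
    have h1 : (y0 + k) % w = y0 - k := by
      have : y0 + k = (y0 - k) + w := by omega
      rw [this, Nat.add_mod_right, Nat.mod_eq_of_lt (by omega)]
    have := hform a ha
    rw [h1] at this
    omega

theorem exceptional (hA : GoodA A w) (h5 : A.card = 5)
    (hex : ∃ h x : ZMod w, h ≠ 0 ∧ h + h = 0 ∧ md w A = {0, h, x, x + h})
    (hs : sA w A ≤ sK (w + 1 - A.card) 2) :
    ∃ G, GapBound A w G ∧
      6 * sA w A ≤ (w + 1 - A.card + 1) * (w + 1 - A.card + 2) + 4 * G := by
  obtain ⟨k, y, hw, hy0, hyk, hform⟩ := exceptional_form hA h5 hex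
  have hcop : Nat.Coprime y k := by
    apply hA.hgcd
    intro a ha
    have hg1 : Nat.gcd y k ∣ y := Nat.gcd_dvd_left _ _
    have hg2 : Nat.gcd y k ∣ k := Nat.gcd_dvd_right _ _
    rcases hform a ha with rfl | rfl | rfl | rfl | rfl
    · exact dvd_zero _
    · rw [hw]; exact Dvd.dvd.mul_left hg2 2
    · exact hg2
    · exact hg1
    · exact dvd_add hg1 hg2
  have hcop' : Nat.Coprime (k - y) k := by
    have : Nat.gcd (k - y) k ∣ 1 := by
      rw [← hcop]
      apply Nat.dvd_gcd
      · have h1 : Nat.gcd (k - y) k ∣ k - y := Nat.gcd_dvd_left _ _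
        have h2 : Nat.gcd (k - y) k ∣ k := Nat.gcd_dvd_right _ _
        have h3 : Nat.gcd (k - y) k ∣ k - (k - y) := Nat.dvd_sub h2 h1
        have h4 : k - (k - y) = y := by omega
        rwa [h4] at h3
      · exact Nat.gcd_dvd_right _ _
    exact Nat.dvd_one.mp this
  obtain ⟨G, hG, hG2⟩ := gapBound_sylvester hA hy0 (by omega) hcop (p' := k - y) (q' := k)
    (by omega) (by omega) hcop' (by
      intro a ha
      rcases hform a ha with rfl | rfl | rfl | rfl | rfl
      · exact ⟨0, 0, by simp⟩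
      · exact ⟨0, 2, by rw [hw]; ring⟩
      · exact ⟨0, 1, by simp⟩
      · exact ⟨1, 0, by simp⟩
      · exact ⟨1, 1, by simp⟩) (by
      intro a ha
      rcases hform a ha with rfl | rfl | rfl | rfl | rfl
      · exact ⟨0, 2, by omega⟩
      · exact ⟨0, 0, by omega⟩
      · exact ⟨0, 1, by omega⟩
      · exact ⟨1, 1, by omega⟩
      · exact ⟨1, 0, by omega⟩)
  refine ⟨G, hG, ?_⟩
  -- `k ≥ 3`? in any case `w + 1 - 5 = 2 (k - 2)`
  have hk2 : 2 ≤ k := by omega
  obtain ⟨t, rfl⟩ : ∃ t, k = t + 2 := ⟨k - 2, by omega⟩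
  have hd : w + 1 - A.card = 2 * t := by omega
  rw [hd, sK_two] at hs
  rw [hd]
  have e1 : (y - 1) * (t + 2 - 1) + (t + 2 - y - 1) * (t + 2 - 1) = t * (t + 1) := by
    rw [← Nat.add_mul]
    have h1 : y - 1 + (t + 2 - y - 1) = t := by omega
    have h2 : t + 2 - 1 = t + 1 := by omega
    rw [h1, h2]
  rw [e1] at hG2
  nlinarith

end Pool.Agent.HS
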