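import Pool.Agent.HS.GrowthA
import Pool.Agent.HS.Exceptional
import Pool.Agent.HS.Atoms
import Pool.Agent.HS.CombQ

/-!
# Consequences of the growth of sumsets modulo `w`
-/

namespace Pool.Agent.HS

open scoped Pointwise

variable {A : Finset ℕ} {w : ℕ}

theorem zero_mem_md (hA : GoodA A w) : (0 : ZMod w) ∈ md w A := by
  rw [md, Finset.mem_image]
  exact ⟨0, hA.h0, Nat.cast_zero⟩

theorem sA_le_sK_half (hA : GoodA A w) :
    ∃ κ, A.card ≤ 2 * κ + 1 ∧ sA w A ≤ sK (w + 1 - A.card) κ := by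
  have : NeZero w := ⟨hA.wpos.ne'⟩
  obtain ⟨κ, h1, h2, h3⟩ := growth (md w A) (zero_mem_md hA) (closure_md hA)
  rw [ZMod.card] at h1
  rw [card_md_A hA] at h2
  exact ⟨κ, by omega, sA_le_sK_of_growth hA κ h3 h1⟩

/-- `∑_{j} (d - 3 j)^+` -/
theorem six_sK_three (d : ℕ) : 6 * sK d 3 ≤ (d + 1) * (d + 2) := by
  induction d using Nat.strong_induction_on with
  | _ d ih => 
  rcases Nat.lt_or_ge d 3 with h | h
  · interval_cases d <;> simp [sK, Finset.sum_range_succ]
  · obtain ⟨e, rfl⟩ : ∃ e, d = e + 3 := ⟨d - 3, by omega⟩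
    have := ih e (by omega)
    rw [show e + 3 = e + 1 + 1 + 1 by ring, sK_succ _ _ (by norm_num), sK_succ _ _ (by norm_num),
      sK_succ _ _ (by norm_num)]
    have h1 : e / 3 + (e + 1) / 3 + (e + 1 + 1) / 3 ≤ e := by omega
    have h2 : (e + 1 + 1 + 1 + 1) * (e + 1 + 1 + 1 + 2) = (e + 1) * (e + 2) + 6 * e + 18 := by ring
    rw [h2]
    omega

theorem crit4 (hA : GoodA A w) (h5 : 5 ≤ A.card) :
    ∃ G, GapBound A w G ∧
      6 * sA w A ≤ (w + 1 - A.card + 1) * (w + 1 - A.card + 2) + 4 * G := by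
  have : NeZero w := ⟨hA.wpos.ne'⟩
  by_cases hex : A.card = 5 ∧ ∃ h x : ZMod w, h ≠ 0 ∧ h + h = 0 ∧ md w A = {0, h, x, x + h}
  · apply exceptional hA hex.1 hex.2
    obtain ⟨κ, h1, h2, h3⟩ := growth (md w A) (zero_mem_md hA) (closure_md hA)
    rw [ZMod.card] at h1
    rw [card_md_A hA, hex.1] at h2
    apply sA_le_sK_of_growth hA 2 (by norm_num)
    intro B hB
    exact le_trans (by omega) (h1 B hB)
  · have h3 := growth_three (md w A) (zero_mem_md hA) (closure_md hA)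
      (by rw [card_md_A hA]; omega) (by
        intro h4 h5
        rw [card_md_A hA] at h4
        exact hex ⟨by omega, h5⟩)
    rw [ZMod.card] at h3
    have h4 := sA_le_sK_of_growth hA 3 (by norm_num) h3
    have h6 := six_sK_three (w + 1 - A.card)
    exact ⟨0, gapBound_zero hA, by omega⟩

end Pool.Agent.HS
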