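import Pool.Agent.HS.Iso
import Pool.Agent.HS.Growth
import Pool.Agent.HS.Recip
import Pool.Agent.HS.CombJ2
import Pool.Agent.HS.CombJC
import Pool.Agent.HS.Crit2
import Pool.Agent.HS.Crit3
import Pool.Agent.HS.Hx3

/-!
# The bound for the Koszul homology
-/

namespace Pool.Agent.HS

open MvPolynomial Finset Pool.Agent.BEI

set_option linter.unusedSectionVars false

section sums

variable {A : Finset ℕ} {w : ℕ}

theorem card_ge_two (hA : GoodA A w) : 2 ≤ A.card := by
  have h1 : ({0, w} : Finset ℕ) ⊆ A := by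
    intro x hx
    rw [Finset.mem_insert, Finset.mem_singleton] at hx
    rcases hx with rfl | rfl
    · exact hA.h0
    · exact hA.hw
  have h2 := Finset.card_le_card h1
  rw [Finset.card_pair hA.wpos.ne] at h2
  exact h2

theorem card_le (hA : GoodA A w) : A.card ≤ w + 1 := by
  have h1 : A ⊆ Finset.range (w + 1) := by
    intro x hx
    rw [Finset.mem_range]
    exact Nat.lt_succ_of_le (hA.hle x hx)
  simpa using Finset.card_le_card h1

theorem sum_corners (hA : GoodA A w) (hc : (cornerSet w (QN A)).Finite) :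
    ∑ z ∈ hc.toFinset, 1 / ((z.2 : ℚ) + 1) ≤ 1 + ((A.card : ℚ) - 2) / 2 +
      ∑ z ∈ hc.toFinset with 2 ≤ z.2, 1 / ((z.2 : ℚ) + 1) := by
  classical
  rw [← Finset.sum_filter_add_sum_filter_not hc.toFinset (fun z => 2 ≤ z.2)]
  rw [add_comm]
  gcongr
  have hsub : (hc.toFinset.filter fun z => ¬ 2 ≤ z.2) ⊆
      {((0 : ℕ), (0 : ℕ))} ∪ (((A.erase 0).erase w).image fun x => (x, 1)) := by
    intro z hz
    rw [Finset.mem_filter, Set.Finite.mem_toFinset] at hz
    obtain ⟨⟨hz1, hz2⟩, hz3⟩ := hz
    rw [Finset.mem_union, Finset.mem_singleton, Finset.mem_image]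
    obtain ⟨α, N⟩ := z
    have hz1' : α ∈ QN A N := hz1
    simp only [not_le] at hz3
    interval_cases N
    · left
      rw [QN, Finset.mem_singleton] at hz1'
      rw [hz1']
    · right
      rw [show (1 : ℕ) = 0 + 1 from rfl, mem_QN_succ] at hz1'
      obtain ⟨β, hβ, c, hc', rfl⟩ := hz1'
      rw [QN, Finset.mem_singleton] at hβ
      subst hβ
      refine ⟨0 + c, ?_, rfl⟩
      have h0 := hz2 (0, 0) (by show (0 : ℕ) ∈ QN A 0; simp [QN])
      rw [zero_add]
      rw [Finset.mem_erase, Finset.mem_erase]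
      refine ⟨?_, ?_, hc'⟩
      · rintro rfl
        exact h0.2 (by simp)
      · rintro rfl
        exact h0.1 (by simp)
  refine (Finset.sum_le_sum_of_subset_of_nonneg hsub (fun z _ _ => by positivity)).trans ?_
  rw [Finset.sum_union (by
    rw [Finset.disjoint_left]
    intro z hz hz'
    rw [Finset.mem_singleton] at hz
    rw [Finset.mem_image] at hz'
    obtain ⟨x, _, hx⟩ := hz'
    rw [hz] at hx
    exact absurd (congrArg Prod.snd hx) (by simp)), Finset.sum_singleton,
    Finset.sum_image (by
      intro x _ y _ hxy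
      exact congrArg Prod.fst hxy)]
  have hcard : (((A.erase 0).erase w).card : ℚ) = (A.card : ℚ) - 2 := by
    rw [Finset.card_erase_of_mem (Finset.mem_erase.mpr ⟨hA.wpos.ne', hA.hw⟩),
      Finset.card_erase_of_mem hA.h0]
    have := card_ge_two hA
    rw [Nat.sub_sub, Nat.cast_sub this]
    norm_num
  simp only [Nat.cast_zero, Nat.cast_one, Finset.sum_const, nsmul_eq_mul, hcard]
  norm_num
  linarith

/-- the arithmetic for `i ≥ 2` -/
theorem arith_ge_two (hA : GoodA A w) (g h : ℕ) (hg : 0 < g) (hh : 0 < h) (c i : ℕ)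
    (hc : A.card = c + 2) :
    c.choose (i + 1) * (innerSet w (QN A)).ncard + c.choose (i + 2) * (cornerSet w (QN A)).ncard +
      (c.choose i * (innerSet w (JN A g h)).ncard +
        c.choose (i + 1) * (cornerSet w (JN A g h)).ncard) ≤
      (i + 2) * (w + 1).choose (i + 3) + (c.choose (i + 2) + c.choose (i + 3)) := by
  obtain ⟨-, hV0, -, hI⟩ := corners_Q hA (gapBound_zero hA)
  obtain ⟨-, hM0, -, hIJ⟩ := corners_J hA (gapBound_zero hA) hg hh
  set IQ := (innerSet w (QN A)).ncard
  set VQ := (cornerSet w (QN A)).ncard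
  set IJ := (innerSet w (JN A g h)).ncard
  set MJ := (cornerSet w (JN A g h)).ncard with hMJ
  set s := sA w A with hs
  obtain ⟨F, hF⟩ : ∃ F, MJ = w + F := ⟨MJ - w, by omega⟩
  have hcle := card_le hA
  obtain ⟨d, hd⟩ : ∃ d, w = c + 1 + d := ⟨w - (c + 1), by omega⟩
  have hcd : w + 1 - A.card = d := by omega
  -- the key inequality
  have key : VQ * (c + 1).choose (i + 2) + F * (c + 1).choose (i + 2 - 1) ≤
      (i + 2) * (c + 1 + d + 1).choose (i + 2 + 1) + (c + 1).choose (i + 2 + 1) := by
    obtain ⟨κ, hκ, hsκ⟩ := sA_le_sK_half hA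
    rw [hcd] at hsκ
    rcases Nat.lt_or_ge d 2 with hd2 | hd2
    · rcases Nat.eq_zero_or_pos d with hd0 | hd0
      · subst hd0
        have hs0 : s = 0 := by
          have : sK 0 κ = 0 := by simp [sK]
          omega
        have hF0 : F = 0 := by omega
        rw [hF0, zero_mul, add_zero]
        exact numeric_d0 (c + 1) (i + 2) VQ (by omega)
      · have hd1 : d = 1 := by omega
        subst hd1
        have hs1 : s ≤ 1 := by
          have : sK 1 κ = 1 := by simp [sK]
          omega
        have hone := corners_J_one hA (g := g) (h := h) (by omega) hg hh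
        exact numeric_d1 (c + 1) (i + 2) VQ F (by omega) (by omega) (by omega)
    · rcases Nat.lt_or_ge (c + 1) 3 with hc3 | hc3
      · -- `m ≤ 2`
        rcases Nat.eq_zero_or_pos c with hc0 | hc0
        · -- `A = {0, w}`: impossible since then `w = 1`
          exfalso
          subst hc0
          have h2 : A = {0, w} := by
            symm
            apply Finset.eq_of_subset_of_card_le
            · intro x hx
              rw [Finset.mem_insert, Finset.mem_singleton] at hx
              rcases hx with rfl | rfl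
              · exact hA.h0
              · exact hA.hw
            · rw [Finset.card_pair hA.wpos.ne]; omega
          have h3 := hA.hgcd w (by
            intro x hx
            rw [h2, Finset.mem_insert, Finset.mem_singleton] at hx
            rcases hx with rfl | rfl
            · exact dvd_zero _
            · exact dvd_rfl)
          omega
        · have hc1 : c = 1 := by omega
          subst hc1
          obtain ⟨G, hG, hsG, h2s⟩ := crit2 hA (by omega)
          obtain ⟨-, hV1, -, -⟩ := corners_Q hA hG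
          obtain ⟨-, hM1, -, -⟩ := corners_J hA hG hg hh
          have e1 : w - 1 = d + 1 := by omega
          have e2 : w - 2 = d := by omega
          rw [e1, e2] at h2s
          have := numeric_m2 d (i + 2) VQ F (by omega) (by omega) (by omega)
          exact this
      · exact numeric (c + 1) d (i + 2) VQ F hc3 hd2 (by omega) κ (by omega) s hsκ (by omega)
          (by omega)
  have e1 : (c + 1).choose (i + 2) = c.choose (i + 1) + c.choose (i + 2) :=
    Nat.choose_succ_succ _ _
  have e2 : (c + 1).choose (i + 1) = c.choose i + c.choose (i + 1) :=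
    Nat.choose_succ_succ _ _
  have e3 : (c + 1).choose (i + 3) = c.choose (i + 2) + c.choose (i + 3) :=
    Nat.choose_succ_succ _ _
  have e4 : i + 2 - 1 = i + 1 := rfl
  have e5 : i + 2 + 1 = i + 3 := rfl
  rw [e4, e5, e1, e2, e3, ← hd] at key
  obtain ⟨v, hv⟩ : ∃ v, VQ = w + v := ⟨VQ - w, by omega⟩
  have hIQ : IQ ≤ v := by omega
  have hIJ' : IJ ≤ F := by omega
  rw [hF, hv]
  rw [hv] at key
  have k1 : c.choose (i + 1) * IQ ≤ c.choose (i + 1) * v := Nat.mul_le_mul_left _ hIQ
  have k2 : c.choose i * IJ ≤ c.choose i * F := Nat.mul_le_mul_left _ hIJ'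
  nlinarith

theorem eq_pair_of_card (hA : GoodA A w) (hc : A.card = 2) : w = 1 := by
  have h2 : A = {0, w} := by
    symm
    apply Finset.eq_of_subset_of_card_le
    · intro x hx
      rw [Finset.mem_insert, Finset.mem_singleton] at hx
      rcases hx with rfl | rfl
      · exact hA.h0
      · exact hA.hw
    · rw [Finset.card_pair hA.wpos.ne]; omega
  exact hA.hgcd w (by
    intro x hx
    rw [h2, Finset.mem_insert, Finset.mem_singleton] at hx
    rcases hx with rfl | rfl
    · exact dvd_zero _
    · exact dvd_rfl)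

/-- the arithmetic for `i = 1` -/
theorem arith_one (hA : GoodA A w) (g h : ℕ) (hg : 0 < g) (hh : 0 < h) (c : ℕ)
    (hc : A.card = c + 2) (hcf : (cornerSet w (QN A)).Finite) :
    ∃ (H : Finset (ℕ × ℕ)) (Y : ℕ),
      (∀ z ∈ innerSet w (QN A), z ∈ H ∨ ∃ x ∈ A, x ≠ 0 ∧ x ≠ w ∧
        ∃ y ∈ St (QN A), (∃ y' ∈ St (QN A), y' + (0, 1) = y + (w, 1)) ∧ y + (x, 1) = z) ∧
      1 + ((c : ℚ) - 1) * ∑ z ∈ hcf.toFinset, 1 / ((z.2 : ℚ) + 1) < Y + 1 ∧
      H.card + Y + (genSet A (JN A g h)).ncard ≤ (w + 1).choose 2 := by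
  classical
  have hcle := card_le hA
  obtain ⟨d, hd⟩ : ∃ d, w = c + 1 + d := ⟨w - (c + 1), by omega⟩
  have hcd : w + 1 - A.card = d := by omega
  have hX : (((w + 1).choose 2 : ℕ) : ℚ) = ((w : ℚ) + 1) * w / 2 := by
    rw [Nat.cast_choose_two]
    push_cast
    ring
  have hwq : (w : ℚ) = c + 1 + d := by rw [hd]; push_cast; ring
  have hsum := sum_corners hA hcf
  set D2 := hcf.toFinset.filter fun z => 2 ≤ z.2 with hD2
  set S := ∑ z ∈ hcf.toFinset, 1 / ((z.2 : ℚ) + 1) with hS
  set R := ∑ z ∈ D2, 1 / ((z.2 : ℚ) + 1) with hR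
  have hD2' : ∀ z ∈ D2, z ∈ cornerSet w (QN A) ∧ 2 ≤ z.2 := by
    intro z hz
    rw [hD2, Finset.mem_filter, Set.Finite.mem_toFinset] at hz
    exact hz
  obtain ⟨hR1, hR2⟩ := recip_sum hA D2 hD2'
  rw [hcd] at hR1 hR2
  rw [← hR] at hR1 hR2
  have hR0 : 0 ≤ R := Finset.sum_nonneg fun z _ => by positivity
  have hS2 : S ≤ 1 + (c : ℚ) / 2 + R := by
    have : ((A.card : ℚ) - 2) / 2 = (c : ℚ) / 2 := by rw [hc]; push_cast; ring
    rw [this] at hsum
    exact hsum
  obtain ⟨-, -, hiI, -⟩ := corners_Q hA (gapBound_zero hA)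
  rcases Nat.lt_or_ge c 3 with hc3 | hc3
  · rcases Nat.lt_or_ge c 2 with hc2 | hc2
    · rcases Nat.lt_or_ge c 1 with hc1 | hc1
      · -- `c = 0`, `w = 1`
        have hc0 : c = 0 := by omega
        subst hc0
        have hw1 := eq_pair_of_card hA hc
        obtain ⟨κ, hκ, hsκ⟩ := sA_le_sK_half hA
        rw [hcd] at hsκ
        have hd0 : d = 0 := by omega
        subst hd0
        have hs0 : sA w A = 0 := by
          have : sK 0 κ = 0 := by simp [sK]
          omega
        obtain ⟨-, hV0, -, hI⟩ := corners_Q hA (gapBound_zero hA)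
        obtain ⟨-, hgen⟩ := gens_J hA (gapBound_zero hA) hg hh
        have hI0 : (innerSet w (QN A)).ncard = 0 := by omega
        rw [Set.ncard_eq_zero hiI] at hI0
        refine ⟨∅, 0, ?_, ?_, ?_⟩
        · intro z hz
          rw [hI0] at hz
          exact absurd hz (Set.notMem_empty z)
        · have h0 : (0, 0) ∈ hcf.toFinset := by
            rw [Set.Finite.mem_toFinset]
            refine ⟨zero_mem_St A, fun y _ => ⟨fun he => ?_, fun he => ?_⟩⟩
            · exact absurd (congrArg Prod.snd he) (by simp)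
            · exact absurd (congrArg Prod.snd he) (by simp)
          have h1 : (1 : ℚ) ≤ S := by
            rw [hS]
            refine le_trans ?_ (Finset.single_le_sum (fun z _ => by positivity) h0)
            norm_num
          push_cast
          linarith
        · rw [hw1]
          have : (2 : ℕ).choose 2 = 1 := rfl
          simp only [Finset.card_empty, this]
          omega
      · -- `c = 1`
        have hc1' : c = 1 := by omega
        subst hc1'
        obtain ⟨G, hG, hsG, h2s⟩ := crit2 hA (by omega)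
        obtain ⟨-, hV1, -, hI1⟩ := corners_Q hA hG
        obtain ⟨-, hgen⟩ := gens_J hA hG hg hh
        have hI0 : (innerSet w (QN A)).ncard = 0 := by omega
        rw [Set.ncard_eq_zero hiI] at hI0
        refine ⟨∅, 1, ?_, ?_, ?_⟩
        · intro z hz
          rw [hI0] at hz
          exact absurd hz (Set.notMem_empty z)
        · push_cast
          linarith
        · have e1 : w - 1 = d + 1 := by omega
          have e2 : w - 2 = d := by omega
          rw [e1, e2] at h2s
          have h3 : 2 * (w + 1).choose 2 = (w + 1) * w := by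
            have : (2 : ℚ) * (((w + 1).choose 2 : ℕ) : ℚ) = ((w : ℚ) + 1) * w := by
              rw [hX]; ring
            exact_mod_cast this
          rw [hd] at h3 ⊢
          rw [Finset.card_empty]
          nlinarith
    · -- `c = 2`
      have hc2' : c = 2 := by omega
      subst hc2'
      obtain ⟨hxf, hx⟩ := hx3 hA (by omega)
      obtain ⟨G, hG, hcr⟩ := crit3 hA (by omega) D2 hD2'
      rw [← hR] at hcr
      obtain ⟨-, hgen⟩ := gens_J hA hG hg hh
      have hP : ((hxSet A w).ncard : ℚ) + ((genSet A (JN A g h)).ncard : ℚ) ≤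
          2 * w - 3 + 2 * (sA w A : ℚ) - G := by
        have h1 : ((hxSet A w).ncard : ℚ) + 3 ≤ w := by exact_mod_cast hx
        have h2 : ((genSet A (JN A g h)).ncard : ℚ) + G ≤ w + 2 * (sA w A : ℚ) := by
          exact_mod_cast hgen
        linarith
      have hlt : 1 + (((2 : ℕ) : ℚ) - 1) * S < ((w + 1).choose 2 : ℕ) -
          (((hxSet A w).ncard : ℚ) + ((genSet A (JN A g h)).ncard : ℚ)) + 1 := by
        rw [hX]
        push_cast at hS2 ⊢
        nlinarith
      have hle : (hxSet A w).ncard + (genSet A (JN A g h)).ncard ≤ (w + 1).choose 2 := by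
        have hS0 : 0 ≤ S := Finset.sum_nonneg fun z _ => by positivity
        have h1 : ((hxSet A w).ncard : ℚ) + ((genSet A (JN A g h)).ncard : ℚ) <
          ((w + 1).choose 2 : ℕ) + 1 := by
          push_cast at hlt ⊢
          linarith
        have h2 : (hxSet A w).ncard + (genSet A (JN A g h)).ncard < (w + 1).choose 2 + 1 := by
          exact_mod_cast h1
        omega
      refine ⟨hxf.toFinset, (w + 1).choose 2 - ((hxSet A w).ncard +
        (genSet A (JN A g h)).ncard), ?_, ?_, ?_⟩
      · intro z hz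
        by_cases hz2 : z ∈ hxSet A w
        · left
          rwa [Set.Finite.mem_toFinset]
        · right
          rw [hxSet, Set.mem_ofPred_eq, not_and] at hz2
          have h3 := hz2 hz
          simp only [not_forall, not_not] at h3
          obtain ⟨x, hxA, hx0, hxw, y, hy, hy', he⟩ := h3
          exact ⟨x, hxA, hx0, hxw, y, hy, hy', he⟩
      · rw [Nat.cast_sub hle]
        push_cast at hlt ⊢
        exact hlt
      · rw [← Set.ncard_eq_toFinset_card _ hxf]
        omega
  · -- `c ≥ 3`
    obtain ⟨G, hG, hcr⟩ := crit4 hA (by omega)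
    rw [hcd] at hcr
    obtain ⟨-, hV1, -, hI1⟩ := corners_Q hA hG
    obtain ⟨-, hgen⟩ := gens_J hA hG hg hh
    have hcr' : 6 * (sA w A : ℚ) ≤ ((d : ℚ) + 1) * (d + 2) + 4 * G := by exact_mod_cast hcr
    have hP : ((innerSet w (QN A)).ncard : ℚ) + ((genSet A (JN A g h)).ncard : ℚ) ≤
        w + 3 * (sA w A : ℚ) - 2 * G := by
      have h1 : ((innerSet w (QN A)).ncard : ℚ) + w + G ≤ w + (sA w A : ℚ) := by
        have : (innerSet w (QN A)).ncard + w + G ≤ w + sA w A := by omega
        exact_mod_cast this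
      have h2 : ((genSet A (JN A g h)).ncard : ℚ) + G ≤ w + 2 * (sA w A : ℚ) := by
        exact_mod_cast hgen
      linarith
    have hc3q : (3 : ℚ) ≤ c := by exact_mod_cast hc3
    have hS3 : ((c : ℚ) - 1) * S ≤ ((c : ℚ) - 1) * (1 + (c : ℚ) / 2 + R) :=
      mul_le_mul_of_nonneg_left hS2 (by linarith)
    have hR3 : ((c : ℚ) - 1) * R < ((c : ℚ) - 1) * d + (if d = 0 then 1 else 0) := by
      rcases Nat.eq_zero_or_pos d with hd0 | hd0
      · rw [if_pos hd0]
        have h1 : R ≤ 0 := by rw [hd0] at hR1; exact_mod_cast hR1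
        have h2 : R = 0 := le_antisymm h1 hR0
        rw [h2, hd0]
        norm_num
      · rw [if_neg (by omega), add_zero]
        exact mul_lt_mul_of_pos_left (hR2 (by omega)) (by linarith)
    have hlt : 1 + ((c : ℚ) - 1) * S < ((w + 1).choose 2 : ℕ) -
        (((innerSet w (QN A)).ncard : ℚ) + ((genSet A (JN A g h)).ncard : ℚ)) + 1 := by
      rw [hX, hwq]
      rw [hwq] at hP
      rcases Nat.eq_zero_or_pos d with hd0 | hd0
      · rw [if_pos hd0] at hR3
        obtain ⟨κ, hκ, hsκ⟩ := sA_le_sK_half hA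
        rw [hcd] at hsκ
        have hs0 : sA w A = 0 := by
          have : sK 0 κ = 0 := by simp [sK]
          rw [hd0] at hsκ
          omega
        rw [hs0] at hP hcr'
        have hGq : (0 : ℚ) ≤ G := by positivity
        have hdq : (d : ℚ) = 0 := by rw [hd0]; norm_num
        rw [hdq] at hP hR3 ⊢
        push_cast at hP
        have h1 : R ≤ 0 := by rw [hd0] at hR1; exact_mod_cast hR1
        have h2 : R = 0 := le_antisymm h1 hR0
        rw [h2] at hS3
        nlinarith
      · rw [if_neg (by omega)] at hR3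
        nlinarith
    have hle : (innerSet w (QN A)).ncard + (genSet A (JN A g h)).ncard ≤ (w + 1).choose 2 := by
      have hS0 : 0 ≤ ((c : ℚ) - 1) * S :=
        mul_nonneg (by linarith) (Finset.sum_nonneg fun z _ => by positivity)
      have h1 : ((innerSet w (QN A)).ncard : ℚ) + ((genSet A (JN A g h)).ncard : ℚ) <
        ((w + 1).choose 2 : ℕ) + 1 := by
        linarith
      have h2 : (innerSet w (QN A)).ncard + (genSet A (JN A g h)).ncard <
          (w + 1).choose 2 + 1 := by
        exact_mod_cast h1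
      omega
    refine ⟨hiI.toFinset, (w + 1).choose 2 - ((innerSet w (QN A)).ncard +
      (genSet A (JN A g h)).ncard), ?_, ?_, ?_⟩
    · intro z hz
      left
      rwa [Set.Finite.mem_toFinset]
    · rw [Nat.cast_sub hle]
      push_cast at hlt ⊢
      exact hlt
    · rw [← Set.ncard_eq_toFinset_card _ hiI]
      omega

end sums

section main

variable {K : Type*} [Field K] {V : Type*} [Fintype V] [LinearOrder V]
variable {E : Type*} [AddCommGroup E] [Module K E] [Module (MvPolynomial V K) E]
  [IsScalarTower K (MvPolynomial V K) E]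
variable {b : Module.Basis (ℕ × ℕ) K E} {a : V → ℕ} {v v' : V} {w : ℕ}

theorem card_im (ha : Function.Injective a) : (im a).card = Fintype.card V := by
  rw [im, Finset.card_image_of_injective _ ha, Finset.card_univ]

theorem bound_ge_two (hs : IsShift b a) (ha : Function.Injective a) (hv : a v = 0)
    (hv' : a v' = w) (hA : GoodA (im a) w) (g h : ℕ) (hg : 0 < g) (hh : 0 < h) (i : ℕ) :
    hl Finset.univ (i + 2) (mon b (St (QN (im a))) : Submodule (MvPolynomial V K) E)
      (mon b (St (JN (im a) g h))) ≤ (((i + 2) * (w + 1).choose (i + 3) : ℕ) : ℕ∞) := by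
  obtain ⟨hc, -, hi, -⟩ := corners_Q hA (gapBound_zero hA)
  obtain ⟨hcJ, -, hiJ, -⟩ := corners_J hA (gapBound_zero hA) hg hh
  have h1 := hl_ge_two (K := K) hs ha hv hv' hA.wpos g h hc hi hcJ hiJ i
  have h2 := card_ge_two hA
  have h3 := card_im ha
  obtain ⟨c, hcc⟩ : ∃ c, Fintype.card V = c + 2 := ⟨Fintype.card V - 2, by omega⟩
  have h4 : Fintype.card V - 2 = c := by omega
  rw [h4] at h1
  have h5 := arith_ge_two hA g h hg hh c i (by omega)
  have h6 : hl Finset.univ (i + 2) (mon b (St (QN (im a))) : Submodule (MvPolynomial V K) E)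
      (mon b (St (JN (im a) g h))) + ((c.choose (i + 2) + c.choose (i + 3) : ℕ) : ℕ∞) ≤
      (((i + 2) * (w + 1).choose (i + 3) : ℕ) : ℕ∞) +
      ((c.choose (i + 2) + c.choose (i + 3) : ℕ) : ℕ∞) := by
    refine h1.trans ?_
    exact_mod_cast h5
  exact (ENat.add_le_add_iff_right (ENat.natCast_ne_top _)).mp h6

theorem bound_one (hs : IsShift b a) (ha : Function.Injective a) (hv : a v = 0)
    (hv' : a v' = w) (hA : GoodA (im a) w) (g h : ℕ) (hg : 0 < g) (hh : 0 < h) :
    hl Finset.univ 1 (mon b (St (QN (im a))) : Submodule (MvPolynomial V K) E)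
      (mon b (St (JN (im a) g h))) ≤ (((w + 1).choose 2 : ℕ) : ℕ∞) := by
  obtain ⟨hc, -, -, -⟩ := corners_Q hA (gapBound_zero hA)
  obtain ⟨hgf, -⟩ := gens_J hA (gapBound_zero hA) hg hh
  have h2 := card_ge_two hA
  have h3 := card_im ha
  obtain ⟨c, hcc⟩ : ∃ c, Fintype.card V = c + 2 := ⟨Fintype.card V - 2, by omega⟩
  have h4 : Fintype.card V - 2 = c := by omega
  obtain ⟨H, Y, hH, hY, hle⟩ := arith_one hA g h hg hh c (by omega) hc
  have h5 := hl_eq_one (K := K) hs hv hv' hA.wpos g h hc hgf H hH Y (by rw [h4]; exact hY)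
  refine h5.trans ?_
  exact_mod_cast hle

theorem bound_all (hs : IsShift b a) (ha : Function.Injective a) (hv : a v = 0)
    (hv' : a v' = w) (hA : GoodA (im a) w) (g h : ℕ) (hg : 0 < g) (hh : 0 < h) (i : ℕ)
    (hi : 1 ≤ i) :
    hl Finset.univ i (mon b (St (QN (im a))) : Submodule (MvPolynomial V K) E)
      (mon b (St (JN (im a) g h))) ≤ ((i * (w + 1).choose (i + 1) : ℕ) : ℕ∞) := by
  obtain ⟨j, rfl⟩ : ∃ j, i = j + 1 := ⟨i - 1, by omega⟩
  rcases Nat.eq_zero_or_pos j with hj | hj
  · subst hj
    have := bound_one (K := K) hs ha hv hv' hA g h hg hh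
    simpa using this
  · obtain ⟨l, rfl⟩ : ∃ l, j = l + 1 := ⟨j - 1, by omega⟩
    exact bound_ge_two hs ha hv hv' hA g h hg hh l

end main

end Pool.Agent.HS
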