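import Mathlib

/-!
# Combinatorial data attached to a finite set `A ⊆ [0, w]`, `0, w ∈ A`, `gcd A = 1`
-/

namespace Pool.Agent.HS

/-- the `N`-fold sumset of `A` -/
def QN (A : Finset ℕ) : ℕ → Finset ℕ
  | 0 => {0}
  | n + 1 => Finset.image₂ (· + ·) (QN A n) A

/-- the number of residue classes modulo `w` met by `B` -/
def cl (w : ℕ) (B : Finset ℕ) : ℕ := (B.image (· % w)).card

/-- `s = ∑_{j ≥ 1} (w - x_j)`, `x_j` the number of classes modulo `w` met by the `j`-fold sumset -/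
def sA (w : ℕ) (A : Finset ℕ) : ℕ := ∑ j ∈ Finset.range w, (w - cl w (QN A (j + 1)))

open Classical in
/-- the elements of the `N`-fold sumset of the form `β + t g`, `t ≥ 1`, `β` in the
`(N + h t)`-fold sumset -/
noncomputable def JN (A : Finset ℕ) (g h N : ℕ) : Finset ℕ :=
  (QN A N).filter fun α => ∃ t, 1 ≤ t ∧ ∃ β ∈ QN A (N + h * t), β + t * g = α

/-- the set of lattice points of a graded family -/
def St (B : ℕ → Finset ℕ) : Set (ℕ × ℕ) := {z | z.1 ∈ B z.2}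

/-- the points which are not of the form `y + (0,1)` or `y + (w,1)` -/
def cornerSet (w : ℕ) (B : ℕ → Finset ℕ) : Set (ℕ × ℕ) :=
  {z | z ∈ St B ∧ ∀ y ∈ St B, y + (0, 1) ≠ z ∧ y + (w, 1) ≠ z}

/-- the points `z` with `z + (w,1)` of the form `y + (0,1)`, but `z` not of this form -/
def innerSet (w : ℕ) (B : ℕ → Finset ℕ) : Set (ℕ × ℕ) :=
  {z | z ∈ St B ∧ (∃ y ∈ St B, y + (0, 1) = z + (w, 1)) ∧ ∀ y ∈ St B, y + (0, 1) ≠ z}

/-- the points which are not of the form `y + (a,1)`, `a ∈ A` -/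
def genSet (A : Finset ℕ) (B : ℕ → Finset ℕ) : Set (ℕ × ℕ) :=
  {z | z ∈ St B ∧ ∀ y ∈ St B, ∀ a ∈ A, y + (a, 1) ≠ z}

/-- standing assumptions on `A` -/
structure GoodA (A : Finset ℕ) (w : ℕ) : Prop where
  h0 : 0 ∈ A
  hw : w ∈ A
  hle : ∀ a ∈ A, a ≤ w
  wpos : 0 < w
  hgcd : ∀ k : ℕ, (∀ a ∈ A, k ∣ a) → k = 1

/-- `G` is a lower bound for the number of gaps, i.e. `|T A| ≤ T w + 1 - G` for large `T` -/
def GapBound (A : Finset ℕ) (w G : ℕ) : Prop :=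
  ∃ T0, ∀ T, T0 ≤ T → (QN A T).card + G ≤ T * w + 1

end Pool.Agent.HS
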