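import Pool.Agent.HS.Macaulay
import Pool.Agent.HS.Defs

/-!
# Removing the first and the last variable
-/

namespace Pool.Agent.HS

open MvPolynomial Finset Pool.Agent.BEI

set_option linter.unusedSectionVars false

variable {K : Type*} [Field K] {V : Type*} [Fintype V] [LinearOrder V]
variable {E : Type*} [AddCommGroup E] [Module K E] [Module (MvPolynomial V K) E]
  [IsScalarTower K (MvPolynomial V K) E]
variable {b : Module.Basis (ℕ × ℕ) K E} {a : V → ℕ}

theorem hl_empty (W : Finset V) (i : ℕ) (L : Submodule (MvPolynomial V K) E) :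
    hl W i (mon b ∅ : Submodule (MvPolynomial V K) E) L = 0 := by
  apply ql_eq_zero
  intro f hf
  rw [mem_Zy] at hf
  rw [mon_empty] at hf
  exact Ch_le_Bd (Ch_mono bot_le hf.1)

/-- the shifted set -/
def shf (a : V → ℕ) (v : V) (B : Set (ℕ × ℕ)) : Set (ℕ × ℕ) := (· + xs a v) '' B

theorem mem_shf {v : V} {B : Set (ℕ × ℕ)} {z : ℕ × ℕ} :
    z ∈ shf a v B ↔ ∃ y ∈ B, y + xs a v = z := Iff.rfl

/-- removing one variable which acts injectively -/
theorem hl_remove_first (hs : IsShift b a) {W : Finset V} {v : V} (hv : v ∉ W) (i : ℕ)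
    {B : Set (ℕ × ℕ)} (hB : Cl a B) :
    hl (insert v W) (i + 1) (mon b B : Submodule (MvPolynomial V K) E) ⊥ ≤
      hl W (i + 1) (mon b B : Submodule (MvPolynomial V K) E) (mon b (shf a v B)) := by
  have h1 := hl_insert hv i (B := (mon b B : Submodule (MvPolynomial V K) E)) (L := ⊥)
  have h2 : (mon b B ⊓ (⊥ : Submodule (MvPolynomial V K) E).comap (mulX v) :
      Submodule (MvPolynomial V K) E) = mon b ∅ := by
    rw [← mon_empty (K := K) (V := V) (b := b),
      mon_colon hs v hB (by intro z hz; exact absurd hz (Set.notMem_empty _))]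
    congr 1
    ext z
    simp
  rw [h2, hl_empty, zero_add, bot_sup_eq, mon_map hs] at h1
  exact h1

theorem hl_remove_last (hs : IsShift b a) {W : Finset V} {v : V} (hv : v ∉ W) (i : ℕ)
    {B L : Set (ℕ × ℕ)} (hB : Cl a B) (hL : Cl a L) :
    hl (insert v W) (i + 1) (mon b B : Submodule (MvPolynomial V K) E) (mon b L) ≤
      hl W i (mon b {z | z ∈ B ∧ z + xs a v ∈ L} : Submodule (MvPolynomial V K) E) (mon b L) +
      hl W (i + 1) (mon b B : Submodule (MvPolynomial V K) E) (mon b (L ∪ shf a v B)) := by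
  have h1 := hl_insert hv i (B := (mon b B : Submodule (MvPolynomial V K) E)) (L := mon b L)
  rw [mon_colon hs v hB hL, mon_map hs, mon_sup] at h1
  exact h1

/-- both steps together -/
theorem hl_two (hs : IsShift b a) {W : Finset V} {v v' : V} (hv : v ∉ W) (hv' : v' ∉ W)
    (hvv : v ≠ v') (i : ℕ) {B : Set (ℕ × ℕ)} (hB : Cl a B) :
    hl (insert v (insert v' W)) (i + 1) (mon b B : Submodule (MvPolynomial V K) E) ⊥ ≤
      hl W i (mon b {z | z ∈ B ∧ z + xs a v' ∈ shf a v B} : Submodule (MvPolynomial V K) E)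
        (mon b (shf a v B)) +
      hl W (i + 1) (mon b B : Submodule (MvPolynomial V K) E)
        (mon b (shf a v B ∪ shf a v' B)) := by
  refine (hl_remove_first hs (by simp [hvv, hv]) i hB).trans ?_
  exact hl_remove_last hs hv' i hB (hB.shift v)

section comb

theorem mem_QN_succ {A : Finset ℕ} {n α : ℕ} :
    α ∈ QN A (n + 1) ↔ ∃ β ∈ QN A n, ∃ c ∈ A, β + c = α := by
  rw [QN, Finset.mem_image₂]

theorem zero_mem_St (A : Finset ℕ) : (0 : ℕ × ℕ) ∈ St (QN A) := by
  show (0 : ℕ) ∈ QN A 0
  simp [QN]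

/-- the set of values of `a` -/
def im (a : V → ℕ) : Finset ℕ := Finset.univ.image a

theorem mem_im (v : V) : a v ∈ im a := Finset.mem_image_of_mem _ (Finset.mem_univ v)

theorem Cl_St_QN : Cl a (St (QN (im a))) := by
  intro z hz v
  show z.1 + a v ∈ QN (im a) (z.2 + 1)
  rw [mem_QN_succ]
  exact ⟨z.1, hz, a v, mem_im v, rfl⟩

theorem mem_JN {A : Finset ℕ} {g h N α : ℕ} : α ∈ JN A g h N ↔
    α ∈ QN A N ∧ ∃ t, 1 ≤ t ∧ ∃ β ∈ QN A (N + h * t), β + t * g = α := by
  simp [JN]

theorem Cl_St_JN (g h : ℕ) : Cl a (St (JN (im a) g h)) := by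
  intro z hz v
  have hz' : z.1 ∈ JN (im a) g h z.2 := hz
  rw [mem_JN] at hz'
  obtain ⟨h1, t, ht, β, hβ, he⟩ := hz'
  show z.1 + a v ∈ JN (im a) g h (z.2 + 1)
  rw [mem_JN]
  refine ⟨Cl_St_QN z h1 v, t, ht, β + a v, ?_, by omega⟩
  have : z.2 + 1 + h * t = z.2 + h * t + 1 := by omega
  rw [this, mem_QN_succ]
  exact ⟨β, hβ, a v, mem_im v, rfl⟩

theorem St_JN_subset (A : Finset ℕ) (g h : ℕ) : St (JN A g h) ⊆ St (QN A) := by
  intro z hz
  have hz' : z.1 ∈ JN A g h z.2 := hz
  rw [mem_JN] at hz'
  exact hz'.1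

/-- every point of `Q` is the point of a monomial -/
theorem exists_pt {z : ℕ × ℕ} (hz : z ∈ St (QN (im a))) : ∃ u : V →₀ ℕ, pt a u = z := by
  obtain ⟨α, N⟩ := z
  have hz' : α ∈ QN (im a) N := hz
  clear hz
  induction N generalizing α with
  | zero =>
    rw [QN, Finset.mem_singleton] at hz'
    subst hz'
    exact ⟨0, map_zero _⟩
  | succ N ih =>
    rw [mem_QN_succ] at hz'
    obtain ⟨β, hβ, c, hc, rfl⟩ := hz'
    obtain ⟨u, hu⟩ := ih β hβ
    rw [im, Finset.mem_image] at hc
    obtain ⟨v, _, rfl⟩ := hc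
    exact ⟨u + Finsupp.single v 1, by rw [map_add, hu, pt_single]; rfl⟩

/-- a point outside of `(Q + x_v) ∪ (Q + x_{v'})` only has factorisations without `v`, `v'` -/
theorem exists_pt_of_notMem {v v' : V} {z : ℕ × ℕ} (hz : z ∈ St (QN (im a)))
    (hz1 : z ∉ shf a v (St (QN (im a)))) (hz2 : z ∉ shf a v' (St (QN (im a)))) :
    ∃ u : V →₀ ℕ, u.support ⊆ Finset.univ \ {v, v'} ∧ pt a u = z := by
  obtain ⟨u, hu⟩ := exists_pt hz
  refine ⟨u, ?_, hu⟩
  intro x hx
  rw [Finset.mem_sdiff, Finset.mem_insert, Finset.mem_singleton, not_or]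
  have h1 : pt a (u - Finsupp.single x 1) + xs a x = z := by rw [pt_sub_single hx, hu]
  have h2 : pt a (u - Finsupp.single x 1) ∈ St (QN (im a)) :=
    pt_mem Cl_St_QN (zero_mem_St _) _
  refine ⟨Finset.mem_univ _, ?_, ?_⟩
  · rintro rfl; exact hz1 ⟨_, h2, h1⟩
  · rintro rfl; exact hz2 ⟨_, h2, h1⟩

end comb

section main

variable {v v' : V} {w : ℕ}

theorem xs_zero (hv : a v = 0) : xs a v = (0, 1) := by rw [xs, hv]

theorem xs_last (hv' : a v' = w) : xs a v' = (w, 1) := by rw [xs, hv']

/-- the corner set as complement -/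
theorem mem_cornerSet_iff (hv : a v = 0) (hv' : a v' = w) {B : ℕ → Finset ℕ} {z : ℕ × ℕ} :
    z ∈ cornerSet w B ↔ z ∈ St B ∧ z ∉ shf a v (St B) ∪ shf a v' (St B) := by
  rw [cornerSet, Set.mem_ofPred_eq, Set.mem_union, not_or, mem_shf, mem_shf, xs_zero hv,
    xs_last hv']
  constructor
  · rintro ⟨h1, h2⟩
    exact ⟨h1, fun ⟨y, hy, he⟩ => (h2 y hy).1 he, fun ⟨y, hy, he⟩ => (h2 y hy).2 he⟩
  · rintro ⟨h1, h2, h3⟩
    exact ⟨h1, fun y hy => ⟨fun he => h2 ⟨y, hy, he⟩, fun he => h3 ⟨y, hy, he⟩⟩⟩

theorem mem_innerSet_iff (hv : a v = 0) (hv' : a v' = w) {B : ℕ → Finset ℕ} {z : ℕ × ℕ} :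
    z ∈ innerSet w B ↔ (z ∈ St B ∧ z + xs a v' ∈ shf a v (St B)) ∧ z ∉ shf a v (St B) := by
  rw [innerSet, Set.mem_ofPred_eq, mem_shf, mem_shf, xs_zero hv, xs_last hv']
  constructor
  · rintro ⟨h1, h2, h3⟩
    exact ⟨⟨h1, h2⟩, fun ⟨y, hy, he⟩ => h3 y hy he⟩
  · rintro ⟨⟨h1, h2⟩, h3⟩
    exact ⟨h1, h2, fun y hy he => h3 ⟨y, hy, he⟩⟩

/-- Koszul homology of a monomial module in positive degree -/
theorem hl_family (hs : IsShift b a) (hv : a v = 0) (hv' : a v' = w) (hw : 0 < w)
    {B : ℕ → Finset ℕ} (hB : Cl a (St B)) (hc : (cornerSet w B).Finite)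
    (hi : (innerSet w B).Finite) (i : ℕ) :
    hl Finset.univ (i + 1) (mon b (St B) : Submodule (MvPolynomial V K) E) ⊥ ≤
      (((Fintype.card V - 2).choose i * (innerSet w B).ncard +
        (Fintype.card V - 2).choose (i + 1) * (cornerSet w B).ncard : ℕ) : ℕ∞) := by
  classical
  have hne : v ≠ v' := by
    rintro rfl
    omega
  have hcard : (Finset.univ \ {v, v'} : Finset V).card = Fintype.card V - 2 := by
    rw [Finset.card_sdiff_of_subset (Finset.subset_univ _), Finset.card_pair hne,
      Finset.card_univ]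
  have huniv : (Finset.univ : Finset V) = insert v (insert v' (Finset.univ \ {v, v'})) := by
    ext x
    simp only [mem_univ, mem_insert, mem_sdiff, mem_singleton, true_and, true_iff]
    tauto
  rw [huniv]
  refine (hl_two hs (by simp) (by simp) hne i hB).trans ?_
  push_cast
  refine add_le_add ?_ ?_
  · have h1 := hl_le_card hs (Finset.univ \ {v, v'}) i
      (B := {z | z ∈ St B ∧ z + xs a v' ∈ shf a v (St B)}) (L := shf a v (St B))
      (hB.colon (hB.shift v) v') hi.toFinset (by
        intro z hz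
        by_cases h : z ∈ shf a v (St B)
        · exact Or.inl h
        · right
          rw [Set.Finite.mem_toFinset, mem_innerSet_iff hv hv']
          exact ⟨hz, h⟩)
    rw [hcard, ← Set.ncard_eq_toFinset_card _ hi] at h1
    push_cast at h1
    exact h1
  · have h1 := hl_le_card hs (Finset.univ \ {v, v'}) (i + 1)
      (B := St B) (L := shf a v (St B) ∪ shf a v' (St B)) hB hc.toFinset (by
        intro z hz
        by_cases h : z ∈ shf a v (St B) ∪ shf a v' (St B)
        · exact Or.inl h
        · right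
          rw [Set.Finite.mem_toFinset, mem_cornerSet_iff hv hv']
          exact ⟨hz, h⟩)
    rw [hcard, ← Set.ncard_eq_toFinset_card _ hc] at h1
    push_cast at h1
    exact h1

theorem xs_notMem (ha : Function.Injective a) (hv : a v = 0) (hv' : a v' = w) {x : V}
    (hx : x ∈ (Finset.univ \ {v, v'} : Finset V)) :
    xs a x ∉ shf a v (St (QN (im a))) ∪ shf a v' (St (QN (im a))) := by
  rw [Finset.mem_sdiff, Finset.mem_insert, Finset.mem_singleton, not_or] at hx
  rw [Set.mem_union, not_or]
  constructor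
  · rintro ⟨y, hy, he⟩
    have h1 : y.1 + a v = a x := congrArg Prod.fst he
    have h2 : y.2 + 1 = 1 := congrArg Prod.snd he
    have h3 : y.1 ∈ QN (im a) y.2 := hy
    have h4 : y.2 = 0 := by omega
    rw [h4, QN, Finset.mem_singleton] at h3
    apply hx.2.1
    apply ha
    omega
  · rintro ⟨y, hy, he⟩
    have h1 : y.1 + a v' = a x := congrArg Prod.fst he
    have h2 : y.2 + 1 = 1 := congrArg Prod.snd he
    have h3 : y.1 ∈ QN (im a) y.2 := hy
    have h4 : y.2 = 0 := by omega
    rw [h4, QN, Finset.mem_singleton] at h3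
    apply hx.2.2
    apply ha
    omega

/-- refined version for `Q` -/
theorem hl_Q (hs : IsShift b a) (ha : Function.Injective a) (hv : a v = 0) (hv' : a v' = w)
    (hw : 0 < w) (hc : (cornerSet w (QN (im a))).Finite)
    (hi : (innerSet w (QN (im a))).Finite) (i : ℕ) :
    hl Finset.univ (i + 1) (mon b (St (QN (im a))) : Submodule (MvPolynomial V K) E) ⊥ +
      (((Fintype.card V - 2).choose (i + 1) + (Fintype.card V - 2).choose (i + 2) : ℕ) : ℕ∞) ≤
      (((Fintype.card V - 2).choose i * (innerSet w (QN (im a))).ncard +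
        (Fintype.card V - 2).choose (i + 1) * (cornerSet w (QN (im a))).ncard : ℕ) : ℕ∞) := by
  classical
  have hB : Cl a (St (QN (im a))) := Cl_St_QN
  have hne : v ≠ v' := by
    rintro rfl
    omega
  have hcard : (Finset.univ \ {v, v'} : Finset V).card = Fintype.card V - 2 := by
    rw [Finset.card_sdiff_of_subset (Finset.subset_univ _), Finset.card_pair hne,
      Finset.card_univ]
  have huniv : (Finset.univ : Finset V) = insert v (insert v' (Finset.univ \ {v, v'})) := by
    ext x
    simp only [mem_univ, mem_insert, mem_sdiff, mem_singleton, true_and, true_iff]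
    tauto
  have e1 := hl_le_card hs (Finset.univ \ {v, v'}) i
      (B := {z | z ∈ St (QN (im a)) ∧ z + xs a v' ∈ shf a v (St (QN (im a)))})
      (L := shf a v (St (QN (im a))))
      (hB.colon (hB.shift v) v') hi.toFinset (by
        intro z hz
        by_cases h : z ∈ shf a v (St (QN (im a)))
        · exact Or.inl h
        · right
          rw [Set.Finite.mem_toFinset, mem_innerSet_iff hv hv']
          exact ⟨hz, h⟩)
  rw [hcard, ← Set.ncard_eq_toFinset_card _ hi] at e1
  have e2 := hl_refined (K := K) hs ha hB ((hB.shift v).union (hB.shift v')) (by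
      rintro z (⟨y, hy, rfl⟩ | ⟨y, hy, rfl⟩)
      · exact hB y hy v
      · exact hB y hy v') (zero_mem_St _)
      (W := Finset.univ \ {v, v'}) (fun x hx => xs_notMem ha hv hv' hx) i hc.toFinset (by
        intro z hz
        by_cases h : z ∈ shf a v (St (QN (im a))) ∪ shf a v' (St (QN (im a)))
        · exact Or.inl h
        · right
          rw [Set.Finite.mem_toFinset, mem_cornerSet_iff hv hv']
          exact ⟨hz, h⟩)
  rw [hcard, ← Set.ncard_eq_toFinset_card _ hc] at e2
  have e3 := hl_two hs (W := Finset.univ \ {v, v'}) (v := v) (v' := v') (by simp) (by simp)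
    hne i hB
  rw [← huniv] at e3
  refine (add_le_add_left e3 _).trans ?_
  rw [add_assoc]
  refine (add_le_add e1 e2).trans ?_
  push_cast
  exact le_rfl

/-- the bound for `i ≥ 2` -/
theorem hl_ge_two (hs : IsShift b a) (ha : Function.Injective a) (hv : a v = 0)
    (hv' : a v' = w) (hw : 0 < w) (g h : ℕ) (hc : (cornerSet w (QN (im a))).Finite)
    (hi : (innerSet w (QN (im a))).Finite) (hcJ : (cornerSet w (JN (im a) g h)).Finite)
    (hiJ : (innerSet w (JN (im a) g h)).Finite) (i : ℕ) :
    hl Finset.univ (i + 2) (mon b (St (QN (im a))) : Submodule (MvPolynomial V K) E)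
      (mon b (St (JN (im a) g h))) +
      (((Fintype.card V - 2).choose (i + 2) + (Fintype.card V - 2).choose (i + 3) : ℕ) : ℕ∞) ≤
      (((Fintype.card V - 2).choose (i + 1) * (innerSet w (QN (im a))).ncard +
        (Fintype.card V - 2).choose (i + 2) * (cornerSet w (QN (im a))).ncard +
        ((Fintype.card V - 2).choose i * (innerSet w (JN (im a) g h)).ncard +
        (Fintype.card V - 2).choose (i + 1) * (cornerSet w (JN (im a) g h)).ncard) : ℕ) : ℕ∞) := by
  have h1 := hl_ses (K := K) Finset.univ (i + 1)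
    (B := (mon b (St (QN (im a))) : Submodule (MvPolynomial V K) E))
    (M := mon b (St (JN (im a) g h))) (L := ⊥) bot_le (mon_mono (St_JN_subset _ g h))
  have h2 := hl_Q (K := K) hs ha hv hv' hw hc hi (i + 1)
  have h3 := hl_family (K := K) hs hv hv' hw (Cl_St_JN g h) hcJ hiJ i
  refine (add_le_add_left h1 _).trans ?_
  rw [add_right_comm]
  refine (add_le_add h2 h3).trans ?_
  push_cast
  exact le_rfl

/-- the bound for `i = 1` -/
theorem hl_eq_one (hs : IsShift b a) (hv : a v = 0)
    (hv' : a v' = w) (hw : 0 < w) (g h : ℕ) (hc : (cornerSet w (QN (im a))).Finite)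
    (hg : (genSet (im a) (JN (im a) g h)).Finite) (H : Finset (ℕ × ℕ))
    (hH : ∀ z ∈ innerSet w (QN (im a)), z ∈ H ∨ ∃ x ∈ im a, x ≠ 0 ∧ x ≠ w ∧
      ∃ y ∈ St (QN (im a)), (∃ y' ∈ St (QN (im a)), y' + (0, 1) = y + (w, 1)) ∧
        y + (x, 1) = z) (Y : ℕ)
    (hY : 1 + (((Fintype.card V - 2 : ℕ) : ℚ) - 1) * ∑ z ∈ hc.toFinset, 1 / ((z.2 : ℚ) + 1) <
      Y + 1) :
    hl Finset.univ 1 (mon b (St (QN (im a))) : Submodule (MvPolynomial V K) E)
      (mon b (St (JN (im a) g h))) ≤
      ((H.card + Y + (genSet (im a) (JN (im a) g h)).ncard : ℕ) : ℕ∞) := by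
  classical
  have hB : Cl a (St (QN (im a))) := Cl_St_QN
  have hne : v ≠ v' := by
    rintro rfl
    omega
  have hcard : (Finset.univ \ {v, v'} : Finset V).card = Fintype.card V - 2 := by
    rw [Finset.card_sdiff_of_subset (Finset.subset_univ _), Finset.card_pair hne,
      Finset.card_univ]
  have huniv : (Finset.univ : Finset V) = insert v (insert v' (Finset.univ \ {v, v'})) := by
    ext x
    simp only [mem_univ, mem_insert, mem_sdiff, mem_singleton, true_and, true_iff]
    tauto
  have h1 := hl_ses (K := K) Finset.univ 0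
    (B := (mon b (St (QN (im a))) : Submodule (MvPolynomial V K) E))
    (M := mon b (St (JN (im a) g h))) (L := ⊥) bot_le (mon_mono (St_JN_subset _ g h))
  have h2 : hl Finset.univ 0 (mon b (St (JN (im a) g h)) : Submodule (MvPolynomial V K) E) ⊥ ≤
      ((genSet (im a) (JN (im a) g h)).ncard : ℕ∞) := by
    have := hl_zero_le_card (K := K) hs Finset.univ (B := St (JN (im a) g h)) (L := ∅)
      (Cl_St_JN g h) hg.toFinset (by
        intro z hz
        right
        by_cases hz2 : z ∈ genSet (im a) (JN (im a) g h)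
        · left
          rwa [Set.Finite.mem_toFinset]
        · right
          rw [genSet, Set.mem_ofPred_eq, not_and] at hz2
          have h3 := hz2 hz
          simp only [not_forall, not_not] at h3
          obtain ⟨y, hy, c, hcA, he⟩ := h3
          rw [im, Finset.mem_image] at hcA
          obtain ⟨x, _, rfl⟩ := hcA
          exact ⟨x, Finset.mem_univ _, y, hy, he⟩)
    rw [mon_empty, ← Set.ncard_eq_toFinset_card _ hg] at this
    exact this
  have e3 := hl_two hs (W := Finset.univ \ {v, v'}) (v := v) (v' := v') (by simp) (by simp)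
    hne 0 hB
  rw [← huniv] at e3
  have e1 := hl_zero_le_card hs (Finset.univ \ {v, v'})
      (B := {z | z ∈ St (QN (im a)) ∧ z + xs a v' ∈ shf a v (St (QN (im a)))})
      (L := shf a v (St (QN (im a))))
      (hB.colon (hB.shift v) v') H (by
        intro z hz
        by_cases h : z ∈ shf a v (St (QN (im a)))
        · exact Or.inl h
        · right
          have hz' : z ∈ innerSet w (QN (im a)) := by
            rw [mem_innerSet_iff hv hv']
            exact ⟨hz, h⟩
          rcases hH z hz' with h3 | ⟨c, hcA, hc0, hcw, y, hy, ⟨y', hy', he'⟩, he⟩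
          · exact Or.inl h3
          · right
            rw [im, Finset.mem_image] at hcA
            obtain ⟨x, _, rfl⟩ := hcA
            refine ⟨x, ?_, y, ⟨hy, ?_⟩, he⟩
            · rw [Finset.mem_sdiff, Finset.mem_insert, Finset.mem_singleton, not_or]
              refine ⟨Finset.mem_univ _, ?_, ?_⟩
              · rintro rfl; exact hc0 hv
              · rintro rfl; exact hcw hv'
            · rw [mem_shf, xs_zero hv, xs_last hv']
              exact ⟨y', hy', he'⟩)
  have e2 := hl_one_le (K := K) hs (W := Finset.univ \ {v, v'}) hB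
      ((hB.shift v).union (hB.shift v')) (by
      rintro z (⟨y, hy, rfl⟩ | ⟨y, hy, rfl⟩)
      · exact hB y hy v
      · exact hB y hy v') (zero_mem_St _) (by
        intro z hz hzL
        rw [Set.mem_union, not_or] at hzL
        exact exists_pt_of_notMem hz hzL.1 hzL.2) hc.toFinset (by
        intro z
        rw [Set.Finite.mem_toFinset, mem_cornerSet_iff hv hv']
        rfl) Y (by rw [hcard]; exact hY)
  refine h1.trans ?_
  push_cast
  refine add_le_add (e3.trans (add_le_add e1 e2)) h2

end main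

end Pool.Agent.HS
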