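import Pool.Agent.HS.CombJ
import Pool.Agent.HS.CombQ

/-!
# Inner points of `J`
-/

namespace Pool.Agent.HS

theorem cl_JN_full {A : Finset ℕ} {w g : ℕ} (hA : GoodA A w) (hg : 0 < g) (h : ℕ) :
    ∃ T0, ∀ T, T0 ≤ T → w ≤ cl w (JN A g h T) := by
  obtain ⟨n, -, ⟨α, hα⟩, -⟩ := CombJ.exists_n0 hA hg h
  refine ⟨n + 1 + w, fun T hT => ?_⟩
  refine (cl_QN_full hA (j := T - (n + 1)) (by omega)).trans ?_
  refine CombBase.cl_le_of_translate hA.wpos α fun b hb => ?_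
  have h1 := CombJ.JN_add_QN hα hb
  have h2 : n + 1 + (T - (n + 1)) = T := by omega
  rw [h2] at h1
  exact h1

theorem inner_J {A : Finset ℕ} {w g h : ℕ} (hA : GoodA A w) (hg : 0 < g)
    (hfin : (cornerSet w (JN A g h)).Finite) :
    (innerSet w (JN A g h)).Finite ∧
      (innerSet w (JN A g h)).ncard + w ≤ (cornerSet w (JN A g h)).ncard :=
  family_inner hA.wpos (CombJ.JN_mono_succ hA) (fun _ _ hx => CombJ.JN_add hx hA.hw) hfin
    (cl_JN_full hA hg h)

end Pool.Agent.HS
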