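import Pool.Agent.HS.Mono

/-!
# Refined bounds for the Koszul homology of a cyclic monomial module `mon Q / mon L`
-/

namespace Pool.Agent.HS

open MvPolynomial Finset Pool.Agent.BEI

set_option linter.unusedSectionVars false

variable {K : Type*} [Field K] {V : Type*} [Fintype V] [LinearOrder V]
variable {E : Type*} [AddCommGroup E] [Module K E] [Module (MvPolynomial V K) E]
  [IsScalarTower K (MvPolynomial V K) E]
variable {b : Module.Basis (ℕ × ℕ) K E} {a : V → ℕ}

theorem koszulD_smulK (c : K) (f : Finset V → E) :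
    koszulD K E (c • f) = c • koszulD K E f :=
  LinearMap.map_smul_of_tower _ c f

theorem ep_apply_repr (A B : Finset V) (z z' : ℕ × ℕ) :
    b.repr (ep b A z B) z' = if A = B ∧ z = z' then 1 else 0 := by
  rw [ep]
  by_cases h : A = B
  · subst h
    rw [Pi.single_eq_same, Module.Basis.repr_self, Finsupp.single_apply]
    simp
  · rw [Pi.single_eq_of_ne (Ne.symm h), map_zero]
    simp [h]

/-- the `d(e_A ⊗ 1)` are linearly independent modulo `L` -/
theorem indep_aux (hs : IsShift b a) {W : Finset V} (ha : Function.Injective a)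
    {L : Set (ℕ × ℕ)} (hL : Cl a L) (hW : ∀ v ∈ W, xs a v ∉ L) (i : ℕ)
    (c : ↥(powersetCard (i + 1) W) → K)
    (h : ∀ B, koszulD K E (∑ p, c p • ep b p.1 0) B ∈
      (mon b L : Submodule (MvPolynomial V K) E)) : c = 0 := by
  funext p0
  obtain ⟨A0, hA0⟩ := p0
  have hA0' := hA0
  rw [Finset.mem_powersetCard] at hA0'
  obtain ⟨v0, hv0⟩ : A0.Nonempty := by
    rw [← Finset.card_pos, hA0'.2]; omega
  have h1 := h (A0.erase v0)
  rw [mem_mon hs hL] at h1
  have h2 := mt (h1 (xs a v0)) (hW v0 (hA0'.1 hv0))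
  rw [not_not, map_sum] at h2
  simp_rw [koszulD_smulK, koszulD_ep hs] at h2
  rw [Finset.sum_apply, map_sum, Finsupp.finsetSum_apply] at h2
  have h3 : ∀ p : ↥(powersetCard (i + 1) W),
      b.repr ((c p • ∑ x ∈ p.1, ksign x (p.1.erase x) • ep b (p.1.erase x) (0 + xs a x))
        (A0.erase v0)) (xs a v0) = if p.1 = A0 then c p * (ksign v0 (A0.erase v0) : K) else 0 := by
    intro p
    rw [Pi.smul_apply, b.repr.map_smul, Finsupp.smul_apply, Finset.sum_apply, map_sum,
      Finsupp.finsetSum_apply]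
    have h4 : ∀ x ∈ p.1, b.repr ((ksign x (p.1.erase x) • ep b (p.1.erase x) (0 + xs a x))
        (A0.erase v0)) (xs a v0) = if x = v0 ∧ p.1 = A0 then (ksign v0 (A0.erase v0) : K)
          else 0 := by
      intro x hx
      rw [Pi.smul_apply, map_zsmul, Finsupp.smul_apply, ep_apply_repr, zero_add]
      by_cases h5 : x = v0 ∧ p.1 = A0
      · rw [if_pos h5, h5.1, h5.2, if_pos ⟨rfl, rfl⟩]
        simp
      · rw [if_neg h5, if_neg, smul_zero]
        rintro ⟨h6, h7⟩
        have hx0 : x = v0 := ha (congrArg Prod.fst h7)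
        subst hx0
        refine h5 ⟨rfl, ?_⟩
        rw [← Finset.insert_erase hx, h6, Finset.insert_erase hv0]
    rw [Finset.sum_congr rfl h4]
    split_ifs with h5
    · rw [smul_eq_mul]
      congr 1
      simp only [h5, and_true]
      rw [Finset.sum_ite_eq']
      simp [hv0]
    · simp [h5]
  simp_rw [h3] at h2
  rw [Finset.sum_eq_single ⟨A0, hA0⟩] at h2
  · rw [if_pos rfl] at h2
    rcases mul_eq_zero.mp h2 with h4 | h4
    · exact h4
    · exfalso
      have := congrArg (fun t : ℤ => (t : K)) (ksign_mul_self v0 (A0.erase v0))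
      simp only [Int.cast_mul, Int.cast_one] at this
      rw [h4] at this
      simp at this
  · intro p _ hp
    rw [if_neg]
    intro h4
    exact hp (Subtype.ext h4)
  · intro h4
    exact absurd (Finset.mem_univ _) h4

theorem hl_refined (hs : IsShift b a) {W : Finset V} (ha : Function.Injective a)
    {Q L : Set (ℕ × ℕ)} (hQ : Cl a Q) (hL : Cl a L) (hLQ : L ⊆ Q) (h0 : (0 : ℕ × ℕ) ∈ Q)
    (hW : ∀ v ∈ W, xs a v ∉ L) (i : ℕ)
    (D : Finset (ℕ × ℕ)) (hD : ∀ z ∈ Q, z ∈ L ∨ z ∈ D) :
    hl W (i + 1) (mon b Q : Submodule (MvPolynomial V K) E) (mon b L) +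
      ((W.card.choose (i + 1) + W.card.choose (i + 2) : ℕ) : ℕ∞) ≤
      ((W.card.choose (i + 1) * D.card : ℕ) : ℕ∞) := by
  classical
  set ZK := (Zy W (i + 1) (mon b Q : Submodule (MvPolynomial V K) E)
    (mon b L)).restrictScalars K with hZK
  set BK := (Bd W (i + 1) (mon b Q : Submodule (MvPolynomial V K) E)
    (mon b L)).restrictScalars K with hBK
  set CK := (Ch W (i + 1) (mon b Q : Submodule (MvPolynomial V K) E)).restrictScalars K with hCK
  set LK := (Ch W (i + 1) (mon b L : Submodule (MvPolynomial V K) E)).restrictScalars K with hLK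
  have hLB : LK ≤ BK := Ch_le_Bd
  have hBZ : BK ≤ ZK := Bd_le_Zy (mon_mono hLQ)
  have hZC : ZK ≤ CK := by
    intro f hf
    have hf' : f ∈ Zy W (i + 1) (mon b Q : Submodule (MvPolynomial V K) E) (mon b L) := hf
    rw [mem_Zy] at hf'
    exact hf'.1
  have e1 : ql CK LK ≤ ((W.card.choose (i + 1) * D.card : ℕ) : ℕ∞) := by
    have h := ql_le_card (K := K) (Z := CK) (B := LK)
      (fun p : ↥(powersetCard (i + 1) W ×ˢ D) => ep b p.1.1 p.1.2) ?_
    · refine h.trans (le_of_eq ?_)
      rw [Fintype.card_coe, Finset.card_product, Finset.card_powersetCard]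
    · refine Ch_le_of hs (W := W) (i := i + 1) hQ _ ?_
      intro A hA hi z hz
      rcases hD z hz with hL | hzD
      · exact Submodule.mem_sup_left (ep_mem_Ch hA hi hL)
      · refine Submodule.mem_sup_right (Submodule.subset_span ⟨⟨(A, z), ?_⟩, rfl⟩)
        rw [Finset.mem_product, Finset.mem_powersetCard]
        exact ⟨⟨hA, hi⟩, hzD⟩
  have e2 : ((W.card.choose (i + 1) : ℕ) : ℕ∞) ≤ ql CK ZK := by
    have h := card_le_ql (K := K) (Z := CK) (B := ZK)
      (fun p : ↥(powersetCard (i + 1) W) => ep b p.1 0) ?_ ?_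
    · rw [Fintype.card_coe, Finset.card_powersetCard] at h
      exact h
    · intro p
      have hp := p.2
      rw [Finset.mem_powersetCard] at hp
      exact ep_mem_Ch hp.1 hp.2 h0
    · intro c hc
      have hc' : ∑ p : ↥(powersetCard (i + 1) W), c p • ep b p.1 0 ∈
        Zy W (i + 1) (mon b Q : Submodule (MvPolynomial V K) E) (mon b L) := hc
      rw [mem_Zy] at hc'
      exact indep_aux hs ha hL hW i c hc'.2
  have e3 : ((W.card.choose (i + 2) : ℕ) : ℕ∞) ≤ ql BK LK := by
    have h := card_le_ql (K := K) (Z := BK) (B := LK)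
      (fun p : ↥(powersetCard (i + 2) W) => koszulD K E (ep b p.1 0)) ?_ ?_
    · rw [Fintype.card_coe, Finset.card_powersetCard] at h
      exact h
    · intro p
      have hp := p.2
      rw [Finset.mem_powersetCard] at hp
      show koszulD K E (ep b p.1 0) ∈
        Bd W (i + 1) (mon b Q : Submodule (MvPolynomial V K) E) (mon b L)
      rw [mem_Bd]
      exact ⟨_, ep_mem_Ch hp.1 hp.2 h0, 0, Submodule.zero_mem _, by rw [add_zero]⟩
    · intro c hc
      have hc' : ∑ p : ↥(powersetCard (i + 2) W), c p • koszulD K E (ep b p.1 0) ∈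
        Ch W (i + 1) (mon b L : Submodule (MvPolynomial V K) E) := hc
      refine indep_aux hs ha hL hW (i + 1) c fun B => ?_
      rw [map_sum]
      simp_rw [koszulD_smulK]
      exact (hc' B).1
  have e4 : ql CK LK = ql BK LK + ql CK BK := ql_add hLB (hBZ.trans hZC)
  have e5 : ql CK BK = ql ZK BK + ql CK ZK := ql_add hBZ hZC
  have e6 : hl W (i + 1) (mon b Q : Submodule (MvPolynomial V K) E) (mon b L) ≤ ql ZK BK :=
    ql_le_restrict (K := K) _ _
  rw [e4, e5] at e1
  refine le_trans ?_ e1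
  push_cast
  calc hl W (i + 1) (mon b Q : Submodule (MvPolynomial V K) E) (mon b L) +
        ((W.card.choose (i + 1) : ℕ∞) + (W.card.choose (i + 2) : ℕ∞))
      ≤ ql ZK BK + (ql CK ZK + ql BK LK) := add_le_add e6 (add_le_add e2 e3)
    _ = ql BK LK + (ql ZK BK + ql CK ZK) := by
      rw [← add_assoc, add_comm]

end Pool.Agent.HS
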