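import Mathlib

/-!
# Numerical inequality for the Herzog–Stamate width bound (`i ≥ 2`)

`sK d κ = ∑_{j ≥ 0} (d - j κ)^+`.
-/

namespace Pool.Agent.HS

/-- `sK d κ = ∑_{j ≥ 0} (d - j κ)^+` (for `κ ≥ 1` only `j < d` contribute). -/
def sK (d κ : ℕ) : ℕ := ∑ j ∈ Finset.range d, (d - j * κ)

lemma sK_succ (d κ : ℕ) (hκ : 1 ≤ κ) : sK (d + 1) κ = sK d κ + (d / κ + 1) := by
  unfold sK
  have h1 : ∀ j ∈ Finset.range (d + 1), (d + 1 - j * κ) = (d - j * κ) + (if j * κ ≤ d then 1 else 0) := by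
    intro j _
    split_ifs with h
    · omega
    · omega
  rw [Finset.sum_congr rfl h1, Finset.sum_add_distrib, Finset.sum_range_succ]
  have h2 : d - d * κ = 0 := by
    have : d * 1 ≤ d * κ := Nat.mul_le_mul_left d hκ
    omega
  rw [h2, add_zero, Finset.sum_ite]
  simp only [Finset.sum_const, smul_eq_mul, mul_one, mul_zero, add_zero]
  congr 1
  have h3 : (Finset.range (d + 1)).filter (fun j => j * κ ≤ d) = Finset.range (d / κ + 1) := by
    ext j
    simp only [Finset.mem_filter, Finset.mem_range]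
    constructor
    · rintro ⟨_, h⟩
      have : j ≤ d / κ := (Nat.le_div_iff_mul_le (by omega)).2 h
      omega
    · intro h
      have h' : j ≤ d / κ := by omega
      have h'' : j * κ ≤ d := (Nat.le_div_iff_mul_le (by omega)).1 h'
      refine ⟨?_, h''⟩
      have : d / κ ≤ d := Nat.div_le_self d κ
      omega
  rw [h3, Finset.card_range]

/-- truncated Vandermonde. -/
lemma choose_add_ge (m t r : ℕ) :
    m.choose (r + 1) + t * m.choose r ≤ (m + t).choose (r + 1) := by
  induction t with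
  | zero => simp
  | succ t ih =>
    have h1 : (m + (t + 1)).choose (r + 1) = (m + t).choose r + (m + t).choose (r + 1) := by
      rw [← add_assoc, Nat.choose_succ_succ]
    have h2 : m.choose r ≤ (m + t).choose r := Nat.choose_le_choose r (by omega)
    rw [h1]
    nlinarith

/-- increment inequality for `i ≥ 3`. -/
lemma step3 (m κ j r : ℕ) (hκ : m ≤ 2 * κ) (hκ1 : 1 ≤ κ) (hr : 2 ≤ r) (d : ℕ) (hd : j * κ ≤ d) :
    (j + 1) * (m.choose (r + 1) + 3 * m.choose r) + m.choose (r + 1) ≤ (r + 1) * (m + d + 1).choose (r + 1) := by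
  have h1 : m.choose (r + 1) + (j * κ + 1) * m.choose r ≤ (m + (j * κ + 1)).choose (r + 1) :=
    choose_add_ge m (j * κ + 1) r
  have h2 : (m + (j * κ + 1)).choose (r + 1) ≤ (m + d + 1).choose (r + 1) :=
    Nat.choose_le_choose _ (by omega)
  have h3 : m.choose (r + 1) * (r + 1) = m.choose r * (m - r) := Nat.choose_succ_right_eq m r
  set a := m.choose (r + 1)
  set b := m.choose r
  have h4 : 3 * (a + (j * κ + 1) * b) ≤ (r + 1) * (m + d + 1).choose (r + 1) := by
    calc 3 * (a + (j * κ + 1) * b) ≤ (r + 1) * (a + (j * κ + 1) * b) :=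
          Nat.mul_le_mul_right _ (by omega)
      _ ≤ _ := Nat.mul_le_mul_left _ (h1.trans h2)
  refine le_trans ?_ h4
  -- 3 a ≤ 2 (κ - 1) b
  have h5 : 3 * a ≤ 2 * (κ - 1) * b := by
    calc 3 * a ≤ (r + 1) * a := Nat.mul_le_mul_right _ (by omega)
      _ = a * (r + 1) := by ring
      _ = b * (m - r) := h3
      _ ≤ b * (2 * (κ - 1)) := Nat.mul_le_mul_left _ (by omega)
      _ = _ := by ring
  obtain ⟨k, rfl⟩ : ∃ k, κ = k + 1 := ⟨κ - 1, by omega⟩
  simp only [Nat.add_sub_cancel] at h5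
  rcases Nat.eq_zero_or_pos j with hj | hj
  · subst hj
    nlinarith
  · obtain ⟨l, rfl⟩ : ∃ l, j = l + 1 := ⟨j - 1, by omega⟩
    -- l * a ≤ 3 (l+1) k b
    have h6 : l * (3 * a) ≤ l * (2 * k * b) := Nat.mul_le_mul_left _ h5
    have h7 : 0 ≤ l * (k * b) := Nat.zero_le _
    have h8 : 0 ≤ k * b := Nat.zero_le _
    nlinarith

/-- increment inequality for `i = 2`. -/
lemma step2 (m κ j : ℕ) (hm : 3 ≤ m) (hκ : m ≤ 2 * κ) (d : ℕ) (hd : j * κ ≤ d) (hd2 : 2 ≤ d) :
    (j + 1) * (m.choose 2 + 3 * m) + m.choose 2 ≤ 2 * (m + d + 1).choose 2 := by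
  have hc : 2 * m.choose 2 = m * (m - 1) := by
    rw [Nat.choose_two_right, Nat.mul_div_cancel' (Nat.even_mul_pred_self m).two_dvd]
  have hc2 : 2 * (m + d + 1).choose 2 = (m + d + 1) * (m + d) := by
    rw [Nat.choose_two_right, Nat.mul_div_cancel' (Nat.even_mul_pred_self _).two_dvd]
    simp
  rw [hc2]
  obtain ⟨p, rfl⟩ : ∃ p, m = p + 3 := ⟨m - 3, by omega⟩
  have hp : p + 3 - 1 = p + 2 := by omega
  rw [hp] at hc
  rcases Nat.eq_zero_or_pos j with hj | hj
  · subst hj
    nlinarith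
  · obtain ⟨l, rfl⟩ : ∃ l, j = l + 1 := ⟨j - 1, by omega⟩
    have h1 : (p + 3 + (l + 1) * κ + 1) * (p + 3 + (l + 1) * κ) ≤ (p + 3 + d + 1) * (p + 3 + d) :=
      Nat.mul_le_mul (by omega) (by omega)
    refine le_trans ?_ h1
    -- double everything
    have h2 : 2 * ((l + 1 + 1) * ((p + 3).choose 2 + 3 * (p + 3)) + (p + 3).choose 2) =
        (l + 2) * ((p + 3) * (p + 2) + 6 * (p + 3)) + (p + 3) * (p + 2) := by
      rw [← hc]; ring
    have h3 : 2 * 2 ≤ 2 * κ + κ * 0 := by omega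
    suffices h : (l + 2) * ((p + 3) * (p + 2) + 6 * (p + 3)) + (p + 3) * (p + 2) ≤
        2 * ((p + 3 + (l + 1) * κ + 1) * (p + 3 + (l + 1) * κ)) by omega
    rcases Nat.eq_zero_or_pos p with hp0 | hp0
    · subst hp0
      have hk2 : 2 ≤ κ := by omega
      have h4 : (l + 1) * 2 ≤ (l + 1) * κ := Nat.mul_le_mul_left _ hk2
      have h5 : (3 + (l + 1) * 2 + 1) * (3 + (l + 1) * 2) ≤ (3 + (l + 1) * κ + 1) * (3 + (l + 1) * κ) :=
        Nat.mul_le_mul (by omega) (by omega)
      simp only [zero_add]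
      nlinarith
    · -- p ≥ 1, m = p+3 ≥ 4, 2κ ≥ m
      have h4 : (l + 1) * (p + 3) ≤ 2 * ((l + 1) * κ) := by
        calc (l + 1) * (p + 3) ≤ (l + 1) * (2 * κ) := Nat.mul_le_mul_left _ hκ
          _ = _ := by ring
      set y := (l + 1) * κ
      have h5 : (2 * (p + 3) + (l + 1) * (p + 3) + 2) * (2 * (p + 3) + (l + 1) * (p + 3)) ≤
          (2 * (p + 3 + y + 1)) * (2 * (p + 3 + y)) :=
        Nat.mul_le_mul (by omega) (by omega)
      have h6 : 2 * ((l + 2) * ((p + 3) * (p + 2) + 6 * (p + 3)) + (p + 3) * (p + 2)) ≤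
        (2 * (p + 3) + (l + 1) * (p + 3) + 2) * (2 * (p + 3) + (l + 1) * (p + 3)) := by
        obtain ⟨q, rfl⟩ : ∃ q, p = q + 1 := ⟨p - 1, by omega⟩
        have h7 : 0 ≤ q * l := Nat.zero_le _
        have h8 : 0 ≤ q * l * l := Nat.zero_le _
        have h9 : 0 ≤ q * q * l := Nat.zero_le _
        have h10 : 0 ≤ q * q * l * l := Nat.zero_le _
        have h11 : 0 ≤ l * l := Nat.zero_le _
        nlinarith
      nlinarith

/-- `i ≥ 3` : the inequality for all `d`. -/
lemma main3 (m κ r : ℕ) (hκ : m ≤ 2 * κ) (hκ1 : 1 ≤ κ) (hr : 2 ≤ r) (d : ℕ) :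
    sK d κ * (m.choose (r + 1) + 3 * m.choose r) + (m + d) * m.choose (r + 1) ≤
      (r + 1) * (m + d + 1).choose (r + 2) + m.choose (r + 2) := by
  induction d with
  | zero =>
    simp only [sK, Finset.range_zero, Finset.sum_empty, zero_mul, add_zero, zero_add]
    have h1 : (m + 1).choose (r + 2) = m.choose (r + 1) + m.choose (r + 2) := Nat.choose_succ_succ _ _
    have h3 : m.choose (r + 2) * (r + 2) = m.choose (r + 1) * (m - (r + 1)) :=
      Nat.choose_succ_right_eq m (r + 1)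
    rcases Nat.lt_or_ge m (r + 1) with h | h
    · rw [Nat.choose_eq_zero_of_lt h]; simp
    · obtain ⟨q, rfl⟩ : ∃ q, m = q + (r + 1) := ⟨m - (r + 1), by omega⟩
      simp only [Nat.add_sub_cancel] at h3
      rw [h1]
      nlinarith
  | succ d ih =>
    rw [sK_succ d κ hκ1]
    have h1 : (m + (d + 1) + 1).choose (r + 2) = (m + d + 1).choose (r + 1) + (m + d + 1).choose (r + 2) := by
      rw [show m + (d + 1) + 1 = (m + d + 1) + 1 by ring]
      exact Nat.choose_succ_succ _ _
    rw [h1]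
    have h2 := step3 m κ (d / κ) r hκ hκ1 hr d (Nat.div_mul_le_self d κ)
    nlinarith

/-- `i = 2` : the inequality for `d ≥ 2`. -/
lemma main2 (m κ : ℕ) (hm : 3 ≤ m) (hκ : m ≤ 2 * κ) (d : ℕ) (hd : 2 ≤ d) :
    sK d κ * (m.choose 2 + 3 * m) + (m + d) * m.choose 2 ≤
      2 * (m + d + 1).choose 3 + m.choose 3 := by
  induction d, hd using Nat.le_induction with
  | base =>
    have h0 : sK 2 κ = 2 := by
      simp only [sK, Finset.sum_range_succ, Finset.range_zero, Finset.sum_empty]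
      omega
    rw [h0]
    obtain ⟨p, rfl⟩ : ∃ p, m = p + 3 := ⟨m - 3, by omega⟩
    have e1 : (p + 3 + 2 + 1).choose 3 = (p + 3 + 2).choose 2 + (p + 3 + 2).choose 3 :=
      Nat.choose_succ_succ _ _
    have e2 : (p + 3 + 1 + 1).choose 3 = (p + 3 + 1).choose 2 + (p + 3 + 1).choose 3 :=
      Nat.choose_succ_succ _ _
    have e3 : (p + 3 + 1).choose 3 = (p + 3).choose 2 + (p + 3).choose 3 :=
      Nat.choose_succ_succ _ _
    have f1 : (p + 3 + 1 + 1).choose 2 = (p + 3 + 1).choose 1 + (p + 3 + 1).choose 2 :=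
      Nat.choose_succ_succ _ _
    have f2 : (p + 3 + 1).choose 2 = (p + 3).choose 1 + (p + 3).choose 2 :=
      Nat.choose_succ_succ _ _
    simp only [Nat.choose_one_right] at f1 f2
    have g : (p + 3).choose 3 * 3 = (p + 3).choose 2 * (p + 3 - 2) := Nat.choose_succ_right_eq _ 2
    have g' : p + 3 - 2 = p + 1 := by omega
    rw [g'] at g
    have e1' : (p + 3 + 2 + 1).choose 3 = (p + 3 + 1 + 1).choose 2 + (p + 3 + 1 + 1).choose 3 := e1
    rw [e1', e2, e3, f1, f2]
    nlinarith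
  | succ d hd ih =>
    rw [sK_succ d κ (by omega)]
    have h1 : (m + (d + 1) + 1).choose 3 = (m + d + 1).choose 2 + (m + d + 1).choose 3 := by
      rw [show m + (d + 1) + 1 = (m + d + 1) + 1 by ring]
      exact Nat.choose_succ_succ _ _
    rw [h1]
    have h2 := step2 m κ (d / κ) hm hκ d (Nat.div_mul_le_self d κ) hd
    nlinarith

/-- **Task C**, main case `m ≥ 3`, `d ≥ 2`. -/
theorem numeric (m d i V F : ℕ) (hm : 3 ≤ m) (hd : 2 ≤ d) (hi : 2 ≤ i) (κ : ℕ) (hκ : m ≤ 2 * κ)
    (s : ℕ) (hs : s ≤ sK d κ) (hV : V ≤ m + d + s) (hF : F ≤ 3 * s) :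
    V * m.choose i + F * m.choose (i - 1) ≤ i * (m + d + 1).choose (i + 1) + m.choose (i + 1) := by
  have h1 : V * m.choose i + F * m.choose (i - 1) ≤
      sK d κ * (m.choose i + 3 * m.choose (i - 1)) + (m + d) * m.choose i := by
    calc V * m.choose i + F * m.choose (i - 1)
        ≤ (m + d + s) * m.choose i + (3 * s) * m.choose (i - 1) :=
          Nat.add_le_add (Nat.mul_le_mul_right _ hV) (Nat.mul_le_mul_right _ hF)
      _ = s * (m.choose i + 3 * m.choose (i - 1)) + (m + d) * m.choose i := by ring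
      _ ≤ _ := Nat.add_le_add_right (Nat.mul_le_mul_right _ hs) _
  refine h1.trans ?_
  rcases Nat.lt_or_ge 2 i with h | h
  · obtain ⟨r, rfl⟩ : ∃ r, i = r + 1 := ⟨i - 1, by omega⟩
    exact main3 m κ r hκ (by omega) (by omega) d
  · have : i = 2 := by omega
    subst this
    simpa using main2 m κ hm hκ d hd

/-- case `d = 0`. -/
theorem numeric_d0 (m i V : ℕ) (hV : V ≤ m) :
    V * m.choose i ≤ i * (m + 1).choose (i + 1) + m.choose (i + 1) := by
  have h0 : V * m.choose i ≤ m * m.choose i := Nat.mul_le_mul_right _ hV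
  refine h0.trans ?_
  have h1 : (m + 1).choose (i + 1) = m.choose i + m.choose (i + 1) := Nat.choose_succ_succ _ _
  have h3 : m.choose (i + 1) * (i + 1) = m.choose i * (m - i) := Nat.choose_succ_right_eq m i
  rcases Nat.lt_or_ge m i with h | h
  · rw [Nat.choose_eq_zero_of_lt h]; simp
  · obtain ⟨q, rfl⟩ : ∃ q, m = q + i := ⟨m - i, by omega⟩
    simp only [Nat.add_sub_cancel] at h3
    rw [h1]
    nlinarith

/-- equality version of the case `d = 0`. -/
theorem numeric_d0_eq (m i : ℕ) :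
    m * m.choose i = i * (m + 1).choose (i + 1) + m.choose (i + 1) := by
  have h1 : (m + 1).choose (i + 1) = m.choose i + m.choose (i + 1) := Nat.choose_succ_succ _ _
  have h3 : m.choose (i + 1) * (i + 1) = m.choose i * (m - i) := Nat.choose_succ_right_eq m i
  rcases Nat.lt_or_ge m i with h | h
  · rw [h1, Nat.choose_eq_zero_of_lt h, Nat.choose_eq_zero_of_lt (by omega : m < i + 1)]; simp
  · obtain ⟨q, rfl⟩ : ∃ q, m = q + i := ⟨m - i, by omega⟩
    simp only [Nat.add_sub_cancel] at h3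
    rw [h1]
    nlinarith

/-- case `d = 1`. -/
theorem numeric_d1 (m i V F : ℕ) (hi : 2 ≤ i) (hV : V ≤ m + 2) (hF : F ≤ 2) :
    V * m.choose i + F * m.choose (i - 1) ≤ i * (m + 1 + 1).choose (i + 1) + m.choose (i + 1) := by
  obtain ⟨r, rfl⟩ : ∃ r, i = r + 1 := ⟨i - 1, by omega⟩
  simp only [Nat.add_sub_cancel]
  have h0 := numeric_d0_eq m (r + 1)
  have h1 : (m + 1 + 1).choose (r + 1 + 1) = (m + 1).choose (r + 1) + (m + 1).choose (r + 1 + 1) :=
    Nat.choose_succ_succ _ _
  have h2 : (m + 1).choose (r + 1) = m.choose r + m.choose (r + 1) := Nat.choose_succ_succ _ _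
  have h3 : V * m.choose (r + 1) ≤ (m + 2) * m.choose (r + 1) := Nat.mul_le_mul_right _ hV
  have h4 : F * m.choose r ≤ 2 * m.choose r := Nat.mul_le_mul_right _ hF
  rw [h1, h2]
  have h5 : 2 * (m.choose r + m.choose (r + 1)) ≤ (r + 1) * (m.choose r + m.choose (r + 1)) :=
    Nat.mul_le_mul_right _ (by omega)
  nlinarith

/-- case `m = 2`. -/
theorem numeric_m2 (d i V F : ℕ) (hi : 2 ≤ i) (hV : V ≤ d + 2) (hF : F ≤ (d + 1) * d) :
    V * (2 : ℕ).choose i + F * (2 : ℕ).choose (i - 1) ≤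
      i * (2 + d + 1).choose (i + 1) + (2 : ℕ).choose (i + 1) := by
  rcases Nat.lt_or_ge 2 i with h | h
  · rcases Nat.lt_or_ge 3 i with h' | h'
    · rw [Nat.choose_eq_zero_of_lt (by omega : 2 < i), Nat.choose_eq_zero_of_lt (by omega : 2 < i - 1)]
      simp
    · have : i = 3 := by omega
      subst this
      simp only [Nat.add_one_sub_one, Nat.choose_self, mul_one]
      rw [Nat.choose_eq_zero_of_lt (by omega : 2 < 3), mul_zero, zero_add]
      refine le_trans hF ?_
      clear hV hF V F h h' hi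
      suffices h : (d + 1) * d ≤ 3 * (2 + d + 1).choose (3 + 1) by omega
      induction d with
      | zero => simp
      | succ d ih =>
        have h1 : (2 + (d + 1) + 1).choose 4 = (2 + d + 1).choose 3 + (2 + d + 1).choose 4 := by
          rw [show 2 + (d + 1) + 1 = (2 + d + 1) + 1 by ring]
          exact Nat.choose_succ_succ _ _
        rw [show (3 + 1 : ℕ) = 4 by rfl] at ih ⊢
        rw [h1]
        have h2 : (2 + d + 1).choose 3 * 3 = (2 + d + 1).choose 2 * (2 + d + 1 - 2) :=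
          Nat.choose_succ_right_eq _ 2
        have h3 : 2 + d + 1 - 2 = d + 1 := by omega
        rw [h3] at h2
        have h4 : 3 + 3 * d ≤ (2 + d + 1).choose 2 + 2 * d := by
          have := choose_add_ge 3 d 1
          simp only [Nat.choose_one_right] at this
          rw [show (2 + d + 1 : ℕ) = 3 + d by ring]
          have h5 : (3 : ℕ).choose (1 + 1) = 3 := by decide
          rw [h5] at this
          have h6 : (3 + d).choose (1 + 1) = (3 + d).choose 2 := rfl
          rw [h6] at this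
          omega
        have h5 : (d + 1) * (3 + d) ≤ (d + 1) * (2 + d + 1).choose 2 := Nat.mul_le_mul_left _ (by omega)
        nlinarith
  · have : i = 2 := by omega
    subst this
    have hx : (2 : ℕ).choose (2 + 1) = 0 := by decide
    have hy : (2 : ℕ).choose (2 - 1) = 2 := by decide
    rw [hx, hy, Nat.choose_self, mul_one, add_zero]
    have hz : V + F * 2 ≤ (d + 2) + ((d + 1) * d) * 2 :=
      Nat.add_le_add hV (Nat.mul_le_mul_right _ hF)
    refine hz.trans ?_
    clear hV hF V F h hi hz hx hy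
    have h1 : (2 + d + 1).choose 3 * 3 = (2 + d + 1).choose 2 * (2 + d + 1 - 2) :=
      Nat.choose_succ_right_eq _ 2
    have h3 : 2 + d + 1 - 2 = d + 1 := by omega
    rw [h3] at h1
    have h2 : 2 * (2 + d + 1).choose 2 = (d + 3) * (d + 2) := by
      rw [Nat.choose_two_right, Nat.mul_div_cancel' (Nat.even_mul_pred_self _).two_dvd]
      rw [show 2 + d + 1 - 1 = d + 2 by omega]
      ring
    have h4 : 6 * (2 + d + 1).choose (2 + 1) = (d + 3) * (d + 2) * (d + 1) := by
      rw [← h2]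
      have : (2 + d + 1).choose (2 + 1) = (2 + d + 1).choose 3 := rfl
      rw [this]
      linarith
    have h5 : 3 * ((d + 2) + ((d + 1) * d) * 2) ≤ (d + 3) * (d + 2) * (d + 1) := by
      rcases Nat.lt_or_ge d 3 with h | h
      · interval_cases d <;> norm_num
      · obtain ⟨e, rfl⟩ : ∃ e, d = e + 3 := ⟨d - 3, by omega⟩
        have : 0 ≤ e * e * e := Nat.zero_le _
        nlinarith
    omega

end Pool.Agent.HS
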