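import Pool.Agent.HS.Defs
import Pool.Agent.HS.Numeric

/-!
# Growth of sumsets modulo `w` and the quantity `sA`
-/

namespace Pool.Agent.HS

open scoped Pointwise

variable {A : Finset ℕ} {w : ℕ}

/-- the image modulo `w` -/
def md (w : ℕ) (B : Finset ℕ) : Finset (ZMod w) := B.image (Nat.cast : ℕ → ZMod w)

theorem cl_eq_card_md (hw : 0 < w) (B : Finset ℕ) : cl w B = (md w B).card := by
  have : NeZero w := ⟨hw.ne'⟩
  have h1 : (md w B).image ZMod.val = B.image (· % w) := by
    rw [md, Finset.image_image]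
    apply Finset.image_congr
    intro x _
    simp [ZMod.val_natCast]
  rw [cl, ← h1, Finset.card_image_of_injective _ (ZMod.val_injective w)]

theorem md_QN_succ (A : Finset ℕ) (w n : ℕ) : md w (QN A (n + 1)) = md w (QN A n) + md w A := by
  rw [md, QN, Finset.image_image₂_distrib (f := (· + ·)) (g := (Nat.cast : ℕ → ZMod w))
    (f' := (· + ·)) (g₁ := Nat.cast) (g₂ := Nat.cast)]
  · rfl
  · intro a b
    exact Nat.cast_add a b

theorem md_QN_nonempty (hA : GoodA A w) (n : ℕ) : (md w (QN A n)).Nonempty := by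
  induction n with
  | zero => simp [md, QN]
  | succ n ih =>
    rw [md_QN_succ]
    exact ih.add ⟨_, Finset.mem_image_of_mem _ hA.h0⟩

theorem QN_one (A : Finset ℕ) : QN A 1 = A := by
  show Finset.image₂ (· + ·) {0} A = A
  rw [Finset.image₂_singleton_left]
  simp

theorem card_md_A (hA : GoodA A w) : (md w A).card = A.card - 1 := by
  have hw := hA.wpos
  have : NeZero w := ⟨hw.ne'⟩
  have h1 : md w A = md w (A.erase w) := by
    apply Finset.Subset.antisymm
    · intro x hx
      rw [md, Finset.mem_image] at hx ⊢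
      obtain ⟨y, hy, rfl⟩ := hx
      by_cases hyw : y = w
      · exact ⟨0, Finset.mem_erase.mpr ⟨hw.ne, hA.h0⟩, by rw [hyw]; simp⟩
      · exact ⟨y, Finset.mem_erase.mpr ⟨hyw, hy⟩, rfl⟩
    · exact Finset.image_subset_image (Finset.erase_subset _ _)
  rw [h1, md, Finset.card_image_of_injOn, Finset.card_erase_of_mem hA.hw]
  intro x hx y hy hxy
  rw [Finset.mem_coe, Finset.mem_erase] at hx hy
  have hx1 := hA.hle x hx.2
  have hy1 := hA.hle y hy.2
  have h2 := congrArg ZMod.val hxy
  simp only [ZMod.val_natCast] at h2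
  rwa [Nat.mod_eq_of_lt (by omega), Nat.mod_eq_of_lt (by omega)] at h2

theorem card_le' (hA : GoodA A w) : A.card ≤ w + 1 := by
  have h1 : A ⊆ Finset.range (w + 1) := by
    intro x hx
    rw [Finset.mem_range]
    exact Nat.lt_succ_of_le (hA.hle x hx)
  simpa using Finset.card_le_card h1

theorem card_ge_two' (hA : GoodA A w) : 2 ≤ A.card := by
  have h1 : ({0, w} : Finset ℕ) ⊆ A := by
    intro x hx
    rw [Finset.mem_insert, Finset.mem_singleton] at hx
    rcases hx with rfl | rfl
    · exact hA.h0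
    · exact hA.hw
  have h2 := Finset.card_le_card h1
  rw [Finset.card_pair hA.wpos.ne] at h2
  exact h2

/-- growth by `κ` in every step -/
theorem cl_QN_ge (hA : GoodA A w) (κ : ℕ)
    (hκ : ∀ B : Finset (ZMod w), B.Nonempty → min w (B.card + κ) ≤ (B + md w A).card) (j : ℕ) :
    min w (A.card - 1 + j * κ) ≤ cl w (QN A (j + 1)) := by
  rw [cl_eq_card_md hA.wpos]
  induction j with
  | zero =>
    rw [zero_add, QN_one, card_md_A hA]
    simp
  | succ j ih =>
    rw [md_QN_succ]
    refine le_trans ?_ (hκ _ (md_QN_nonempty hA (j + 1)))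
    rw [add_mul, one_mul]
    omega

theorem sA_le_sK_of_growth (hA : GoodA A w) (κ : ℕ) (hκ1 : 1 ≤ κ)
    (hκ : ∀ B : Finset (ZMod w), B.Nonempty →
      min w (B.card + κ) ≤ (B + A.image (Nat.cast : ℕ → ZMod w)).card) :
    sA w A ≤ sK (w + 1 - A.card) κ := by
  have h1 := card_le' hA
  have h2 := card_ge_two' hA
  have h3 : sA w A ≤ ∑ j ∈ Finset.range w, (w + 1 - A.card - j * κ) := by
    apply Finset.sum_le_sum
    intro j _
    have := cl_QN_ge hA κ hκ j
    omega
  refine h3.trans ?_
  rw [sK]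
  have h4 : Finset.range (w + 1 - A.card) ⊆ Finset.range w := by
    intro x hx
    rw [Finset.mem_range] at hx ⊢
    omega
  rw [← Finset.sum_subset h4]
  intro j _ hj
  rw [Finset.mem_range, not_lt] at hj
  have : j ≤ j * κ := Nat.le_mul_of_pos_right j hκ1
  omega

end Pool.Agent.HS
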