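import Pool.Agent.HS.Chain

/-!
# The tangent cone of a numerical semigroup as a quotient of monomial modules
-/

namespace Pool.Agent.HS

open MvPolynomial Finset Pool.Agent.BEI

set_option linter.unusedSectionVars false

variable {K : Type*} [Field K] {V : Type*} [Fintype V] [LinearOrder V]
variable {E : Type*} [AddCommGroup E] [Module K E] [Module (MvPolynomial V K) E]
  [IsScalarTower K (MvPolynomial V K) E]
variable {b : Module.Basis (ℕ × ℕ) K E} {a : V → ℕ}

theorem monomial_smul (hs : IsShift b a) (u : V →₀ ℕ) :
    ∀ (c : K) (z : ℕ × ℕ), (monomial u c : MvPolynomial V K) • b z = c • b (z + pt a u) := by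
  induction u using Finsupp.induction_linear with
  | zero =>
    intro c z
    rw [map_zero, add_zero, show (monomial (0 : V →₀ ℕ) c : MvPolynomial V K) =
      algebraMap K _ c from rfl, algebraMap_smul]
  | add f g hf hg =>
    intro c z
    have : (monomial (f + g) c : MvPolynomial V K) = monomial f c * monomial g 1 := by
      rw [monomial_mul, mul_one]
    rw [this, mul_smul, hg, one_smul, hf, (pt a).map_add, add_assoc, add_comm (pt a f)]
  | single v n =>
    induction n with
    | zero =>
      intro c z
      rw [Finsupp.single_zero, map_zero, add_zero,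
        show (monomial (0 : V →₀ ℕ) c : MvPolynomial V K) = algebraMap K _ c from rfl,
        algebraMap_smul]
    | succ n ih =>
      intro c z
      rw [Finsupp.single_add, monomial_add_single, pow_one, mul_smul, hs, ih, (pt a).map_add,
        pt_single, add_assoc, add_comm (xs a v)]

variable (b) in
/-- the map `f ↦ f • e_0` -/
noncomputable def theta : MvPolynomial V K →ₗ[MvPolynomial V K] E :=
  LinearMap.toSpanSingleton (MvPolynomial V K) E (b 0)

theorem theta_apply (f : MvPolynomial V K) : theta b f = f • b 0 := rfl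

theorem theta_monomial (hs : IsShift b a) (u : V →₀ ℕ) (c : K) :
    theta b (monomial u c : MvPolynomial V K) = c • b (pt a u) := by
  rw [theta_apply, monomial_smul hs, zero_add]

theorem theta_smulK (c : K) (f : MvPolynomial V K) : theta b (c • f) = c • theta b f := by
  rw [theta_apply, theta_apply, smul_assoc]

theorem degree_eq_pt_snd (u : V →₀ ℕ) : (pt a u).2 = u.degree := by
  rw [pt_snd (Finset.subset_univ _), Finsupp.degree_eq_sum]

theorem repr_theta_component (hs : IsShift b a) (f : MvPolynomial V K) (N : ℕ) (z : ℕ × ℕ) :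
    b.repr (theta b (homogeneousComponent N f)) z =
      if z.2 = N then b.repr (theta b f) z else 0 := by
  induction f using MvPolynomial.induction_on' with
  | monomial u c =>
    have h1 : homogeneousComponent N (monomial u c : MvPolynomial V K) =
        if N = u.degree then monomial u c else 0 :=
      homogeneousComponent_of_mem (isHomogeneous_monomial c rfl)
    rw [h1]
    split_ifs with h2 h3 h3
    · rfl
    · rw [theta_monomial hs, map_smul, Module.Basis.repr_self, Finsupp.smul_apply,
        Finsupp.single_apply, if_neg, smul_zero]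
      rintro rfl
      apply h3
      rw [h2, degree_eq_pt_snd]
    · rw [map_zero, map_zero, theta_monomial hs, map_smul, Module.Basis.repr_self,
        Finsupp.smul_apply, Finsupp.single_apply, if_neg, smul_zero]
      · rfl
      rintro rfl
      apply h2
      rw [← h3, degree_eq_pt_snd]
    · rw [map_zero, map_zero]; rfl
  | add p q hp hq =>
    rw [map_add, map_add, map_add, Finsupp.add_apply, hp, hq, map_add, map_add,
      Finsupp.add_apply]
    split_ifs <;> simp

/-- the weight of a point -/
def ew (g0 h : ℕ) (z : ℕ × ℕ) : ℕ := g0 * z.2 + h * z.1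

variable (b) in
/-- `b z ↦ t ^ (ew z)` -/
noncomputable def lam (g0 h : ℕ) : E →ₗ[K] Polynomial K :=
  b.constr K fun z => (Polynomial.X : Polynomial K) ^ ew g0 h z

theorem lam_basis (g0 h : ℕ) (z : ℕ × ℕ) :
    lam b g0 h (b z) = (Polynomial.X : Polynomial K) ^ ew g0 h z :=
  b.constr_basis K _ z

theorem ew_pt {g : V → ℕ} {g0 h : ℕ} (hg : ∀ v, g v = g0 + h * a v) (u : V →₀ ℕ) :
    ew g0 h (pt a u) = ∑ v, u v * g v := by
  have h1 : (pt a u).2 = ∑ v, u v := pt_snd (Finset.subset_univ _)
  have h2 : (pt a u).1 = ∑ v, u v * a v := by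
    rw [pt, Finsupp.linearCombination_apply, Finsupp.sum, Prod.fst_sum]
    rw [Finset.sum_subset (Finset.subset_univ _)]
    · refine Finset.sum_congr rfl fun v _ => ?_
      simp [xs]
    · intro v _ hv
      rw [Finsupp.notMem_support_iff.mp hv]
      simp
  rw [ew, h1, h2, Finset.mul_sum, Finset.mul_sum, ← Finset.sum_add_distrib]
  refine Finset.sum_congr rfl fun v _ => ?_
  rw [hg]
  ring

theorem aeval_eq_lam (hs : IsShift b a) {g : V → ℕ} {g0 h : ℕ} (hg : ∀ v, g v = g0 + h * a v)
    (f : MvPolynomial V K) :
    MvPolynomial.aeval (fun j : V => (Polynomial.X : Polynomial K) ^ g j) f =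
      lam b g0 h (theta b f) := by
  induction f using MvPolynomial.induction_on' with
  | monomial u c =>
    rw [theta_monomial hs, map_smul, lam_basis, aeval_monomial, ew_pt hg, Finsupp.prod]
    rw [Finset.prod_subset (Finset.subset_univ _)]
    · simp_rw [← pow_mul]
      rw [Finset.prod_pow_eq_pow_sum, Algebra.smul_def]
      congr 2
      exact Finset.sum_congr rfl fun v _ => mul_comm _ _
    · intro v _ hv
      rw [Finsupp.notMem_support_iff.mp hv, pow_zero]
  | add p q hp hq => rw [map_add, map_add, map_add, hp, hq]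

theorem lam_coeff (g0 h : ℕ) (x : E) (T : ℕ) :
    (lam b g0 h x).coeff T =
      ∑ z ∈ (b.repr x).support, if ew g0 h z = T then b.repr x z else 0 := by
  rw [lam, Module.Basis.constr_apply, Finsupp.sum, Polynomial.finsetSum_coeff]
  refine Finset.sum_congr rfl fun z _ => ?_
  rw [Polynomial.coeff_smul, Polynomial.coeff_X_pow]
  by_cases h1 : ew g0 h z = T
  · rw [if_pos h1, if_pos h1.symm, smul_eq_mul, mul_one]
  · rw [if_neg h1, if_neg (Ne.symm h1), smul_zero]

/-- the ideal of initial forms of the toric ideal of `g` -/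
noncomputable def Istar (K : Type*) [Field K] {V : Type*} (g : V → ℕ) :
    Ideal (MvPolynomial V K) :=
  Ideal.span {p : MvPolynomial V K | ∃ f ∈ RingHom.ker
    (MvPolynomial.aeval (fun j : V => (Polynomial.X : Polynomial K) ^ g j)),
      ∃ d : ℕ, (∀ m : ℕ, m < d → MvPolynomial.homogeneousComponent m f = 0) ∧
        p = MvPolynomial.homogeneousComponent d f}

theorem theta_support (hs : IsShift b a) (f : MvPolynomial V K) {z : ℕ × ℕ}
    (hz : b.repr (theta b f) z ≠ 0) : z ∈ St (QN (im a)) := by
  have h1 : theta b f ∈ (mon b (St (QN (im a))) : Submodule (MvPolynomial V K) E) := by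
    rw [theta_apply]
    exact Submodule.smul_mem _ _ (basis_mem_mon (zero_mem_St _))
  rw [mem_mon hs Cl_St_QN] at h1
  exact h1 z hz

theorem theta_mem_of_mem_Istar (hs : IsShift b a) {g : V → ℕ} {g0 h : ℕ}
    (hg : ∀ v, g v = g0 + h * a v) (hh : 0 < h) (hcop : Nat.Coprime g0 h)
    {f : MvPolynomial V K} (hf : f ∈ Istar K g) :
    theta b f ∈ (mon b (St (JN (im a) g0 h)) : Submodule (MvPolynomial V K) E) := by
  have hle : Istar K g ≤
      (mon b (St (JN (im a) g0 h)) : Submodule (MvPolynomial V K) E).comap (theta b) := by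
    rw [Istar, Ideal.span, Submodule.span_le]
    rintro p ⟨f, hf, d, hd, rfl⟩
    show theta b (homogeneousComponent d f) ∈
      (mon b (St (JN (im a) g0 h)) : Submodule (MvPolynomial V K) E)
    rw [mem_mon hs (Cl_St_JN g0 h)]
    intro z hz
    rw [repr_theta_component hs] at hz
    split_ifs at hz with hzd
    swap
    · exact absurd rfl hz
    have h0 : lam b g0 h (theta b f) = 0 := by
      rw [← aeval_eq_lam hs hg]
      exact hf
    have h1 := lam_coeff (b := b) g0 h (theta b f) (ew g0 h z)
    rw [h0, Polynomial.coeff_zero] at h1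
    have h2 : ∃ z' ∈ (b.repr (theta b f)).support, z' ≠ z ∧ ew g0 h z' = ew g0 h z := by
      by_contra hcon
      push Not at hcon
      rw [Finset.sum_eq_single z] at h1
      · rw [if_pos rfl] at h1
        exact hz h1.symm
      · intro z' hz' hne
        rw [if_neg (hcon z' hz' hne)]
      · intro hz'
        exact absurd (Finsupp.mem_support_iff.mpr hz) hz'
    obtain ⟨z', hz', hne, he⟩ := h2
    rw [Finsupp.mem_support_iff] at hz'
    have h3 : z'.2 = z.2 → False := by
      intro h4
      apply hne
      rw [ew, ew, h4] at he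
      have h5 : h * z'.1 = h * z.1 := by omega
      exact Prod.ext (Nat.eq_of_mul_eq_mul_left hh h5) h4
    have h4 : ¬ z'.2 < d := by
      intro h5
      have h6 := repr_theta_component hs f z'.2 z'
      rw [hd _ h5, map_zero, map_zero, if_pos rfl] at h6
      exact hz' h6.symm
    have h5 : z.2 < z'.2 := by
      rcases lt_trichotomy z.2 z'.2 with h6 | h6 | h6
      · exact h6
      · exact absurd h6.symm h3
      · omega
    obtain ⟨r, hr⟩ := Nat.exists_eq_add_of_lt h5
    rw [ew, ew, hr] at he
    have h6 : g0 * (r + 1) + h * z'.1 = h * z.1 := by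
      have : g0 * (z.2 + r + 1) = g0 * z.2 + g0 * (r + 1) := by ring
      omega
    have h7 : h ∣ g0 * (r + 1) := by
      rw [Nat.dvd_add_iff_left (Dvd.intro _ rfl : h ∣ h * z'.1), h6]
      exact Dvd.intro _ rfl
    have h8 : h ∣ r + 1 := (Nat.Coprime.dvd_of_dvd_mul_left hcop.symm h7)
    obtain ⟨t, ht⟩ := h8
    show z.1 ∈ JN (im a) g0 h z.2
    rw [mem_JN]
    refine ⟨theta_support hs f hz, t, ?_, z'.1, ?_, ?_⟩
    · rcases Nat.eq_zero_or_pos t with h9 | h9
      · rw [h9] at ht; omega
      · exact h9
    · have h9 := theta_support hs f hz'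
      have h10 : z'.1 ∈ QN (im a) z'.2 := h9
      rw [← ht, ← add_assoc, ← hr]
      exact h10
    · rw [ht] at h6
      have h9 : h * (z'.1 + t * g0) = h * z.1 := by rw [← h6]; ring
      exact Nat.eq_of_mul_eq_mul_left hh h9
  exact hle hf

theorem repr_theta_ne_zero_of_component (hs : IsShift b a) {f : MvPolynomial V K} {N : ℕ}
    (hf : f.IsHomogeneous N) {z : ℕ × ℕ} (hz : b.repr (theta b f) z ≠ 0) : z.2 = N := by
  by_contra h
  have h1 := repr_theta_component hs f N z
  rw [if_neg h] at h1
  have h2 : homogeneousComponent N f = f := homogeneousComponent_eq_self hf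
  rw [h2] at h1
  exact hz h1

theorem mem_Istar_of_homogeneous (hs : IsShift b a) {g : V → ℕ} {g0 h : ℕ}
    (hg : ∀ v, g v = g0 + h * a v) (hh : 0 < h) {f : MvPolynomial V K} {N : ℕ}
    (hf : f.IsHomogeneous N)
    (hJ : ∀ z, b.repr (theta b f) z ≠ 0 → z ∈ St (JN (im a) g0 h)) : f ∈ Istar K g := by
  classical
  have hch : ∀ z : ℕ × ℕ, ∃ u : V →₀ ℕ, b.repr (theta b f) z ≠ 0 →
      N < u.degree ∧ ew g0 h (pt a u) = ew g0 h z := by
    intro z
    by_cases hz : b.repr (theta b f) z ≠ 0
    · have h1 : z.1 ∈ JN (im a) g0 h z.2 := hJ z hz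
      rw [mem_JN] at h1
      obtain ⟨_, t, ht, β, hβ, he⟩ := h1
      obtain ⟨u, hu⟩ := exists_pt (a := a) (z := (β, z.2 + h * t)) hβ
      have hN := repr_theta_ne_zero_of_component hs hf hz
      refine ⟨u, fun _ => ⟨?_, ?_⟩⟩
      · rw [← degree_eq_pt_snd (a := a), hu]
        show N < z.2 + h * t
        have : 0 < h * t := Nat.mul_pos hh ht
        omega
      · rw [hu, ew, ew, ← he]
        ring
    · exact ⟨0, fun h => absurd h hz⟩
  choose u hu using hch
  set F : MvPolynomial V K := f - ∑ z ∈ (b.repr (theta b f)).support,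
    monomial (u z) (b.repr (theta b f) z) with hF
  apply Ideal.subset_span
  refine ⟨F, ?_, N, ?_, ?_⟩
  · rw [RingHom.mem_ker]
    show MvPolynomial.aeval _ F = 0
    rw [aeval_eq_lam (b := b) hs hg, hF, map_sub, map_sub, map_sum, map_sum, sub_eq_zero]
    conv_lhs => rw [← b.linearCombination_repr (theta b f), Finsupp.linearCombination_apply,
      Finsupp.sum, map_sum]
    refine Finset.sum_congr rfl fun z hz => ?_
    rw [Finsupp.mem_support_iff] at hz
    rw [theta_monomial hs, map_smul, map_smul, lam_basis, lam_basis, (hu z hz).2]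
  · intro m hm
    rw [hF, map_sub, map_sum]
    have h1 : homogeneousComponent m f = 0 := by
      have := homogeneousComponent_of_mem (m := m) hf
      rw [this, if_neg (by omega)]
    rw [h1, Finset.sum_eq_zero, sub_zero]
    intro z hz
    rw [Finsupp.mem_support_iff] at hz
    have h2 : homogeneousComponent m (monomial (u z) (b.repr (theta b f) z) : MvPolynomial V K) =
        if m = (u z).degree then monomial (u z) (b.repr (theta b f) z) else 0 :=
      homogeneousComponent_of_mem (isHomogeneous_monomial _ rfl)
    rw [h2, if_neg]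
    have := (hu z hz).1
    omega
  · rw [hF, map_sub, map_sum]
    have h1 : homogeneousComponent N f = f := homogeneousComponent_eq_self hf
    rw [h1, Finset.sum_eq_zero, sub_zero]
    intro z hz
    rw [Finsupp.mem_support_iff] at hz
    have h2 : homogeneousComponent N (monomial (u z) (b.repr (theta b f) z) : MvPolynomial V K) =
        if N = (u z).degree then monomial (u z) (b.repr (theta b f) z) else 0 :=
      homogeneousComponent_of_mem (isHomogeneous_monomial _ rfl)
    rw [h2, if_neg]
    have := (hu z hz).1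
    omega

theorem mem_Istar_iff (hs : IsShift b a) {g : V → ℕ} {g0 h : ℕ}
    (hg : ∀ v, g v = g0 + h * a v) (hh : 0 < h) (hcop : Nat.Coprime g0 h)
    (f : MvPolynomial V K) :
    f ∈ Istar K g ↔
      theta b f ∈ (mon b (St (JN (im a) g0 h)) : Submodule (MvPolynomial V K) E) := by
  constructor
  · exact theta_mem_of_mem_Istar hs hg hh hcop
  · intro hf
    rw [mem_mon hs (Cl_St_JN g0 h)] at hf
    rw [← sum_homogeneousComponent f]
    refine Ideal.sum_mem _ fun N _ => ?_
    refine mem_Istar_of_homogeneous hs hg hh (homogeneousComponent_isHomogeneous N f) ?_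
    intro z hz
    rw [repr_theta_component hs] at hz
    split_ifs at hz with h1
    · exact hf z hz
    · exact absurd rfl hz

theorem map_theta_top (hs : IsShift b a) :
    (⊤ : Submodule (MvPolynomial V K) (MvPolynomial V K)).map (theta b) =
      mon b (St (QN (im a))) := by
  apply le_antisymm
  · rintro _ ⟨f, _, rfl⟩
    rw [theta_apply]
    exact Submodule.smul_mem _ _ (basis_mem_mon (zero_mem_St _))
  · rw [mon, Submodule.span_le]
    rintro _ ⟨z, hz, rfl⟩
    obtain ⟨u, rfl⟩ := exists_pt hz
    exact ⟨monomial u 1, trivial, by rw [theta_monomial hs, one_smul]⟩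

/-- the Koszul homology of the tangent cone is that of a quotient of monomial modules -/
theorem hl_Istar (hs : IsShift b a) {g : V → ℕ} {g0 h : ℕ}
    (hg : ∀ v, g v = g0 + h * a v) (hh : 0 < h) (hcop : Nat.Coprime g0 h) (W : Finset V)
    (i : ℕ) :
    hl W i (⊤ : Submodule (MvPolynomial V K) (MvPolynomial V K)) (Istar K g) =
      hl W i (mon b (St (QN (im a))) : Submodule (MvPolynomial V K) E)
        (mon b (St (JN (im a) g0 h))) :=
  hl_eq_of_map (theta b) W i (map_theta_top hs)
    (fun x _ => mem_Istar_iff hs hg hh hcop x) le_top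

theorem hl_quotient (I : Ideal (MvPolynomial V K)) (W : Finset V) (i : ℕ) :
    hl W i (⊤ : Submodule (MvPolynomial V K) (MvPolynomial V K)) I =
      hl W i (⊤ : Submodule (MvPolynomial V K) (MvPolynomial V K ⧸ I)) ⊥ := by
  refine hl_eq_of_map (Submodule.mkQ I) W i ?_ ?_ le_top
  · rw [Submodule.map_top, Submodule.range_mkQ]
  · intro x _
    rw [Submodule.mem_bot, Submodule.mkQ_apply, Submodule.Quotient.mk_eq_zero]

end Pool.Agent.HS
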