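import Pool.Agent.HS.Koszul

/-!
# Exactness of the Koszul complex of the polynomial ring
-/

namespace Pool.Agent.HS

open MvPolynomial Finset Pool.Agent.BEI

set_option linter.unusedSectionVars false

theorem ql_eq_zero' {R : Type*} [Ring R] {X : Type*} [AddCommGroup X] [Module R X]
    {Z B : Submodule R X} (h : Z ≤ B) : ql Z B = 0 := by
  rw [ql, Module.length_eq_zero_iff]
  have : B.submoduleOf Z = ⊤ := by
    rw [eq_top_iff]
    rintro ⟨x, hx⟩ _
    exact h hx
  rw [this]
  infer_instance

theorem le_of_ql_eq_zero {R : Type*} [Ring R] {X : Type*} [AddCommGroup X] [Module R X]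
    {Z B : Submodule R X} (h : ql Z B = 0) : Z ≤ B := by
  rw [ql, Module.length_eq_zero_iff] at h
  intro x hx
  have h1 : (Submodule.Quotient.mk ⟨x, hx⟩ : ↥Z ⧸ B.submoduleOf Z) = 0 :=
    Subsingleton.elim _ _
  rw [Submodule.Quotient.mk_eq_zero] at h1
  exact h1

variable {K : Type*} [Field K] {V : Type*} [Fintype V] [LinearOrder V]

theorem mem_of_X_smul_mem {U : Set V} {v : V} (hv : v ∉ U) {f : MvPolynomial V K}
    (hf : (X v : MvPolynomial V K) * f ∈ Ideal.span (X '' U : Set (MvPolynomial V K))) :
    f ∈ Ideal.span (X '' U : Set (MvPolynomial V K)) := by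
  rw [mem_ideal_span_X_image] at hf ⊢
  intro m hm
  have h1 : Finsupp.single v 1 + m ∈ ((X v : MvPolynomial V K) * f).support := by
    rw [mem_support_iff, coeff_X_mul]
    exact mem_support_iff.mp hm
  obtain ⟨i, hi, hne⟩ := hf _ h1
  refine ⟨i, hi, ?_⟩
  have hiv : i ≠ v := by
    rintro rfl
    exact hv hi
  rw [Finsupp.add_apply, Finsupp.single_apply, if_neg (Ne.symm hiv), zero_add] at hne
  exact hne

theorem hl_poly (W : Finset V) (i : ℕ) (U : Set V) (hU : ∀ v ∈ W, v ∉ U) :
    hl W (i + 1) (⊤ : Submodule (MvPolynomial V K) (MvPolynomial V K))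
      (Ideal.span (X '' U : Set (MvPolynomial V K))) = 0 := by
  classical
  induction W using Finset.induction_on generalizing i U with
  | empty =>
    apply ql_eq_zero'
    intro f hf
    rw [mem_Zy] at hf
    have hf0 : f = 0 := by
      funext A
      by_contra h
      obtain ⟨h1, h2⟩ := (hf.1 A).2 h
      rw [Finset.subset_empty] at h1
      rw [h1] at h2
      simp at h2
    rw [hf0]
    exact Submodule.zero_mem _
  | insert v W hv ih =>
    have h1 := hl_insert hv i (K := K) (V := V)
      (B := (⊤ : Submodule (MvPolynomial V K) (MvPolynomial V K)))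
      (L := Ideal.span (X '' U : Set (MvPolynomial V K)))
    have hvU : v ∉ U := hU v (Finset.mem_insert_self v W)
    have h2 : ((⊤ : Submodule (MvPolynomial V K) (MvPolynomial V K)) ⊓
        Submodule.comap (mulX (K := K) v) (Ideal.span (X '' U : Set (MvPolynomial V K)))) =
        Ideal.span (X '' U : Set (MvPolynomial V K)) := by
      ext f
      rw [Submodule.mem_inf, Submodule.mem_comap]
      constructor
      · rintro ⟨_, h⟩
        exact mem_of_X_smul_mem hvU h
      · intro h
        exact ⟨trivial, Submodule.smul_mem _ _ h⟩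
    have h3 : hl W i (Ideal.span (X '' U : Set (MvPolynomial V K)) :
          Submodule (MvPolynomial V K) (MvPolynomial V K))
        (Ideal.span (X '' U : Set (MvPolynomial V K))) = 0 := by
      apply ql_eq_zero'
      intro f hf
      rw [mem_Zy] at hf
      rw [mem_Bd]
      exact ⟨0, Submodule.zero_mem _, f, hf.1, by rw [map_zero, zero_add]⟩
    have h4 : (Ideal.span (X '' U : Set (MvPolynomial V K)) ⊔
        (⊤ : Submodule (MvPolynomial V K) (MvPolynomial V K)).map (mulX (K := K) v) :
          Submodule (MvPolynomial V K) (MvPolynomial V K)) =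
        Ideal.span (X '' (insert v U) : Set (MvPolynomial V K)) := by
      rw [Set.image_insert_eq, Set.insert_eq, Ideal.span, Ideal.span, Submodule.span_union,
        sup_comm]
      congr 1
      ext f
      rw [Submodule.mem_map, Submodule.mem_span_singleton]
      constructor
      · rintro ⟨g, _, rfl⟩
        exact ⟨g, by rw [mulX_apply, smul_eq_mul, smul_eq_mul, mul_comm]⟩
      · rintro ⟨g, rfl⟩
        exact ⟨g, trivial, by rw [mulX_apply, smul_eq_mul, smul_eq_mul, mul_comm]⟩
    have h5 := ih i (insert v U) (by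
      intro x hx hx2
      rcases hx2 with rfl | hx2
      · exact hv hx
      · exact hU x (Finset.mem_insert_of_mem hx) hx2)
    rw [h2, h3, h4, h5, add_zero] at h1
    exact le_antisymm h1 zero_le

/-- the Koszul complex of the polynomial ring is exact in positive degrees -/
theorem koszul_exact (i : ℕ) {f : Finset V → MvPolynomial V K}
    (hf : ∀ A, f A ≠ 0 → A.card = i + 1) (hd : koszulD K (MvPolynomial V K) f = 0) :
    ∃ g : Finset V → MvPolynomial V K, (∀ A, g A ≠ 0 → A.card = i + 2) ∧
      koszulD K (MvPolynomial V K) g = f := by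
  have h1 := hl_poly (K := K) (V := V) Finset.univ i ∅ (by simp)
  rw [Set.image_empty, Ideal.span_empty] at h1
  have h2 := le_of_ql_eq_zero h1
  have h3 : f ∈ Zy Finset.univ (i + 1)
      (⊤ : Submodule (MvPolynomial V K) (MvPolynomial V K)) ⊥ := by
    rw [mem_Zy]
    refine ⟨fun A => ⟨trivial, fun h => ⟨Finset.subset_univ _, hf A h⟩⟩, fun A => ?_⟩
    rw [hd]
    exact Submodule.zero_mem _
  have h4 := h2 h3
  rw [mem_Bd] at h4
  obtain ⟨g, hg, l, hl, he⟩ := h4
  have hl0 : l = 0 := by
    funext A
    exact (Submodule.mem_bot _).mp (hl A).1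
  rw [hl0, add_zero] at he
  exact ⟨g, fun A hA => ((hg A).2 hA).2, he.symm⟩

end Pool.Agent.HS
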