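import Pool.Agent.BEI.Ops

/-!
# Relative Koszul homology with respect to a subset of the variables

`E` is a module over `S = K[V]`, `L ≤ B` are submodules of `E`, `W ⊆ V`. `hl W i B L` is the length
over `S` of the `i`-th Koszul homology of `B/L` with respect to the variables in `W`.
-/

namespace Pool.Agent.HS

open MvPolynomial Finset Pool.Agent.BEI

set_option linter.unusedSectionVars false

section len

variable {R : Type*} [Ring R] {X Y Z : Type*} [AddCommGroup X] [AddCommGroup Y] [AddCommGroup Z]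
  [Module R X] [Module R Y] [Module R Z]

theorem length_le_add (f : X →ₗ[R] Y) (g : Y →ₗ[R] Z)
    (h : LinearMap.ker g ≤ LinearMap.range f) :
    Module.length R Y ≤ Module.length R X + Module.length R Z := by
  have h1 : Module.length R Y = Module.length R (LinearMap.ker g) +
      Module.length R (Y ⧸ LinearMap.ker g) :=
    Module.length_eq_add_of_exact (LinearMap.ker g).subtype (LinearMap.ker g).mkQ
      (Submodule.subtype_injective _) (Submodule.mkQ_surjective _)
      (LinearMap.exact_subtype_mkQ _)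
  have h2 : Module.length R (LinearMap.ker g) ≤ Module.length R (LinearMap.range f) :=
    Module.length_le_of_injective (Submodule.inclusion h) (Submodule.inclusion_injective h)
  have h3 : Module.length R (LinearMap.range f) ≤ Module.length R X :=
    Module.length_le_of_surjective f.rangeRestrict f.surjective_rangeRestrict
  have h4 : Module.length R (Y ⧸ LinearMap.ker g) = Module.length R (LinearMap.range g) :=
    g.quotKerEquivRange.length_eq
  have h5 : Module.length R (LinearMap.range g) ≤ Module.length R Z :=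
    Module.length_le_of_injective (LinearMap.range g).subtype (Submodule.subtype_injective _)
  rw [h1, h4]
  exact add_le_add (h2.trans h3) h5

/-- length of `Z / (Z ⊓ B)` -/
noncomputable def ql (Z B : Submodule R X) : ℕ∞ := Module.length R (↥Z ⧸ B.submoduleOf Z)

end len

section len2

variable {R : Type*} [Ring R] {X Y Z : Type*} [AddCommGroup X] [AddCommGroup Y] [AddCommGroup Z]
  [Module R X] [Module R Y] [Module R Z]

theorem ql_le {ZY BY : Submodule R Y} {ZX BX : Submodule R X} {ZZ BZ : Submodule R Z}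
    (φ : X →ₗ[R] Y) (ψ : Y →ₗ[R] Z)
    (h1 : ∀ x ∈ ZX, φ x ∈ ZY) (h2 : ∀ x ∈ ZX, x ∈ BX → φ x ∈ BY)
    (h3 : ∀ y ∈ ZY, ψ y ∈ ZZ) (h4 : ∀ y ∈ ZY, y ∈ BY → ψ y ∈ BZ)
    (h5 : ∀ y ∈ ZY, ψ y ∈ BZ → ∃ x ∈ ZX, y - φ x ∈ BY) :
    ql ZY BY ≤ ql ZX BX + ql ZZ BZ := by
  have e1 : BX.submoduleOf ZX ≤ (BY.submoduleOf ZY).comap (φ.restrict h1) := by
    rintro ⟨x, hx⟩ hxB
    exact h2 x hx hxB
  have e2 : BY.submoduleOf ZY ≤ (BZ.submoduleOf ZZ).comap (ψ.restrict h3) := by
    rintro ⟨x, hx⟩ hxB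
    exact h4 x hx hxB
  refine length_le_add (Submodule.mapQ _ _ (φ.restrict h1) e1)
    (Submodule.mapQ _ _ (ψ.restrict h3) e2) ?_
  intro y hy
  obtain ⟨⟨y, hyZ⟩, rfl⟩ := Submodule.mkQ_surjective _ y
  rw [LinearMap.mem_ker, Submodule.mkQ_apply, Submodule.mapQ_apply,
    Submodule.Quotient.mk_eq_zero] at hy
  obtain ⟨x, hx, hxy⟩ := h5 y hyZ hy
  refine ⟨Submodule.Quotient.mk ⟨x, hx⟩, ?_⟩
  rw [Submodule.mapQ_apply, Submodule.mkQ_apply]
  symm
  rw [Submodule.Quotient.eq]
  exact hxy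

theorem ql_eq {ZX BX : Submodule R X} {ZY BY : Submodule R Y}
    (φ : X →ₗ[R] Y)
    (h1 : ∀ x ∈ ZX, φ x ∈ ZY) (h2 : ∀ x ∈ ZX, (x ∈ BX ↔ φ x ∈ BY))
    (h5 : ∀ y ∈ ZY, ∃ x ∈ ZX, y - φ x ∈ BY) :
    ql ZX BX = ql ZY BY := by
  have e1 : BX.submoduleOf ZX ≤ (BY.submoduleOf ZY).comap (φ.restrict h1) := by
    rintro ⟨x, hx⟩ hxB
    exact (h2 x hx).1 hxB
  refine (LinearEquiv.ofBijective (Submodule.mapQ _ _ (φ.restrict h1) e1) ⟨?_, ?_⟩).length_eq
  · rw [← LinearMap.ker_eq_bot, LinearMap.ker_eq_bot']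
    intro x hx
    obtain ⟨⟨x, hxZ⟩, rfl⟩ := Submodule.mkQ_surjective _ x
    rw [Submodule.mkQ_apply, Submodule.mapQ_apply, Submodule.Quotient.mk_eq_zero] at hx
    rw [Submodule.mkQ_apply, Submodule.Quotient.mk_eq_zero]
    exact (h2 x hxZ).2 hx
  · intro y
    obtain ⟨⟨y, hyZ⟩, rfl⟩ := Submodule.mkQ_surjective _ y
    obtain ⟨x, hx, hxy⟩ := h5 y hyZ
    refine ⟨Submodule.Quotient.mk ⟨x, hx⟩, ?_⟩
    rw [Submodule.mapQ_apply, Submodule.mkQ_apply]
    symm
    rw [Submodule.Quotient.eq]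
    exact hxy

end len2

variable {K : Type*} [Field K] {V : Type*} [Fintype V] [LinearOrder V]
variable {E : Type*} [AddCommGroup E] [Module (MvPolynomial V K) E]

/-- Koszul chains of degree `i` with coefficients in `B`, with respect to the variables in `W` -/
def Ch (W : Finset V) (i : ℕ) (B : Submodule (MvPolynomial V K) E) :
    Submodule (MvPolynomial V K) (Finset V → E) where
  carrier := {f | ∀ A, f A ∈ B ∧ (f A ≠ 0 → A ⊆ W ∧ A.card = i)}
  add_mem' := by
    intro f g hf hg A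
    refine ⟨B.add_mem (hf A).1 (hg A).1, fun h => ?_⟩
    by_cases h1 : f A = 0
    · rw [Pi.add_apply, h1, zero_add] at h
      exact (hg A).2 h
    · exact (hf A).2 h1
  zero_mem' := fun A => ⟨B.zero_mem, fun h => absurd rfl h⟩
  smul_mem' := by
    intro c f hf A
    refine ⟨B.smul_mem c (hf A).1, fun h => (hf A).2 fun h0 => h ?_⟩
    rw [Pi.smul_apply, h0, smul_zero]

theorem mem_Ch {W : Finset V} {i : ℕ} {B : Submodule (MvPolynomial V K) E} {f : Finset V → E} :
    f ∈ Ch W i B ↔ ∀ A, f A ∈ B ∧ (f A ≠ 0 → A ⊆ W ∧ A.card = i) := Iff.rfl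

/-- functions all of whose values lie in `L` -/
def Va (V : Type*) {R : Type*} [Ring R] {E : Type*} [AddCommGroup E] [Module R E]
    (L : Submodule R E) : Submodule R (Finset V → E) :=
  Submodule.pi Set.univ fun _ => L

theorem mem_Va {L : Submodule (MvPolynomial V K) E} {f : Finset V → E} :
    f ∈ Va V L ↔ ∀ A, f A ∈ L := by
  simp [Va]

/-- relative Koszul cycles -/
noncomputable def Zy (W : Finset V) (i : ℕ) (B L : Submodule (MvPolynomial V K) E) :
    Submodule (MvPolynomial V K) (Finset V → E) :=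
  Ch W i B ⊓ (Va V L).comap (koszulD K E)

theorem mem_Zy {W : Finset V} {i : ℕ} {B L : Submodule (MvPolynomial V K) E}
    {f : Finset V → E} : f ∈ Zy W i B L ↔ f ∈ Ch W i B ∧ ∀ A, koszulD K E f A ∈ L := by
  rw [Zy, Submodule.mem_inf, Submodule.mem_comap, mem_Va]

/-- relative Koszul boundaries -/
noncomputable def Bd (W : Finset V) (i : ℕ) (B L : Submodule (MvPolynomial V K) E) :
    Submodule (MvPolynomial V K) (Finset V → E) :=
  (Ch W (i + 1) B).map (koszulD K E) ⊔ Ch W i L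

theorem mem_Bd {W : Finset V} {i : ℕ} {B L : Submodule (MvPolynomial V K) E}
    {f : Finset V → E} : f ∈ Bd W i B L ↔ ∃ g ∈ Ch W (i + 1) B, ∃ l ∈ Ch W i L,
      f = koszulD K E g + l := by
  rw [Bd, Submodule.mem_sup]
  constructor
  · rintro ⟨y, ⟨g, hg, rfl⟩, l, hl, rfl⟩
    exact ⟨g, hg, l, hl, rfl⟩
  · rintro ⟨g, hg, l, hl, rfl⟩
    exact ⟨_, ⟨g, hg, rfl⟩, l, hl, rfl⟩

/-- the length of the `i`-th Koszul homology of `B/L` with respect to the variables in `W` -/
noncomputable def hl (W : Finset V) (i : ℕ) (B L : Submodule (MvPolynomial V K) E) : ℕ∞ :=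
  ql (Zy W i B L) (Bd W i B L)

theorem Ch_mono_W {W W' : Finset V} (h : W ⊆ W') {i : ℕ} {B : Submodule (MvPolynomial V K) E}
    {f : Finset V → E} (hf : f ∈ Ch W i B) : f ∈ Ch W' i B :=
  fun A => ⟨(hf A).1, fun h0 => ⟨((hf A).2 h0).1.trans h, ((hf A).2 h0).2⟩⟩

theorem Ch_mono {W : Finset V} {i : ℕ} {B B' : Submodule (MvPolynomial V K) E} (h : B ≤ B')
    {f : Finset V → E} (hf : f ∈ Ch W i B) : f ∈ Ch W i B' :=
  fun A => ⟨h (hf A).1, (hf A).2⟩

theorem koszulD_mem_Ch {W : Finset V} {i : ℕ} {B : Submodule (MvPolynomial V K) E}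
    {f : Finset V → E} (hf : f ∈ Ch W (i + 1) B) : koszulD K E f ∈ Ch W i B := by
  intro A
  rw [koszulD_apply]
  constructor
  · refine B.sum_mem fun a _ => ?_
    exact zsmul_mem (B.smul_mem _ (hf _).1) _
  · intro h
    obtain ⟨a, ha, hne⟩ := Finset.exists_ne_zero_of_sum_ne_zero h
    simp only [mem_sdiff, mem_univ, true_and] at ha
    have h0 : f (insert a A) ≠ 0 := by
      intro h0
      apply hne
      rw [h0, smul_zero, smul_zero]
    obtain ⟨h1, h2⟩ := (hf _).2 h0
    refine ⟨(Finset.subset_insert a A).trans h1, ?_⟩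
    rw [Finset.card_insert_of_notMem ha] at h2
    omega

theorem koszulD_zero_deg {W : Finset V} {B : Submodule (MvPolynomial V K) E}
    {f : Finset V → E} (hf : f ∈ Ch W 0 B) : koszulD K E f = 0 := by
  funext A
  rw [koszulD_apply]
  apply Finset.sum_eq_zero
  intro a ha
  have h0 : f (insert a A) = 0 := by
    by_contra h0
    have := ((hf _).2 h0).2
    rw [Finset.card_eq_zero] at this
    exact absurd this (Finset.insert_ne_empty a A)
  rw [h0, smul_zero, smul_zero]

theorem wedge_mem_Ch {W : Finset V} {i : ℕ} {B : Submodule (MvPolynomial V K) E} {v : V}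
    {f : Finset V → E} (hf : f ∈ Ch W i B) (_hv : v ∉ W) :
    wedge K E v f ∈ Ch (insert v W) (i + 1) B := by
  intro A
  by_cases h : v ∈ A
  · rw [wedge_apply_mem E v f A h]
    refine ⟨zsmul_mem (hf _).1 _, fun h0 => ?_⟩
    have h1 : f (A.erase v) ≠ 0 := by
      intro h1; apply h0; rw [h1, smul_zero]
    obtain ⟨h2, h3⟩ := (hf _).2 h1
    refine ⟨?_, ?_⟩
    · rw [← Finset.insert_erase h]
      exact Finset.insert_subset_insert v h2
    · rw [← Finset.insert_erase h, Finset.card_insert_of_notMem (by simp), h3]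
  · rw [wedge_apply_notMem E v f A h]
    exact ⟨B.zero_mem, fun h0 => absurd rfl h0⟩

/-- drop all terms involving `e_v` -/
noncomputable def drop (v : V) : (Finset V → E) →ₗ[MvPolynomial V K] (Finset V → E) :=
  LinearMap.pi fun A => if v ∈ A then 0 else LinearMap.proj A

theorem drop_mem (v : V) (f : Finset V → E) {A : Finset V} (h : v ∈ A) :
    drop (K := K) v f A = 0 := by
  simp [drop, h]

theorem drop_notMem (v : V) (f : Finset V → E) {A : Finset V} (h : v ∉ A) :
    drop (K := K) v f A = f A := by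
  simp [drop, h]

/-- the coefficient of `e_v` -/
noncomputable def coe (v : V) : (Finset V → E) →ₗ[MvPolynomial V K] (Finset V → E) :=
  LinearMap.pi fun A => if v ∈ A then 0 else ksign v A • LinearMap.proj (insert v A)

theorem coe_mem (v : V) (f : Finset V → E) {A : Finset V} (h : v ∈ A) :
    coe (K := K) v f A = 0 := by
  simp [coe, h]

theorem coe_notMem (v : V) (f : Finset V → E) {A : Finset V} (h : v ∉ A) :
    coe (K := K) v f A = ksign v A • f (insert v A) := by
  simp [coe, h]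

theorem drop_add_wedge_coe (v : V) (f : Finset V → E) :
    f = drop (K := K) v f + wedge K E v (coe (K := K) v f) := by
  funext A
  rw [Pi.add_apply]
  by_cases h : v ∈ A
  · rw [drop_mem v f h, wedge_apply_mem E v _ A h, coe_notMem v f (by simp), smul_smul,
      ksign_mul_self, one_smul, zero_add, Finset.insert_erase h]
  · rw [drop_notMem v f h, wedge_apply_notMem E v _ A h, add_zero]

theorem drop_mem_Ch {W : Finset V} {i : ℕ} {B : Submodule (MvPolynomial V K) E} {v : V}
    {f : Finset V → E} (hf : f ∈ Ch (insert v W) i B) (hv : v ∉ W) :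
    drop (K := K) v f ∈ Ch W i B := by
  intro A
  by_cases h : v ∈ A
  · rw [drop_mem v f h]
    exact ⟨B.zero_mem, fun h0 => absurd rfl h0⟩
  · rw [drop_notMem v f h]
    refine ⟨(hf A).1, fun h0 => ⟨?_, ((hf A).2 h0).2⟩⟩
    intro a ha
    have := ((hf A).2 h0).1 ha
    rw [Finset.mem_insert] at this
    rcases this with rfl | h1
    · exact absurd ha h
    · exact h1

theorem coe_mem_Ch {W : Finset V} {i : ℕ} {B : Submodule (MvPolynomial V K) E} {v : V}
    {f : Finset V → E} (hf : f ∈ Ch (insert v W) (i + 1) B) (hv : v ∉ W) :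
    coe (K := K) v f ∈ Ch W i B := by
  intro A
  by_cases h : v ∈ A
  · rw [coe_mem v f h]
    exact ⟨B.zero_mem, fun h0 => absurd rfl h0⟩
  · rw [coe_notMem v f h]
    refine ⟨zsmul_mem (hf _).1 _, fun h0 => ?_⟩
    have h1 : f (insert v A) ≠ 0 := by
      intro h1; apply h0; rw [h1, smul_zero]
    obtain ⟨h2, h3⟩ := (hf _).2 h1
    refine ⟨?_, ?_⟩
    · intro a ha
      have := h2 (Finset.mem_insert_of_mem ha)
      rw [Finset.mem_insert] at this
      rcases this with rfl | h1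
      · exact absurd ha h
      · exact h1
    · rw [Finset.card_insert_of_notMem h] at h3
      omega

theorem koszulD_noE {v : V} {f : Finset V → E} (h : ∀ A, v ∈ A → f A = 0) :
    ∀ A, v ∈ A → koszulD K E f A = 0 := fun A hA => by
  rw [koszulD_apply]
  apply Finset.sum_eq_zero
  intro a _
  rw [h _ (Finset.mem_insert_of_mem hA), smul_zero, smul_zero]

theorem Ch_noE {W : Finset V} {i : ℕ} {B : Submodule (MvPolynomial V K) E} {v : V}
    {f : Finset V → E} (hf : f ∈ Ch W i B) (hv : v ∉ W) : ∀ A, v ∈ A → f A = 0 := by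
  intro A hA
  by_contra h
  exact hv (((hf A).2 h).1 hA)

/-- the part of `d f` without `e_v`: `drop (d f) = d (drop f) + X_v coe f` -/
theorem drop_koszulD (v : V) (f : Finset V → E) :
    drop (K := K) v (koszulD K E f) =
      koszulD K E (drop (K := K) v f) + (X v : MvPolynomial V K) • coe (K := K) v f := by
  conv_lhs => rw [drop_add_wedge_coe (K := K) v f]
  rw [map_add, koszulD_wedge, map_add, map_sub]
  have h1 : drop (K := K) v (koszulD K E (drop (K := K) v f)) =
      koszulD K E (drop (K := K) v f) := by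
    funext A
    by_cases h : v ∈ A
    · rw [drop_mem v _ h, koszulD_noE (fun A hA => drop_mem v f hA) A h]
    · rw [drop_notMem v _ h]
  have h2 : drop (K := K) v (wedge K E v (koszulD K E (coe (K := K) v f))) = 0 := by
    funext A
    by_cases h : v ∈ A
    · rw [drop_mem v _ h]; rfl
    · rw [drop_notMem v _ h, wedge_apply_notMem E v _ A h]; rfl
  have h3 : drop (K := K) v ((X v : MvPolynomial V K) • coe (K := K) v f) =
      (X v : MvPolynomial V K) • coe (K := K) v f := by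
    funext A
    by_cases h : v ∈ A
    · rw [drop_mem v _ h, Pi.smul_apply, coe_mem v f h, smul_zero]
    · rw [drop_notMem v _ h]
  rw [h1, h2, h3, sub_zero]

/-- multiplication by `X_v` -/
noncomputable def mulX (v : V) : E →ₗ[MvPolynomial V K] E :=
  LinearMap.lsmul (MvPolynomial V K) E (X v)

theorem mulX_apply (v : V) (e : E) : mulX (K := K) v e = (X v : MvPolynomial V K) • e := rfl

theorem smul_X_mem_Ch {W : Finset V} {i : ℕ} {B L : Submodule (MvPolynomial V K) E} {v : V}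
    {f : Finset V → E} (hf : f ∈ Ch W i B) (h : B.map (mulX v) ≤ L) :
    (X v : MvPolynomial V K) • f ∈ Ch W i L := by
  intro A
  refine ⟨h ⟨f A, (hf A).1, rfl⟩, fun h0 => (hf A).2 fun h1 => h0 ?_⟩
  rw [Pi.smul_apply, h1, smul_zero]

/-- a chain with values in `L ⊔ X_v B` is the sum of a chain in `L` and `X_v` times one in `B` -/
theorem exists_of_mem_Ch_sup {W : Finset V} {i : ℕ} {B L : Submodule (MvPolynomial V K) E}
    {v : V} {f : Finset V → E} (hf : f ∈ Ch W i (L ⊔ B.map (mulX v))) :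
    ∃ l ∈ Ch W i L, ∃ h ∈ Ch W i B, f = l + (X v : MvPolynomial V K) • h := by
  classical
  have : ∀ A, ∃ l ∈ L, ∃ b ∈ B, f A = l + (X v : MvPolynomial V K) • b ∧
      (f A = 0 → l = 0 ∧ b = 0) := by
    intro A
    by_cases h0 : f A = 0
    · exact ⟨0, L.zero_mem, 0, B.zero_mem, by simp [h0], fun _ => ⟨rfl, rfl⟩⟩
    · obtain ⟨l, hl, y, ⟨b, hb, rfl⟩, hy⟩ := Submodule.mem_sup.mp (hf A).1
      exact ⟨l, hl, b, hb, hy.symm, fun h => absurd h h0⟩
  choose l hl b hb h1 h2 using this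
  refine ⟨l, fun A => ⟨hl A, fun h0 => (hf A).2 fun h => h0 (h2 A h).1⟩, b,
    fun A => ⟨hb A, fun h0 => (hf A).2 fun h => h0 (h2 A h).2⟩, ?_⟩
  funext A
  rw [h1 A]; rfl

/-- adding a variable -/
theorem hl_insert {W : Finset V} {v : V} (hv : v ∉ W) (i : ℕ)
    {B L : Submodule (MvPolynomial V K) E} :
    hl (insert v W) (i + 1) B L ≤
      hl W i (B ⊓ L.comap (mulX v)) L + hl W (i + 1) B (L ⊔ B.map (mulX v)) := by
  have hxL : ∀ {f : Finset V → E}, (∀ A, f A ∈ L) →
      ∀ A, ((X v : MvPolynomial V K) • f) A ∈ L := fun hf A => L.smul_mem _ (hf A)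
  refine ql_le (wedge K E v) (drop (K := K) v) ?_ ?_ ?_ ?_ ?_
  · -- wedge maps cycles to cycles
    intro y hy
    rw [mem_Zy] at hy ⊢
    obtain ⟨hy1, hy2⟩ := hy
    refine ⟨Ch_mono inf_le_left (wedge_mem_Ch hy1 hv), fun A => ?_⟩
    rw [koszulD_wedge, Pi.sub_apply, Pi.smul_apply]
    refine L.sub_mem (hy1 A).1.2 ?_
    by_cases h : v ∈ A
    · rw [wedge_apply_mem E v _ A h]
      exact zsmul_mem (hy2 _) _
    · rw [wedge_apply_notMem E v _ A h]
      exact L.zero_mem
  · -- wedge maps boundaries to boundaries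
    intro y _ hy
    rw [mem_Bd] at hy ⊢
    obtain ⟨g, hg, l, hl, rfl⟩ := hy
    refine ⟨- wedge K E v g, Submodule.neg_mem _ (Ch_mono inf_le_left (wedge_mem_Ch hg hv)),
      (X v : MvPolynomial V K) • g + wedge K E v l, Submodule.add_mem _ ?_ (wedge_mem_Ch hl hv), ?_⟩
    · refine Ch_mono_W (Finset.subset_insert v W) (smul_X_mem_Ch hg ?_)
      rintro _ ⟨x, hx, rfl⟩
      exact hx.2
    · rw [map_add, map_neg, koszulD_wedge]
      abel
  · -- drop maps cycles to cycles
    intro y hy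
    rw [mem_Zy] at hy ⊢
    obtain ⟨hy1, hy2⟩ := hy
    refine ⟨drop_mem_Ch hy1 hv, fun A => ?_⟩
    have h1 := drop_koszulD (K := K) v y
    have h2 : koszulD K E (drop (K := K) v y) =
        drop (K := K) v (koszulD K E y) - (X v : MvPolynomial V K) • coe (K := K) v y := by
      rw [h1]; abel
    rw [h2, Pi.sub_apply, Pi.smul_apply]
    refine Submodule.sub_mem _ (Submodule.mem_sup_left ?_) (Submodule.mem_sup_right
      ⟨_, (coe_mem_Ch hy1 hv A).1, rfl⟩)
    by_cases h : v ∈ A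
    · rw [drop_mem v _ h]; exact L.zero_mem
    · rw [drop_notMem v _ h]; exact hy2 A
  · -- drop maps boundaries to boundaries
    intro y _ hy
    rw [mem_Bd] at hy ⊢
    obtain ⟨g, hg, l, hl, rfl⟩ := hy
    refine ⟨drop (K := K) v g, drop_mem_Ch hg hv,
      (X v : MvPolynomial V K) • coe (K := K) v g + drop (K := K) v l, Submodule.add_mem _ ?_ ?_, ?_⟩
    · exact smul_X_mem_Ch (coe_mem_Ch hg hv) le_sup_right
    · exact Ch_mono le_sup_left (drop_mem_Ch hl hv)
    · rw [map_add, drop_koszulD, add_assoc]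
  · -- exactness
    intro z hz hB
    rw [mem_Zy] at hz
    obtain ⟨hz1, hz2⟩ := hz
    rw [mem_Bd] at hB
    obtain ⟨g, hg, l, hl, hgl⟩ := hB
    obtain ⟨l1, hl1, h, hh, rfl⟩ := exists_of_mem_Ch_sup hl
    set y := coe (K := K) v z + koszulD K E h with hy
    have hyCh : y ∈ Ch W i B := Submodule.add_mem _ (coe_mem_Ch hz1 hv) (koszulD_mem_Ch hh)
    -- wedge y = z - boundary
    have hkey : z - wedge K E v y = koszulD K E (g + wedge K E v h) + l1 := by
      conv_lhs => rw [drop_add_wedge_coe (K := K) v z, hgl, hy]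
      rw [map_add, map_add, koszulD_wedge]
      abel
    have hdw : ∀ A, koszulD K E (wedge K E v y) A ∈ L := by
      intro A
      have h1 : wedge K E v y = z - (koszulD K E (g + wedge K E v h) + l1) := by
        rw [← hkey]; abel
      rw [h1, map_sub, map_add, koszulD_koszulD, zero_add, Pi.sub_apply]
      refine L.sub_mem (hz2 A) ?_
      rw [koszulD_apply]
      exact L.sum_mem fun a _ => zsmul_mem (L.smul_mem _ (hl1 _).1) _
    have hno : ∀ A, v ∈ A → y A = 0 := Ch_noE hyCh hv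
    have hxy : ∀ A, (X v : MvPolynomial V K) • y A ∈ L := by
      intro A
      by_cases h0 : v ∈ A
      · rw [hno A h0, smul_zero]; exact L.zero_mem
      · have := hdw A
        rw [koszulD_wedge, Pi.sub_apply, Pi.smul_apply, wedge_apply_notMem E v _ A h0,
          sub_zero] at this
        exact this
    have hdy : ∀ A, koszulD K E y A ∈ L := by
      intro A
      by_cases h0 : v ∈ A
      · rw [koszulD_noE hno A h0]; exact L.zero_mem
      · have := hdw (insert v A)
        rw [koszulD_wedge, Pi.sub_apply, Pi.smul_apply, wedge_apply_mem E v _ _ (by simp),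
          Finset.erase_insert h0, hno _ (by simp), smul_zero, zero_sub] at this
        have h3 := zsmul_mem (neg_mem this) (ksign v A)
        rw [neg_neg, smul_smul, ksign_mul_self, one_smul] at h3
        exact h3
    refine ⟨y, ?_, ?_⟩
    · rw [mem_Zy]
      refine ⟨fun A => ⟨⟨(hyCh A).1, hxy A⟩, (hyCh A).2⟩, hdy⟩
    · rw [mem_Bd]
      exact ⟨g + wedge K E v h, Submodule.add_mem _ (Ch_mono_W (Finset.subset_insert v W) hg)
        (wedge_mem_Ch hh hv), l1, Ch_mono_W (Finset.subset_insert v W) hl1, hkey⟩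

/-- the long exact sequence inequality -/
theorem hl_ses (W : Finset V) (i : ℕ) {B M L : Submodule (MvPolynomial V K) E}
    (hLM : L ≤ M) (hMB : M ≤ B) :
    hl W (i + 1) B M ≤ hl W (i + 1) B L + hl W i M L := by
  refine ql_le LinearMap.id (koszulD K E) ?_ ?_ ?_ ?_ ?_
  · intro x hx
    rw [mem_Zy] at hx ⊢
    exact ⟨hx.1, fun A => hLM (hx.2 A)⟩
  · intro x _ hx
    rw [mem_Bd] at hx ⊢
    obtain ⟨g, hg, l, hl, rfl⟩ := hx
    exact ⟨g, hg, l, Ch_mono hLM hl, rfl⟩
  · intro y hy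
    rw [mem_Zy] at hy ⊢
    refine ⟨fun A => ⟨hy.2 A, (koszulD_mem_Ch hy.1 A).2⟩, fun A => ?_⟩
    rw [koszulD_koszulD]
    exact L.zero_mem
  · intro y _ hy
    rw [mem_Bd] at hy ⊢
    obtain ⟨g, hg, l, hl, rfl⟩ := hy
    exact ⟨l, hl, 0, Submodule.zero_mem _, by rw [map_add, koszulD_koszulD]; abel⟩
  · intro y hy hB
    rw [mem_Bd] at hB
    obtain ⟨m, hm, l, hl, hml⟩ := hB
    rw [mem_Zy] at hy
    refine ⟨y - m, ?_, ?_⟩
    · rw [mem_Zy]
      refine ⟨Submodule.sub_mem _ hy.1 (Ch_mono hMB hm), fun A => ?_⟩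
      rw [map_sub, hml, add_sub_cancel_left]
      exact (hl A).1
    · rw [mem_Bd]
      exact ⟨0, Submodule.zero_mem _, m, hm, by simp⟩

section transfer

variable {E₁ E₂ : Type*} [AddCommGroup E₁] [Module (MvPolynomial V K) E₁]
  [AddCommGroup E₂] [Module (MvPolynomial V K) E₂]

theorem hl_eq_of_map (θ : E₁ →ₗ[MvPolynomial V K] E₂) (W : Finset V) (i : ℕ)
    {B₁ L₁ : Submodule (MvPolynomial V K) E₁} {B₂ L₂ : Submodule (MvPolynomial V K) E₂}
    (hB : B₁.map θ = B₂) (hL : ∀ x ∈ B₁, (x ∈ L₁ ↔ θ x ∈ L₂)) (hL1 : L₁ ≤ B₁) :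
    hl W i B₁ L₁ = hl W i B₂ L₂ := by
  classical
  have hlift : ∀ {j : ℕ} {f : Finset V → E₂}, f ∈ Ch W j B₂ →
      ∃ g ∈ Ch W j B₁, kmap θ g = f := by
    intro j f hf
    have : ∀ A, ∃ x ∈ B₁, θ x = f A ∧ (f A = 0 → x = 0) := by
      intro A
      by_cases h0 : f A = 0
      · exact ⟨0, B₁.zero_mem, by rw [map_zero, h0], fun _ => rfl⟩
      · have h1 := (hf A).1
        rw [← hB] at h1
        obtain ⟨x, hx, hx2⟩ := h1
        exact ⟨x, hx, hx2, fun h => absurd h h0⟩
    choose x hx h1 h2 using this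
    refine ⟨x, fun A => ⟨hx A, fun h0 => (hf A).2 fun h => h0 (h2 A h)⟩, ?_⟩
    funext A
    rw [kmap_apply, h1]
  have hmap : ∀ {j : ℕ} {f : Finset V → E₁}, f ∈ Ch W j B₁ → kmap θ f ∈ Ch W j B₂ := by
    intro j f hf A
    rw [kmap_apply]
    refine ⟨?_, fun h0 => (hf A).2 fun h => h0 ?_⟩
    · rw [← hB]; exact ⟨_, (hf A).1, rfl⟩
    · rw [h, map_zero]
  refine ql_eq (kmap θ) ?_ ?_ ?_
  · intro x hx
    rw [mem_Zy] at hx ⊢
    refine ⟨hmap hx.1, fun A => ?_⟩
    rw [← kmap_koszulD, kmap_apply]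
    exact (hL _ (hL1 (hx.2 A))).1 (hx.2 A)
  · intro x hx
    rw [mem_Zy] at hx
    rw [mem_Bd, mem_Bd]
    constructor
    · rintro ⟨g, hg, l, hl, rfl⟩
      refine ⟨kmap θ g, hmap hg, kmap θ l, fun A => ⟨?_, ?_⟩, ?_⟩
      · rw [kmap_apply]
        exact (hL _ (hL1 (hl A).1)).1 (hl A).1
      · intro h0
        refine (hl A).2 fun h => h0 ?_
        rw [kmap_apply, h, map_zero]
      · rw [map_add, kmap_koszulD]
    · rintro ⟨g, hg, l, hl, hgl⟩
      obtain ⟨g1, hg1, rfl⟩ := hlift hg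
      refine ⟨g1, hg1, x - koszulD K E₁ g1, ?_, by abel⟩
      have h1 : kmap θ (x - koszulD K E₁ g1) = l := by
        rw [map_sub, hgl, kmap_koszulD]; abel
      have h2 : x - koszulD K E₁ g1 ∈ Ch W i B₁ :=
        Submodule.sub_mem _ hx.1 (koszulD_mem_Ch hg1)
      intro A
      refine ⟨(hL _ (h2 A).1).2 ?_, (h2 A).2⟩
      rw [← kmap_apply θ, h1]
      exact (hl A).1
  · intro y hy
    rw [mem_Zy] at hy
    obtain ⟨x, hx, rfl⟩ := hlift hy.1
    refine ⟨x, ?_, by rw [sub_self]; exact Submodule.zero_mem _⟩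
    rw [mem_Zy]
    refine ⟨hx, fun A => ?_⟩
    have h1 := hy.2 A
    rw [← kmap_koszulD, kmap_apply] at h1
    refine (hL _ ?_).2 h1
    rcases i with _ | i
    · rw [koszulD_zero_deg hx]; exact B₁.zero_mem
    · exact (koszulD_mem_Ch hx A).1

end transfer

end Pool.Agent.HS
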