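import Pool.Agent.HS.Koszul

/-!
# Lengths of subquotients over a field
-/

namespace Pool.Agent.HS

set_option linter.unusedSectionVars false

section ring

variable {R : Type*} [Ring R] {X : Type*} [AddCommGroup X] [Module R X]

theorem ql_add {P Q T : Submodule R X} (hPQ : P ≤ Q) (hQT : Q ≤ T) :
    ql T P = ql Q P + ql T Q := by
  have e1 : P.submoduleOf Q ≤ (P.submoduleOf T).comap (Submodule.inclusion hQT) := by
    rintro ⟨x, hx⟩ hxP
    exact hxP
  have e2 : P.submoduleOf T ≤ (Q.submoduleOf T).comap LinearMap.id := by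
    rintro ⟨x, hx⟩ hxP
    exact hPQ hxP
  refine Module.length_eq_add_of_exact (Submodule.mapQ _ _ (Submodule.inclusion hQT) e1)
    (Submodule.mapQ _ _ LinearMap.id e2) ?_ ?_ ?_
  · rw [← LinearMap.ker_eq_bot, LinearMap.ker_eq_bot']
    intro x hx
    obtain ⟨⟨x, hxZ⟩, rfl⟩ := Submodule.mkQ_surjective _ x
    rw [Submodule.mkQ_apply, Submodule.mapQ_apply, Submodule.Quotient.mk_eq_zero] at hx
    rw [Submodule.mkQ_apply, Submodule.Quotient.mk_eq_zero]
    exact hx
  · intro y
    obtain ⟨⟨y, hyZ⟩, rfl⟩ := Submodule.mkQ_surjective _ y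
    exact ⟨Submodule.Quotient.mk ⟨y, hyZ⟩, rfl⟩
  · intro y
    obtain ⟨⟨y, hyZ⟩, rfl⟩ := Submodule.mkQ_surjective _ y
    rw [Submodule.mkQ_apply, Submodule.mapQ_apply, Submodule.Quotient.mk_eq_zero]
    constructor
    · intro h
      exact ⟨Submodule.Quotient.mk ⟨y, h⟩, rfl⟩
    · rintro ⟨x, hx⟩
      obtain ⟨⟨x, hxZ⟩, rfl⟩ := Submodule.mkQ_surjective _ x
      rw [Submodule.mkQ_apply, Submodule.mapQ_apply, Submodule.Quotient.eq] at hx
      have h1 : x - y ∈ P := hx
      have h2 : x - (x - y) ∈ Q := Q.sub_mem hxZ (hPQ h1)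
      have h3 : y ∈ Q := by simpa using h2
      exact h3

theorem ql_mono {Z Z' B B' : Submodule R X} (hZ : Z ≤ Z') (hB : ∀ x ∈ Z, x ∈ B' → x ∈ B)
    (hB2 : ∀ x ∈ Z, x ∈ B → x ∈ B') : ql Z B ≤ ql Z' B' := by
  have e1 : B.submoduleOf Z ≤ (B'.submoduleOf Z').comap (Submodule.inclusion hZ) := by
    rintro ⟨x, hx⟩ hxP
    exact hB2 x hx hxP
  refine Module.length_le_of_injective (Submodule.mapQ _ _ (Submodule.inclusion hZ) e1) ?_
  rw [← LinearMap.ker_eq_bot, LinearMap.ker_eq_bot']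
  intro x hx
  obtain ⟨⟨x, hxZ⟩, rfl⟩ := Submodule.mkQ_surjective _ x
  rw [Submodule.mkQ_apply, Submodule.mapQ_apply, Submodule.Quotient.mk_eq_zero] at hx
  rw [Submodule.mkQ_apply, Submodule.Quotient.mk_eq_zero]
  exact hB x hxZ hx

theorem ql_eq_zero {Z B : Submodule R X} (h : Z ≤ B) : ql Z B = 0 := by
  rw [ql, Module.length_eq_zero_iff]
  have : B.submoduleOf Z = ⊤ := by
    rw [eq_top_iff]
    rintro ⟨x, hx⟩ _
    exact h hx
  rw [this]
  infer_instance

end ring

section field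

variable {K : Type*} [Field K] {X : Type*} [AddCommGroup X] [Module K X]

theorem ql_le_card {Z B : Submodule K X} {ι : Type*} [Fintype ι] (u : ι → X)
    (h : Z ≤ B ⊔ Submodule.span K (Set.range u)) : ql Z B ≤ (Fintype.card ι : ℕ∞) := by
  classical
  have h1 : ql Z B ≤ ql (B ⊔ Submodule.span K (Set.range u)) B :=
    ql_mono h (fun _ _ h => h) (fun _ _ h => h)
  refine h1.trans ?_
  have hu : ∀ i, u i ∈ B ⊔ Submodule.span K (Set.range u) := fun i =>
    Submodule.mem_sup_right (Submodule.subset_span ⟨i, rfl⟩)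
  set T := B ⊔ Submodule.span K (Set.range u) with hT
  let φ : (ι → K) →ₗ[K] (↥T ⧸ B.submoduleOf T) :=
    (B.submoduleOf T).mkQ ∘ₗ Fintype.linearCombination K fun i => (⟨u i, hu i⟩ : T)
  have hφ : Function.Surjective φ := by
    intro y
    obtain ⟨⟨y, hy⟩, rfl⟩ := Submodule.mkQ_surjective _ y
    have hy' := hy
    rw [hT, Submodule.mem_sup] at hy'
    obtain ⟨b, hb, s, hs, rfl⟩ := hy'
    rw [Submodule.mem_span_range_iff_exists_fun] at hs
    obtain ⟨c, rfl⟩ := hs
    refine ⟨c, ?_⟩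
    show (B.submoduleOf T).mkQ _ = _
    rw [Submodule.mkQ_apply, Submodule.mkQ_apply, Submodule.Quotient.eq]
    show ((Fintype.linearCombination K (fun i => (⟨u i, hu i⟩ : T)) c - ⟨_, hy⟩ : T) : X) ∈ B
    rw [Fintype.linearCombination_apply, AddSubgroupClass.coe_sub, AddSubmonoidClass.coe_finsetSum]
    simp only [SetLike.val_smul]
    have : ∑ i, c i • u i - (b + ∑ i, c i • u i) = -b := by abel
    rw [this]
    exact B.neg_mem hb
  refine (Module.length_le_of_surjective φ hφ).trans ?_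
  rw [Module.length_eq_finrank, Module.finrank_fintype_fun_eq_card]

theorem card_le_ql {Z B : Submodule K X} {ι : Type*} [Fintype ι] (u : ι → X)
    (hu : ∀ i, u i ∈ Z) (h : ∀ c : ι → K, ∑ i, c i • u i ∈ B → c = 0) :
    (Fintype.card ι : ℕ∞) ≤ ql Z B := by
  classical
  let φ : (ι → K) →ₗ[K] (↥Z ⧸ B.submoduleOf Z) :=
    (B.submoduleOf Z).mkQ ∘ₗ Fintype.linearCombination K fun i => (⟨u i, hu i⟩ : Z)
  have hφ : Function.Injective φ := by
    rw [← LinearMap.ker_eq_bot, LinearMap.ker_eq_bot']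
    intro c hc
    apply h
    have h1 : (B.submoduleOf Z).mkQ (Fintype.linearCombination K (fun i => (⟨u i, hu i⟩ : Z)) c) = 0 := hc
    rw [Submodule.mkQ_apply, Submodule.Quotient.mk_eq_zero] at h1
    have h2 : ((Fintype.linearCombination K (fun i => (⟨u i, hu i⟩ : Z)) c : Z) : X) ∈ B := h1
    rw [Fintype.linearCombination_apply, AddSubmonoidClass.coe_finsetSum] at h2
    simpa only [SetLike.val_smul] using h2
  refine le_trans ?_ (Module.length_le_of_injective φ hφ)
  rw [Module.length_eq_finrank, Module.finrank_fintype_fun_eq_card]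

end field

section scal

variable {K : Type*} [Field K] {S : Type*} [CommRing S] [Algebra K S] {X : Type*}
  [AddCommGroup X] [Module S X] [Module K X] [IsScalarTower K S X]

theorem ql_le_restrict (Z B : Submodule S X) :
    ql Z B ≤ ql (Z.restrictScalars K) (B.restrictScalars K) := by
  have h1 : Module.length S (⊤ : Submodule S (↥Z ⧸ B.submoduleOf Z)) ≤
      Module.length K ((⊤ : Submodule S (↥Z ⧸ B.submoduleOf Z)).restrictScalars K) :=
    Submodule.length_le_length_restrictScalars K _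
  rw [Module.length_top] at h1
  refine h1.trans ?_
  let e : ↥((⊤ : Submodule S (↥Z ⧸ B.submoduleOf Z)).restrictScalars K) →ₗ[K]
      (↥Z ⧸ B.submoduleOf Z) := Submodule.subtype _
  have h2 := Module.length_le_of_injective e (Submodule.subtype_injective _)
  refine h2.trans ?_
  let ψ : ↥(Z.restrictScalars K) →ₗ[K] (↥Z ⧸ B.submoduleOf Z) :=
    ((B.submoduleOf Z).mkQ).restrictScalars K ∘ₗ
      { toFun := fun x => (⟨x.1, x.2⟩ : Z), map_add' := fun _ _ => rfl, map_smul' := fun _ _ => rfl }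
  have hψ : Function.Surjective ψ := by
    intro y
    obtain ⟨⟨y, hy⟩, rfl⟩ := Submodule.mkQ_surjective _ y
    exact ⟨⟨y, hy⟩, rfl⟩
  have hk : (B.restrictScalars K).submoduleOf (Z.restrictScalars K) ≤ LinearMap.ker ψ := by
    rintro ⟨x, hx⟩ hxB
    rw [LinearMap.mem_ker]
    show (B.submoduleOf Z).mkQ (⟨x, hx⟩ : Z) = 0
    rw [Submodule.mkQ_apply, Submodule.Quotient.mk_eq_zero]
    exact hxB
  refine Module.length_le_of_surjective (Submodule.liftQ _ ψ hk) ?_
  intro y
  obtain ⟨x, rfl⟩ := hψ y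
  exact ⟨Submodule.Quotient.mk x, rfl⟩

end scal

end Pool.Agent.HS
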