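import Pool.Agent.HS.Cyclic

/-!
# The first Koszul homology of a cyclic monomial module and a Macaulay type count
-/

namespace Pool.Agent.HS

open MvPolynomial Finset Pool.Agent.BEI

set_option linter.unusedSectionVars false

variable {K : Type*} [Field K] {V : Type*} [Fintype V] [LinearOrder V]
variable {E : Type*} [AddCommGroup E] [Module K E] [Module (MvPolynomial V K) E]
  [IsScalarTower K (MvPolynomial V K) E]
variable {b : Module.Basis (ℕ × ℕ) K E} {a : V → ℕ}

/-- the point of a monomial -/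
noncomputable def pt (a : V → ℕ) : (V →₀ ℕ) →ₗ[ℕ] ℕ × ℕ := Finsupp.linearCombination ℕ (xs a)

theorem pt_single (v : V) : pt a (Finsupp.single v 1) = xs a v := by
  rw [pt, Finsupp.linearCombination_single, one_smul]

theorem pt_mem {Q : Set (ℕ × ℕ)} (hQ : Cl a Q) (h0 : (0 : ℕ × ℕ) ∈ Q) (u : V →₀ ℕ) :
    pt a u ∈ Q := by
  induction u using Finsupp.induction_linear with
  | zero => rw [map_zero]; exact h0
  | add f g hf hg =>
    rw [map_add]
    have : ∀ z ∈ Q, z + pt a g ∈ Q := by
      clear hf hg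
      induction g using Finsupp.induction_linear with
      | zero => intro z hz; rw [map_zero, add_zero]; exact hz
      | add f g hf hg =>
        intro z hz
        rw [map_add, ← add_assoc]
        exact hg _ (hf z hz)
      | single v n =>
        intro z hz
        induction n with
        | zero => rw [Finsupp.single_zero, map_zero, add_zero]; exact hz
        | succ n ih =>
          rw [Finsupp.single_add, map_add, pt_single, ← add_assoc]
          exact hQ _ ih v
    exact this _ hf
  | single v n =>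
    induction n with
    | zero => rw [Finsupp.single_zero, map_zero]; exact h0
    | succ n ih =>
      rw [Finsupp.single_add, map_add, pt_single]
      exact hQ _ ih v

theorem sub_single_add {u : V →₀ ℕ} {v : V} (hv : v ∈ u.support) :
    u - Finsupp.single v 1 + Finsupp.single v 1 = u := by
  apply tsub_add_cancel_of_le
  rw [Finsupp.single_le_iff]
  exact Nat.one_le_iff_ne_zero.mpr (Finsupp.mem_support_iff.mp hv)

theorem support_sub_single {u : V →₀ ℕ} {W : Finset V} (hu : u.support ⊆ W) (v : V) :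
    (u - Finsupp.single v 1).support ⊆ W :=
  (Finsupp.support_mono tsub_le_self).trans hu

theorem pt_sub_single {u : V →₀ ℕ} {v : V} (hv : v ∈ u.support) :
    pt a (u - Finsupp.single v 1) + xs a v = pt a u := by
  conv_rhs => rw [← sub_single_add hv]
  rw [map_add, pt_single]

/-- `u` is the smallest factorisation (with factors in `W`) of its point -/
def IsCan (a : V → ℕ) (W : Finset V) (u : V →₀ ℕ) : Prop :=
  u.support ⊆ W ∧ ∀ u' : V →₀ ℕ, u'.support ⊆ W → pt a u' = pt a u →
    MonomialOrder.lex.toSyn u ≤ MonomialOrder.lex.toSyn u'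

theorem IsCan.eq {W : Finset V} {u u' : V →₀ ℕ} (h : IsCan a W u) (h' : IsCan a W u')
    (he : pt a u = pt a u') : u = u' :=
  MonomialOrder.lex.toSyn.injective (le_antisymm (h.2 u' h'.1 he.symm) (h'.2 u h.1 he))

theorem exchange (hs : IsShift b a) {W : Finset V} {Q L : Set (ℕ × ℕ)} (hQ : Cl a Q)
    (h0 : (0 : ℕ × ℕ) ∈ Q) (P : Submodule K (Finset V → E))
    (hP : (Bd W 1 (mon b Q : Submodule (MvPolynomial V K) E) (mon b L)).restrictScalars K ≤ P)
    {u : V →₀ ℕ} (hu : u.support ⊆ W) {v v' : V} (hv : v ∈ u.support) (hv' : v' ∈ u.support)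
    (h : ep b {v} (pt a (u - Finsupp.single v 1)) ∈ P) :
    ep b {v'} (pt a (u - Finsupp.single v' 1)) ∈ P := by
  by_cases hvv : v = v'
  · subst hvv; exact h
  · have hv1 : v' ∈ (u - Finsupp.single v 1).support := by
      rw [Finsupp.mem_support_iff, Finsupp.tsub_apply, Finsupp.single_apply, if_neg hvv, tsub_zero]
      exact Finsupp.mem_support_iff.mp hv'
    have hv2 : v ∈ (u - Finsupp.single v' 1).support := by
      rw [Finsupp.mem_support_iff, Finsupp.tsub_apply, Finsupp.single_apply,
        if_neg (Ne.symm hvv), tsub_zero]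
      exact Finsupp.mem_support_iff.mp hv
    set w := u - Finsupp.single v 1 - Finsupp.single v' 1 with hw
    have hw' : w = u - Finsupp.single v' 1 - Finsupp.single v 1 := by
      rw [hw, tsub_right_comm]
    have e1 : pt a w + xs a v' = pt a (u - Finsupp.single v 1) := pt_sub_single hv1
    have e2 : pt a w + xs a v = pt a (u - Finsupp.single v' 1) := by
      rw [hw']; exact pt_sub_single hv2
    have hd : koszulD K E (ep b {v, v'} (pt a w)) ∈ P := by
      apply hP
      show koszulD K E (ep b {v, v'} (pt a w)) ∈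
        Bd W 1 (mon b Q : Submodule (MvPolynomial V K) E) (mon b L)
      rw [mem_Bd]
      refine ⟨_, ep_mem_Ch ?_ (Finset.card_pair hvv) (pt_mem hQ h0 w), 0,
        Submodule.zero_mem _, by rw [add_zero]⟩
      intro x hx
      rw [Finset.mem_insert, Finset.mem_singleton] at hx
      rcases hx with rfl | rfl
      · exact hu hv
      · exact hu hv'
    rw [koszulD_ep hs, Finset.sum_pair hvv, e1, e2] at hd
    have h1 : ({v, v'} : Finset V).erase v = {v'} := by
      rw [Finset.erase_insert]; simpa using hvv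
    have h2 : ({v, v'} : Finset V).erase v' = {v} := by
      rw [Finset.pair_comm, Finset.erase_insert]; simpa using Ne.symm hvv
    rw [h1, h2] at hd
    have h3 : ksign v {v'} • ep b {v'} (pt a (u - Finsupp.single v' 1)) ∈ P := by
      have := P.sub_mem hd (zsmul_mem h (ksign v' {v}))
      rwa [add_sub_cancel_right] at this
    have h4 := zsmul_mem h3 (ksign v {v'})
    rwa [smul_smul, ksign_mul_self, one_smul] at h4

theorem span_claim (hs : IsShift b a) {W : Finset V} {Q L : Set (ℕ × ℕ)} (hQ : Cl a Q)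
    (h0 : (0 : ℕ × ℕ) ∈ Q) (P : Submodule K (Finset V → E))
    (hP : (Bd W 1 (mon b Q : Submodule (MvPolynomial V K) E) (mon b L)).restrictScalars K ≤ P)
    (hU : ∀ u : V →₀ ℕ, u.support ⊆ W → u ≠ 0 →
      (∀ v ∈ u.support, IsCan a W (u - Finsupp.single v 1) ∧
        pt a (u - Finsupp.single v 1) ∉ L) →
      ∃ v ∈ u.support, ep b {v} (pt a (u - Finsupp.single v 1)) ∈ P) :
    ∀ u : V →₀ ℕ, u.support ⊆ W → ∀ v ∈ u.support,
      ep b {v} (pt a (u - Finsupp.single v 1)) ∈ P := by
  have key : ∀ s : (MonomialOrder.lex (σ := V)).syn, ∀ u : V →₀ ℕ,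
      MonomialOrder.lex.toSyn u = s → u.support ⊆ W → ∀ v ∈ u.support,
      ep b {v} (pt a (u - Finsupp.single v 1)) ∈ P := by
    intro s
    induction s using WellFoundedLT.induction with
    | ind s ih =>
      intro u hus hu v hv
      by_cases hc : ∀ v ∈ u.support, IsCan a W (u - Finsupp.single v 1) ∧
        pt a (u - Finsupp.single v 1) ∉ L
      · have hu0 : u ≠ 0 := by
          rintro rfl
          simp at hv
        obtain ⟨w, hw, hwP⟩ := hU u hu hu0 hc
        exact exchange hs hQ h0 P hP hu hw hv hwP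
      · simp only [not_forall] at hc
        obtain ⟨w, hw, hc⟩ := hc
        refine exchange hs hQ h0 P hP hu hw hv ?_
        by_cases hL : pt a (u - Finsupp.single w 1) ∈ L
        · apply hP
          exact Ch_le_Bd (ep_mem_Ch (by simpa using hu hw) (by simp) hL)
        · have h1 : ¬ IsCan a W (u - Finsupp.single w 1) := fun h => hc ⟨h, hL⟩
          rw [IsCan, not_and] at h1
          have h2 := h1 (support_sub_single hu w)
          simp only [not_forall, not_le] at h2
          obtain ⟨u', hu', hpt, hlt⟩ := h2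
          have h3 : MonomialOrder.lex.toSyn (u' + Finsupp.single w 1) < s := by
            rw [← hus]
            conv_rhs => rw [← sub_single_add hw]
            rw [map_add, map_add]
            exact add_lt_add_left hlt _
          have h4 : (u' + Finsupp.single w 1).support ⊆ W := by
            refine Finsupp.support_add.trans (Finset.union_subset hu' ?_)
            exact Finsupp.support_single_subset.trans (by simpa using hu hw)
          have h5 : w ∈ (u' + Finsupp.single w 1).support := by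
            rw [Finsupp.mem_support_iff, Finsupp.add_apply, Finsupp.single_eq_same]
            omega
          have h6 := ih _ h3 _ rfl h4 w h5
          rw [add_tsub_cancel_right, hpt] at h6
          exact h6
  intro u hu v hv
  exact key _ u rfl hu v hv

theorem hl_one (hs : IsShift b a) {W : Finset V} {Q L : Set (ℕ × ℕ)} (hQ : Cl a Q)
    (hL : Cl a L) (hLQ : L ⊆ Q) (h0 : (0 : ℕ × ℕ) ∈ Q)
    (hgen : ∀ z ∈ Q, z ∉ L → ∃ u : V →₀ ℕ, u.support ⊆ W ∧ pt a u = z)
    (D : Finset (ℕ × ℕ)) (hD : ∀ z ∈ D, z ∈ Q ∧ z ∉ L)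
    (U : Finset (V →₀ ℕ))
    (hU : ∀ u : V →₀ ℕ, u.support ⊆ W → u ≠ 0 →
      (∀ v ∈ u.support, IsCan a W (u - Finsupp.single v 1) ∧
        pt a (u - Finsupp.single v 1) ∉ L) → u ∈ U) :
    hl W 1 (mon b Q : Submodule (MvPolynomial V K) E) (mon b L) + (D.card : ℕ∞) ≤
      (U.card : ℕ∞) + 1 := by
  classical
  set ZK := (Zy W 1 (mon b Q : Submodule (MvPolynomial V K) E)
    (mon b L)).restrictScalars K with hZK
  set BK := (Bd W 1 (mon b Q : Submodule (MvPolynomial V K) E)
    (mon b L)).restrictScalars K with hBK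
  set CK := (Ch W 1 (mon b Q : Submodule (MvPolynomial V K) E)).restrictScalars K with hCK
  have hBZ : BK ≤ ZK := Bd_le_Zy (mon_mono hLQ)
  have hZC : ZK ≤ CK := by
    intro f hf
    have hf' : f ∈ Zy W 1 (mon b Q : Submodule (MvPolynomial V K) E) (mon b L) := hf
    rw [mem_Zy] at hf'
    exact hf'.1
  let τ : (V →₀ ℕ) → (Finset V → E) := fun u =>
    if h : u.support.Nonempty then ep b {h.choose} (pt a (u - Finsupp.single h.choose 1)) else 0
  have e1 : ql CK BK ≤ (U.card : ℕ∞) := by
    have h := ql_le_card (K := K) (Z := CK) (B := BK) (fun p : ↥U => τ p.1) ?_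
    · refine h.trans (le_of_eq ?_)
      rw [Fintype.card_coe]
    · refine Ch_le_of hs (W := W) (i := 1) hQ _ ?_
      intro A hA hi z hz
      obtain ⟨v, rfl⟩ := Finset.card_eq_one.mp hi
      by_cases hzL : z ∈ L
      · exact Submodule.mem_sup_left (Ch_le_Bd (ep_mem_Ch hA hi hzL))
      · obtain ⟨u, hu, rfl⟩ := hgen z hz hzL
        have h4 : (u + Finsupp.single v 1).support ⊆ W := by
          refine Finsupp.support_add.trans (Finset.union_subset hu ?_)
          exact Finsupp.support_single_subset.trans hA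
        have h5 : v ∈ (u + Finsupp.single v 1).support := by
          rw [Finsupp.mem_support_iff, Finsupp.add_apply, Finsupp.single_eq_same]
          omega
        have h6 := span_claim hs hQ h0 (BK ⊔ Submodule.span K (Set.range
          fun p : ↥U => τ p.1)) le_sup_left ?_ _ h4 v h5
        · rw [add_tsub_cancel_right] at h6
          exact h6
        · intro u' hu' hu0 hc
          have hne : u'.support.Nonempty := by
            rw [Finset.nonempty_iff_ne_empty]
            intro h
            exact hu0 (Finsupp.support_eq_empty.mp h)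
          refine ⟨hne.choose, hne.choose_spec, ?_⟩
          refine Submodule.mem_sup_right (Submodule.subset_span ⟨⟨u', hU u' hu' hu0 hc⟩, ?_⟩)
          show τ u' = _
          simp only [τ]
          rw [dif_pos hne]
  have hpick : ∀ z : ↥(D.erase 0), ∃ v ∈ W, ∃ z' ∈ Q, z' + xs a v = z.1 := by
    rintro ⟨z, hz⟩
    rw [Finset.mem_erase] at hz
    obtain ⟨u, hu, rfl⟩ := hgen z (hD z hz.2).1 (hD z hz.2).2
    have hu0 : u ≠ 0 := by
      rintro rfl
      exact hz.1 (map_zero _)
    have hne : u.support.Nonempty := by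
      rw [Finset.nonempty_iff_ne_empty]
      intro h
      exact hu0 (Finsupp.support_eq_empty.mp h)
    obtain ⟨v, hv⟩ := hne
    exact ⟨v, hu hv, _, pt_mem hQ h0 (u - Finsupp.single v 1), pt_sub_single hv⟩
  choose vz hvz zz hzz hadd using hpick
  have e2 : (((D.erase 0).card : ℕ) : ℕ∞) ≤ ql CK ZK := by
    have h := card_le_ql (K := K) (Z := CK) (B := ZK)
      (fun z : ↥(D.erase 0) => ep b {vz z} (zz z)) ?_ ?_
    · rw [Fintype.card_coe] at h
      exact h
    · intro z
      exact ep_mem_Ch (by simpa using hvz z) (by simp) (hzz z)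
    · intro c hc
      have hc' : ∑ z : ↥(D.erase 0), c z • ep b {vz z} (zz z) ∈
        Zy W 1 (mon b Q : Submodule (MvPolynomial V K) E) (mon b L) := hc
      rw [mem_Zy] at hc'
      have h1 := hc'.2 ∅
      rw [mem_mon hs hL] at h1
      funext z0
      have hz0 := z0.2
      rw [Finset.mem_erase] at hz0
      have h2 := mt (h1 z0.1) (hD _ hz0.2).2
      rw [not_not, map_sum] at h2
      simp_rw [koszulD_smulK, koszulD_ep hs] at h2
      rw [Finset.sum_apply, map_sum, Finsupp.finsetSum_apply] at h2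
      have h3 : ∀ z : ↥(D.erase 0), b.repr ((c z • ∑ x ∈ {vz z},
          ksign x (({vz z} : Finset V).erase x) • ep b (({vz z} : Finset V).erase x)
          (zz z + xs a x)) ∅) z0.1 = if z = z0 then c z else 0 := by
        intro z
        rw [Finset.sum_singleton, Finset.erase_singleton, hadd, Pi.smul_apply, b.repr.map_smul,
          Pi.smul_apply, map_zsmul, Finsupp.smul_apply, Finsupp.smul_apply, ep_apply_repr]
        by_cases h4 : z = z0
        · subst h4
          simp [ksign]
        · rw [if_neg h4, if_neg]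
          · simp
          · rintro ⟨_, h5⟩
            exact h4 (Subtype.ext h5)
      simp_rw [h3] at h2
      rw [Finset.sum_ite_eq'] at h2
      simpa using h2
  have e5 : ql CK BK = ql ZK BK + ql CK ZK := ql_add hBZ hZC
  have e6 : hl W 1 (mon b Q : Submodule (MvPolynomial V K) E) (mon b L) ≤ ql ZK BK :=
    ql_le_restrict (K := K) _ _
  rw [e5] at e1
  have e7 : (D.card : ℕ∞) ≤ ((D.erase 0).card : ℕ∞) + 1 := by
    have := Finset.pred_card_le_card_erase (s := D) (a := (0 : ℕ × ℕ))
    have h9 : D.card ≤ (D.erase 0).card + 1 := by omega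
    exact_mod_cast h9
  calc hl W 1 (mon b Q : Submodule (MvPolynomial V K) E) (mon b L) + (D.card : ℕ∞)
      ≤ ql ZK BK + (ql CK ZK + 1) := add_le_add e6 (e7.trans (add_le_add_left e2 1))
    _ = ql ZK BK + ql CK ZK + 1 := by rw [add_assoc]
    _ ≤ (U.card : ℕ∞) + 1 := add_le_add_left e1 1

open Classical in
/-- monomials of degree `N` all of whose divisors of degree `N - 1` are canonical and not in `L` -/
noncomputable def UN (a : V → ℕ) (W : Finset V) (L : Set (ℕ × ℕ)) (N : ℕ) : Finset (V →₀ ℕ) :=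
  (W.finsuppAntidiag N).filter fun u => ∀ v ∈ u.support,
    IsCan a W (u - Finsupp.single v 1) ∧ pt a (u - Finsupp.single v 1) ∉ L

open Classical in
/-- canonical monomials of degree `N` outside of `L` -/
noncomputable def CN (a : V → ℕ) (W : Finset V) (L : Set (ℕ × ℕ)) (N : ℕ) : Finset (V →₀ ℕ) :=
  (W.finsuppAntidiag N).filter fun u => IsCan a W u ∧ pt a u ∉ L

theorem mem_UN {W : Finset V} {L : Set (ℕ × ℕ)} {N : ℕ} {u : V →₀ ℕ} :
    u ∈ UN a W L N ↔ (W.sum u = N ∧ u.support ⊆ W) ∧ ∀ v ∈ u.support,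
      IsCan a W (u - Finsupp.single v 1) ∧ pt a (u - Finsupp.single v 1) ∉ L := by
  simp only [UN, Finset.mem_filter, Finset.mem_finsuppAntidiag]

theorem mem_CN {W : Finset V} {L : Set (ℕ × ℕ)} {N : ℕ} {u : V →₀ ℕ} :
    u ∈ CN a W L N ↔ (W.sum u = N ∧ u.support ⊆ W) ∧ IsCan a W u ∧ pt a u ∉ L := by
  simp only [CN, Finset.mem_filter, Finset.mem_finsuppAntidiag]

/-- the Macaulay type count -/
theorem card_UN (W : Finset V) (L : Set (ℕ × ℕ)) (N : ℕ) :
    (N + 1) * (UN a W L (N + 1)).card ≤ (N + W.card) * (CN a W L N).card := by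
  classical
  have h1 : (N + 1) * (UN a W L (N + 1)).card = ∑ u ∈ UN a W L (N + 1), ∑ v ∈ u.support, u v := by
    rw [mul_comm, ← smul_eq_mul, ← Finset.sum_const]
    refine Finset.sum_congr rfl fun u hu => ?_
    rw [mem_UN] at hu
    rw [← hu.1.1]
    symm
    apply Finset.sum_subset hu.1.2
    intro v _ hv
    exact Finsupp.notMem_support_iff.mp hv
  have h2 : (N + W.card) * (CN a W L N).card = ∑ u ∈ CN a W L N, ∑ v ∈ W, (u v + 1) := by
    rw [mul_comm, ← smul_eq_mul, ← Finset.sum_const]
    refine Finset.sum_congr rfl fun u hu => ?_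
    rw [mem_CN] at hu
    rw [Finset.sum_add_distrib, hu.1.1]
    simp
  rw [h1, h2, Finset.sum_sigma', Finset.sum_sigma']
  set φ : (Σ _ : (V →₀ ℕ), V) → (Σ _ : (V →₀ ℕ), V) :=
    fun p => ⟨p.1 - Finsupp.single p.2 1, p.2⟩ with hφ
  set S := (UN a W L (N + 1)).sigma fun u => u.support with hS
  set T := (CN a W L N).sigma fun _ => W with hT
  have hval : ∀ p ∈ S, p.1 p.2 = (φ p).1 (φ p).2 + 1 := by
    rintro ⟨u, v⟩ hp
    rw [hS, Finset.mem_sigma] at hp
    simp only [hφ, Finsupp.tsub_apply, Finsupp.single_eq_same]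
    have := Finsupp.mem_support_iff.mp hp.2
    dsimp only at this
    omega
  have hinj : Set.InjOn φ S := by
    rintro ⟨u, v⟩ hp ⟨u', v'⟩ hp' he
    rw [Finset.mem_coe, hS, Finset.mem_sigma] at hp hp'
    simp only [hφ, Sigma.mk.injEq, heq_eq_eq] at he
    obtain ⟨he1, rfl⟩ := he
    have h3 := sub_single_add hp.2
    have h4 := sub_single_add hp'.2
    dsimp only at h3 h4
    rw [← h3, he1, h4]
  have hsub : S.image φ ⊆ T := by
    intro q hq
    rw [Finset.mem_image] at hq
    obtain ⟨⟨u, v⟩, hp, rfl⟩ := hq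
    rw [hS, Finset.mem_sigma, mem_UN] at hp
    rw [hT, Finset.mem_sigma, mem_CN]
    obtain ⟨⟨⟨hsum, hsup⟩, hall⟩, hv⟩ := hp
    dsimp only at hsum hsup hall hv
    refine ⟨⟨⟨?_, support_sub_single hsup v⟩, hall v hv⟩, hsup hv⟩
    have h3 := sub_single_add hv
    have h4 : ∑ x ∈ W, (u - Finsupp.single v 1 + Finsupp.single v 1 : V →₀ ℕ) x = N + 1 := by
      rw [h3]; exact hsum
    have h6 : ∑ x ∈ W, (Finsupp.single v 1 : V →₀ ℕ) x = 1 := by
      rw [Finset.sum_eq_single v]
      · rw [Finsupp.single_eq_same]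
      · intro w _ hw
        rw [Finsupp.single_apply, if_neg (Ne.symm hw)]
      · intro h5
        exact absurd (hsup hv) h5
    simp only [Finsupp.coe_add, Pi.add_apply, Finset.sum_add_distrib] at h4
    rw [h6] at h4
    exact Nat.add_right_cancel h4
  calc ∑ p ∈ S, p.1 p.2 = ∑ p ∈ S, ((φ p).1 (φ p).2 + 1) := Finset.sum_congr rfl hval
    _ = ∑ q ∈ S.image φ, (q.1 q.2 + 1) :=
        (Finset.sum_image (f := fun q : (Σ _ : (V →₀ ℕ), V) => q.1 q.2 + 1) hinj).symm
    _ ≤ ∑ q ∈ T, (q.1 q.2 + 1) := Finset.sum_le_sum_of_subset hsub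

theorem pt_snd {W : Finset V} {u : V →₀ ℕ} (hu : u.support ⊆ W) : (pt a u).2 = W.sum u := by
  rw [pt, Finsupp.linearCombination_apply, Finsupp.sum, Prod.snd_sum]
  rw [Finset.sum_subset hu]
  · refine Finset.sum_congr rfl fun v _ => ?_
    simp [xs]
  · intro v _ hv
    rw [Finsupp.notMem_support_iff.mp hv]
    simp

theorem hl_one_le (hs : IsShift b a) {W : Finset V} {Q L : Set (ℕ × ℕ)} (hQ : Cl a Q)
    (hL : Cl a L) (hLQ : L ⊆ Q) (h0 : (0 : ℕ × ℕ) ∈ Q)
    (hgen : ∀ z ∈ Q, z ∉ L → ∃ u : V →₀ ℕ, u.support ⊆ W ∧ pt a u = z)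
    (D : Finset (ℕ × ℕ)) (hD : ∀ z, z ∈ D ↔ z ∈ Q ∧ z ∉ L) (Y : ℕ)
    (hY : 1 + ((W.card : ℚ) - 1) * ∑ z ∈ D, 1 / ((z.2 : ℚ) + 1) < Y + 1) :
    hl W 1 (mon b Q : Submodule (MvPolynomial V K) E) (mon b L) ≤ (Y : ℕ∞) := by
  classical
  set T := D.sup (fun z => z.2) + 1 with hT
  set U := (Finset.range T).biUnion fun N => UN a W L (N + 1) with hU
  have hdeg : ∀ z ∈ D, z.2 ∈ Finset.range T := by
    intro z hz
    rw [Finset.mem_range, hT]
    have := Finset.le_sup (f := fun z : ℕ × ℕ => z.2) hz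
    omega
  have h1 := hl_one hs hQ hL hLQ h0 hgen D (fun z hz => (hD z).1 hz) U (by
    intro u hu hu0 hc
    have hne : u.support.Nonempty := by
      rw [Finset.nonempty_iff_ne_empty]
      intro h
      exact hu0 (Finsupp.support_eq_empty.mp h)
    obtain ⟨v, hv⟩ := hne
    have hz : pt a (u - Finsupp.single v 1) ∈ D := (hD _).2 ⟨pt_mem hQ h0 _, (hc v hv).2⟩
    have h2 := hdeg _ hz
    rw [hU, Finset.mem_biUnion]
    refine ⟨_, h2, ?_⟩
    rw [mem_UN]
    refine ⟨⟨?_, hu⟩, hc⟩
    rw [← pt_snd (a := a) hu, ← pt_sub_single hv]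
    rfl)
  have h2 : (U.card : ℚ) ≤ ∑ z ∈ D, (1 + ((W.card : ℚ) - 1) * (1 / ((z.2 : ℚ) + 1))) := by
    have h3 : (U.card : ℚ) ≤ ∑ N ∈ Finset.range T, ((UN a W L (N + 1)).card : ℚ) := by
      exact_mod_cast Finset.card_biUnion_le
    refine h3.trans ?_
    rw [← Finset.sum_fiberwise_of_maps_to hdeg]
    refine Finset.sum_le_sum fun N _ => ?_
    have h4 : ∑ z ∈ D with z.2 = N, (1 + ((W.card : ℚ) - 1) * (1 / ((z.2 : ℚ) + 1))) =
        ((D.filter fun z => z.2 = N).card : ℚ) * (1 + ((W.card : ℚ) - 1) * (1 / ((N : ℚ) + 1))) := by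
      rw [← nsmul_eq_mul, ← Finset.sum_const]
      refine Finset.sum_congr rfl fun z hz => ?_
      rw [Finset.mem_filter] at hz
      rw [hz.2]
    rw [h4]
    have h5 : (CN a W L N).card ≤ (D.filter fun z => z.2 = N).card := by
      apply Finset.card_le_card_of_injOn (fun u => pt a u)
      · intro u hu
        rw [Finset.mem_coe, mem_CN] at hu
        rw [Finset.mem_coe, Finset.mem_filter]
        refine ⟨(hD _).2 ⟨pt_mem hQ h0 _, hu.2.2⟩, ?_⟩
        rw [pt_snd hu.1.2, hu.1.1]
      · intro u hu u' hu' he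
        rw [Finset.mem_coe, mem_CN] at hu hu'
        exact hu.2.1.eq hu'.2.1 he
    have h6 := card_UN (a := a) W L N
    have h7 : (((N + 1) * (UN a W L (N + 1)).card : ℕ) : ℚ) ≤
        ((N + W.card) * (D.filter fun z => z.2 = N).card : ℕ) := by
      exact_mod_cast h6.trans (Nat.mul_le_mul_left _ h5)
    push_cast at h7
    have h8 : (0 : ℚ) < (N : ℚ) + 1 := by positivity
    have h9 : ((UN a W L (N + 1)).card : ℚ) ≤
        ((N : ℚ) + W.card) * ((D.filter fun z => z.2 = N).card : ℚ) / (N + 1) := by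
      rw [le_div_iff₀ h8, mul_comm]
      exact h7
    refine h9.trans (le_of_eq ?_)
    field_simp
    ring
  have h3 : ∑ z ∈ D, (1 + ((W.card : ℚ) - 1) * (1 / ((z.2 : ℚ) + 1))) =
      D.card + ((W.card : ℚ) - 1) * ∑ z ∈ D, 1 / ((z.2 : ℚ) + 1) := by
    rw [Finset.sum_add_distrib, Finset.mul_sum]
    simp
  rw [h3] at h2
  have h4 : U.card + 1 ≤ Y + D.card := by
    have h5 : (U.card : ℚ) + 1 < Y + D.card + 1 := by linarith
    have h6 : U.card + 1 < Y + D.card + 1 := by exact_mod_cast h5
    omega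
  have h5 : hl W 1 (mon b Q : Submodule (MvPolynomial V K) E) (mon b L) + (D.card : ℕ∞) ≤
      (Y : ℕ∞) + (D.card : ℕ∞) := by
    refine h1.trans ?_
    exact_mod_cast h4
  exact (ENat.add_le_add_iff_right (ENat.natCast_ne_top _)).mp h5

end Pool.Agent.HS
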