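import Pool.Agent.HS.Iso

/-!
# A module with a basis indexed by `ℕ × ℕ` on which the variables act by shifts
-/

namespace Pool.Agent.HS

open MvPolynomial

set_option linter.unusedSectionVars false

/-- the ambient module -/
def Mo (K : Type*) [Field K] {V : Type*} (_a : V → ℕ) : Type _ := AddMonoidAlgebra K (ℕ × ℕ)

variable {K : Type*} [Field K] {V : Type*} [Fintype V] [LinearOrder V] (a : V → ℕ)

noncomputable instance : CommRing (Mo K a) :=
  inferInstanceAs (CommRing (AddMonoidAlgebra K (ℕ × ℕ)))

noncomputable instance : Algebra K (Mo K a) :=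
  inferInstanceAs (Algebra K (AddMonoidAlgebra K (ℕ × ℕ)))

/-- the monomials -/
noncomputable def mo1 (z : ℕ × ℕ) : Mo K a := (AddMonoidAlgebra.single z 1 : AddMonoidAlgebra K (ℕ × ℕ))

/-- the algebra map -/
noncomputable def moMap : MvPolynomial V K →ₐ[K] Mo K a :=
  aeval fun v => mo1 a (xs a v)

noncomputable instance : Module (MvPolynomial V K) (Mo K a) :=
  Module.compHom _ (moMap (K := K) a).toRingHom

theorem mo_smul (p : MvPolynomial V K) (x : Mo K a) : p • x = moMap a p * x := rfl

instance : IsScalarTower K (MvPolynomial V K) (Mo K a) where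
  smul_assoc c p x := by
    rw [mo_smul, mo_smul, map_smul, smul_mul_assoc]

/-- the basis -/
noncomputable def moBasis : Module.Basis (ℕ × ℕ) K (Mo K a) := AddMonoidAlgebra.basis (ℕ × ℕ) K

theorem moBasis_apply (z : ℕ × ℕ) : moBasis (K := K) a z = mo1 a z := rfl

theorem mo1_mul (y z : ℕ × ℕ) : (mo1 a y * mo1 a z : Mo K a) = mo1 a (y + z) :=
  (AddMonoidAlgebra.single_mul_single y z (1 : K) 1).trans (by rw [mul_one]; rfl)

theorem moShift : IsShift (moBasis (K := K) a) a := by
  intro v z
  rw [mo_smul, moMap, aeval_X, moBasis_apply, moBasis_apply, mo1_mul, add_comm]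

end Pool.Agent.HS
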