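import Pool.Agent.HS.Len

/-!
# Monomial submodules of a module with a basis indexed by `ℕ × ℕ` on which the variables act by
shifts
-/

namespace Pool.Agent.HS

open MvPolynomial Finset Pool.Agent.BEI

set_option linter.unusedSectionVars false

variable {K : Type*} [Field K] {V : Type*} [Fintype V] [LinearOrder V]
variable {E : Type*} [AddCommGroup E] [Module K E] [Module (MvPolynomial V K) E]
  [IsScalarTower K (MvPolynomial V K) E]

/-- the degree shift of the variable `v` -/
def xs (a : V → ℕ) (v : V) : ℕ × ℕ := (a v, 1)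

/-- `X_v` acts on the basis `b` as the shift by `(a v, 1)` -/
def IsShift (b : Module.Basis (ℕ × ℕ) K E) (a : V → ℕ) : Prop :=
  ∀ v z, (X v : MvPolynomial V K) • b z = b (z + xs a v)

/-- `B` is closed under all shifts -/
def Cl (a : V → ℕ) (B : Set (ℕ × ℕ)) : Prop := ∀ z ∈ B, ∀ v, z + xs a v ∈ B

/-- the monomial submodule on the set `B` -/
noncomputable def mon (b : Module.Basis (ℕ × ℕ) K E) (B : Set (ℕ × ℕ)) :
    Submodule (MvPolynomial V K) E := Submodule.span (MvPolynomial V K) (b '' B)

theorem Cl.union {a : V → ℕ} {B B' : Set (ℕ × ℕ)} (h : Cl a B) (h' : Cl a B') :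
    Cl a (B ∪ B') := by
  rintro z (hz | hz) v
  · exact Or.inl (h z hz v)
  · exact Or.inr (h' z hz v)

theorem Cl.shift {a : V → ℕ} {B : Set (ℕ × ℕ)} (h : Cl a B) (v : V) :
    Cl a ((· + xs a v) '' B) := by
  rintro _ ⟨z, hz, rfl⟩ w
  refine ⟨z + xs a w, h z hz w, ?_⟩
  show z + xs a w + xs a v = z + xs a v + xs a w
  abel

theorem Cl.colon {a : V → ℕ} {B L : Set (ℕ × ℕ)} (h : Cl a B) (h' : Cl a L) (v : V) :
    Cl a {z | z ∈ B ∧ z + xs a v ∈ L} := by
  rintro z ⟨hz, hz2⟩ w
  refine ⟨h z hz w, ?_⟩
  have : z + xs a w + xs a v = z + xs a v + xs a w := by abel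
  rw [this]
  exact h' _ hz2 w

variable {b : Module.Basis (ℕ × ℕ) K E} {a : V → ℕ}

theorem smul_smul_comm' (p : MvPolynomial V K) (c : K) (e : E) : p • c • e = c • p • e := by
  rw [← algebraMap_smul (MvPolynomial V K) c e, ← algebraMap_smul (MvPolynomial V K) c (p • e),
    smul_comm]

theorem repr_X_smul (hs : IsShift b a) (v : V) (e : E) :
    b.repr ((X v : MvPolynomial V K) • e) = Finsupp.mapDomain (· + xs a v) (b.repr e) := by
  have h : ∀ e : E, e ∈ Submodule.span K (Set.range b) →
      b.repr ((X v : MvPolynomial V K) • e) = Finsupp.mapDomain (· + xs a v) (b.repr e) := by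
    intro e he
    induction he using Submodule.span_induction with
    | mem x hx =>
      obtain ⟨z, rfl⟩ := hx
      rw [hs v z, Module.Basis.repr_self, Module.Basis.repr_self, Finsupp.mapDomain_single]
    | zero => rw [smul_zero, map_zero, Finsupp.mapDomain_zero]
    | add x y _ _ hx hy => rw [smul_add, map_add, map_add, hx, hy, Finsupp.mapDomain_add]
    | smul c x _ hx =>
      rw [smul_smul_comm', b.repr.map_smul, b.repr.map_smul, hx, Finsupp.mapDomain_smul]
  exact h e (by rw [b.span_eq]; trivial)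

theorem xs_add_injective (v : V) : Function.Injective (· + xs a v : ℕ × ℕ → ℕ × ℕ) :=
  fun _ _ h => add_right_cancel h

theorem repr_X_smul_add (hs : IsShift b a) (v : V) (e : E) (z : ℕ × ℕ) :
    b.repr ((X v : MvPolynomial V K) • e) (z + xs a v) = b.repr e z := by
  rw [repr_X_smul hs]
  exact Finsupp.mapDomain_apply (xs_add_injective v) _ _

theorem repr_X_smul_of_notMem (hs : IsShift b a) (v : V) (e : E) (z : ℕ × ℕ)
    (h : ∀ z', z' + xs a v ≠ z) :
    b.repr ((X v : MvPolynomial V K) • e) z = 0 := by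
  rw [repr_X_smul hs]
  refine Finsupp.mapDomain_of_notMem_range _ _ ?_
  rintro ⟨z', hz'⟩
  exact h z' hz'

theorem mon_restrict (hs : IsShift b a) {B : Set (ℕ × ℕ)} (hB : Cl a B) :
    (mon b B : Submodule (MvPolynomial V K) E).restrictScalars K =
      Submodule.span K (b '' B) := by
  apply le_antisymm
  · have hX : ∀ v : V, ∀ e ∈ Submodule.span K (b '' B),
        (X v : MvPolynomial V K) • e ∈ Submodule.span K (b '' B) := by
      intro v e he
      induction he using Submodule.span_induction with
      | mem x hx =>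
        obtain ⟨z, hz, rfl⟩ := hx
        rw [hs v z]
        exact Submodule.subset_span ⟨_, hB z hz v, rfl⟩
      | zero => rw [smul_zero]; exact Submodule.zero_mem _
      | add x y _ _ hx hy => rw [smul_add]; exact Submodule.add_mem _ hx hy
      | smul c x _ hx => rw [smul_smul_comm']; exact Submodule.smul_mem _ c hx
    have hS : ∀ p : MvPolynomial V K, ∀ e ∈ Submodule.span K (b '' B),
        p • e ∈ Submodule.span K (b '' B) := by
      intro p
      induction p using MvPolynomial.induction_on with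
      | C c =>
        intro e he
        rw [show (C c : MvPolynomial V K) = algebraMap K _ c from rfl, algebraMap_smul]
        exact Submodule.smul_mem _ c he
      | add p q hp hq =>
        intro e he
        rw [add_smul]
        exact Submodule.add_mem _ (hp e he) (hq e he)
      | mul_X p v hp =>
        intro e he
        rw [mul_smul]
        exact hp _ (hX v e he)
    intro e he
    have he' : e ∈ Submodule.span (MvPolynomial V K) (b '' B) := he
    induction he' using Submodule.span_induction with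
    | mem x hx => exact Submodule.subset_span hx
    | zero => exact Submodule.zero_mem _
    | add x y hx' hy' hx hy =>
      exact Submodule.add_mem _ (hx hx') (hy hy')
    | smul c x hx' hx => exact hS c _ (hx hx')
  · rw [Submodule.span_le]
    intro e he
    exact Submodule.subset_span he

theorem mem_mon (hs : IsShift b a) {B : Set (ℕ × ℕ)} (hB : Cl a B) {e : E} :
    e ∈ (mon b B : Submodule (MvPolynomial V K) E) ↔ ∀ z, b.repr e z ≠ 0 → z ∈ B := by
  have : e ∈ (mon b B : Submodule (MvPolynomial V K) E) ↔ e ∈ Submodule.span K (b '' B) := by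
    rw [← mon_restrict hs hB]; rfl
  rw [this, b.mem_span_image]
  constructor
  · intro h z hz
    exact h (Finset.mem_coe.mpr (Finsupp.mem_support_iff.mpr hz))
  · intro h z hz
    exact h z (Finsupp.mem_support_iff.mp (Finset.mem_coe.mp hz))

theorem basis_mem_mon {B : Set (ℕ × ℕ)} {z : ℕ × ℕ} (hz : z ∈ B) :
    b z ∈ (mon b B : Submodule (MvPolynomial V K) E) := Submodule.subset_span ⟨z, hz, rfl⟩

theorem mon_mono {B B' : Set (ℕ × ℕ)} (h : B ⊆ B') :
    (mon b B : Submodule (MvPolynomial V K) E) ≤ mon b B' :=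
  Submodule.span_mono (Set.image_mono h)

theorem mon_sup (B B' : Set (ℕ × ℕ)) :
    (mon b B ⊔ mon b B' : Submodule (MvPolynomial V K) E) = mon b (B ∪ B') := by
  rw [mon, mon, mon, Set.image_union, Submodule.span_union]

theorem mon_empty : (mon b ∅ : Submodule (MvPolynomial V K) E) = ⊥ := by
  simp [mon]

theorem mon_map (hs : IsShift b a) (v : V) (B : Set (ℕ × ℕ)) :
    (mon b B : Submodule (MvPolynomial V K) E).map (mulX v) =
      mon b ((· + xs a v) '' B) := by
  rw [mon, Submodule.map_span, mon, Set.image_image, Set.image_image]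
  congr 1
  apply Set.image_congr
  intro z _
  rw [mulX_apply, hs]

theorem mon_colon (hs : IsShift b a) (v : V) {B L : Set (ℕ × ℕ)} (hB : Cl a B) (hL : Cl a L) :
    (mon b B ⊓ (mon b L).comap (mulX v) : Submodule (MvPolynomial V K) E) =
      mon b {z | z ∈ B ∧ z + xs a v ∈ L} := by
  ext e
  rw [Submodule.mem_inf, Submodule.mem_comap, mem_mon hs hB, mem_mon hs hL,
    mem_mon hs (hB.colon hL v), mulX_apply]
  constructor
  · rintro ⟨h1, h2⟩ z hz
    refine ⟨h1 z hz, h2 _ ?_⟩
    rwa [repr_X_smul_add hs]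
  · intro h
    refine ⟨fun z hz => (h z hz).1, fun z hz => ?_⟩
    by_cases hz' : ∃ z', z' + xs a v = z
    · obtain ⟨z', rfl⟩ := hz'
      rw [repr_X_smul_add hs] at hz
      exact (h z' hz).2
    · push Not at hz'
      exact absurd (repr_X_smul_of_notMem hs v e z hz') hz

/-- the basic Koszul chains -/
noncomputable def ep (b : Module.Basis (ℕ × ℕ) K E) (A : Finset V) (z : ℕ × ℕ) : Finset V → E :=
  Pi.single A (b z)

theorem koszulD_single (A : Finset V) (e : E) :
    koszulD K E (Pi.single A e) =
      ∑ c ∈ A, ksign c (A.erase c) • (Pi.single (A.erase c) ((X c : MvPolynomial V K) • e) :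
        Finset V → E) := by
  funext B
  rw [koszulD_apply, Finset.sum_apply]
  have h1 : ∀ c, (ksign c (A.erase c) • (Pi.single (A.erase c) ((X c : MvPolynomial V K) • e) :
        Finset V → E)) B = if A.erase c = B then ksign c B • ((X c : MvPolynomial V K) • e)
        else 0 := by
    intro c
    rw [Pi.smul_apply]
    split_ifs with h
    · subst h
      rw [Pi.single_eq_same]
    · rw [Pi.single_eq_of_ne (Ne.symm h), smul_zero]
  have h2 : ∀ c, ksign c B • ((X c : MvPolynomial V K) • (Pi.single A e : Finset V → E) (insert c B)) =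
      if insert c B = A then ksign c B • ((X c : MvPolynomial V K) • e) else 0 := by
    intro c
    split_ifs with h
    · subst h
      rw [Pi.single_eq_same]
    · rw [Pi.single_eq_of_ne h, smul_zero, smul_zero]
  simp_rw [h1, h2]
  rw [← Finset.sum_filter, ← Finset.sum_filter]
  congr 1
  ext c
  simp only [mem_filter, mem_sdiff, mem_univ, true_and]
  constructor
  · rintro ⟨h, rfl⟩
    exact ⟨by simp, Finset.erase_insert h⟩
  · rintro ⟨h, rfl⟩
    exact ⟨by simp, Finset.insert_erase h⟩

theorem koszulD_ep (hs : IsShift b a) (A : Finset V) (z : ℕ × ℕ) :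
    koszulD K E (ep b A z) = ∑ c ∈ A, ksign c (A.erase c) • ep b (A.erase c) (z + xs a c) := by
  rw [ep, koszulD_single]
  refine Finset.sum_congr rfl fun c _ => ?_
  rw [hs c z]
  rfl

theorem ep_mem_Ch {W : Finset V} {i : ℕ} {B : Set (ℕ × ℕ)} {A : Finset V} {z : ℕ × ℕ}
    (hA : A ⊆ W) (hi : A.card = i) (hz : z ∈ B) : ep b A z ∈ Ch (K := K) W i (mon b B) := by
  intro A'
  by_cases h : A' = A
  · subst h
    rw [ep, Pi.single_eq_same]
    exact ⟨basis_mem_mon hz, fun _ => ⟨hA, hi⟩⟩
  · rw [ep, Pi.single_eq_of_ne h]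
    exact ⟨Submodule.zero_mem _, fun h => absurd rfl h⟩

/-- chains with values in a monomial module are spanned by the basic ones -/
theorem Ch_le_of (hs : IsShift b a) {W : Finset V} {i : ℕ} {B : Set (ℕ × ℕ)} (hB : Cl a B)
    (P : Submodule K (Finset V → E))
    (h : ∀ A ⊆ W, A.card = i → ∀ z ∈ B, ep b A z ∈ P) :
    (Ch W i (mon b B : Submodule (MvPolynomial V K) E)).restrictScalars K ≤ P := by
  intro f hf
  have hf' : f ∈ Ch W i (mon b B : Submodule (MvPolynomial V K) E) := hf
  rw [mem_Ch] at hf'
  have h1 : f = ∑ A : Finset V, Pi.single A (f A) := by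
    rw [Finset.univ_sum_single]
  rw [h1]
  refine P.sum_mem fun A _ => ?_
  by_cases h0 : f A = 0
  · rw [h0, Pi.single_zero]; exact P.zero_mem
  · obtain ⟨hA, hi⟩ := (hf' A).2 h0
    have h2 : ∀ e ∈ Submodule.span K (b '' B), (Pi.single A e : Finset V → E) ∈ P := by
      intro e he
      induction he using Submodule.span_induction with
      | mem x hx =>
        obtain ⟨z, hz, rfl⟩ := hx
        exact h A hA hi z hz
      | zero => rw [Pi.single_zero]; exact P.zero_mem
      | add x y _ _ hx hy => rw [Pi.single_add]; exact P.add_mem hx hy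
      | smul c x _ hx => rw [Pi.single_smul]; exact P.smul_mem c hx
    refine h2 _ ?_
    rw [← mon_restrict hs hB]
    exact (hf' A).1

theorem Bd_le_Zy {W : Finset V} {i : ℕ} {B L : Submodule (MvPolynomial V K) E} (h : L ≤ B) :
    Bd W i B L ≤ Zy W i B L := by
  intro f hf
  rw [mem_Bd] at hf
  obtain ⟨g, hg, l, hl, rfl⟩ := hf
  rw [mem_Zy]
  refine ⟨Submodule.add_mem _ (koszulD_mem_Ch hg) (Ch_mono h hl), fun A => ?_⟩
  rw [map_add, koszulD_koszulD, zero_add, koszulD_apply]
  exact L.sum_mem fun a _ => zsmul_mem (L.smul_mem _ (hl _).1) _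

theorem Ch_le_Bd {W : Finset V} {i : ℕ} {B L : Submodule (MvPolynomial V K) E} :
    Ch W i L ≤ Bd W i B L := le_sup_right

/-- the chain bound -/
theorem hl_le_card (hs : IsShift b a) (W : Finset V) (i : ℕ) {B L : Set (ℕ × ℕ)} (hB : Cl a B)
    (D : Finset (ℕ × ℕ)) (hD : ∀ z ∈ B, z ∈ L ∨ z ∈ D) :
    hl W i (mon b B : Submodule (MvPolynomial V K) E) (mon b L) ≤
      ((W.card.choose i * D.card : ℕ) : ℕ∞) := by
  classical
  refine (ql_le_restrict (K := K) _ _).trans ?_
  have h := ql_le_card (K := K)
    (Z := (Zy W i (mon b B : Submodule (MvPolynomial V K) E) (mon b L)).restrictScalars K)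
    (B := (Bd W i (mon b B : Submodule (MvPolynomial V K) E) (mon b L)).restrictScalars K)
    (fun p : ↥(powersetCard i W ×ˢ D) => ep b p.1.1 p.1.2) ?_
  · refine h.trans (le_of_eq ?_)
    rw [Fintype.card_coe, Finset.card_product, Finset.card_powersetCard]
  · refine le_trans ?_ (Ch_le_of hs (W := W) (i := i) hB _ ?_)
    · intro f hf
      have hf' : f ∈ Zy W i (mon b B : Submodule (MvPolynomial V K) E) (mon b L) := hf
      rw [mem_Zy] at hf'
      exact hf'.1
    · intro A hA hi z hz
      rcases hD z hz with hL | hzD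
      · exact Submodule.mem_sup_left (Ch_le_Bd (ep_mem_Ch hA hi hL))
      · refine Submodule.mem_sup_right (Submodule.subset_span ⟨⟨(A, z), ?_⟩, rfl⟩)
        rw [Finset.mem_product, Finset.mem_powersetCard]
        exact ⟨⟨hA, hi⟩, hzD⟩

/-- degree zero -/
theorem hl_zero_le_card (hs : IsShift b a) (W : Finset V) {B L : Set (ℕ × ℕ)} (hB : Cl a B)
    (D : Finset (ℕ × ℕ)) (hD : ∀ z ∈ B, z ∈ L ∨ z ∈ D ∨ ∃ v ∈ W, ∃ z' ∈ B, z' + xs a v = z) :
    hl W 0 (mon b B : Submodule (MvPolynomial V K) E) (mon b L) ≤ (D.card : ℕ∞) := by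
  classical
  refine (ql_le_restrict (K := K) _ _).trans ?_
  have h := ql_le_card (K := K)
    (Z := (Zy W 0 (mon b B : Submodule (MvPolynomial V K) E) (mon b L)).restrictScalars K)
    (B := (Bd W 0 (mon b B : Submodule (MvPolynomial V K) E) (mon b L)).restrictScalars K)
    (fun p : ↥D => ep b ∅ p.1) ?_
  · refine h.trans (le_of_eq ?_)
    rw [Fintype.card_coe]
  · refine le_trans ?_ (Ch_le_of hs (W := W) (i := 0) hB _ ?_)
    · intro f hf
      have hf' : f ∈ Zy W 0 (mon b B : Submodule (MvPolynomial V K) E) (mon b L) := hf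
      rw [mem_Zy] at hf'
      exact hf'.1
    · intro A hA hi z hz
      rw [Finset.card_eq_zero] at hi
      subst hi
      rcases hD z hz with hL | hzD | ⟨v, hv, z', hz', rfl⟩
      · exact Submodule.mem_sup_left (Ch_le_Bd (ep_mem_Ch hA rfl hL))
      · exact Submodule.mem_sup_right (Submodule.subset_span ⟨⟨z, hzD⟩, rfl⟩)
      · refine Submodule.mem_sup_left ?_
        show ep b ∅ (z' + xs a v) ∈ Bd W 0 (mon b B : Submodule (MvPolynomial V K) E) (mon b L)
        rw [mem_Bd]
        refine ⟨ksign v ∅ • ep b {v} z', zsmul_mem (ep_mem_Ch (by simpa using hv) (by simp) hz') _,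
          0, Submodule.zero_mem _, ?_⟩
        rw [map_zsmul, koszulD_ep hs, Finset.sum_singleton, Finset.erase_singleton, smul_smul,
          ksign_mul_self, one_smul, add_zero]

end Pool.Agent.HS
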