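import Pool.Agent.HS.KosExact

/-!
# `Tor` of the residue field of a polynomial ring through the Koszul complex
-/

namespace Pool.Agent.HS

open MvPolynomial Finset Pool.Agent.BEI CategoryTheory

set_option linter.unusedSectionVars false

variable {k : Type} [Field k] {n : ℕ}

/-- index sets -/
abbrev Idx (n i : ℕ) : Type := {A : Finset (Fin n) // A.card = i}

section general

variable (N : Type) [AddCommGroup N] [Module (MvPolynomial (Fin n) k) N]

/-- extension by zero -/
noncomputable def extK (i : ℕ) :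
    (Idx n i → N) →ₗ[MvPolynomial (Fin n) k] (Finset (Fin n) → N) where
  toFun f := fun A => if h : A.card = i then f ⟨A, h⟩ else 0
  map_add' f g := by
    funext A
    rw [Pi.add_apply]
    split_ifs <;> simp
  map_smul' c f := by
    funext A
    rw [Pi.smul_apply]
    split_ifs <;> simp

/-- restriction -/
noncomputable def resK (i : ℕ) :
    (Finset (Fin n) → N) →ₗ[MvPolynomial (Fin n) k] (Idx n i → N) where
  toFun f := fun A => f A.1
  map_add' _ _ := rfl
  map_smul' _ _ := rfl

theorem extK_apply (i : ℕ) (f : Idx n i → N) (A : Finset (Fin n)) (h : A.card = i) :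
    extK (k := k) N i f A = f ⟨A, h⟩ := by
  show (if h : A.card = i then f ⟨A, h⟩ else 0) = _
  rw [dif_pos h]

theorem extK_apply' (i : ℕ) (f : Idx n i → N) (A : Finset (Fin n)) (h : A.card ≠ i) :
    extK (k := k) N i f A = 0 := by
  show (if h : A.card = i then f ⟨A, h⟩ else 0) = _
  rw [dif_neg h]

theorem resK_extK (i : ℕ) (f : Idx n i → N) : resK (k := k) N i (extK (k := k) N i f) = f := by
  funext A
  exact extK_apply (k := k) N i f A.1 A.2

theorem extK_injective (i : ℕ) : Function.Injective (extK (k := k) (n := n) N i) := by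
  intro f g h
  rw [← resK_extK (k := k) N i f, h, resK_extK]

theorem extK_resK (i : ℕ) (f : Finset (Fin n) → N) (hf : ∀ A, f A ≠ 0 → A.card = i) :
    extK (k := k) N i (resK (k := k) N i f) = f := by
  funext A
  by_cases h : A.card = i
  · rw [extK_apply (k := k) N i _ A h]
    rfl
  · rw [extK_apply' (k := k) N i _ A h]
    by_contra hne
    exact h (hf A (Ne.symm hne))

/-- the differential -/
noncomputable def dK (i : ℕ) :
    (Idx n (i + 1) → N) →ₗ[MvPolynomial (Fin n) k] (Idx n i → N) :=
  resK (k := k) N i ∘ₗ koszulD k N ∘ₗ extK (k := k) N (i + 1)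

theorem koszulD_card {i : ℕ} {f : Finset (Fin n) → N} (hf : ∀ A, f A ≠ 0 → A.card = i + 1) :
    ∀ A, koszulD k N f A ≠ 0 → A.card = i := by
  intro A hA
  have h1 : f ∈ Ch (K := k) Finset.univ (i + 1) (⊤ : Submodule (MvPolynomial (Fin n) k) N) :=
    fun A => ⟨trivial, fun h => ⟨Finset.subset_univ _, hf A h⟩⟩
  exact ((koszulD_mem_Ch h1 A).2 hA).2

theorem extK_card {i : ℕ} (f : Idx n i → N) : ∀ A, extK (k := k) N i f A ≠ 0 → A.card = i := by
  intro A hA
  by_contra h
  exact hA (extK_apply' (k := k) N i f A h)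

theorem extK_dK (i : ℕ) (f : Idx n (i + 1) → N) :
    extK (k := k) N i (dK (k := k) N i f) = koszulD k N (extK (k := k) N (i + 1) f) :=
  extK_resK N i _ (koszulD_card N (extK_card N f))

theorem dK_dK (i : ℕ) (f : Idx n (i + 2) → N) :
    dK (k := k) N i (dK (k := k) N (i + 1) f) = 0 := by
  apply extK_injective (k := k) N i
  rw [extK_dK, extK_dK, koszulD_koszulD, map_zero]

end general

section resolution

variable (k n)

/-- the polynomial ring -/
abbrev PS : Type := MvPolynomial (Fin n) k

/-- the irrelevant ideal -/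
noncomputable abbrev mX : Ideal (PS k n) :=
  Ideal.span (Set.range (MvPolynomial.X : Fin n → MvPolynomial (Fin n) k))

/-- the Koszul complex -/
noncomputable def KC : ChainComplex (ModuleCat.{0} (PS k n)) ℕ :=
  ChainComplex.of (fun i => ModuleCat.of (PS k n) (Idx n i → PS k n))
    (fun i => ModuleCat.ofHom (dK (k := k) (PS k n) i)) (by
      intro i
      exact ModuleCat.hom_ext (LinearMap.ext fun f => dK_dK (k := k) (PS k n) i f))

/-- the augmentation -/
noncomputable def augK : (Idx n 0 → PS k n) →ₗ[PS k n] (PS k n ⧸ mX k n) :=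
  (mX k n).mkQ ∘ₗ LinearMap.proj ⟨∅, Finset.card_empty⟩

theorem dK_zero_apply (f : Idx n 1 → PS k n) (A : Idx n 0) :
    dK (k := k) (PS k n) 0 f A = ∑ v : Fin n, X v * f ⟨{v}, Finset.card_singleton v⟩ := by
  obtain ⟨A, hA⟩ := A
  rw [Finset.card_eq_zero] at hA
  subst hA
  show koszulD k (PS k n) (extK (k := k) (PS k n) 1 f) ∅ = _
  rw [koszulD_apply]
  simp only [Finset.sdiff_empty]
  refine Finset.sum_congr rfl fun v _ => ?_
  have h1 : insert v (∅ : Finset (Fin n)) = {v} := rfl
  rw [h1, extK_apply (k := k) (PS k n) 1 f {v} (Finset.card_singleton v)]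
  simp [ksign]

theorem augK_dK (f : Idx n 1 → PS k n) : augK k n (dK (k := k) (PS k n) 0 f) = 0 := by
  show (mX k n).mkQ (dK (k := k) (PS k n) 0 f ⟨∅, Finset.card_empty⟩) = 0
  rw [dK_zero_apply, Submodule.mkQ_apply, Submodule.Quotient.mk_eq_zero]
  refine Submodule.sum_mem _ fun v _ => ?_
  exact Ideal.mul_mem_right _ _ (Ideal.subset_span ⟨v, rfl⟩)

theorem exists_of_augK (f : Idx n 0 → PS k n) (hf : augK k n f = 0) :
    ∃ g : Idx n 1 → PS k n, dK (k := k) (PS k n) 0 g = f := by
  have h1 : (mX k n).mkQ (f ⟨∅, Finset.card_empty⟩) = 0 := hf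
  rw [Submodule.mkQ_apply, Submodule.Quotient.mk_eq_zero] at h1
  have h2 : f ⟨∅, Finset.card_empty⟩ ∈ Submodule.span (PS k n)
    (Set.range (MvPolynomial.X : Fin n → MvPolynomial (Fin n) k)) := h1
  rw [Submodule.mem_span_range_iff_exists_fun] at h2
  obtain ⟨c, hc⟩ := h2
  refine ⟨fun B => ∑ v : Fin n, if B.1 = {v} then c v else 0, ?_⟩
  funext A
  rw [dK_zero_apply]
  obtain ⟨A, hA⟩ := A
  have hA' := hA
  rw [Finset.card_eq_zero] at hA'
  subst hA'
  rw [← hc]
  refine Finset.sum_congr rfl fun v _ => ?_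
  rw [Finset.sum_eq_single v]
  · rw [if_pos rfl, smul_eq_mul, mul_comm]
  · intro w _ hw
    rw [if_neg]
    intro h
    exact hw (Finset.singleton_injective h).symm
  · intro h
    exact absurd (Finset.mem_univ v) h

theorem exists_of_dK (i : ℕ) (f : Idx n (i + 1) → PS k n)
    (hf : dK (k := k) (PS k n) i f = 0) :
    ∃ g : Idx n (i + 2) → PS k n, dK (k := k) (PS k n) (i + 1) g = f := by
  have h1 : koszulD k (PS k n) (extK (k := k) (PS k n) (i + 1) f) = 0 := by
    rw [← extK_dK, hf, map_zero]
  obtain ⟨g, hg, hgf⟩ := koszul_exact i (extK_card (k := k) (PS k n) f) h1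
  refine ⟨resK (k := k) (PS k n) (i + 2) g, ?_⟩
  apply extK_injective (k := k) (PS k n) (i + 1)
  rw [extK_dK, extK_resK (k := k) (PS k n) (i + 2) g hg, hgf]

theorem KC_d (i : ℕ) : (KC k n).d (i + 1) i = ModuleCat.ofHom (dK (k := k) (PS k n) i) := by
  show ChainComplex.of.d (fun i => ModuleCat.of (PS k n) (Idx n i → PS k n))
    (fun i => ModuleCat.ofHom (dK (k := k) (PS k n) i)) (i + 1) i = _
  exact ChainComplex.of_d _ _ _

theorem KC_exactAt (i : ℕ) : (KC k n).ExactAt (i + 1) := by
  rw [HomologicalComplex.exactAt_iff' _ (i + 2) (i + 1) i (by simp) (by simp)]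
  rw [ShortComplex.moduleCat_exact_iff]
  intro x hx
  have h1 : (KC k n).d (i + 1) i x = 0 := hx
  rw [KC_d] at h1
  obtain ⟨g, hg⟩ := exists_of_dK k n i x h1
  refine ⟨g, ?_⟩
  show (KC k n).d (i + 2) (i + 1) g = x
  rw [KC_d]
  exact hg

/-- the augmentation as a morphism -/
noncomputable def KCπ : KC k n ⟶
    (ChainComplex.single₀ (ModuleCat.{0} (PS k n))).obj (ModuleCat.of (PS k n) (PS k n ⧸ mX k n)) :=
  (ChainComplex.toSingle₀Equiv _ _).symm ⟨ModuleCat.ofHom (augK k n), by
    rw [KC_d]
    exact ModuleCat.hom_ext (LinearMap.ext fun f => augK_dK k n f)⟩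

instance KCπ_quasiIso : QuasiIso (KCπ k n) where
  quasiIsoAt i := by
    cases i with
    | zero =>
      rw [ChainComplex.quasiIsoAt₀_iff, ShortComplex.quasiIso_iff_of_zeros' _ rfl rfl rfl]
      constructor
      · rw [ShortComplex.moduleCat_exact_iff]
        intro x hx
        have h1 : augK k n x = 0 := by
          have : (ModuleCat.ofHom (augK k n)) x = 0 := by
            simpa [KCπ, ChainComplex.toSingle₀Equiv] using! hx
          exact this
        obtain ⟨g, hg⟩ := exists_of_augK k n x h1
        refine ⟨g, ?_⟩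
        show (KC k n).d 1 0 g = x
        rw [KC_d]
        exact hg
      · rw [ModuleCat.epi_iff_surjective]
        intro x
        obtain ⟨y, rfl⟩ := Submodule.mkQ_surjective (mX k n) x
        refine ⟨(fun _ => y : Idx n 0 → PS k n), ?_⟩
        simp [KCπ, ChainComplex.toSingle₀Equiv]
        rfl
    | succ i =>
      rw [quasiIsoAt_iff_exactAt' (hL := ChainComplex.exactAt_succ_single_obj ..)]
      exact KC_exactAt k n i

instance KC_projective (i : ℕ) : Projective ((KC k n).X i) := by
  show Projective (ModuleCat.of (PS k n) (Idx n i → PS k n))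
  infer_instance

/-- the Koszul resolution -/
noncomputable def KR : ProjectiveResolution (ModuleCat.of (PS k n) (PS k n ⧸ mX k n)) where
  complex := KC k n
  projective := KC_projective k n
  π := KCπ k n
  quasiIso := KCπ_quasiIso k n

end resolution

end Pool.Agent.HS
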